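import Mathlib

/-!
Mixed-binary conic programs and formulations of Max-k-SAT: definitions.
-/

set_option autoImplicit false

namespace Pool.Agent.TH661.LPX

/-- A formula in conjunctive normal form in `n` variables: a list of clauses. A clause is a list of
literals; the literal `(i, a)` is true at `x` if `x i = a`. -/
abbrev CNF (n : ℕ) := List (List (Fin n × Bool))

/-- Every clause consists of `k` literals in different variables. -/
def Exactly {n : ℕ} (k : ℕ) (F : CNF n) : Prop :=
  ∀ C ∈ F, C.length = k ∧ (C.map Prod.fst).Nodup

/-- The number of clauses of `F` which are true at `x`. -/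
def satCount {n : ℕ} (F : CNF n) (x : Fin n → Bool) : ℕ :=
  F.countP fun C => C.any fun l => x l.1 == l.2

/-- The value at `z` of the affine function with coefficients `a.1` and constant term `a.2`. -/
def aff {d : ℕ} (a : (Fin d → ℝ) × ℝ) (z : Fin d → ℝ) : ℝ := ∑ i, a.1 i * z i + a.2

/-- The constraints of a mixed-binary conic program in `d` real variables: a set of linear
equations, `b` affine functions which must take the value zero or one, and `r` affine maps to
`D`-dimensional space, whose values must be in given closed convex cones. For `D = 1` these are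
mixed-binary linear programs with `r` linear inequalities. -/
structure ConicProgram (b r D : ℕ) where
  d : ℕ
  eqs : Set ((Fin d → ℝ) × ℝ)
  bin : Fin b → (Fin d → ℝ) × ℝ
  map : Fin r → Fin D → (Fin d → ℝ) × ℝ
  cone : Fin r → Set (Fin D → ℝ)
  closed : ∀ j, IsClosed (cone j)
  convex : ∀ j, Convex ℝ (cone j)
  scale : ∀ j, ∀ v ∈ cone j, ∀ t : ℝ, 0 ≤ t → t • v ∈ cone j

/-- The point `z` satisfies all constraints. -/
def ConicProgram.Feasible {b r D : ℕ} (P : ConicProgram b r D) (z : Fin P.d → ℝ) : Prop :=
  (∀ a ∈ P.eqs, aff a z = 0) ∧ (∀ i, aff (P.bin i) z = 0 ∨ aff (P.bin i) z = 1) ∧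
    ∀ j, (fun l => aff (P.map j l) z) ∈ P.cone j

/-- A formulation of Max-k-SAT, for the formulas with `n` variables and at most `N` clauses, by
the program `P`: every assignment `x` has a feasible point `y x`, and every formula `F` has an
affine objective function `w F` with value at `y x` the number of clauses which are true at `x`. -/
structure Formulation (n k N : ℕ) {b r D : ℕ} (P : ConicProgram b r D) where
  y : (Fin n → Bool) → Fin P.d → ℝ
  w : CNF n → (Fin P.d → ℝ) × ℝ
  feasible : ∀ x, P.Feasible (y x)
  value : ∀ F, Exactly k F → F.length ≤ N → ∀ x, aff (w F) (y x) = satCount F x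

end Pool.Agent.TH661.LPX
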