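import Pool.Agent.TH661.LPX.SigM

/-!
Weighted moments of Fourier weights, expanding sets.
-/

set_option autoImplicit false

namespace Pool.Agent.TH661.LPX

open Finset

namespace MoE

/-- the numerical inequality -/
theorem key {k l s q : ℕ} (hk : 3 ≤ k) (hq : 1 ≤ q) {r x lam U c : ℝ} (hr : 0 < r) (hx : 0 < x)
    (hc : c = r ^ 2) (hrx : r * x ≤ lam) (hrl : r ^ 2 ≤ lam) (hU0 : 0 ≤ U)
    (hU : lam ^ ((k - 1) * q - 1) ≤ U ^ (2 * q)) (hs : s ≤ k * l) (hg : (q - 1) * l ≤ q * s) :
    r ^ (k * l) * x ^ s ≤ lam ^ (k * l) + (c * U) ^ l := by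
  subst hc
  have hlam : 0 < lam := lt_of_lt_of_le (by positivity) hrx
  have hA : 0 ≤ lam ^ (k * l) := by positivity
  have hB : 0 ≤ (r ^ 2 * U) ^ l := by positivity
  rcases le_total 1 x with h1 | h1
  · have h2 : r ^ (k * l) * x ^ s ≤ lam ^ (k * l) := by
      calc r ^ (k * l) * x ^ s ≤ r ^ (k * l) * x ^ (k * l) :=
            mul_le_mul_of_nonneg_left (pow_le_pow_right₀ h1 hs) (by positivity)
        _ = (r * x) ^ (k * l) := (mul_pow _ _ _).symm
        _ ≤ lam ^ (k * l) := pow_le_pow_left₀ (by positivity) hrx _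
    linarith
  · have h2 : r ^ (k * l) * x ^ s ≤ (r ^ 2 * U) ^ l := by
      refine le_of_pow_le_pow_left₀ (n := 2 * q) (by omega) hB ?_
      obtain ⟨k', rfl⟩ : ∃ k', k = k' + 3 := ⟨k - 3, by omega⟩
      obtain ⟨p, rfl⟩ : ∃ p, q = p + 1 := ⟨q - 1, by omega⟩
      have e1 : (k' + 3 - 1) * (p + 1) - 1 = (k' * (p + 1) + 1) + 2 * p := by
        have : (k' + 3 - 1) * (p + 1) = (k' * (p + 1) + 1) + 2 * p + 1 := by
          have : k' + 3 - 1 = k' + 2 := by omega
          rw [this]; ring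
        omega
      rw [e1] at hU
      have e2 : p + 1 - 1 = p := by omega
      rw [e2] at hg
      have h3 : r ^ (2 * (p + 1) * (k' + 3)) * x ^ (2 * p) ≤ (r ^ 2 * U) ^ (2 * (p + 1)) := by
        have e3 : r ^ (2 * (p + 1) * (k' + 3)) * x ^ (2 * p) =
            (r ^ 2) ^ (2 * (p + 1)) * ((r ^ 2) ^ (k' * (p + 1) + 1) * (r * x) ^ (2 * p)) := by
          rw [mul_pow r x]
          ring
        rw [e3, mul_pow (r ^ 2) U]
        refine mul_le_mul_of_nonneg_left ?_ (by positivity)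
        refine le_trans ?_ hU
        rw [pow_add lam]
        exact mul_le_mul (pow_le_pow_left₀ (by positivity) hrl _)
          (pow_le_pow_left₀ (by positivity) hrx _) (by positivity) (by positivity)
      have e4 : (r ^ ((k' + 3) * l) * x ^ s) ^ (2 * (p + 1)) =
          (r ^ (2 * (p + 1) * (k' + 3))) ^ l * x ^ (2 * ((p + 1) * s)) := by
        rw [mul_pow, ← pow_mul, ← pow_mul, ← pow_mul]
        congr 2 <;> ring
      have h4 : x ^ (2 * ((p + 1) * s)) ≤ x ^ (2 * (p * l)) :=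
        pow_le_pow_of_le_one hx.le h1 (Nat.mul_le_mul_left 2 hg)
      calc (r ^ ((k' + 3) * l) * x ^ s) ^ (2 * (p + 1))
          = (r ^ (2 * (p + 1) * (k' + 3))) ^ l * x ^ (2 * ((p + 1) * s)) := e4
        _ ≤ (r ^ (2 * (p + 1) * (k' + 3))) ^ l * x ^ (2 * (p * l)) :=
            mul_le_mul_of_nonneg_left h4 (by positivity)
        _ = (r ^ (2 * (p + 1) * (k' + 3)) * x ^ (2 * p)) ^ l := by
            rw [mul_pow, ← pow_mul x]
            congr 2
            ring
        _ ≤ ((r ^ 2 * U) ^ (2 * (p + 1))) ^ l := pow_le_pow_left₀ (by positivity) h3 _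
        _ = ((r ^ 2 * U) ^ l) ^ (2 * (p + 1)) := pow_right_comm _ _ _
    linarith

end MoE

section moe

variable {J : Type*} [DecidableEq J] [Fintype J] {k m : ℕ}

theorem moment_exp (hm : 0 < m) (hk : 3 ≤ k) {L t' q : ℕ} {lam U : ℝ} (hq : 1 ≤ q)
    (hkL : k * L ≤ t') (hlam : (t' : ℝ) ≤ lam * (k * m)) (hU0 : 0 ≤ U)
    (hU : lam ^ ((k - 1) * q - 1) ≤ U ^ (2 * q))
    (T : (Fin k → Finset (Fin m)) → ℝ) (hT : ∀ S, 0 ≤ T S) {E : Finset J} (hE : E.Nonempty)
    (hEL : E.card ≤ L)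
    (hW : ∑ S : Fin k → Finset (Fin m), ((k : ℝ) * E.card / t') ^ nS S * T S
      ≤ 4 ^ (k * E.card)) :
    av (fun H : J → Fin k → Fin m =>
      ind ((q - 1) * E.card ≤ q * nS (SE H E)) * T (SE H E)) ≤
      ((8 * lam) ^ k) ^ E.card + (8 ^ k * (E.card / m) * U) ^ E.card := by
  have hmR : (0 : ℝ) < m := by exact_mod_cast hm
  have hkR : (0 : ℝ) < k := by exact_mod_cast (by omega : 0 < k)
  have hEpos : (0 : ℝ) < E.card := by exact_mod_cast card_pos.mpr hE
  have hLpos : 0 < L := lt_of_lt_of_le (card_pos.mpr hE) hEL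
  have hk0 : 0 < k := by omega
  have ht' : 0 < t' := lt_of_lt_of_le (Nat.mul_pos hk0 hLpos) hkL
  have htR : (0 : ℝ) < t' := by exact_mod_cast ht'
  set ρ : ℝ := k * E.card / t' with hρ
  have hρ0 : 0 < ρ := by positivity
  set r : ℝ := Real.sqrt (E.card / m) with hr
  have hr0 : 0 < r := Real.sqrt_pos.mpr (by positivity)
  have hr2 : r ^ 2 = E.card / m := Real.sq_sqrt (by positivity)
  have hlam0 : 0 < lam := by
    by_contra h
    have h1 : lam * (k * m) ≤ 0 := mul_nonpos_of_nonpos_of_nonneg (not_lt.1 h) (by positivity)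
    linarith
  have hrl : r ^ 2 ≤ lam := by
    rw [hr2, div_le_iff₀ hmR]
    have h1 : ((k * E.card : ℕ) : ℝ) ≤ t' := by
      exact_mod_cast (Nat.mul_le_mul_left k hEL).trans hkL
    push_cast at h1
    have h2 : (k : ℝ) * E.card ≤ k * (lam * m) := by
      calc (k : ℝ) * E.card ≤ t' := h1
        _ ≤ lam * (k * m) := hlam
        _ = k * (lam * m) := by ring
    exact le_of_mul_le_mul_left h2 hkR
  have hrx : r * (r / ρ) ≤ lam := by
    have h1 : r * (r / ρ) = t' / (k * m) := by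
      rw [← mul_div_assoc, ← pow_two, hr2, hρ]
      field_simp
    rw [h1, div_le_iff₀ (by positivity)]
    exact hlam
  have hx0 : 0 < r / ρ := by positivity
  set C0 : ℝ := lam ^ (k * E.card) + (E.card / m * U) ^ E.card with hC0
  have hC00 : 0 ≤ C0 := by positivity
  have h1 := av_SE_le (k := k) hm hr0 E (by rw [hr2]; exact le_of_eq (by field_simp))
    (w := fun S => ind ((q - 1) * E.card ≤ q * nS S) * T S)
    (w' := fun S => C0 * 2 ^ (k * E.card) * (ρ ^ nS S * T S))
    (fun S => mul_nonneg (ind_nonneg _) (hT S))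
    (fun S => mul_nonneg (by positivity) (mul_nonneg (by positivity) (hT S)))
    (fun S hS => by
      by_cases hg : (q - 1) * E.card ≤ q * nS S
      · have h2 := MoE.key hk hq hr0 hx0 hr2.symm hrx hrl hU0 hU hS hg
        have h3 : r ^ (k * E.card + nS S) ≤ C0 * ρ ^ nS S := by
          have h4 : r ^ (k * E.card + nS S) =
              (r ^ (k * E.card) * (r / ρ) ^ nS S) * ρ ^ nS S := by
            rw [pow_add, div_pow, mul_assoc, div_mul_cancel₀ _ (by positivity)]
          rw [h4]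
          exact mul_le_mul_of_nonneg_right h2 (by positivity)
        have h5 := hT S
        rw [ind_true hg, one_mul]
        calc T S * (2 ^ (k * E.card) * r ^ (k * E.card + nS S))
            ≤ T S * (2 ^ (k * E.card) * (C0 * ρ ^ nS S)) :=
              mul_le_mul_of_nonneg_left (mul_le_mul_of_nonneg_left h3 (by positivity)) h5
          _ = C0 * 2 ^ (k * E.card) * (ρ ^ nS S * T S) := by ring
      · rw [ind_false hg, zero_mul, zero_mul]
        exact mul_nonneg (by positivity) (mul_nonneg (by positivity) (hT S)))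
  refine h1.trans ?_
  rw [← mul_sum]
  refine (mul_le_mul_of_nonneg_left hW (by positivity)).trans (le_of_eq ?_)
  have e : (2 : ℝ) ^ (k * E.card) * 4 ^ (k * E.card) = (8 ^ k) ^ E.card := by
    rw [← mul_pow, ← pow_mul]
    norm_num
  rw [mul_assoc, e, hC0, add_mul, mul_pow 8 lam, mul_pow (8 ^ k) (lam ^ k), ← pow_mul lam,
    mul_assoc (8 ^ k), mul_pow (8 ^ k) (E.card / m * U)]
  ring

end moe

end Pool.Agent.TH661.LPX
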