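import Mathlib

/-!
The choice of the parameters, asymptotically and uniformly in the dimension of the cones.
-/

set_option autoImplicit false

namespace Pool.Agent.TH661.LPX

open Finset

theorem params2 {ε η : ℝ} (hε : 0 < ε) (hη0 : 0 < η) (hη1 : η ≤ 1 / 2) :
    ∃ n0 : ℕ, ∀ n k e : ℕ, n0 ≤ n → 12 ≤ e → (e : ℝ) ≤ (1 - ε) * k → 2 ^ k ≤ n → ∃ M t : ℕ,
      η ^ 2 * (n : ℝ) ^ (1 - e / k : ℝ) / (2 * 10 ^ 5) ≤ t ∧ 2 ^ k ≤ M ∧ M ≤ 2 ^ t ∧
      (n : ℝ) ≤ 2 * η ^ 2 * M ∧ (M : ℝ) ≤ n / η ^ 2 ∧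
      64 * M ^ e * (2 * 10 ^ 4 * t) ^ k ≤ n ^ k ∧ 1 ≤ n ∧ e < k ∧ k ≤ t := by
  set c : ℝ := η ^ 2 / (2 * 10 ^ 5) with hc
  have hc0 : 0 < c := by positivity
  obtain ⟨N, hN⟩ := exists_nat_ge (1 / ε)
  have hNpos : 0 < N := by
    have h1 : (0 : ℝ) < 1 / ε := by positivity
    exact_mod_cast h1.trans_le hN
  have hNR : (0 : ℝ) < N := by exact_mod_cast hNpos
  obtain ⟨n1, hn1⟩ := exists_nat_ge ((1 / c) ^ N)
  obtain ⟨n2, hn2⟩ := exists_nat_ge (((2 * N).factorial : ℝ) / (η ^ 2 * (c / 2) ^ (2 * N)))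
  refine ⟨n1 + n2 + 1, fun n k e hn he hek hkn => ?_⟩
  have hn1' : 1 ≤ n := by omega
  have hnR : (1 : ℝ) ≤ n := by exact_mod_cast hn1'
  have hn0 : (0 : ℝ) < n := by linarith
  have hk0 : 0 < k := by
    rcases Nat.eq_zero_or_pos k with h | h
    · rw [h] at hek
      have : (12 : ℝ) ≤ e := by exact_mod_cast he
      norm_num at hek
      linarith
    · exact h
  have hkR : (0 : ℝ) < k := by exact_mod_cast hk0
  have hek' : e < k := by
    have h1 : (e : ℝ) < k := by nlinarith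
    exact_mod_cast h1
  -- the root of `n`
  set R : ℝ := (n : ℝ) ^ (1 / N : ℝ) with hR
  have hR0 : 0 < R := by positivity
  have hRc : 1 / c ≤ R := by
    have h1 : (1 / c) ^ N ≤ n := hn1.trans (by exact_mod_cast (by omega : n1 ≤ n))
    have h2 : 1 / c = ((1 / c) ^ N) ^ (1 / N : ℝ) := by
      have h3 := Real.pow_rpow_inv_natCast (x := 1 / c) (by positivity) hNpos.ne'
      rw [one_div (N : ℝ)]
      exact h3.symm
    rw [h2]
    exact Real.rpow_le_rpow (by positivity) h1 (by positivity)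
  have hRpow : R ^ N = n := by
    have h3 := Real.rpow_inv_natCast_pow hn0.le hNpos.ne'
    rw [hR, one_div]
    exact h3
  set x : ℝ := η ^ 2 * (n : ℝ) ^ (1 - e / k : ℝ) / (2 * 10 ^ 5) with hx
  have hxR : c * R ≤ x := by
    have h1 : R ≤ (n : ℝ) ^ (1 - e / k : ℝ) := by
      refine Real.rpow_le_rpow_of_exponent_le hnR ?_
      have h2 : (1 : ℝ) / N ≤ ε := by
        rw [div_le_iff₀ hNR]
        rw [div_le_iff₀ hε] at hN
        linarith
      have h3 : (e : ℝ) / k ≤ 1 - ε := by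
        rw [div_le_iff₀ hkR]; exact hek
      linarith
    rw [hx, hc]
    calc η ^ 2 / (2 * 10 ^ 5) * R ≤ η ^ 2 / (2 * 10 ^ 5) * (n : ℝ) ^ (1 - e / k : ℝ) :=
          mul_le_mul_of_nonneg_left h1 (by positivity)
      _ = _ := by ring
  have hcR : 1 ≤ c * R := by
    rw [div_le_iff₀ hc0] at hRc
    linarith
  have hx1 : 1 ≤ x := hcR.trans hxR
  -- the choice of `t`, `M`
  set t : ℕ := ⌈x⌉₊ with ht
  have ht1 : x ≤ t := Nat.le_ceil x
  have ht2 : (t : ℝ) ≤ 2 * x := by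
    have := Nat.ceil_lt_add_one (by linarith : 0 ≤ x)
    rw [← ht] at this
    linarith
  set M : ℕ := ⌈(n : ℝ) / (2 * η ^ 2)⌉₊ with hM
  have hM1 : (n : ℝ) / (2 * η ^ 2) ≤ M := Nat.le_ceil _
  have hη2 : η ^ 2 ≤ 1 / 4 := by nlinarith
  have hη2' : 0 < η ^ 2 := by positivity
  have hM2 : (M : ℝ) ≤ n / η ^ 2 := by
    have h1 := Nat.ceil_lt_add_one (a := (n : ℝ) / (2 * η ^ 2)) (by positivity)
    rw [← hM] at h1
    have h2 : (1 : ℝ) ≤ n / (2 * η ^ 2) := by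
      rw [le_div_iff₀ (by positivity)]; linarith
    have h3 : (n : ℝ) / η ^ 2 = n / (2 * η ^ 2) + n / (2 * η ^ 2) := by field_simp; norm_num
    linarith
  have hnM : (n : ℝ) ≤ 2 * η ^ 2 * M := by
    rw [div_le_iff₀ (by positivity)] at hM1
    linarith
  have hkM : 2 ^ k ≤ M := by
    have h1 : (n : ℝ) ≤ M := by nlinarith [(Nat.cast_nonneg M : (0 : ℝ) ≤ M)]
    exact hkn.trans (by exact_mod_cast h1)
  have hMt : M ≤ 2 ^ t := by
    -- `M ≤ n / η ^ 2 ≤ 2 ^ x`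
    have h1 : (n : ℝ) / η ^ 2 ≤ Real.exp (x / 2) := by
      have h2 := Real.pow_div_factorial_le_exp (x / 2) (by linarith) (2 * N)
      refine le_trans ?_ h2
      have h3 : (c / 2 * R) ^ (2 * N) ≤ (x / 2) ^ (2 * N) :=
        pow_le_pow_left₀ (by positivity) (by linarith) _
      have h4 : ((2 * N).factorial : ℝ) / (η ^ 2 * (c / 2) ^ (2 * N)) ≤ n :=
        hn2.trans (by exact_mod_cast (by omega : n2 ≤ n))
      rw [div_le_iff₀ (by positivity)] at h4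
      have hfac : (0 : ℝ) < (2 * N).factorial := by exact_mod_cast Nat.factorial_pos _
      rw [div_le_div_iff₀ hη2' hfac]
      have h5 : (c / 2 * R) ^ (2 * N) = (c / 2) ^ (2 * N) * n * n := by
        rw [mul_pow, mul_comm 2 N, pow_mul R, hRpow]; ring
      calc (n : ℝ) * (2 * N).factorial ≤ n * (n * (η ^ 2 * (c / 2) ^ (2 * N))) :=
            mul_le_mul_of_nonneg_left h4 hn0.le
        _ = (c / 2 * R) ^ (2 * N) * η ^ 2 := by rw [h5]; ring
        _ ≤ (x / 2) ^ (2 * N) * η ^ 2 := mul_le_mul_of_nonneg_right h3 hη2'.le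
    have h2 : Real.exp (x / 2) ≤ 2 ^ t := by
      have h3 : Real.exp (1 / 2) ≤ 2 := by
        have h4 : Real.exp (1 / 2) ^ 2 = Real.exp 1 := by
          rw [← Real.exp_nat_mul]; norm_num
        have h5 := Real.exp_one_lt_d9
        have h6 := Real.exp_pos (1 / 2)
        nlinarith
      calc Real.exp (x / 2) ≤ Real.exp (t * (1 / 2)) := Real.exp_le_exp.mpr (by linarith)
        _ = Real.exp (1 / 2) ^ t := by rw [← Real.exp_nat_mul]
        _ ≤ 2 ^ t := pow_le_pow_left₀ (Real.exp_pos _).le h3 t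
    have h3 : (M : ℝ) ≤ 2 ^ t := hM2.trans (h1.trans h2)
    exact_mod_cast h3
  refine ⟨M, t, ht1, hkM, hMt, hnM, hM2, ?_, hn1', hek', ?_⟩
  · have h1 : (64 : ℝ) * (M : ℝ) ^ e * (2 * 10 ^ 4 * t) ^ k ≤ (n : ℝ) ^ k := by
      have h2 : (M : ℝ) ^ e ≤ (n / η ^ 2) ^ e := pow_le_pow_left₀ (Nat.cast_nonneg _) hM2 e
      have h3 : (2 * 10 ^ 4 * t : ℝ) ≤ η ^ 2 / 5 * (n : ℝ) ^ (1 - e / k : ℝ) := by
        have h4 : (2 * 10 ^ 4 * t : ℝ) ≤ 2 * 10 ^ 4 * (2 * x) := by linarith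
        refine h4.trans (le_of_eq ?_)
        rw [hx]; ring
      have h4 : (2 * 10 ^ 4 * t : ℝ) ^ k ≤ (η ^ 2 / 5 * (n : ℝ) ^ (1 - e / k : ℝ)) ^ k :=
        pow_le_pow_left₀ (by positivity) h3 k
      have h5 : ((n : ℝ) ^ (1 - e / k : ℝ)) ^ k * (n : ℝ) ^ e = (n : ℝ) ^ k := by
        rw [← Real.rpow_natCast _ k, ← Real.rpow_mul hn0.le, ← Real.rpow_natCast _ e,
          ← Real.rpow_add hn0, ← Real.rpow_natCast _ k]
        congr 1
        field_simp
        ring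
      have h6 : (η ^ 2 / 5) ^ k ≤ (η ^ 2) ^ e / 64 := by
        calc (η ^ 2 / 5) ^ k ≤ (η ^ 2 / 5) ^ (e + 1) :=
              pow_le_pow_of_le_one (by positivity) (by linarith) (by omega)
          _ = (η ^ 2) ^ e * (η ^ 2 / 5) * (1 / 5) ^ e := by
              rw [pow_succ, div_pow, div_pow, one_pow]; ring
          _ ≤ (η ^ 2) ^ e * 1 * (1 / 64) := by
              refine mul_le_mul (mul_le_mul_of_nonneg_left (by linarith) (by positivity)) ?_
                (by positivity) (by positivity)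
              calc ((1 : ℝ) / 5) ^ e ≤ (1 / 5) ^ 12 :=
                    pow_le_pow_of_le_one (by norm_num) (by norm_num) he
                _ ≤ 1 / 64 := by norm_num
          _ = (η ^ 2) ^ e / 64 := by ring
      calc (64 : ℝ) * (M : ℝ) ^ e * (2 * 10 ^ 4 * t) ^ k
          ≤ 64 * (n / η ^ 2) ^ e * (η ^ 2 / 5 * (n : ℝ) ^ (1 - e / k : ℝ)) ^ k := by
            refine mul_le_mul ?_ h4 (by positivity) (by positivity)
            linarith
        _ = 64 * ((n : ℝ) ^ e / (η ^ 2) ^ e) * ((η ^ 2 / 5) ^ k *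
            ((n : ℝ) ^ (1 - e / k : ℝ)) ^ k) := by
            rw [div_pow, mul_pow (η ^ 2 / 5)]
        _ = 64 * ((((n : ℝ) ^ (1 - e / k : ℝ)) ^ k * (n : ℝ) ^ e) / (η ^ 2) ^ e) *
            (η ^ 2 / 5) ^ k := by ring
        _ = 64 * ((n : ℝ) ^ k / (η ^ 2) ^ e) * (η ^ 2 / 5) ^ k := by rw [h5]
        _ ≤ 64 * ((n : ℝ) ^ k / (η ^ 2) ^ e) * ((η ^ 2) ^ e / 64) :=
            mul_le_mul_of_nonneg_left h6 (by positivity)
        _ = (n : ℝ) ^ k := by field_simp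
    exact_mod_cast h1
  · have h1 : 2 ^ k ≤ 2 ^ t := hkM.trans hMt
    exact (Nat.pow_le_pow_iff_right (by norm_num)).mp h1

end Pool.Agent.TH661.LPX
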