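import Mathlib

/-!
Averages over finite sets, indicator functions, independence of coordinates.
-/

set_option autoImplicit false

namespace Pool.Agent.TH661.LPX

open Finset

/-- The average of `f`. -/
noncomputable def av {α : Type*} [Fintype α] (f : α → ℝ) : ℝ := (∑ a, f a) / Fintype.card α

open Classical in
/-- The indicator of a proposition. -/
noncomputable def ind (p : Prop) : ℝ := if p then 1 else 0

theorem ind_nonneg (p : Prop) : 0 ≤ ind p := by unfold ind; split_ifs <;> norm_num

theorem ind_le_one (p : Prop) : ind p ≤ 1 := by unfold ind; split_ifs <;> norm_num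

theorem ind_true {p : Prop} (h : p) : ind p = 1 := by simp [ind, h]

theorem ind_false {p : Prop} (h : ¬ p) : ind p = 0 := by simp [ind, h]

theorem ind_mono {p q : Prop} (h : p → q) : ind p ≤ ind q := by
  by_cases hp : p
  · rw [ind_true hp, ind_true (h hp)]
  · rw [ind_false hp]; exact ind_nonneg q

theorem ind_or (p q : Prop) : ind (p ∨ q) ≤ ind p + ind q := by
  by_cases hp : p
  · rw [ind_true (Or.inl hp), ind_true hp]; linarith [ind_nonneg q]
  · by_cases hq : q
    · rw [ind_true (Or.inr hq), ind_true hq]; linarith [ind_nonneg p]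
    · rw [ind_false (by tauto : ¬ (p ∨ q))]; linarith [ind_nonneg p, ind_nonneg q]

section

variable {α β : Type*} [Fintype α] [Fintype β]

theorem av_add (f g : α → ℝ) : av (fun a => f a + g a) = av f + av g := by
  unfold av; rw [sum_add_distrib, add_div]

theorem av_sub (f g : α → ℝ) : av (fun a => f a - g a) = av f - av g := by
  unfold av; rw [sum_sub_distrib, sub_div]

theorem av_neg (f : α → ℝ) : av (fun a => - f a) = - av f := by
  unfold av; rw [sum_neg_distrib, neg_div]

theorem av_mul_left (c : ℝ) (f : α → ℝ) : av (fun a => c * f a) = c * av f := by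
  unfold av; rw [← mul_sum, mul_div_assoc]

theorem av_mul_right (f : α → ℝ) (c : ℝ) : av (fun a => f a * c) = av f * c := by
  unfold av; rw [← sum_mul]; ring

theorem av_sum {ι : Type*} (s : Finset ι) (f : ι → α → ℝ) :
    av (fun a => ∑ i ∈ s, f i a) = ∑ i ∈ s, av (f i) := by
  unfold av; rw [sum_comm, sum_div]

theorem av_mono {f g : α → ℝ} (h : ∀ a, f a ≤ g a) : av f ≤ av g := by
  unfold av
  exact div_le_div_of_nonneg_right (sum_le_sum fun a _ => h a) (Nat.cast_nonneg _)

theorem av_nonneg {f : α → ℝ} (h : ∀ a, 0 ≤ f a) : 0 ≤ av f :=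
  div_nonneg (sum_nonneg fun a _ => h a) (Nat.cast_nonneg _)

theorem av_const [Nonempty α] (c : ℝ) : av (fun _ : α => c) = c := by
  unfold av
  rw [sum_const, card_univ, nsmul_eq_mul]
  have : (Fintype.card α : ℝ) ≠ 0 := by exact_mod_cast Fintype.card_ne_zero
  field_simp

theorem av_le_const [Nonempty α] {f : α → ℝ} {c : ℝ} (h : ∀ a, f a ≤ c) : av f ≤ c := by
  rw [← av_const (α := α) c]; exact av_mono h

theorem const_le_av [Nonempty α] {f : α → ℝ} {c : ℝ} (h : ∀ a, c ≤ f a) : c ≤ av f := by
  rw [← av_const (α := α) c]; exact av_mono h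

theorem abs_av_le (f : α → ℝ) : |av f| ≤ av (fun a => |f a|) := by
  unfold av
  rw [abs_div, abs_of_nonneg (Nat.cast_nonneg (Fintype.card α) : (0 : ℝ) ≤ _)]
  exact div_le_div_of_nonneg_right (abs_sum_le_sum_abs _ _) (Nat.cast_nonneg _)

theorem av_comm (f : α → β → ℝ) : av (fun a => av (f a)) = av (fun b => av (fun a => f a b)) := by
  unfold av
  simp_rw [sum_div]
  rw [sum_comm]
  refine sum_congr rfl fun b _ => sum_congr rfl fun a _ => ?_
  rw [div_div, div_div, mul_comm]

theorem av_prod (f : α × β → ℝ) : av f = av (fun a => av (fun b => f (a, b))) := by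
  unfold av
  rw [Fintype.sum_prod_type, Fintype.card_prod, Nat.cast_mul]
  simp_rw [← sum_div]
  rw [div_div, mul_comm]

theorem av_equiv (e : α ≃ β) (f : β → ℝ) : av (fun a => f (e a)) = av f := by
  unfold av
  rw [Equiv.sum_comp e f, Fintype.card_congr e]

theorem av_congr {f g : α → ℝ} (h : ∀ a, f a = g a) : av f = av g := by
  have : f = g := funext h
  rw [this]

/-- Jensen's inequality for powers. -/
theorem av_weight_pow_le {w f : α → ℝ} (hw : ∀ a, 0 ≤ w a) (hw1 : av w = 1) (hf : ∀ a, 0 ≤ f a)
    (n : ℕ) : (av fun a => w a * f a) ^ n ≤ av fun a => w a * f a ^ n := by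
  have hc : (0 : ℝ) ≤ Fintype.card α := Nat.cast_nonneg _
  have h := Real.pow_arith_mean_le_arith_mean_pow (univ : Finset α)
    (fun a => w a / Fintype.card α) f (fun a _ => div_nonneg (hw a) hc)
    (by rw [← sum_div]; exact hw1) (fun a _ => hf a) n
  unfold av
  rw [sum_div, sum_div]
  refine le_trans (le_of_eq ?_) (h.trans (le_of_eq ?_))
  · congr 1
    exact sum_congr rfl fun a _ => by ring
  · exact sum_congr rfl fun a _ => by ring

theorem av_pow_le [Nonempty α] {f : α → ℝ} (hf : ∀ a, 0 ≤ f a) (n : ℕ) :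
    (av f) ^ n ≤ av fun a => f a ^ n := by
  have h := av_weight_pow_le (w := fun _ : α => (1 : ℝ)) (fun _ => zero_le_one) (av_const 1) hf n
  simpa using h

/-- Markov's inequality. -/
theorem av_ind_lt_le {f : α → ℝ} (hf : ∀ a, 0 ≤ f a) {c : ℝ} (hc : 0 < c) :
    av (fun a => ind (c < f a)) ≤ av f / c := by
  rw [le_div_iff₀ hc, ← av_mul_right]
  refine av_mono fun a => ?_
  by_cases h : c < f a
  · rw [ind_true h, one_mul]; exact h.le
  · rw [ind_false h, zero_mul]; exact hf a

end

section pi

variable {J A : Type*} [Fintype J] [DecidableEq J] [Fintype A]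

/-- Independence of the coordinates. -/
theorem av_pi (F : J → A → ℝ) :
    av (fun ω : J → A => ∏ i, F i (ω i)) = ∏ i, av (F i) := by
  unfold av
  rw [Finset.prod_div_distrib, prod_const, card_univ, Fintype.card_fun, Nat.cast_pow]
  congr 1
  rw [Finset.prod_univ_sum]
  simp

/-- Take `ω'` on `E` and `ω` elsewhere. -/
def mix (E : Finset J) (ω' ω : J → A) : J → A := fun i => if i ∈ E then ω' i else ω i

omit [Fintype J] [Fintype A] in
theorem mix_mem {E : Finset J} {ω' ω : J → A} {i : J} (h : i ∈ E) : mix E ω' ω i = ω' i := by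
  simp [mix, h]

omit [Fintype J] [Fintype A] in
theorem mix_not_mem {E : Finset J} {ω' ω : J → A} {i : J} (h : i ∉ E) :
    mix E ω' ω i = ω i := by simp [mix, h]

/-- The exchange of the coordinates in `E`. -/
def mixEquiv (E : Finset J) : (J → A) × (J → A) ≃ (J → A) × (J → A) where
  toFun p := (mix E p.1 p.2, mix E p.2 p.1)
  invFun p := (mix E p.1 p.2, mix E p.2 p.1)
  left_inv p := by
    ext i
    · by_cases h : i ∈ E <;> simp [mix, h]
    · by_cases h : i ∈ E <;> simp [mix, h]
  right_inv p := by
    ext i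
    · by_cases h : i ∈ E <;> simp [mix, h]
    · by_cases h : i ∈ E <;> simp [mix, h]

theorem av_mix [Nonempty A] (E : Finset J) (Φ : (J → A) → ℝ) :
    av Φ = av (fun ω' => av (fun ω => Φ (mix E ω' ω))) := by
  have h1 : av Φ = av (fun p : (J → A) × (J → A) => Φ p.1) := by
    rw [av_prod]
    exact av_congr fun a => (av_const _).symm
  have h2 := av_equiv (mixEquiv (A := A) E) (fun p => Φ p.1)
  rw [h1, ← h2, av_prod]
  rfl

end pi

/-- The sum of `a ^ |E|` over the nonempty subsets of `S`. -/
theorem sum_powerset_pow {J : Type*} [DecidableEq J] (S : Finset J) (a : ℝ) :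
    ∑ E ∈ S.powerset, a ^ E.card = (1 + a) ^ S.card := by
  have h := Finset.prod_one_add (s := S) (f := fun _ : J => a)
  rw [prod_const] at h
  rw [h]
  exact sum_congr rfl fun E _ => (prod_const a).symm

theorem sum_nonempty_pow_le {J : Type*} [Fintype J] [DecidableEq J] (S : Finset J) {a : ℝ}
    (ha : 0 ≤ a) (hM : a * Fintype.card J ≤ 1 / 2) :
    ∑ E ∈ S.powerset.filter (fun E => E.Nonempty), a ^ E.card ≤ 1 := by
  have h1 : ∑ E ∈ S.powerset, a ^ E.card
      = 1 + ∑ E ∈ S.powerset.filter (fun E => E.Nonempty), a ^ E.card := by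
    rw [← Finset.sum_filter_add_sum_filter_not S.powerset (fun E => E.Nonempty)]
    rw [add_comm]
    congr 1
    have : S.powerset.filter (fun E => ¬ E.Nonempty) = {∅} := by
      ext E
      simp only [mem_filter, mem_powerset, not_nonempty_iff_eq_empty, mem_singleton]
      constructor
      · exact fun h => h.2
      · intro h; subst h; simp
    rw [this]; simp
  have h2 : (1 + a) ^ S.card ≤ 2 := by
    have h3 : (1 + a) ^ S.card ≤ Real.exp (1 / 2) := by
      calc (1 + a) ^ S.card ≤ (Real.exp a) ^ S.card :=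
            pow_le_pow_left₀ (by linarith) (by linarith [Real.add_one_le_exp a]) _
        _ = Real.exp (S.card * a) := by rw [← Real.exp_nat_mul]
        _ ≤ Real.exp (1 / 2) := by
            apply Real.exp_le_exp.mpr
            have h4 : (S.card : ℝ) ≤ Fintype.card J := by exact_mod_cast Finset.card_le_univ S
            nlinarith
    have h5 : Real.exp (1 / 2) ≤ 2 := by
      have h6 : Real.exp (1 / 2) ^ 2 = Real.exp 1 := by
        rw [← Real.exp_nat_mul]; norm_num
      have h7 := Real.exp_one_lt_d9
      have h8 := Real.exp_pos (1 / 2)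
      nlinarith
    exact h3.trans h5
  rw [sum_powerset_pow] at h1
  linarith

end Pool.Agent.TH661.LPX
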