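import Pool.Agent.TH661.LPX.Par
import Pool.Agent.W542.Tal.Hyper

/-!
Hypercontractivity: Fourier weights of nonnegative functions, moments of sign polynomials.
-/

set_option autoImplicit false

namespace Pool.Agent.TH661.LPX

open Finset

/-- The hypercontractive inequality in terms of kernels. -/
theorem bonami_kernel {I : Type*} [Fintype I] [DecidableEq I] {ρ : ℝ} (h0 : 0 ≤ ρ) (h1 : ρ ≤ 1)
    {g : (I → Bool) → ℝ} (hg : ∀ x, 0 ≤ g x) :
    av (fun x : I → Bool => av (fun y : I → Bool =>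
        g x * g y * ∏ p, (1 + ρ * (sg (x p) * sg (y p)))))
      ≤ (av fun x => g x ^ (1 + ρ)) ^ (2 / (1 + ρ)) := by
  set n := Fintype.card I with hn
  let e : I ≃ Fin n := Fintype.equivFin I
  let E : (Fin n → Bool) ≃ (I → Bool) := Equiv.arrowCongr e.symm (Equiv.refl Bool)
  have hE : ∀ (x : Fin n → Bool) (p : I), E x p = x (e p) := fun x p => rfl
  have hp : 0 < 1 + ρ := by linarith
  have h := Pool.Agent.W542.Tal.hyper ρ h0 h1 n (fun x => g (E x)) (fun x => g (E x))
    (fun x => hg _) (fun x => hg _)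
  have hker : ∀ x y : Fin n → Bool, Pool.Agent.W542.Tal.ker n ρ x y
      = ∏ p, (1 + ρ * (sg (E x p) * sg (E y p))) := by
    intro x y
    unfold Pool.Agent.W542.Tal.ker
    rw [← Equiv.prod_comp e]
    refine prod_congr rfl fun p _ => ?_
    rw [hE, hE]
    unfold Pool.Agent.W542.Tal.sg sg
    cases x (e p) <;> cases y (e p) <;> simp
  have hcard : (Fintype.card (Fin n → Bool) : ℝ) = 2 ^ n := by
    rw [Fintype.card_fun, Fintype.card_fin, Fintype.card_bool]; push_cast; rfl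
  have hcard2 : (0 : ℝ) < 2 ^ n := by positivity
  -- the left side
  have hl : av (fun x : I → Bool => av (fun y : I → Bool =>
        g x * g y * ∏ p, (1 + ρ * (sg (x p) * sg (y p)))))
      = Pool.Agent.W542.Tal.S n ρ (fun x => g (E x)) (fun x => g (E x)) / (2 ^ n * 2 ^ n) := by
    rw [← av_equiv E]
    have h2 : ∀ x : Fin n → Bool, av (fun y : I → Bool =>
        g (E x) * g y * ∏ p, (1 + ρ * (sg (E x p) * sg (y p))))
        = av (fun y : Fin n → Bool => g (E x) * g (E y) * Pool.Agent.W542.Tal.ker n ρ x y) := by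
      intro x
      rw [← av_equiv E]
      exact av_congr fun y => by rw [hker]
    rw [av_congr h2]
    unfold av Pool.Agent.W542.Tal.S
    rw [hcard, ← sum_div, div_div]
  -- the right side
  have hr : av (fun x : I → Bool => g x ^ (1 + ρ))
      = (∑ x, g (E x) ^ (1 + ρ)) / 2 ^ n := by
    rw [← av_equiv E]
    unfold av
    rw [hcard]
  rw [hl, hr, div_le_iff₀ (by positivity)]
  refine h.trans (le_of_eq ?_)
  set B : ℝ := ∑ x, g (E x) ^ (1 + ρ) with hB
  have hB0 : 0 ≤ B := sum_nonneg fun x _ => Real.rpow_nonneg (hg _) _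
  have h3 : B ^ (1 / (1 + ρ)) * B ^ (1 / (1 + ρ)) = B ^ (2 / (1 + ρ)) := by
    rw [← Real.rpow_add_of_nonneg hB0 (by positivity) (by positivity)]
    congr 1; ring
  rw [h3, Real.div_rpow hB0 (by positivity), mul_pow]
  have h4 : ((1 / 2 : ℝ) ^ (2 / (1 + ρ))) ^ n = 1 / (2 ^ n) ^ (2 / (1 + ρ)) := by
    rw [← Real.rpow_natCast ((1 / 2 : ℝ) ^ (2 / (1 + ρ))) n, ← Real.rpow_mul (by norm_num),
      mul_comm (2 / (1 + ρ)) (n : ℝ), Real.rpow_mul (by norm_num), Real.rpow_natCast,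
      one_div_pow, Real.div_rpow (by norm_num) (by positivity), Real.one_rpow]
  rw [h4, show (4 : ℝ) ^ n = 2 ^ n * 2 ^ n by rw [← mul_pow]; norm_num]
  ring

section cube

variable {I : Type*} [Fintype I] [DecidableEq I]

/-- The Fourier coefficient. -/
noncomputable def fI (g : (I → Bool) → ℝ) (T : Finset I) : ℝ :=
  av fun x => g x * ∏ p ∈ T, sg (x p)

theorem fI_weight (ρ : ℝ) (g : (I → Bool) → ℝ) :
    ∑ T : Finset I, ρ ^ T.card * fI g T ^ 2
      = av (fun x : I → Bool => av (fun y : I → Bool =>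
        g x * g y * ∏ p, (1 + ρ * (sg (x p) * sg (y p))))) := by
  have h1 : ∀ x y : I → Bool, g x * g y * ∏ p, (1 + ρ * (sg (x p) * sg (y p)))
      = ∑ T : Finset I, ρ ^ T.card * ((g x * ∏ p ∈ T, sg (x p)) * (g y * ∏ p ∈ T, sg (y p))) := by
    intro x y
    rw [Finset.prod_one_add, Finset.powerset_univ, mul_sum]
    refine sum_congr rfl fun T _ => ?_
    rw [prod_mul_distrib, prod_const, prod_mul_distrib]
    ring
  have h2 : ∀ x : I → Bool, av (fun y : I → Bool =>
        g x * g y * ∏ p, (1 + ρ * (sg (x p) * sg (y p))))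
      = ∑ T : Finset I, ρ ^ T.card * ((g x * ∏ p ∈ T, sg (x p)) * fI g T) := by
    intro x
    rw [av_congr (h1 x), av_sum]
    refine sum_congr rfl fun T _ => ?_
    rw [av_mul_left, av_mul_left]
    rfl
  rw [av_congr h2, av_sum]
  refine sum_congr rfl fun T _ => ?_
  rw [av_mul_left, av_mul_right, sq]
  rfl

theorem fI_abs_weight_le {ρ : ℝ} (h0 : 0 ≤ ρ) (h1 : ρ ≤ 1) (g : (I → Bool) → ℝ) :
    ∑ T : Finset I, ρ ^ T.card * fI g T ^ 2
      ≤ (av fun x => |g x| ^ (1 + ρ)) ^ (2 / (1 + ρ)) := by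
  rw [fI_weight]
  refine le_trans ?_ (bonami_kernel h0 h1 (g := fun x => |g x|) fun x => abs_nonneg _)
  refine av_mono fun x => av_mono fun y => ?_
  refine mul_le_mul_of_nonneg_right ?_ ?_
  · rw [← abs_mul]; exact le_abs_self _
  · refine prod_nonneg fun p _ => ?_
    rcases sg_cases (x p) with h | h <;> rcases sg_cases (y p) with h' | h' <;> rw [h, h'] <;>
      linarith

/-- Moments of polynomials in independent signs. -/
theorem poly_moment (c : Finset I → ℝ) {N : ℕ} (hN : 1 ≤ N) :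
    av (fun x : I → Bool => (∑ T : Finset I, c T * ∏ p ∈ T, sg (x p)) ^ (2 * N))
      ≤ (∑ T : Finset I, (2 * N) ^ T.card * c T ^ 2) ^ N := by
  have hNR : (1 : ℝ) ≤ N := by exact_mod_cast hN
  set P : (I → Bool) → ℝ := fun x => ∑ T : Finset I, c T * ∏ p ∈ T, sg (x p) with hP
  set A : ℝ := av (fun x => P x ^ (2 * N)) with hA
  set ρ : ℝ := 1 / (2 * N - 1) with hρ
  have hd : (0 : ℝ) < 2 * N - 1 := by linarith
  have hρ0 : 0 < ρ := by positivity
  have hρ1 : ρ ≤ 1 := by rw [hρ, div_le_one hd]; linarith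
  set B : ℝ := ∑ T : Finset I, (2 * N) ^ T.card * c T ^ 2 with hB
  have hB0 : 0 ≤ B := sum_nonneg fun T _ => by positivity
  have hA0 : 0 ≤ A := av_nonneg fun x => by rw [pow_mul]; positivity
  set f : (I → Bool) → ℝ := fun x => P x ^ (2 * N - 1) with hf
  have h1 : A = ∑ T : Finset I, c T * fI f T := by
    have h2 : ∀ x, P x ^ (2 * N) = ∑ T : Finset I, c T * (f x * ∏ p ∈ T, sg (x p)) := by
      intro x
      have h3 : P x ^ (2 * N) = f x * P x := by
        rw [hf]; simp only; rw [← pow_succ]; congr 1; omega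
      rw [h3]
      conv_lhs => rw [hP]
      simp only
      rw [mul_sum]
      exact sum_congr rfl fun T _ => by ring
    rw [hA, av_congr h2, av_sum]
    exact sum_congr rfl fun T _ => by rw [av_mul_left]; rfl
  -- the Cauchy-Schwarz inequality
  have h4 : A ^ 2 ≤ B * ∑ T : Finset I, ρ ^ T.card * fI f T ^ 2 := by
    have h5 : A ^ 2 ≤ (∑ T : Finset I, (1 / ρ) ^ T.card * c T ^ 2) *
        ∑ T : Finset I, ρ ^ T.card * fI f T ^ 2 := by
      rw [h1]
      refine Finset.sum_sq_le_sum_mul_sum_of_sq_le_mul univ (fun T _ => by positivity)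
        (fun T _ => by positivity) fun T _ => le_of_eq ?_
      rw [mul_pow]
      have : (1 / ρ) ^ T.card * ρ ^ T.card = 1 := by
        rw [← mul_pow, one_div_mul_cancel hρ0.ne', one_pow]
      calc c T ^ 2 * fI f T ^ 2 = ((1 / ρ) ^ T.card * ρ ^ T.card) * (c T ^ 2 * fI f T ^ 2) := by
            rw [this, one_mul]
        _ = _ := by ring
    refine h5.trans (mul_le_mul_of_nonneg_right ?_ (sum_nonneg fun T _ => by positivity))
    refine sum_le_sum fun T _ => mul_le_mul_of_nonneg_right ?_ (sq_nonneg _)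
    refine pow_le_pow_left₀ (by positivity) ?_ _
    rw [hρ, one_div_one_div]; linarith
  have h6 := fI_abs_weight_le hρ0.le hρ1 f
  have hexp : 1 + ρ = 2 * N / (2 * N - 1) := by rw [hρ]; field_simp; ring
  have h7 : ∀ x, |f x| ^ (1 + ρ) = P x ^ (2 * N) := by
    intro x
    rw [hf]
    simp only
    rw [abs_pow, hexp, ← Real.rpow_natCast |P x| (2 * N - 1), ← Real.rpow_mul (abs_nonneg _)]
    have h8 : (((2 * N - 1 : ℕ) : ℝ)) * (2 * N / (2 * N - 1)) = ((2 * N : ℕ) : ℝ) := by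
      rw [Nat.cast_sub (by omega)]
      push_cast
      field_simp
    rw [h8, Real.rpow_natCast, pow_mul, sq_abs, ← pow_mul]
  rw [av_congr h7] at h6
  have h9 : A ^ 2 ≤ B * A ^ (2 / (1 + ρ)) :=
    h4.trans (mul_le_mul_of_nonneg_left h6 hB0)
  rcases hA0.lt_or_eq with hpos | hzero
  · have h10 : 2 / (1 + ρ) = 2 - 1 / N := by
      rw [hexp]; field_simp
    rw [h10, Real.rpow_sub hpos] at h9
    have h11 : A ^ (2 : ℝ) = A ^ 2 := by
      have := Real.rpow_natCast A 2
      exact_mod_cast this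
    rw [h11] at h9
    have h12 : (0 : ℝ) < A ^ (1 / (N : ℝ)) := Real.rpow_pos_of_pos hpos _
    have h13 : A ^ (1 / (N : ℝ)) ≤ B := by
      have h14 : A ^ 2 * A ^ (1 / (N : ℝ)) ≤ A ^ 2 * B := by
        calc A ^ 2 * A ^ (1 / (N : ℝ)) ≤ B * (A ^ 2 / A ^ (1 / (N : ℝ))) * A ^ (1 / (N : ℝ)) :=
              mul_le_mul_of_nonneg_right h9 h12.le
          _ = A ^ 2 * B := by field_simp
      exact le_of_mul_le_mul_left h14 (by positivity)
    calc A = (A ^ (1 / (N : ℝ))) ^ N := by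
          rw [one_div, Real.rpow_inv_natCast_pow hpos.le (by omega)]
      _ ≤ B ^ N := pow_le_pow_left₀ h12.le h13 N
  · rw [← hzero]; positivity

/-- The probability that a polynomial in independent signs is large. -/
theorem poly_tail (c : Finset I → ℝ) {N : ℕ} (hN : 1 ≤ N) {s W : ℝ} (hs : 0 < s)
    (hW : ∑ T : Finset I, (2 * N) ^ T.card * c T ^ 2 ≤ W) :
    av (fun x : I → Bool => ind (s < |∑ T : Finset I, c T * ∏ p ∈ T, sg (x p)|))
      ≤ (W / s ^ 2) ^ N := by
  have h1 : ∀ x : I → Bool, ind (s < |∑ T : Finset I, c T * ∏ p ∈ T, sg (x p)|)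
      ≤ ind ((s ^ 2) ^ N / 1 < (∑ T : Finset I, c T * ∏ p ∈ T, sg (x p)) ^ (2 * N)) := by
    intro x
    refine ind_mono fun h => ?_
    rw [div_one, pow_mul]
    refine pow_lt_pow_left₀ ?_ (by positivity) (by omega)
    rw [← sq_abs (∑ T : Finset I, c T * ∏ p ∈ T, sg (x p))]
    exact pow_lt_pow_left₀ h hs.le (by norm_num)
  refine (av_mono h1).trans ((av_ind_lt_le (fun x => by rw [pow_mul]; positivity)
    (by positivity)).trans ?_)
  rw [div_one, div_pow]
  refine div_le_div_of_nonneg_right ((poly_moment c hN).trans ?_) (by positivity)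
  exact pow_le_pow_left₀ (sum_nonneg fun T _ => by positivity) hW N

end cube

section blocks

variable {k m : ℕ}

/-- The total size. -/
def nS (S : Fin k → Finset (Fin m)) : ℕ := ∑ j, (S j).card

/-- The character. -/
def chi (S : Fin k → Finset (Fin m)) (x : Fin k → Fin m → Bool) : ℝ :=
  ∏ j, ∏ v ∈ S j, sg (x j v)

/-- The Fourier coefficient. -/
noncomputable def fc (g : (Fin k → Fin m → Bool) → ℝ) (S : Fin k → Finset (Fin m)) : ℝ :=
  av fun x => g x * chi S x

theorem fc_weight (ρ : ℝ) (g : (Fin k → Fin m → Bool) → ℝ) :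
    ∑ S : Fin k → Finset (Fin m), ρ ^ nS S * fc g S ^ 2
      = av (fun x : Fin k → Fin m → Bool => av (fun y : Fin k → Fin m → Bool =>
        g x * g y * ∏ j, ∏ v, (1 + ρ * (sg (x j v) * sg (y j v))))) := by
  have h1 : ∀ x y : Fin k → Fin m → Bool,
      g x * g y * ∏ j, ∏ v, (1 + ρ * (sg (x j v) * sg (y j v)))
      = ∑ S : Fin k → Finset (Fin m), ρ ^ nS S * ((g x * chi S x) * (g y * chi S y)) := by
    intro x y
    have h2 : ∀ j : Fin k, ∏ v, (1 + ρ * (sg (x j v) * sg (y j v)))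
        = ∑ T ∈ (univ : Finset (Finset (Fin m))),
          ρ ^ T.card * ((∏ v ∈ T, sg (x j v)) * ∏ v ∈ T, sg (y j v)) := by
      intro j
      rw [Finset.prod_one_add, Finset.powerset_univ]
      refine sum_congr rfl fun T _ => ?_
      rw [prod_mul_distrib, prod_const, prod_mul_distrib]
    rw [prod_congr rfl fun j _ => h2 j, Finset.prod_univ_sum, Fintype.piFinset_univ, mul_sum]
    refine sum_congr rfl fun S _ => ?_
    unfold chi nS
    rw [prod_mul_distrib, prod_mul_distrib, prod_pow_eq_pow_sum]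
    ring
  have h2 : ∀ x : Fin k → Fin m → Bool, av (fun y : Fin k → Fin m → Bool =>
        g x * g y * ∏ j, ∏ v, (1 + ρ * (sg (x j v) * sg (y j v))))
      = ∑ S : Fin k → Finset (Fin m), ρ ^ nS S * ((g x * chi S x) * fc g S) := by
    intro x
    rw [av_congr (h1 x), av_sum]
    refine sum_congr rfl fun T _ => ?_
    rw [av_mul_left, av_mul_left]
    rfl
  rw [av_congr h2, av_sum]
  refine sum_congr rfl fun T _ => ?_
  rw [av_mul_left, av_mul_right, sq]
  rfl

theorem fc_weight_le {ρ : ℝ} (h0 : 0 ≤ ρ) (h1 : ρ ≤ 1) {g : (Fin k → Fin m → Bool) → ℝ}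
    (hg : ∀ x, 0 ≤ g x) :
    ∑ S : Fin k → Finset (Fin m), ρ ^ nS S * fc g S ^ 2
      ≤ (av fun x => g x ^ (1 + ρ)) ^ (2 / (1 + ρ)) := by
  rw [fc_weight]
  let C : (Fin k × Fin m → Bool) ≃ (Fin k → Fin m → Bool) := Equiv.curry _ _ _
  have h2 := bonami_kernel (I := Fin k × Fin m) h0 h1 (g := fun x => g (C x)) fun x => hg _
  rw [← av_equiv C]
  have h3 : av (fun x => g x ^ (1 + ρ)) = av (fun x => g (C x) ^ (1 + ρ)) :=
    (av_equiv C (fun x => g x ^ (1 + ρ))).symm
  rw [h3]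
  refine le_trans (le_of_eq ?_) h2
  refine av_congr fun x => ?_
  rw [← av_equiv C]
  refine av_congr fun y => ?_
  rw [Fintype.prod_prod_type]
  rfl

/-- The Fourier weight of a function with values in the unit interval. -/
theorem fc_weight_le_one {ρ : ℝ} (h0 : 0 ≤ ρ) (h1 : ρ ≤ 1) {g : (Fin k → Fin m → Bool) → ℝ}
    (hg : ∀ x, 0 ≤ g x) (hg1 : ∀ x, g x ≤ 1) :
    ∑ S : Fin k → Finset (Fin m), ρ ^ nS S * fc g S ^ 2 ≤ 1 := by
  refine (fc_weight_le h0 h1 hg).trans ?_
  refine Real.rpow_le_one (av_nonneg fun x => Real.rpow_nonneg (hg x) _) ?_ (by positivity)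
  exact av_le_const fun x => Real.rpow_le_one (hg x) (hg1 x) (by linarith)

/-- The Fourier weight of a bounded density. -/
theorem fc_weight_density {ρ : ℝ} (h0 : 0 ≤ ρ) (h1 : ρ ≤ 1) {g : (Fin k → Fin m → Bool) → ℝ}
    (hg : ∀ x, 0 ≤ g x) {G : ℝ} (hg1 : ∀ x, g x ≤ G) (hav : av g = 1) :
    ∑ S : Fin k → Finset (Fin m), ρ ^ nS S * fc g S ^ 2 ≤ G ^ (2 * ρ) := by
  refine (fc_weight_le h0 h1 hg).trans ?_
  have hG1 : 1 ≤ G := by rw [← hav]; exact av_le_const hg1
  have hG0 : 0 < G := by linarith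
  have h2 : av (fun x => g x ^ (1 + ρ)) ≤ G ^ ρ := by
    have h3 : ∀ x, g x ^ (1 + ρ) ≤ G ^ ρ * g x := by
      intro x
      rw [Real.rpow_add_of_nonneg (hg x) (by norm_num) h0, Real.rpow_one, mul_comm]
      exact mul_le_mul_of_nonneg_right (Real.rpow_le_rpow (hg x) (hg1 x) h0) (hg x)
    refine (av_mono h3).trans (le_of_eq ?_)
    rw [av_mul_left, hav, mul_one]
  calc (av fun x => g x ^ (1 + ρ)) ^ (2 / (1 + ρ)) ≤ (G ^ ρ) ^ (2 / (1 + ρ)) :=
        Real.rpow_le_rpow (av_nonneg fun x => Real.rpow_nonneg (hg x) _) h2 (by positivity)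
    _ = G ^ (ρ * (2 / (1 + ρ))) := by rw [← Real.rpow_mul hG0.le]
    _ ≤ G ^ (2 * ρ) := by
        refine Real.rpow_le_rpow_of_exponent_le hG1 ?_
        rw [mul_div_assoc', div_le_iff₀ (by linarith)]
        nlinarith

end blocks

end Pool.Agent.TH661.LPX
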