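import Pool.Agent.TH661.LPX.Def4

/-!
Chains of deletions in a random hypergraph.
-/

set_option autoImplicit false

namespace Pool.Agent.TH661.LPX

open Finset

section chain

variable {J : Type*} [DecidableEq J] {k m : ℕ}

omit [DecidableEq J] in
/-- The set `E` expands. -/
def ex (q : ℕ) (H : J → Fin k → Fin m) (E : Finset J) : Prop :=
  (q - 1) * E.card ≤ q * nS (SE H E)

/-- The weight of the expanding sets with at most `L1` elements. -/
noncomputable def wt (q N L1 : ℕ) (T : (Fin k → Finset (Fin m)) → ℝ) (H : J → Fin k → Fin m)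
    (S : Finset J) : ℝ :=
  ∑ E ∈ S.powerset.filter (fun E => 0 < E.card ∧ E.card ≤ L1),
    (2 * (N : ℝ)) ^ E.card * (ind (ex q H E) * T (SE H E))

/-- Whatever is deleted, with at most `c` elements, the weight is large for some signs. -/
inductive BadS (q N L1 : ℕ) (s1 : ℝ)
    (T : ((Fin k → Fin m → Bool) → ℝ) → (Fin k → Finset (Fin m)) → ℝ)
    (H : J → Fin k → Fin m) :
    ℕ → Finset J → ((Fin k → Fin m → Bool) → ℝ) → Prop
  | mk {c : ℕ} {S : Finset J} {g : (Fin k → Fin m → Bool) → ℝ} (P : Finset J → Finset J)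
      (hP : ∀ E, P E ⊆ E) (hv : s1 < wt q N L1 (T g) H S)
      (hb : ∀ E : Finset J, E ⊆ S → 0 < E.card → E.card ≤ c →
        BadS q N L1 s1 T H (c - E.card) (S \ E) (up yx (pr H (bs (P E))) E g)) :
      BadS q N L1 s1 T H c S g

theorem exists_of_not_badS (q N L1 : ℕ) {s1 : ℝ}
    (T : ((Fin k → Fin m → Bool) → ℝ) → (Fin k → Finset (Fin m)) → ℝ)
    (H : J → Fin k → Fin m) (σ : J → Bool) (c : ℕ) :
    ∀ (S : Finset J) (g : (Fin k → Fin m → Bool) → ℝ), ¬ BadS q N L1 s1 T H c S g →
      ∃ F ⊆ S, F.card ≤ c ∧ wt q N L1 (T (up yx (pr H σ) F g)) H (S \ F) ≤ s1 := by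
  classical
  induction c using Nat.strong_induction_on with
  | _ c ih =>
    intro S g hB
    by_cases hv : s1 < wt q N L1 (T g) H S
    · have h1 : ∃ E : Finset J, E ⊆ S ∧ 0 < E.card ∧ E.card ≤ c ∧ ∀ P ⊆ E,
          ¬ BadS q N L1 s1 T H (c - E.card) (S \ E) (up yx (pr H (bs P)) E g) := by
        by_contra hcon
        push Not at hcon
        have h2 : ∀ E : Finset J, ∃ P : Finset J, P ⊆ E ∧ (E ⊆ S → 0 < E.card → E.card ≤ c →
            BadS q N L1 s1 T H (c - E.card) (S \ E) (up yx (pr H (bs P)) E g)) := by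
          intro E
          by_cases h3 : E ⊆ S ∧ 0 < E.card ∧ E.card ≤ c
          · obtain ⟨P, hP1, hP2⟩ := hcon E h3.1 h3.2.1 h3.2.2
            exact ⟨P, hP1, fun _ _ _ => hP2⟩
          · exact ⟨∅, empty_subset _, fun h4 h5 h6 => absurd ⟨h4, h5, h6⟩ h3⟩
        choose P hP1 hP2 using h2
        exact hB (BadS.mk P hP1 hv hP2)
      obtain ⟨E, hES, hpos, hc, hE⟩ := h1
      obtain ⟨F, hFS, hFc, hF⟩ := ih (c - E.card) (by omega) (S \ E) (up yx (pr H σ) E g)
        (by
          have h2 := hE (E.filter fun i => σ i = true) (filter_subset _ _)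
          rwa [up_bs] at h2)
      have hd : Disjoint E F := by
        rw [Finset.disjoint_left]
        intro i hi hF
        exact (mem_sdiff.mp (hFS hF)).2 hi
      refine ⟨E ∪ F, union_subset hES (hFS.trans sdiff_subset), ?_, ?_⟩
      · rw [card_union_of_disjoint hd]; omega
      · rw [← up_up _ hd]
        have hset : S \ (E ∪ F) = (S \ E) \ F := by
          ext i; simp only [mem_sdiff, mem_union]; tauto
        rw [hset]
        exact hF
    · refine ⟨∅, empty_subset _, by simp, ?_⟩
      rw [up_empty, sdiff_empty]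
      exact not_lt.mp hv

omit [DecidableEq J] in
theorem ex_congr {q : ℕ} {H H' : J → Fin k → Fin m} {E : Finset J} (hH : ∀ i ∈ E, H i = H' i) :
    ex q H E ↔ ex q H' E := by
  unfold ex
  rw [SE_congr hH]

omit [DecidableEq J] in
theorem wt_congr {q N L1 : ℕ} {T : (Fin k → Finset (Fin m)) → ℝ} {H H' : J → Fin k → Fin m}
    {S : Finset J} (hH : ∀ i ∈ S, H i = H' i) : wt q N L1 T H S = wt q N L1 T H' S := by
  unfold wt
  refine sum_congr rfl fun E hE => ?_
  rw [mem_filter, mem_powerset] at hE
  have h1 : ∀ i ∈ E, H i = H' i := fun i hi => hH i (hE.1 hi)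
  rw [propext (ex_congr (q := q) h1), SE_congr h1]

theorem BadS.congr {q N L1 c : ℕ} {s1 : ℝ}
    {T : ((Fin k → Fin m → Bool) → ℝ) → (Fin k → Finset (Fin m)) → ℝ}
    {H H' : J → Fin k → Fin m} {S : Finset J} {g : (Fin k → Fin m → Bool) → ℝ}
    (hB : BadS q N L1 s1 T H c S g) (hH : ∀ i ∈ S, H i = H' i) :
    BadS q N L1 s1 T H' c S g := by
  induction hB with
  | mk P hP hv hb ih =>
    refine BadS.mk P hP (by rw [← wt_congr hH]; exact hv) fun E hE hpos hc => ?_
    rw [← up_congr (fun i hi => pr_congr _ (hH i (hE hi)))]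
    exact ih E hE hpos hc (fun i hi => hH i (mem_sdiff.mp hi).1)

variable [Fintype J]

/-- The probability that all deletions with at most `c` elements fail. -/
theorem badS_prob (hm : 0 < m) {q N L1 : ℕ} {s1 W0 G : ℝ} {e : ℕ → ℝ}
    {T : ((Fin k → Fin m → Bool) → ℝ) → (Fin k → Finset (Fin m)) → ℝ} (hs1 : 0 < s1)
    (hT0 : ∀ g S, 0 ≤ T g S) (hW0 : 0 < W0) (hW1 : W0 ≤ 1) (he : ∀ l, 0 ≤ e l)
    (hmom : ∀ (g : (Fin k → Fin m → Bool) → ℝ) (E : Finset J), (∀ x, 0 ≤ g x) →
      (∀ x, g x ≤ G) → 0 < E.card → E.card ≤ L1 →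
      av (fun H : J → Fin k → Fin m => ind (ex q H E) * T g (SE H E)) ≤ e E.card)
    (hsum : ∑ E ∈ univ.filter (fun E : Finset J => 0 < E.card ∧ E.card ≤ L1),
      (4 * (N : ℝ) / W0) ^ E.card * e E.card ≤ s1) (c : ℕ) :
    ∀ (S : Finset J) (g : (Fin k → Fin m → Bool) → ℝ), (∀ x, 0 ≤ g x) →
      (∀ x, g x * 2 ^ c ≤ G) →
      av (fun H : J → Fin k → Fin m => ind (BadS q N L1 s1 T H c S g)) ≤ W0 ^ (c + 1) := by
  have : NeZero m := ⟨by omega⟩
  induction c using Nat.strong_induction_on with
  | _ c ih =>
    intro S g hg hG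
    have hgG : ∀ x, g x ≤ G := fun x => by
      refine le_trans ?_ (hG x)
      exact le_mul_of_one_le_right (hg x) (one_le_pow₀ (by norm_num))
    set 𝓢 := S.powerset.filter (fun E => 0 < E.card ∧ E.card ≤ L1) with h𝓢
    -- the union bound
    have h1 : ∀ H : J → Fin k → Fin m, ind (BadS q N L1 s1 T H c S g) ≤
        (1 / s1) * ∑ E ∈ 𝓢, (2 * (N : ℝ)) ^ E.card *
          (if E.card ≤ c then
            ∑ P ∈ E.powerset, ind (ex q H E) * T g (SE H E) *
              ind (BadS q N L1 s1 T H (c - E.card) (S \ E) (up yx (pr H (bs P)) E g))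
          else ind (ex q H E) * T g (SE H E)) := by
      intro H
      have hnn1 : ∀ E : Finset J, 0 ≤ ind (ex q H E) * T g (SE H E) :=
        fun E => mul_nonneg (ind_nonneg _) (hT0 _ _)
      have hnn2 : ∀ E : Finset J, ∀ P ∈ E.powerset, 0 ≤ ind (ex q H E) * T g (SE H E) *
              ind (BadS q N L1 s1 T H (c - E.card) (S \ E) (up yx (pr H (bs P)) E g)) :=
        fun E P _ => mul_nonneg (hnn1 E) (ind_nonneg _)
      by_cases hB : BadS q N L1 s1 T H c S g
      · rw [ind_true hB]
        cases hB with
        | mk P hP hv hb =>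
          rw [one_div, ← div_eq_inv_mul, le_div_iff₀ hs1, one_mul]
          refine hv.le.trans ?_
          unfold wt
          refine sum_le_sum fun E hE => ?_
          rw [mem_filter, mem_powerset] at hE
          refine mul_le_mul_of_nonneg_left ?_ (by positivity)
          split_ifs with hc
          · refine le_trans ?_ (single_le_sum (hnn2 E) (mem_powerset.mpr (hP E)))
            rw [ind_true (hb E hE.1 hE.2.1 hc), mul_one]
          · exact le_refl _
      · rw [ind_false hB]
        refine mul_nonneg (by positivity) (sum_nonneg fun E _ => ?_)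
        refine mul_nonneg (by positivity) ?_
        split_ifs
        · exact sum_nonneg (hnn2 E)
        · exact hnn1 E
    refine (av_mono h1).trans ?_
    rw [av_mul_left, av_sum]
    -- each term
    have h2 : ∀ E ∈ 𝓢,
        av (fun H : J → Fin k → Fin m => (2 * (N : ℝ)) ^ E.card *
          (if E.card ≤ c then
            ∑ P ∈ E.powerset, ind (ex q H E) * T g (SE H E) *
              ind (BadS q N L1 s1 T H (c - E.card) (S \ E) (up yx (pr H (bs P)) E g))
          else ind (ex q H E) * T g (SE H E)))
          ≤ (4 * (N : ℝ) / W0) ^ E.card * e E.card * W0 ^ (c + 1) := by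
      intro E hE
      rw [h𝓢, mem_filter, mem_powerset] at hE
      rw [av_mul_left]
      have hme := hmom g E hg hgG hE.2.1 hE.2.2
      by_cases hc : E.card ≤ c
      · simp only [if_pos hc]
        rw [av_sum]
        have h6 : ∀ P ∈ E.powerset, av (fun H : J → Fin k → Fin m =>
            ind (ex q H E) * T g (SE H E) *
              ind (BadS q N L1 s1 T H (c - E.card) (S \ E) (up yx (pr H (bs P)) E g)))
            ≤ e E.card * W0 ^ (c - E.card + 1) := by
          intro P _
          rw [av_mix E]
          have h3 : ∀ H' : J → Fin k → Fin m, av (fun H : J → Fin k → Fin m =>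
              ind (ex q (mix E H' H) E) * T g (SE (mix E H' H) E) *
              ind (BadS q N L1 s1 T (mix E H' H) (c - E.card) (S \ E)
                (up yx (pr (mix E H' H) (bs P)) E g)))
              ≤ ind (ex q H' E) * T g (SE H' E) * W0 ^ (c - E.card + 1) := by
            intro H'
            have h4 : ∀ H : J → Fin k → Fin m,
                ind (ex q (mix E H' H) E) * T g (SE (mix E H' H) E) *
                ind (BadS q N L1 s1 T (mix E H' H) (c - E.card) (S \ E)
                  (up yx (pr (mix E H' H) (bs P)) E g))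
                ≤ ind (ex q H' E) * T g (SE H' E) *
                ind (BadS q N L1 s1 T H (c - E.card) (S \ E) (up yx (pr H' (bs P)) E g)) := by
              intro H
              have hmix : ∀ i ∈ E, mix E H' H i = H' i := fun i hi => mix_mem hi
              rw [up_congr (ω := pr (mix E H' H) (bs P)) (ω' := pr H' (bs P))
                (fun i hi => pr_congr _ (mix_mem hi)), propext (ex_congr (q := q) hmix),
                SE_congr hmix]
              refine mul_le_mul_of_nonneg_left (ind_mono fun h => ?_)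
                (mul_nonneg (ind_nonneg _) (hT0 _ _))
              exact h.congr fun i hi => mix_not_mem (mem_sdiff.mp hi).2
            refine (av_mono h4).trans ?_
            rw [av_mul_left]
            refine mul_le_mul_of_nonneg_left ?_ (mul_nonneg (ind_nonneg _) (hT0 _ _))
            refine ih (c - E.card) (by omega) (S \ E) (up yx (pr H' (bs P)) E g)
              (up_nonneg abs_yx _ E hg) ?_
            intro x
            refine le_trans ?_ (hG x)
            have h5 := prod_one_add_le (abs_yx (k := k) (m := m)) (pr H' (bs P)) E x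
            have h6 : (2 : ℝ) ^ c = 2 ^ E.card * 2 ^ (c - E.card) := by
              rw [← pow_add]; congr 1; omega
            unfold up
            rw [h6, mul_assoc]
            exact mul_le_mul_of_nonneg_left
              (mul_le_mul_of_nonneg_right h5 (by positivity)) (hg x)
          refine (av_mono h3).trans ?_
          rw [av_mul_right]
          exact mul_le_mul_of_nonneg_right hme (pow_nonneg hW0.le _)
        refine (mul_le_mul_of_nonneg_left (sum_le_sum h6) (by positivity)).trans (le_of_eq ?_)
        rw [sum_const, card_powerset, nsmul_eq_mul]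
        push_cast
        have h7 : W0 ^ (c + 1) = W0 ^ E.card * W0 ^ (c - E.card + 1) := by
          rw [← pow_add]; congr 1; omega
        rw [h7, div_pow, show (4 : ℝ) * N = 2 * (2 * N) by ring, mul_pow 2 (2 * (N : ℝ))]
        field_simp
      · simp only [if_neg hc]
        refine (mul_le_mul_of_nonneg_left hme (by positivity)).trans ?_
        have h7 : (1 : ℝ) ≤ (1 / W0) ^ E.card * W0 ^ (c + 1) := by
          rw [one_div, inv_pow, ← div_eq_inv_mul, one_le_div (by positivity)]
          exact pow_le_pow_of_le_one hW0.le hW1 (by omega)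
        have h8 : (2 * (N : ℝ)) ^ E.card ≤ (4 * (N : ℝ)) ^ E.card :=
          pow_le_pow_left₀ (by positivity) (by
            have : (0 : ℝ) ≤ N := Nat.cast_nonneg _
            linarith) _
        calc (2 * (N : ℝ)) ^ E.card * e E.card
            ≤ (4 * (N : ℝ)) ^ E.card * e E.card := mul_le_mul_of_nonneg_right h8 (he _)
          _ ≤ (4 * (N : ℝ)) ^ E.card * e E.card * ((1 / W0) ^ E.card * W0 ^ (c + 1)) :=
              le_mul_of_one_le_right (mul_nonneg (by positivity) (he _)) h7
          _ = (4 * (N : ℝ) / W0) ^ E.card * e E.card * W0 ^ (c + 1) := by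
              rw [show 4 * (N : ℝ) / W0 = 4 * N * (1 / W0) by ring, mul_pow (4 * (N : ℝ))]; ring
    refine (mul_le_mul_of_nonneg_left (sum_le_sum h2) (by positivity)).trans ?_
    rw [← sum_mul, ← mul_assoc]
    refine mul_le_of_le_one_left (pow_nonneg hW0.le _) ?_
    rw [one_div, ← div_eq_inv_mul, div_le_one hs1]
    refine le_trans ?_ hsum
    refine sum_le_sum_of_subset_of_nonneg ?_ fun E _ _ => mul_nonneg (by positivity) (he _)
    intro E hE
    rw [h𝓢, mem_filter] at hE
    rw [mem_filter]
    exact ⟨mem_univ _, hE.2⟩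

end chain

end Pool.Agent.TH661.LPX
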