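import Pool.Agent.TH661.LPX.Av

/-!
Barycentric spanners of compact sets, frames of finite-dimensional spaces of functions.
-/

set_option autoImplicit false

namespace Pool.Agent.TH661.LPX

open Finset Matrix

/-- A compact spanning set of vectors contains a basis such that all coordinates of the elements
of the set are in the interval `[-1, 1]`. -/
theorem spanner_coord {d : ℕ} (B : Set (Fin d → ℝ)) (hB : IsCompact B)
    (hspan : Submodule.span ℝ B = ⊤) :
    ∃ b : Fin d → Fin d → ℝ, (∀ i, b i ∈ B) ∧ ∀ v ∈ B, ∃ c : Fin d → ℝ, (∀ i, |c i| ≤ 1) ∧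
      v = ∑ i, c i • b i := by
  classical
  -- a basis in `B`
  obtain ⟨s, hsB, hss, hli⟩ := exists_linearIndependent ℝ B
  rw [hspan] at hss
  have hsfin : s.Finite := hli.setFinite
  have : Fintype s := hsfin.fintype
  let e0 : Module.Basis s ℝ (Fin d → ℝ) := Module.Basis.mk hli (by rw [Subtype.range_coe, hss])
  have hcard : Fintype.card s = d := by
    have h1 := Module.finrank_eq_card_basis e0
    rw [Module.finrank_fin_fun] at h1
    exact h1.symm
  let g : Fin d ≃ s := (Fintype.equivFinOfCardEq hcard).symm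
  let b0 : Fin d → Fin d → ℝ := fun i => (g i : Fin d → ℝ)
  have hb0B : ∀ i, b0 i ∈ B := fun i => hsB (g i).2
  have hb0li : LinearIndependent ℝ b0 := hli.comp g g.injective
  have hb0det : (Matrix.of b0).det ≠ 0 := by
    have h1 : LinearIndependent ℝ (Matrix.of b0).row := hb0li
    have h2 := Matrix.linearIndependent_rows_iff_isUnit.mp h1
    exact ((Matrix.isUnit_iff_isUnit_det _).mp h2).ne_zero
  -- the maximum of the absolute value of the determinant
  set S : Set (Fin d → Fin d → ℝ) := Set.pi Set.univ fun _ => B with hS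
  have hScomp : IsCompact S := isCompact_univ_pi fun _ => hB
  have hSne : S.Nonempty := ⟨b0, fun i _ => hb0B i⟩
  have hcont : Continuous fun b : Fin d → Fin d → ℝ => |(Matrix.of b).det| := by
    apply Continuous.abs
    apply Continuous.matrix_det
    exact continuous_id
  obtain ⟨b, hbS, hbmax⟩ := hScomp.exists_isMaxOn hSne hcont.continuousOn
  have hbB : ∀ i, b i ∈ B := fun i => hbS i (Set.mem_univ i)
  have hbpos : 0 < |(Matrix.of b).det| :=
    lt_of_lt_of_le (abs_pos.mpr hb0det) (hbmax (show b0 ∈ S from fun i _ => hb0B i))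
  have hbne : (Matrix.of b).det ≠ 0 := abs_pos.mp hbpos
  refine ⟨b, hbB, fun v hv => ?_⟩
  set c : Fin d → ℝ := v ᵥ* (Matrix.of b)⁻¹ with hc
  have hvc : v = ∑ i, c i • b i := by
    have h1 : c ᵥ* (Matrix.of b) = v := by
      rw [hc, Matrix.vecMul_vecMul, Matrix.nonsing_inv_mul _ (Ne.isUnit hbne), Matrix.vecMul_one]
    rw [← h1]
    funext j
    rw [Finset.sum_apply]
    simp [Matrix.vecMul, dotProduct]
  refine ⟨c, fun i => ?_, hvc⟩
  have hup : Function.update b i v ∈ S := by
    intro j _
    by_cases hj : j = i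
    · subst hj; rw [Function.update_self]; exact hv
    · rw [Function.update_of_ne hj]; exact hbB j
  have h2 : |(Matrix.of (Function.update b i v)).det| ≤ |(Matrix.of b).det| := hbmax hup
  have h3 : (Matrix.of (Function.update b i v)).det = c i * (Matrix.of b).det := by
    have h4 : Matrix.of (Function.update b i v)
        = (Matrix.of b).updateRow i (∑ k, c k • (Matrix.of b) k) := by
      have h5 : (∑ k, c k • (Matrix.of b) k) = v := by
        rw [hvc]; rfl
      rw [h5]
      rfl
    rw [h4, Matrix.det_updateRow_sum, smul_eq_mul]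
  rw [h3, abs_mul] at h2
  exact le_of_mul_le_mul_right (by rw [one_mul]; exact h2) hbpos

/-- The same for a nonempty compact set which spans a space of dimension at most `D + 1`; the
elements need not be different. -/
theorem spanner {E : Type*} [NormedAddCommGroup E] [NormedSpace ℝ E] [FiniteDimensional ℝ E]
    {D : ℕ} (B : Set E) (hB : IsCompact B) (hne : B.Nonempty)
    (hD : Module.finrank ℝ (Submodule.span ℝ B) ≤ D + 1) :
    ∃ b : Fin (D + 1) → E, (∀ i, b i ∈ B) ∧ ∀ v ∈ B, ∃ c : Fin (D + 1) → ℝ, (∀ i, |c i| ≤ 1) ∧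
      v = ∑ i, c i • b i := by
  classical
  set W := Submodule.span ℝ B with hW
  set d := Module.finrank ℝ W with hd
  let e : W ≃L[ℝ] (Fin d → ℝ) := (Module.finBasis ℝ W).equivFunL
  set B1 : Set W := ((↑) : W → E) ⁻¹' B with hB1
  have hB1comp : IsCompact B1 :=
    (Submodule.closed_of_finiteDimensional W).isClosedEmbedding_subtypeVal.isCompact_preimage hB
  have hspan1 : Submodule.span ℝ B1 = ⊤ := Submodule.span_span_coe_preimage
  set B2 : Set (Fin d → ℝ) := e '' B1 with hB2
  have hB2comp : IsCompact B2 := hB1comp.image e.continuous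
  have hspan2 : Submodule.span ℝ B2 = ⊤ := by
    have h1 := Submodule.map_span (e.toLinearEquiv : W →ₗ[ℝ] (Fin d → ℝ)) B1
    rw [hspan1, Submodule.map_top, LinearEquiv.range] at h1
    exact h1.symm
  obtain ⟨b, hb, hc⟩ := spanner_coord B2 hB2comp hspan2
  have hpull : ∀ u : Fin d → ℝ, u ∈ B2 → ((e.symm u : W) : E) ∈ B := by
    rintro u ⟨w, hw, rfl⟩
    rw [ContinuousLinearEquiv.symm_apply_apply]
    exact hw
  obtain ⟨v0, hv0⟩ := hne
  refine ⟨fun i => if h : (i : ℕ) < d then ((e.symm (b ⟨i, h⟩) : W) : E) else v0, ?_, ?_⟩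
  · intro i
    by_cases h : (i : ℕ) < d
    · simp only [h, dif_pos]; exact hpull _ (hb _)
    · simp only [h, dif_neg, not_false_eq_true]; exact hv0
  · intro v hv
    have hvW : v ∈ W := Submodule.subset_span hv
    obtain ⟨c, hc1, hc2⟩ := hc (e ⟨v, hvW⟩) ⟨⟨v, hvW⟩, hv, rfl⟩
    refine ⟨fun i => if h : (i : ℕ) < d then c ⟨i, h⟩ else 0, ?_, ?_⟩
    · intro i
      by_cases h : (i : ℕ) < d
      · simp only [h, dif_pos]; exact hc1 _
      · simp only [h, dif_neg, not_false_eq_true, abs_zero]; exact zero_le_one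
    · have h1 : v = ∑ i : Fin d, c i • ((e.symm (b i) : W) : E) := by
        have h2 : (⟨v, hvW⟩ : W) = e.symm (∑ i, c i • b i) := by
          rw [← hc2, ContinuousLinearEquiv.symm_apply_apply]
        have h3 : v = ((⟨v, hvW⟩ : W) : E) := rfl
        rw [h3, h2, map_sum, Submodule.coe_sum]
        refine sum_congr rfl fun i _ => ?_
        rw [map_smul, Submodule.coe_smul]
      rw [h1]
      -- reindexing
      have h4 : ∀ i : Fin (D + 1), (if h : (i : ℕ) < d then c ⟨i, h⟩ else 0) •
          (if h : (i : ℕ) < d then ((e.symm (b ⟨i, h⟩) : W) : E) else v0)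
          = if h : (i : ℕ) < d then c ⟨i, h⟩ • ((e.symm (b ⟨i, h⟩) : W) : E) else 0 := by
        intro i
        by_cases h : (i : ℕ) < d
        · simp only [h, dif_pos]
        · simp only [h, dif_neg, not_false_eq_true, zero_smul]
      rw [sum_congr rfl fun i _ => h4 i]
      have h5 : ∑ i : Fin d, c i • ((e.symm (b i) : W) : E)
          = ∑ i ∈ range d, if h : i < d then c ⟨i, h⟩ • ((e.symm (b ⟨i, h⟩) : W) : E) else 0 := by
        rw [Finset.sum_range]
        refine sum_congr rfl fun i _ => ?_
        rw [dif_pos i.2]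
      have h6 : ∑ i : Fin (D + 1), (if h : (i : ℕ) < d then
          c ⟨i, h⟩ • ((e.symm (b ⟨i, h⟩) : W) : E) else 0)
          = ∑ i ∈ range (D + 1), if h : i < d then
            c ⟨i, h⟩ • ((e.symm (b ⟨i, h⟩) : W) : E) else 0 := by
        rw [Finset.sum_range]
      rw [h5, h6]
      refine sum_subset (range_subset_range.mpr hD) fun i _ hi => ?_
      rw [mem_range] at hi
      rw [dif_neg hi]

/-- The nonnegative functions in a space of dimension `D + 1` of functions on a finite set have
bounded coordinates with respect to suitable nonnegative functions of average at most one. -/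
theorem frame {X : Type*} [Fintype X] {D : ℕ} (X1 : Finset X) (hne : X1.Nonempty)
    (s : X → Fin (D + 1) → ℝ) :
    ∃ b : Fin (D + 1) → X → ℝ, (∀ i x, 0 ≤ b i x) ∧ (∀ i, ∑ x ∈ X1, b i x ≤ X1.card) ∧
      ∀ a : Fin (D + 1) → ℝ, (∀ x ∈ X1, 0 ≤ ∑ l, a l * s x l) →
        ∃ c : Fin (D + 1) → ℝ, (∀ i, |c i| * X1.card ≤ ∑ x ∈ X1, ∑ l, a l * s x l) ∧
          (∑ i, c i) * X1.card = ∑ x ∈ X1, ∑ l, a l * s x l ∧
          ∀ x ∈ X1, ∑ l, a l * s x l = ∑ i, c i * b i x := by
  classical
  have hN : (0 : ℝ) < X1.card := by exact_mod_cast card_pos.mpr hne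
  let T : (Fin (D + 1) → ℝ) →ₗ[ℝ] (X → ℝ) :=
    { toFun := fun a x => if x ∈ X1 then ∑ l, a l * s x l else 0
      map_add' := by
        intro a a'
        funext x
        simp only [Pi.add_apply]
        split_ifs
        · rw [← sum_add_distrib]; exact sum_congr rfl fun l _ => by ring
        · ring
      map_smul' := by
        intro t a
        funext x
        simp only [Pi.smul_apply, smul_eq_mul, RingHom.id_apply]
        split_ifs
        · rw [mul_sum]; exact sum_congr rfl fun l _ => by ring
        · ring }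
  have hT : ∀ a x, x ∈ X1 → T a x = ∑ l, a l * s x l := fun a x hx => by
    change (if x ∈ X1 then ∑ l, a l * s x l else 0) = _
    rw [if_pos hx]
  have hT0 : ∀ a x, x ∉ X1 → T a x = 0 := fun a x hx => by
    change (if x ∈ X1 then ∑ l, a l * s x l else 0) = _
    rw [if_neg hx]
  have hTsum : ∀ a, ∑ x, T a x = ∑ x ∈ X1, ∑ l, a l * s x l := by
    intro a
    rw [← sum_subset (subset_univ X1) fun x _ hx => hT0 a x hx]
    exact sum_congr rfl fun x hx => hT a x hx
  set W := LinearMap.range T with hW
  set B : Set (X → ℝ) := {v | v ∈ W ∧ (∀ x, 0 ≤ v x) ∧ ∑ x, v x = X1.card} with hB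
  have hBcomp : IsCompact B := by
    have hbox : IsCompact (Set.pi Set.univ fun _ : X => Set.Icc (0 : ℝ) X1.card) :=
      isCompact_univ_pi fun _ => isCompact_Icc
    refine hbox.of_isClosed_subset ?_ ?_
    · have h1 : IsClosed (W : Set (X → ℝ)) := Submodule.closed_of_finiteDimensional W
      have h2 : IsClosed {v : X → ℝ | ∀ x, 0 ≤ v x} := by
        have : {v : X → ℝ | ∀ x, 0 ≤ v x} = ⋂ x, {v : X → ℝ | 0 ≤ v x} := by
          ext v; simp
        rw [this]
        exact isClosed_iInter fun x => isClosed_le continuous_const (continuous_apply x)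
      have h3 : IsClosed {v : X → ℝ | ∑ x, v x = X1.card} :=
        isClosed_eq (continuous_finsetSum _ fun x _ => continuous_apply x) continuous_const
      exact h1.inter (h2.inter h3)
    · intro v hv x _
      refine ⟨hv.2.1 x, ?_⟩
      rw [← hv.2.2]
      exact single_le_sum (f := v) (fun x _ => hv.2.1 x) (mem_univ x)
  have hrank : Module.finrank ℝ (Submodule.span ℝ B) ≤ D + 1 := by
    have h1 : Submodule.span ℝ B ≤ W := Submodule.span_le.mpr fun v hv => hv.1
    have h2 := Submodule.finrank_mono h1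
    have h3 := LinearMap.finrank_range_le T
    rw [Module.finrank_fin_fun] at h3
    exact h2.trans h3
  -- the zero case
  have hzero : ∀ a : Fin (D + 1) → ℝ, (∀ x ∈ X1, 0 ≤ ∑ l, a l * s x l) →
      ∑ x ∈ X1, ∑ l, a l * s x l = 0 → ∀ x ∈ X1, ∑ l, a l * s x l = 0 := by
    intro a ha h0
    exact (sum_eq_zero_iff_of_nonneg ha).mp h0
  -- the normalization
  have hnorm : ∀ a : Fin (D + 1) → ℝ, (∀ x ∈ X1, 0 ≤ ∑ l, a l * s x l) →
      0 < ∑ x ∈ X1, ∑ l, a l * s x l →
      (X1.card / ∑ x ∈ X1, ∑ l, a l * s x l : ℝ) • T a ∈ B := by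
    intro a ha hpos
    refine ⟨W.smul_mem _ (LinearMap.mem_range_self T a), ?_, ?_⟩
    · intro x
      rw [Pi.smul_apply, smul_eq_mul]
      refine mul_nonneg (by positivity) ?_
      by_cases hx : x ∈ X1
      · rw [hT a x hx]; exact ha x hx
      · rw [hT0 a x hx]
    · simp only [Pi.smul_apply, smul_eq_mul]
      rw [← mul_sum, hTsum]
      field_simp
  by_cases hBne : B.Nonempty
  · obtain ⟨b, hb, hc⟩ := spanner B hBcomp hBne hrank
    refine ⟨b, fun i x => (hb i).2.1 x, fun i => ?_, fun a ha => ?_⟩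
    · rw [← (hb i).2.2]
      exact sum_le_sum_of_subset_of_nonneg (subset_univ _) fun x _ _ => (hb i).2.1 x
    · rcases (sum_nonneg ha).lt_or_eq with hpos | h0
      · obtain ⟨c, hc1, hc2⟩ := hc _ (hnorm a ha hpos)
        set Aa : ℝ := ∑ x ∈ X1, ∑ l, a l * s x l with hAa
        have hcsum : ∑ i, c i = 1 := by
          have h1 : ∑ x, (((X1.card : ℝ) / Aa) • T a) x = ∑ x, (∑ i, c i • b i) x := by
            rw [hc2]
          have h2 : ∑ x, (((X1.card : ℝ) / Aa) • T a) x = X1.card := (hnorm a ha hpos).2.2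
          have h3 : ∑ x, (∑ i, c i • b i) x = (∑ i, c i) * X1.card := by
            simp only [Finset.sum_apply, Pi.smul_apply, smul_eq_mul]
            rw [sum_comm, sum_mul]
            refine sum_congr rfl fun i _ => ?_
            rw [← mul_sum, (hb i).2.2]
          rw [h2, h3] at h1
          have h4 : (∑ i, c i - 1) * (X1.card : ℝ) = 0 := by linarith
          rcases mul_eq_zero.mp h4 with h5 | h5
          · linarith
          · exact absurd h5 hN.ne'
        refine ⟨fun i => Aa / X1.card * c i, fun i => ?_, ?_, fun x hx => ?_⟩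
        · rw [abs_mul, abs_of_pos (div_pos hpos hN)]
          have h1 : Aa / X1.card * |c i| * X1.card = Aa * |c i| := by field_simp
          rw [h1]
          exact mul_le_of_le_one_right hpos.le (hc1 i)
        · rw [← mul_sum, hcsum]; field_simp
        · have h1 := congrFun hc2 x
          rw [Pi.smul_apply, smul_eq_mul, hT a x hx, Finset.sum_apply] at h1
          simp only [Pi.smul_apply, smul_eq_mul] at h1
          have h2 : ∑ l, a l * s x l = Aa / X1.card * (X1.card / Aa * ∑ l, a l * s x l) := by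
            field_simp
          rw [h2, h1, mul_sum]
          exact sum_congr rfl fun i _ => by ring
      · refine ⟨fun _ => 0, fun i => ?_, ?_, fun x hx => ?_⟩
        · rw [abs_zero, zero_mul]; exact h0.le
        · rw [sum_const_zero, zero_mul]; exact h0
        · rw [hzero a ha h0.symm x hx]; simp
  · refine ⟨fun _ _ => 0, fun _ _ => le_refl _, fun i => by simp, fun a ha => ?_⟩
    have h0 : ∑ x ∈ X1, ∑ l, a l * s x l = 0 := by
      rcases (sum_nonneg ha).lt_or_eq with hpos | h0
      · exact absurd ⟨_, hnorm a ha hpos⟩ hBne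
      · exact h0.symm
    refine ⟨fun _ => 0, fun i => ?_, ?_, fun x hx => ?_⟩
    · rw [abs_zero, zero_mul, h0]
    · rw [sum_const_zero, zero_mul, h0]
    · rw [hzero a ha h0 x hx]; simp

end Pool.Agent.TH661.LPX
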