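import Pool.Agent.TH661.LPX.Mom
import Pool.Agent.TH661.LPX.Frame

/-!
Truncated parity densities: violations for families of functions.
-/

set_option autoImplicit false

namespace Pool.Agent.TH661.LPX

open Finset

section fam

variable {X J A : Type*} [Fintype X] [Fintype J] [DecidableEq J]

/-- `E` violates the smallness of correlations for some function of the family `𝓑`, conditioned
by `h`. -/
def VF (y : A → X → ℝ) (ω : J → A) (δ θ : ℝ) (𝓑 : Set (X → ℝ)) (E : Finset J) (h : X → ℝ) :
    Prop :=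
  ∃ v ∈ 𝓑, δ < av (fun x => h x * v x) ∧
    θ ^ E.card * av (fun x => h x * v x) < |co y ω (fun x => h x * v x) E|

/-- There is a chain of violations of total size more than `c`. -/
inductive BadF (y : A → X → ℝ) (ω : J → A) (δ θ : ℝ) (L1 : ℕ) (𝓑 : Set (X → ℝ)) :
    ℕ → Finset J → (X → ℝ) → Prop
  | stop {c : ℕ} {S E : Finset J} {h : X → ℝ} (hS : E ⊆ S) (hne : E.Nonempty)
      (hL : E.card ≤ L1) (hv : VF y ω δ θ 𝓑 E h) (hc : c < E.card) : BadF y ω δ θ L1 𝓑 c S h
  | step {c : ℕ} {S E : Finset J} {h : X → ℝ} (hS : E ⊆ S) (hne : E.Nonempty)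
      (hL : E.card ≤ L1) (hv : VF y ω δ θ 𝓑 E h) (hc : E.card ≤ c)
      (hb : BadF y ω δ θ L1 𝓑 (c - E.card) (S \ E) (up y ω E h)) : BadF y ω δ θ L1 𝓑 c S h

variable {y : A → X → ℝ}

omit [Fintype J] in
theorem exists_of_not_badF (ω : J → A) (δ θ : ℝ) (L1 : ℕ) (𝓑 : Set (X → ℝ)) (c : ℕ) :
    ∀ (S : Finset J) (h : X → ℝ), ¬ BadF y ω δ θ L1 𝓑 c S h →
      ∃ F ⊆ S, F.card ≤ c ∧
        ∀ E ⊆ S \ F, E.Nonempty → E.card ≤ L1 → ¬ VF y ω δ θ 𝓑 E (up y ω F h) := by
  induction c using Nat.strong_induction_on with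
  | _ c ih =>
    intro S h hB
    by_cases hv : ∃ E ⊆ S, E.Nonempty ∧ E.card ≤ L1 ∧ VF y ω δ θ 𝓑 E h
    · obtain ⟨E, hES, hEne, hEL, hEv⟩ := hv
      have hc : E.card ≤ c := by
        by_contra hcon
        exact hB (BadF.stop hES hEne hEL hEv (not_le.mp hcon))
      have hpos : 0 < E.card := card_pos.mpr hEne
      obtain ⟨F, hFS, hFc, hF⟩ := ih (c - E.card) (by omega) (S \ E) (up y ω E h)
        (fun h' => hB (BadF.step hES hEne hEL hEv hc h'))
      have hd : Disjoint E F := by
        rw [Finset.disjoint_left]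
        intro i hi hF
        exact (mem_sdiff.mp (hFS hF)).2 hi
      refine ⟨E ∪ F, union_subset hES (hFS.trans sdiff_subset), ?_, ?_⟩
      · rw [card_union_of_disjoint hd]; omega
      · rw [← up_up ω hd]
        intro E' hE'
        have hset : S \ (E ∪ F) = (S \ E) \ F := by
          ext i; simp only [mem_sdiff, mem_union]; tauto
        rw [hset] at hE'
        exact hF E' hE'
    · refine ⟨∅, empty_subset _, by simp, ?_⟩
      intro E hE hne hL hE2
      rw [up_empty] at hE2
      rw [sdiff_empty] at hE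
      exact hv ⟨E, hE, hne, hL, hE2⟩

/-- The deterministic part. -/
theorem ZF_ge_of_not_bad [Nonempty J] (hy : ∀ a x, |y a x| = 1) (ω : J → A) {δ θ : ℝ}
    {L1 f L : ℕ} (hδ : 0 ≤ δ) (hθ : 0 ≤ θ) (hθM : θ * Fintype.card J ≤ 1 / 2) (hL : L = L1 + f)
    {𝓑 : Set (X → ℝ)} (h𝓑 : ∀ v ∈ 𝓑, ∀ x, 0 ≤ v x)
    (hB : ¬ BadF y ω δ θ L1 𝓑 f univ (fun _ => 1)) {v : X → ℝ} (hv : v ∈ 𝓑) :
    - (δ * NL J L) - RR y ω L1 L v ≤ av (fun x => v x * DL y ω L x) := by
  obtain ⟨F, -, hFc, hF⟩ := exists_of_not_badF ω δ θ L1 𝓑 f univ _ hB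
  have hZ := Z_ge (y := y) ω F v hL hFc
  have hg : ∀ x, 0 ≤ up y ω F v x := up_nonneg hy ω F (h𝓑 v hv)
  have hup : (fun x => up y ω F (fun _ => 1) x * v x) = up y ω F v := by
    funext x; unfold up; ring
  have hsub : (Fᶜ).powerset.filter (fun E => E.card ≤ L1)
      ⊆ univ.filter (fun E : Finset J => E.card ≤ L) := by
    intro E hE
    rw [mem_filter] at hE ⊢
    exact ⟨mem_univ _, by omega⟩
  have hNL : 0 ≤ NL J L := Nat.cast_nonneg _
  by_cases hl : av (up y ω F v) ≤ δ
  · have h1 : |∑ E ∈ (Fᶜ).powerset.filter (fun E => E.card ≤ L1), co y ω (up y ω F v) E|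
        ≤ δ * NL J L := by
      calc |∑ E ∈ (Fᶜ).powerset.filter (fun E => E.card ≤ L1), co y ω (up y ω F v) E|
          ≤ ∑ E ∈ (Fᶜ).powerset.filter (fun E => E.card ≤ L1), |co y ω (up y ω F v) E| :=
            abs_sum_le_sum_abs _ _
        _ ≤ ∑ E ∈ (Fᶜ).powerset.filter (fun E => E.card ≤ L1), δ :=
            sum_le_sum fun E _ => (abs_co_le hy ω hg E).trans hl
        _ ≤ ∑ E ∈ univ.filter (fun E : Finset J => E.card ≤ L), δ :=
            sum_le_sum_of_subset_of_nonneg hsub fun _ _ _ => hδ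
        _ = δ * NL J L := by
            rw [sum_const, nsmul_eq_mul, mul_comm]; rfl
    have := neg_abs_le
      (∑ E ∈ (Fᶜ).powerset.filter (fun E => E.card ≤ L1), co y ω (up y ω F v) E)
    linarith
  · rw [not_le] at hl
    have hpos : 0 ≤ av (up y ω F v) := av_nonneg hg
    have hsplit : ∑ E ∈ (Fᶜ).powerset.filter (fun E => E.card ≤ L1), co y ω (up y ω F v) E
        = av (up y ω F v) +
          ∑ E ∈ ((Fᶜ).powerset.filter (fun E => E.card ≤ L1)).erase ∅,
            co y ω (up y ω F v) E := by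
      rw [← Finset.add_sum_erase _ _ (a := (∅ : Finset J)) (by simp), co_empty]
    have hrest : |∑ E ∈ ((Fᶜ).powerset.filter (fun E => E.card ≤ L1)).erase ∅,
        co y ω (up y ω F v) E| ≤ av (up y ω F v) := by
      calc |∑ E ∈ ((Fᶜ).powerset.filter (fun E => E.card ≤ L1)).erase ∅,
            co y ω (up y ω F v) E|
          ≤ ∑ E ∈ ((Fᶜ).powerset.filter (fun E => E.card ≤ L1)).erase ∅,
            |co y ω (up y ω F v) E| := abs_sum_le_sum_abs _ _
        _ ≤ ∑ E ∈ ((Fᶜ).powerset.filter (fun E => E.card ≤ L1)).erase ∅,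
            θ ^ E.card * av (up y ω F v) := by
            refine sum_le_sum fun E hE => ?_
            rw [mem_erase, mem_filter, mem_powerset] at hE
            by_contra hcon
            rw [not_le] at hcon
            refine hF E ?_ (nonempty_iff_ne_empty.mpr hE.1) hE.2.2 ⟨v, hv, ?_, ?_⟩
            · intro i hi
              exact mem_sdiff.mpr ⟨mem_univ _, mem_compl.mp (hE.2.1 hi)⟩
            · rw [hup]; exact hl
            · rw [hup]; exact hcon
        _ ≤ ∑ E ∈ (univ : Finset J).powerset.filter (fun E => E.Nonempty),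
            θ ^ E.card * av (up y ω F v) := by
            refine sum_le_sum_of_subset_of_nonneg ?_ fun _ _ _ =>
              mul_nonneg (pow_nonneg hθ _) hpos
            intro E hE
            rw [mem_erase] at hE
            rw [mem_filter, mem_powerset]
            exact ⟨subset_univ _, nonempty_iff_ne_empty.mpr hE.1⟩
        _ = (∑ E ∈ (univ : Finset J).powerset.filter (fun E => E.Nonempty),
            θ ^ E.card) * av (up y ω F v) := by rw [sum_mul]
        _ ≤ 1 * av (up y ω F v) :=
            mul_le_mul_of_nonneg_right (sum_nonempty_pow_le univ hθ hθM) hpos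
        _ = av (up y ω F v) := one_mul _
    have := neg_abs_le (∑ E ∈ ((Fᶜ).powerset.filter (fun E => E.card ≤ L1)).erase ∅,
        co y ω (up y ω F v) E)
    have h0 : 0 ≤ δ * NL J L := mul_nonneg hδ hNL
    linarith

omit [Fintype J] [DecidableEq J] in
theorem VF.congr {ω ω' : J → A} {δ θ : ℝ} {𝓑 : Set (X → ℝ)} {E : Finset J} {h : X → ℝ}
    (hv : VF y ω δ θ 𝓑 E h) (hω : ∀ i ∈ E, ω i = ω' i) : VF y ω' δ θ 𝓑 E h := by
  obtain ⟨v, hv1, hv2, hv3⟩ := hv
  refine ⟨v, hv1, hv2, ?_⟩
  rw [← co_congr hω]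
  exact hv3

omit [Fintype J] in
theorem BadF.congr {ω ω' : J → A} {δ θ : ℝ} {L1 c : ℕ} {𝓑 : Set (X → ℝ)} {S : Finset J}
    {h : X → ℝ} (hB : BadF y ω δ θ L1 𝓑 c S h) (hω : ∀ i ∈ S, ω i = ω' i) :
    BadF y ω' δ θ L1 𝓑 c S h := by
  induction hB with
  | stop hS hne hL hv hc => exact BadF.stop hS hne hL (hv.congr fun i hi => hω i (hS hi)) hc
  | step hS hne hL hv hc hb ih =>
    refine BadF.step hS hne hL (hv.congr fun i hi => hω i (hS hi)) hc ?_
    rw [← up_congr (fun i hi => hω i (hS hi))]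
    exact ih (fun i hi => hω i (mem_sdiff.mp hi).1)

variable [Fintype A] [Nonempty A]

/-- The probability of a chain of violations of total size more than `c`. -/
theorem badF_prob (hy : ∀ a x, |y a x| = 1) {δ θ G q W0 a : ℝ} {L1 : ℕ} {𝓑 : Set (X → ℝ)}
    (hW0 : 0 ≤ W0)
    (hW1 : W0 ≤ 1) (ha : 0 ≤ a) (haM : a * Fintype.card J ≤ 1 / 2) (hq : q = a * W0)
    (hviol : ∀ (h : X → ℝ) (E : Finset J), (∀ x, 0 ≤ h x) → (∀ x, h x ≤ G) → E.Nonempty →
      E.card ≤ L1 → av (fun ω : J → A => ind (VF y ω δ θ 𝓑 E h)) ≤ q ^ E.card)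
    (c : ℕ) : ∀ (S : Finset J) (h : X → ℝ), (∀ x, 0 ≤ h x) → (∀ x, h x * 2 ^ c ≤ G) →
      av (fun ω : J → A => ind (BadF y ω δ θ L1 𝓑 c S h)) ≤ W0 ^ (c + 1) := by
  induction c using Nat.strong_induction_on with
  | _ c ih =>
    intro S g hg hG
    have hgG : ∀ x, g x ≤ G := fun x => by
      refine le_trans ?_ (hG x)
      exact le_mul_of_one_le_right (hg x) (one_le_pow₀ (by norm_num))
    -- the union bound
    have h1 : ∀ ω : J → A, ind (BadF y ω δ θ L1 𝓑 c S g) ≤
        ∑ E ∈ S.powerset.filter (fun E => E.Nonempty),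
          (if E.card ≤ L1 then
            (if c < E.card then ind (VF y ω δ θ 𝓑 E g)
            else ind (VF y ω δ θ 𝓑 E g) *
              ind (BadF y ω δ θ L1 𝓑 (c - E.card) (S \ E) (up y ω E g))) else 0) := by
      intro ω
      have hnn : ∀ E ∈ S.powerset.filter (fun E => E.Nonempty), 0 ≤
          (if E.card ≤ L1 then
            (if c < E.card then ind (VF y ω δ θ 𝓑 E g)
            else ind (VF y ω δ θ 𝓑 E g) *
              ind (BadF y ω δ θ L1 𝓑 (c - E.card) (S \ E) (up y ω E g))) else 0) := by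
        intro E _
        split_ifs
        · exact ind_nonneg _
        · exact mul_nonneg (ind_nonneg _) (ind_nonneg _)
        · exact le_refl _
      by_cases hB : BadF y ω δ θ L1 𝓑 c S g
      · rw [ind_true hB]
        cases hB with
        | @stop _ _ E _ hS hne hL hv hc =>
          refine le_trans ?_ (single_le_sum hnn (mem_filter.mpr ⟨mem_powerset.mpr hS, hne⟩))
          rw [if_pos hL, if_pos hc, ind_true hv]
        | @step _ _ E _ hS hne hL hv hc hb =>
          refine le_trans ?_ (single_le_sum hnn (mem_filter.mpr ⟨mem_powerset.mpr hS, hne⟩))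
          rw [if_pos hL, if_neg (not_lt.mpr hc), ind_true hv, ind_true hb, one_mul]
      · rw [ind_false hB]
        exact sum_nonneg hnn
    refine (av_mono h1).trans ?_
    rw [av_sum]
    -- each term
    have h2 : ∀ E ∈ S.powerset.filter (fun E => E.Nonempty),
        av (fun ω : J → A => (if E.card ≤ L1 then
            (if c < E.card then ind (VF y ω δ θ 𝓑 E g)
            else ind (VF y ω δ θ 𝓑 E g) *
              ind (BadF y ω δ θ L1 𝓑 (c - E.card) (S \ E) (up y ω E g))) else 0))
          ≤ a ^ E.card * W0 ^ (c + 1) := by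
      intro E hE
      rw [mem_filter, mem_powerset] at hE
      have hpos : 0 < E.card := card_pos.mpr hE.2
      have hrhs : 0 ≤ a ^ E.card * W0 ^ (c + 1) := mul_nonneg (pow_nonneg ha _) (pow_nonneg hW0 _)
      by_cases hL : E.card ≤ L1
      · by_cases hc : c < E.card
        · simp only [if_pos hL, if_pos hc]
          refine (hviol g E hg hgG hE.2 hL).trans ?_
          rw [hq, mul_pow]
          exact mul_le_mul_of_nonneg_left (pow_le_pow_of_le_one hW0 hW1 (by omega))
            (pow_nonneg ha _)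
        · simp only [if_pos hL, if_neg hc]
          rw [av_mix E]
          have h3 : ∀ ω' : J → A, av (fun ω : J → A =>
              ind (VF y (mix E ω' ω) δ θ 𝓑 E g) *
              ind (BadF y (mix E ω' ω) δ θ L1 𝓑 (c - E.card) (S \ E) (up y (mix E ω' ω) E g)))
              ≤ ind (VF y ω' δ θ 𝓑 E g) * W0 ^ (c - E.card + 1) := by
            intro ω'
            have h4 : ∀ ω : J → A,
                ind (VF y (mix E ω' ω) δ θ 𝓑 E g) *
                ind (BadF y (mix E ω' ω) δ θ L1 𝓑 (c - E.card) (S \ E)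
                  (up y (mix E ω' ω) E g))
                ≤ ind (VF y ω' δ θ 𝓑 E g) *
                ind (BadF y ω δ θ L1 𝓑 (c - E.card) (S \ E) (up y ω' E g)) := by
              intro ω
              rw [up_congr (ω := mix E ω' ω) (ω' := ω') (fun i hi => mix_mem hi)]
              refine mul_le_mul (ind_mono fun h => h.congr fun i hi => mix_mem hi)
                (ind_mono fun h => ?_) (ind_nonneg _) (ind_nonneg _)
              exact h.congr fun i hi => mix_not_mem (mem_sdiff.mp hi).2
            refine (av_mono h4).trans ?_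
            rw [av_mul_left]
            refine mul_le_mul_of_nonneg_left ?_ (ind_nonneg _)
            refine ih (c - E.card) (by omega) (S \ E) (up y ω' E g) (up_nonneg hy ω' E hg) ?_
            intro x
            refine le_trans ?_ (hG x)
            have h5 := prod_one_add_le hy ω' E x
            have h6 : (2 : ℝ) ^ c = 2 ^ E.card * 2 ^ (c - E.card) := by
              rw [← pow_add]; congr 1; omega
            unfold up
            rw [h6, mul_assoc]
            exact mul_le_mul_of_nonneg_left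
              (mul_le_mul_of_nonneg_right h5 (by positivity)) (hg x)
          refine (av_mono h3).trans ?_
          rw [av_mul_right]
          refine (mul_le_mul_of_nonneg_right (hviol g E hg hgG hE.2 hL)
            (pow_nonneg hW0 _)).trans (le_of_eq ?_)
          rw [hq, mul_pow, mul_assoc, ← pow_add]
          congr 2
          omega
      · simp only [if_neg hL]
        rw [show av (fun _ : J → A => (0 : ℝ)) = 0 from av_const 0]
        exact hrhs
    refine (sum_le_sum h2).trans ?_
    rw [← sum_mul]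
    refine (mul_le_mul_of_nonneg_right (sum_nonempty_pow_le S ha haM)
      (pow_nonneg hW0 _)).trans (le_of_eq (one_mul _))

/-- The functions with values in `[0, 1]` in a space of functions. -/
def box (W : Submodule ℝ (X → ℝ)) : Set (X → ℝ) := {v | v ∈ W ∧ ∀ x, 0 ≤ v x ∧ v x ≤ 1}

omit [Fintype J] [DecidableEq J] [Fintype A] [Nonempty A] in
theorem box_compact (W : Submodule ℝ (X → ℝ)) : IsCompact (box W) := by
  have hbox : IsCompact (Set.pi Set.univ fun _ : X => Set.Icc (0 : ℝ) 1) :=
    isCompact_univ_pi fun _ => isCompact_Icc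
  refine hbox.of_isClosed_subset ?_ ?_
  · have h1 : IsClosed (W : Set (X → ℝ)) := Submodule.closed_of_finiteDimensional W
    have h2 : IsClosed {v : X → ℝ | ∀ x, 0 ≤ v x ∧ v x ≤ 1} := by
      have : {v : X → ℝ | ∀ x, 0 ≤ v x ∧ v x ≤ 1}
          = ⋂ x, {v : X → ℝ | 0 ≤ v x} ∩ {v : X → ℝ | v x ≤ 1} := by
        ext v; simp
      rw [this]
      exact isClosed_iInter fun x => (isClosed_le continuous_const (continuous_apply x)).inter
        (isClosed_le (continuous_apply x) continuous_const)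
    exact h1.inter h2
  · intro v hv x _
    exact hv.2 x

omit [Fintype J] [DecidableEq J] [Fintype A] [Nonempty A] in
theorem co_sum {ι : Type*} (s : Finset ι) (y : A → X → ℝ) (ω : J → A) (c : ι → ℝ)
    (b : ι → X → ℝ) (E : Finset J) :
    co y ω (∑ i ∈ s, c i • b i) E = ∑ i ∈ s, c i * co y ω (b i) E := by
  unfold co
  simp_rw [← av_mul_left]
  rw [← av_sum]
  refine av_congr fun x => ?_
  rw [Finset.sum_apply, sum_mul]
  exact sum_congr rfl fun i _ => by rw [Pi.smul_apply, smul_eq_mul]; ring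

omit [Fintype A] [Nonempty A] [DecidableEq J] in
theorem RR_sum {ι : Type*} (s : Finset ι) (y : A → X → ℝ) (ω : J → A) (L1 L : ℕ) (c : ι → ℝ)
    (hc : ∀ i ∈ s, |c i| ≤ 1) (b : ι → X → ℝ) :
    RR y ω L1 L (∑ i ∈ s, c i • b i) ≤ ∑ i ∈ s, RR y ω L1 L (b i) := by
  unfold RR
  rw [sum_comm]
  refine sum_le_sum fun E _ => ?_
  rw [co_sum]
  refine (abs_sum_le_sum_abs _ _).trans (sum_le_sum fun i hi => ?_)
  rw [abs_mul]
  exact mul_le_of_le_one_left (abs_nonneg _) (hc i hi)

/-- The probability of a violation for a finite-dimensional family. -/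
theorem violF_prob [Nonempty X] {k m h D : ℕ} (hm : 0 < m)
    (hK : ∀ (x' : X) (N : ℕ), 1 ≤ N →
      av (fun x => KK y x x' ^ (2 * N)) ≤ ((6 * N / m : ℝ) ^ k) ^ N)
    {β G δ θ : ℝ} (hβ0 : 0 ≤ β) (hβ : (48 * h / m : ℝ) ^ k ≤ β ^ 2) (hδ : 0 < δ) (hθ : 0 < θ)
    (hG : 2 * G ≤ δ * 2 ^ (k * h)) (W : Submodule ℝ (X → ℝ))
    (hW : Module.finrank ℝ W ≤ D + 1) {g : X → ℝ} (hg0 : ∀ x, 0 ≤ g x) (hg1 : ∀ x, g x ≤ G)
    {E : Finset J} (hE : E.Nonempty) (hEh : E.card ≤ h) :
    av (fun ω : J → A => ind (VF y ω δ θ (box W) E g))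
      ≤ ((D + 1) ^ 3 * β / θ ^ 2) ^ E.card := by
  classical
  set 𝓖 : Set (X → ℝ) := (fun v : X → ℝ => (1 / av (fun x => g x * v x)) • fun x => g x * v x) ''
    (box W ∩ {v | δ ≤ av (fun x => g x * v x)}) with h𝓖
  have hcontav : Continuous fun v : X → ℝ => av (fun x => g x * v x) := by
    unfold av
    exact (continuous_finsetSum _ fun x _ => continuous_const.mul (continuous_apply x)).div_const _
  have hcomp : IsCompact 𝓖 := by
    refine IsCompact.image_of_continuousOn ?_ ?_
    · exact (box_compact W).inter_right (isClosed_le continuous_const hcontav)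
    · refine continuousOn_pi.mpr fun x => ?_
      have hc1 : ContinuousOn (fun v : X → ℝ => 1 / av (fun x => g x * v x))
          (box W ∩ {v | δ ≤ av (fun x => g x * v x)}) := by
        refine ContinuousOn.div continuousOn_const hcontav.continuousOn fun v hv => ?_
        have h1 : δ ≤ av (fun x => g x * v x) := hv.2
        exact (lt_of_lt_of_le hδ h1).ne'
      have hc2 : ContinuousOn (fun v : X → ℝ => g x * v x)
          (box W ∩ {v | δ ≤ av (fun x => g x * v x)}) :=
        (continuous_const.mul (continuous_apply x)).continuousOn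
      exact hc1.mul hc2
  have hGpos : ∀ v ∈ box W, ∀ x, 0 ≤ g x * v x := fun v hv x => mul_nonneg (hg0 x) (hv.2 x).1
  by_cases hne : 𝓖.Nonempty
  · -- the dimension
    have hrank : Module.finrank ℝ (Submodule.span ℝ 𝓖) ≤ D + 1 := by
      let T : (X → ℝ) →ₗ[ℝ] (X → ℝ) :=
        { toFun := fun v x => g x * v x
          map_add' := by intro v w; funext x; simp only [Pi.add_apply]; ring
          map_smul' := by
            intro t v; funext x
            simp only [Pi.smul_apply, smul_eq_mul, RingHom.id_apply]; ring }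
      have h1 : Submodule.span ℝ 𝓖 ≤ W.map T := by
        refine Submodule.span_le.mpr ?_
        rintro _ ⟨v, hv, rfl⟩
        refine (W.map T).smul_mem _ ?_
        exact Submodule.mem_map.mpr ⟨v, hv.1.1, rfl⟩
      have h2 := Submodule.finrank_mono h1
      have h3 := Submodule.finrank_map_le T W
      omega
    obtain ⟨b, hb, hc⟩ := spanner 𝓖 hcomp hne hrank
    have hbprop : ∀ i, (∀ x, 0 ≤ b i x) ∧ (∀ x, b i x ≤ G / δ) ∧ av (b i) = 1 := by
      intro i
      obtain ⟨v, hv, hvb⟩ := hb i
      have hpos : 0 < av (fun x => g x * v x) := lt_of_lt_of_le hδ hv.2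
      have hbi : ∀ x, b i x = 1 / av (fun x => g x * v x) * (g x * v x) := fun x => by
        rw [← hvb]; rfl
      refine ⟨fun x => ?_, fun x => ?_, ?_⟩
      · rw [hbi]; exact mul_nonneg (by positivity) (hGpos v hv.1 x)
      · rw [hbi, one_div_mul_eq_div]
        have h1 : g x * v x ≤ G := by
          have := (hv.1.2 x).2
          have := (hv.1.2 x).1
          nlinarith [hg0 x, hg1 x]
        exact div_le_div₀ ((hg0 x).trans (hg1 x)) h1 hδ hv.2
      · rw [av_congr hbi, av_mul_left]
        field_simp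
    have hsecond : ∀ i, av (fun ω : J → A => co y ω (b i) E ^ 2) ≤ β ^ E.card := by
      intro i
      rw [second_moment]
      have h1 := kernel_weight (δ := 1 / 2) (G := G / δ) hm hK hβ0 hβ (by norm_num)
        (by
          rw [div_le_iff₀ hδ]
          calc G ≤ δ * 2 ^ (k * h) / 2 := by linarith
            _ = 1 / 2 * 2 ^ (k * h) * δ := by ring)
        (hbprop i).1 (hbprop i).2.1 (by rw [(hbprop i).2.2]; norm_num)
        (card_pos.mpr hE) hEh
      rw [(hbprop i).2.2, one_pow, mul_one] at h1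
      exact h1
    have hθE : 0 < θ ^ E.card / (D + 1) := by positivity
    have h1 : ∀ ω : J → A, ind (VF y ω δ θ (box W) E g)
        ≤ ∑ i, ind ((θ ^ E.card / (D + 1)) ^ 2 < co y ω (b i) E ^ 2) := by
      intro ω
      by_cases hV : VF y ω δ θ (box W) E g
      · obtain ⟨v, hv, hv1, hv2⟩ := hV
        have hpos : 0 < av (fun x => g x * v x) := hδ.trans hv1
        obtain ⟨c, hc1, hc2⟩ := hc _ ⟨v, ⟨hv, hv1.le⟩, rfl⟩
        have h2 : θ ^ E.card < |co y ω ((1 / av (fun x => g x * v x)) • fun x => g x * v x) E| := by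
          have h3 : co y ω ((1 / av (fun x => g x * v x)) • fun x => g x * v x) E
              = 1 / av (fun x => g x * v x) * co y ω (fun x => g x * v x) E := by
            unfold co
            rw [← av_mul_left]
            refine av_congr fun x => ?_
            rw [Pi.smul_apply, smul_eq_mul]; ring
          rw [h3, abs_mul, abs_of_pos (by positivity : 0 < 1 / av (fun x => g x * v x)),
            one_div_mul_eq_div, lt_div_iff₀ hpos]
          exact hv2
        have hc2' : (1 / av (fun x => g x * v x)) • (fun x => g x * v x) = ∑ i, c i • b i := hc2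
        rw [hc2', co_sum] at h2
        have h4 : ∃ i, θ ^ E.card / (D + 1) < |co y ω (b i) E| := by
          by_contra hcon
          push Not at hcon
          have h5 : |∑ i, c i * co y ω (b i) E| ≤ ∑ _i : Fin (D + 1), θ ^ E.card / (D + 1) := by
            refine (abs_sum_le_sum_abs _ _).trans (sum_le_sum fun i _ => ?_)
            rw [abs_mul]
            exact (mul_le_of_le_one_left (abs_nonneg _) (hc1 i)).trans (hcon i)
          rw [sum_const, card_univ, Fintype.card_fin, nsmul_eq_mul] at h5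
          have h6 : ((D + 1 : ℕ) : ℝ) * (θ ^ E.card / (D + 1)) = θ ^ E.card := by
            push_cast; field_simp
          rw [h6] at h5
          linarith
        obtain ⟨i, hi⟩ := h4
        have h7 : (θ ^ E.card / (D + 1)) ^ 2 < co y ω (b i) E ^ 2 := by
          rw [← sq_abs (co y ω (b i) E)]
          exact pow_lt_pow_left₀ hi hθE.le (by norm_num)
        refine (ind_le_one _).trans ?_
        have h0 : (1 : ℝ) = ind ((θ ^ E.card / (D + 1)) ^ 2 < co y ω (b i) E ^ 2) :=
          (ind_true h7).symm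
        refine h0.le.trans ?_
        exact single_le_sum
          (f := fun i => ind ((θ ^ E.card / (D + 1)) ^ 2 < co y ω (b i) E ^ 2))
          (fun _ _ => ind_nonneg _) (mem_univ i)
      · rw [ind_false hV]; exact sum_nonneg fun _ _ => ind_nonneg _
    refine (av_mono h1).trans ?_
    rw [av_sum]
    have h8 : ∀ i, av (fun ω : J → A => ind ((θ ^ E.card / (D + 1)) ^ 2 < co y ω (b i) E ^ 2))
        ≤ (D + 1) ^ 2 * (β / θ ^ 2) ^ E.card := by
      intro i
      refine (av_ind_lt_le (fun ω => sq_nonneg _) (by positivity)).trans ?_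
      rw [div_le_iff₀ (by positivity)]
      refine (hsecond i).trans (le_of_eq ?_)
      rw [div_pow, div_pow, ← pow_mul, ← pow_mul, mul_comm 2 E.card]
      field_simp
    refine (sum_le_sum fun i _ => h8 i).trans ?_
    rw [sum_const, card_univ, Fintype.card_fin, nsmul_eq_mul]
    have h9 : ((D : ℝ) + 1) ^ 3 ≤ (((D : ℝ) + 1) ^ 3) ^ E.card := by
      refine le_self_pow₀ ?_ (card_pos.mpr hE).ne'
      exact one_le_pow₀ (by
        have : (0 : ℝ) ≤ D := Nat.cast_nonneg _
        linarith)
    calc ((D + 1 : ℕ) : ℝ) * ((D + 1) ^ 2 * (β / θ ^ 2) ^ E.card)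
        = ((D : ℝ) + 1) ^ 3 * (β / θ ^ 2) ^ E.card := by push_cast; ring
      _ ≤ (((D : ℝ) + 1) ^ 3) ^ E.card * (β / θ ^ 2) ^ E.card :=
          mul_le_mul_of_nonneg_right h9 (by positivity)
      _ = ((D + 1) ^ 3 * β / θ ^ 2) ^ E.card := by rw [← mul_pow]; congr 1; ring
  · have h1 : ∀ ω : J → A, ind (VF y ω δ θ (box W) E g) = 0 := by
      intro ω
      refine ind_false ?_
      rintro ⟨v, hv, hv1, -⟩
      exact hne ⟨_, v, ⟨hv, hv1.le⟩, rfl⟩
    rw [av_congr h1, show av (fun _ : J → A => (0 : ℝ)) = 0 from av_const 0]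
    positivity

/-- The truncated density is almost nonnegative on all functions of a finite-dimensional family,
except with small probability. -/
theorem ZF_prob [Nonempty J] (hy : ∀ a x, |y a x| = 1) {δ θ q W0 a ρ τ : ℝ} {L1 f L D : ℕ}
    (hL : L = L1 + f) (hδ : 0 ≤ δ) (hθ : 0 ≤ θ) (hθM : θ * Fintype.card J ≤ 1 / 2)
    (hW0 : 0 ≤ W0) (hW1 : W0 ≤ 1) (ha : 0 ≤ a) (haM : a * Fintype.card J ≤ 1 / 2)
    (hq : q = a * W0) (W : Submodule ℝ (X → ℝ)) (hW : Module.finrank ℝ W ≤ D + 1)
    (hviol : ∀ (h : X → ℝ) (E : Finset J), (∀ x, 0 ≤ h x) → (∀ x, h x ≤ 2 ^ f) → E.Nonempty →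
      E.card ≤ L1 → av (fun ω : J → A => ind (VF y ω δ θ (box W) E h)) ≤ q ^ E.card)
    (hρ0 : 0 ≤ ρ)
    (hρ : ∀ v : X → ℝ, (∀ x, 0 ≤ v x) → (∀ x, v x ≤ 1) →
      ∀ E : Finset J, E.card ≤ L → av (fun ω : J → A => |co y ω v E|) ≤ ρ ^ E.card)
    (h2 : 2 * Fintype.card J * ρ ≤ 1) (hτ : 0 < τ) :
    av (fun ω : J → A =>
        ind (∃ v ∈ box W, av (fun x => v x * DL y ω L x) < - (δ * NL J L) - τ)) ≤
      W0 ^ (f + 1) + (D + 1) ^ 2 * (2 * Fintype.card J * ρ) ^ (L1 + 1) / τ := by
  have hzero : (0 : X → ℝ) ∈ box W := ⟨W.zero_mem, fun x => ⟨le_refl _, zero_le_one⟩⟩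
  have hrank : Module.finrank ℝ (Submodule.span ℝ (box W)) ≤ D + 1 := by
    have h1 : Submodule.span ℝ (box W) ≤ W := Submodule.span_le.mpr fun v hv => hv.1
    exact (Submodule.finrank_mono h1).trans hW
  obtain ⟨b, hb, hc⟩ := spanner (box W) (box_compact W) ⟨0, hzero⟩ hrank
  have hDpos : (0 : ℝ) < D + 1 := by positivity
  have h1 : ∀ ω : J → A,
      ind (∃ v ∈ box W, av (fun x => v x * DL y ω L x) < - (δ * NL J L) - τ) ≤
      ind (BadF y ω δ θ L1 (box W) f univ (fun _ => 1)) +
        ∑ i, ind (τ / (D + 1) < RR y ω L1 L (b i)) := by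
    intro ω
    have hnn : 0 ≤ ∑ i, ind (τ / (D + 1) < RR y ω L1 L (b i)) :=
      sum_nonneg fun _ _ => ind_nonneg _
    by_cases hB : BadF y ω δ θ L1 (box W) f univ (fun _ => 1)
    · rw [ind_true hB]
      linarith [ind_le_one (∃ v ∈ box W, av (fun x => v x * DL y ω L x) < - (δ * NL J L) - τ)]
    · rw [ind_false hB, zero_add]
      by_cases hR : ∃ i, τ / (D + 1) < RR y ω L1 L (b i)
      · obtain ⟨i, hi⟩ := hR
        refine (ind_le_one _).trans ?_
        have h0 : (1 : ℝ) = ind (τ / (D + 1) < RR y ω L1 L (b i)) := (ind_true hi).symm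
        refine h0.le.trans ?_
        exact single_le_sum (f := fun i => ind (τ / (D + 1) < RR y ω L1 L (b i)))
          (fun _ _ => ind_nonneg _) (mem_univ i)
      · push Not at hR
        have h3 : ¬ ∃ v ∈ box W, av (fun x => v x * DL y ω L x) < - (δ * NL J L) - τ := by
          rintro ⟨v, hv, hv1⟩
          have h4 := ZF_ge_of_not_bad hy ω hδ hθ hθM hL (fun v hv x => (hv.2 x).1) hB hv
          obtain ⟨c, hc1, hc2⟩ := hc v hv
          have h5 : RR y ω L1 L v ≤ ∑ i, RR y ω L1 L (b i) := by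
            conv_lhs => rw [hc2]
            exact RR_sum univ y ω L1 L c (fun i _ => hc1 i) b
          have h6 : ∑ i, RR y ω L1 L (b i) ≤ ∑ _i : Fin (D + 1), τ / (D + 1) :=
            sum_le_sum fun i _ => hR i
          rw [sum_const, card_univ, Fintype.card_fin, nsmul_eq_mul] at h6
          have h7 : ((D + 1 : ℕ) : ℝ) * (τ / (D + 1)) = τ := by push_cast; field_simp
          rw [h7] at h6
          linarith
        rw [ind_false h3]
        exact hnn
  refine (av_mono h1).trans ?_
  rw [av_add]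
  refine add_le_add ?_ ?_
  · exact badF_prob hy hW0 hW1 ha haM hq hviol f univ _ (fun _ => zero_le_one) fun x => by
      rw [one_mul]
  · rw [av_sum]
    have h3 : ∀ i, av (fun ω : J → A => ind (τ / (D + 1) < RR y ω L1 L (b i)))
        ≤ (D + 1) * ((2 * Fintype.card J * ρ) ^ (L1 + 1) / τ) := by
      intro i
      refine (av_ind_lt_le (fun ω => ?_) (by positivity)).trans ?_
      · unfold RR; exact sum_nonneg fun _ _ => abs_nonneg _
      · have h4 := RR_prob (J := J) (A := A) (L1 := L1) (L := L) hρ0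
          (hρ (b i) (fun x => ((hb i).2 x).1) (fun x => ((hb i).2 x).2)) h2
        calc av (fun ω : J → A => RR y ω L1 L (b i)) / (τ / (D + 1))
            ≤ (2 * Fintype.card J * ρ) ^ (L1 + 1) / (τ / (D + 1)) :=
              div_le_div_of_nonneg_right h4 (by positivity)
          _ = (D + 1) * ((2 * Fintype.card J * ρ) ^ (L1 + 1) / τ) := by field_simp
    refine (sum_le_sum fun i _ => h3 i).trans (le_of_eq ?_)
    rw [sum_const, card_univ, Fintype.card_fin, nsmul_eq_mul]
    push_cast; ring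

end fam

end Pool.Agent.TH661.LPX
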