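import Pool.Agent.TH661.LPX.Odd
import Pool.Agent.TH661.LPX.Fam

/-!
Chains of violations in a random hypergraph.
-/

set_option autoImplicit false

namespace Pool.Agent.TH661.LPX

open Finset

section chain

variable {J : Type*} [DecidableEq J] {k m : ℕ}

/-- `E` violates the smallness of the Fourier coefficients for some function of the family `𝓑`,
conditioned by `h`. -/
def VH (H : J → Fin k → Fin m) (δ a : ℝ) (𝓑 : Set ((Fin k → Fin m → Bool) → ℝ)) (E : Finset J)
    (h : (Fin k → Fin m → Bool) → ℝ) : Prop :=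
  ∃ v ∈ 𝓑, δ ≤ av (fun x => h x * v x) ∧
    a ^ nS (SE H E) * av (fun x => h x * v x) ^ 2 < fc (fun x => h x * v x) (SE H E) ^ 2

/-- The signs given by a set. -/
def bs (P : Finset J) : J → Bool := fun i => decide (i ∈ P)

/-- There is a chain of violations of total size more than `c`, for some signs. -/
inductive BadH (H : J → Fin k → Fin m) (δ a : ℝ) (L1 : ℕ)
    (𝓑 : Set ((Fin k → Fin m → Bool) → ℝ)) :
    ℕ → Finset J → ((Fin k → Fin m → Bool) → ℝ) → Prop
  | stop {c : ℕ} {S E : Finset J} {h : (Fin k → Fin m → Bool) → ℝ} (hS : E ⊆ S)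
      (hne : E.Nonempty) (hL : E.card ≤ L1) (hv : VH H δ a 𝓑 E h) (hc : c < E.card) :
      BadH H δ a L1 𝓑 c S h
  | step {c : ℕ} {S E P : Finset J} {h : (Fin k → Fin m → Bool) → ℝ} (hS : E ⊆ S) (hP : P ⊆ E)
      (hne : E.Nonempty) (hL : E.card ≤ L1) (hv : VH H δ a 𝓑 E h) (hc : E.card ≤ c)
      (hb : BadH H δ a L1 𝓑 (c - E.card) (S \ E) (up yx (pr H (bs P)) E h)) :
      BadH H δ a L1 𝓑 c S h

theorem up_bs (H : J → Fin k → Fin m) (σ : J → Bool) (F : Finset J)
    (h : (Fin k → Fin m → Bool) → ℝ) :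
    up yx (pr H (bs (F.filter fun i => σ i = true))) F h = up yx (pr H σ) F h := by
  refine up_congr (fun i hi => ?_) h
  unfold pr bs
  refine Prod.ext rfl ?_
  simp only [mem_filter, hi, true_and]
  cases σ i <;> simp

theorem exists_of_not_badH (H : J → Fin k → Fin m) (σ : J → Bool) (δ a : ℝ) (L1 : ℕ)
    (𝓑 : Set ((Fin k → Fin m → Bool) → ℝ)) (c : ℕ) :
    ∀ (S : Finset J) (h : (Fin k → Fin m → Bool) → ℝ), ¬ BadH H δ a L1 𝓑 c S h →
      ∃ F ⊆ S, F.card ≤ c ∧
        ∀ E ⊆ S \ F, E.Nonempty → E.card ≤ L1 → ¬ VH H δ a 𝓑 E (up yx (pr H σ) F h) := by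
  induction c using Nat.strong_induction_on with
  | _ c ih =>
    intro S h hB
    by_cases hv : ∃ E ⊆ S, E.Nonempty ∧ E.card ≤ L1 ∧ VH H δ a 𝓑 E h
    · obtain ⟨E, hES, hEne, hEL, hEv⟩ := hv
      have hc : E.card ≤ c := by
        by_contra hcon
        exact hB (BadH.stop hES hEne hEL hEv (not_le.mp hcon))
      have hpos : 0 < E.card := card_pos.mpr hEne
      obtain ⟨F, hFS, hFc, hF⟩ := ih (c - E.card) (by omega) (S \ E) (up yx (pr H σ) E h)
        (fun h' => hB (BadH.step (P := E.filter fun i => σ i = true) hES (filter_subset _ _)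
          hEne hEL hEv hc (by rw [up_bs]; exact h')))
      have hd : Disjoint E F := by
        rw [Finset.disjoint_left]
        intro i hi hF
        exact (mem_sdiff.mp (hFS hF)).2 hi
      refine ⟨E ∪ F, union_subset hES (hFS.trans sdiff_subset), ?_, ?_⟩
      · rw [card_union_of_disjoint hd]; omega
      · rw [← up_up _ hd]
        intro E' hE'
        have hset : S \ (E ∪ F) = (S \ E) \ F := by
          ext i; simp only [mem_sdiff, mem_union]; tauto
        rw [hset] at hE'
        exact hF E' hE'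
    · refine ⟨∅, empty_subset _, by simp, ?_⟩
      intro E hE hne hL hE2
      rw [up_empty] at hE2
      rw [sdiff_empty] at hE
      exact hv ⟨E, hE, hne, hL, hE2⟩

omit [DecidableEq J] in
theorem SE_congr {H H' : J → Fin k → Fin m} {E : Finset J} (hH : ∀ i ∈ E, H i = H' i) :
    SE H E = SE H' E := by
  funext j
  unfold SE os
  congr 1
  funext v
  congr 1
  congr 1
  refine filter_congr fun i' hi' => ?_
  simp only
  rw [hH i' hi']

omit [DecidableEq J] in
theorem VH.congr {H H' : J → Fin k → Fin m} {δ a : ℝ} {𝓑 : Set ((Fin k → Fin m → Bool) → ℝ)}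
    {E : Finset J} {h : (Fin k → Fin m → Bool) → ℝ} (hv : VH H δ a 𝓑 E h)
    (hH : ∀ i ∈ E, H i = H' i) : VH H' δ a 𝓑 E h := by
  obtain ⟨v, hv1, hv2, hv3⟩ := hv
  rw [SE_congr hH] at hv3
  exact ⟨v, hv1, hv2, hv3⟩

omit [DecidableEq J] in
theorem pr_congr {H H' : J → Fin k → Fin m} {i : J} (σ : J → Bool) (hH : H i = H' i) :
    pr H σ i = pr H' σ i := by
  unfold pr; rw [hH]

theorem BadH.congr {H H' : J → Fin k → Fin m} {δ a : ℝ} {L1 c : ℕ}
    {𝓑 : Set ((Fin k → Fin m → Bool) → ℝ)} {S : Finset J}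
    {h : (Fin k → Fin m → Bool) → ℝ} (hB : BadH H δ a L1 𝓑 c S h)
    (hH : ∀ i ∈ S, H i = H' i) : BadH H' δ a L1 𝓑 c S h := by
  induction hB with
  | stop hS hne hL hv hc => exact BadH.stop hS hne hL (hv.congr fun i hi => hH i (hS hi)) hc
  | step hS hP hne hL hv hc hb ih =>
    refine BadH.step hS hP hne hL (hv.congr fun i hi => hH i (hS hi)) hc ?_
    rw [← up_congr (fun i hi => pr_congr _ (hH i (hS hi)))]
    exact ih (fun i hi => hH i (mem_sdiff.mp hi).1)

variable [Fintype J]

/-- The probability of a chain of violations of total size more than `c`. -/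
theorem badH_prob (hm : 0 < m) {δ a G q W0 α : ℝ} {L1 : ℕ}
    {𝓑 : Set ((Fin k → Fin m → Bool) → ℝ)} (hW0 : 0 ≤ W0) (hW1 : W0 ≤ 1) (hα : 0 ≤ α)
    (hαM : 2 * α * Fintype.card J ≤ 1 / 2) (hq : q = α * W0)
    (hviol : ∀ (h : (Fin k → Fin m → Bool) → ℝ) (E : Finset J), (∀ x, 0 ≤ h x) →
      (∀ x, h x ≤ G) → E.Nonempty → E.card ≤ L1 →
      av (fun H : J → Fin k → Fin m => ind (VH H δ a 𝓑 E h)) ≤ q ^ E.card)
    (c : ℕ) : ∀ (S : Finset J) (h : (Fin k → Fin m → Bool) → ℝ), (∀ x, 0 ≤ h x) →
      (∀ x, h x * 2 ^ c ≤ G) →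
      av (fun H : J → Fin k → Fin m => ind (BadH H δ a L1 𝓑 c S h)) ≤ W0 ^ (c + 1) := by
  have : NeZero m := ⟨by omega⟩
  induction c using Nat.strong_induction_on with
  | _ c ih =>
    intro S g hg hG
    have hgG : ∀ x, g x ≤ G := fun x => by
      refine le_trans ?_ (hG x)
      exact le_mul_of_one_le_right (hg x) (one_le_pow₀ (by norm_num))
    have hq0 : 0 ≤ q := by rw [hq]; positivity
    -- the union bound
    have h1 : ∀ H : J → Fin k → Fin m, ind (BadH H δ a L1 𝓑 c S g) ≤
        ∑ E ∈ S.powerset.filter (fun E => E.Nonempty),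
          (if E.card ≤ L1 then
            (if c < E.card then ind (VH H δ a 𝓑 E g)
            else ∑ P ∈ E.powerset, ind (VH H δ a 𝓑 E g) *
              ind (BadH H δ a L1 𝓑 (c - E.card) (S \ E) (up yx (pr H (bs P)) E g))) else 0) := by
      intro H
      have hnn2 : ∀ E : Finset J, ∀ P ∈ E.powerset, 0 ≤ ind (VH H δ a 𝓑 E g) *
              ind (BadH H δ a L1 𝓑 (c - E.card) (S \ E) (up yx (pr H (bs P)) E g)) :=
        fun E P _ => mul_nonneg (ind_nonneg _) (ind_nonneg _)
      have hnn : ∀ E ∈ S.powerset.filter (fun E => E.Nonempty), 0 ≤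
          (if E.card ≤ L1 then
            (if c < E.card then ind (VH H δ a 𝓑 E g)
            else ∑ P ∈ E.powerset, ind (VH H δ a 𝓑 E g) *
              ind (BadH H δ a L1 𝓑 (c - E.card) (S \ E) (up yx (pr H (bs P)) E g))) else 0) := by
        intro E _
        split_ifs
        · exact ind_nonneg _
        · exact sum_nonneg (hnn2 E)
        · exact le_refl _
      by_cases hB : BadH H δ a L1 𝓑 c S g
      · rw [ind_true hB]
        cases hB with
        | @stop _ _ E _ hS hne hL hv hc =>
          refine le_trans ?_ (single_le_sum hnn (mem_filter.mpr ⟨mem_powerset.mpr hS, hne⟩))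
          rw [if_pos hL, if_pos hc, ind_true hv]
        | @step _ _ E P _ hS hP hne hL hv hc hb =>
          refine le_trans ?_ (single_le_sum hnn (mem_filter.mpr ⟨mem_powerset.mpr hS, hne⟩))
          rw [if_pos hL, if_neg (not_lt.mpr hc)]
          refine le_trans ?_ (single_le_sum (hnn2 E) (mem_powerset.mpr hP))
          rw [ind_true hv, ind_true hb, one_mul]
      · rw [ind_false hB]
        exact sum_nonneg hnn
    refine (av_mono h1).trans ?_
    rw [av_sum]
    -- each term
    have h2 : ∀ E ∈ S.powerset.filter (fun E => E.Nonempty),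
        av (fun H : J → Fin k → Fin m => (if E.card ≤ L1 then
            (if c < E.card then ind (VH H δ a 𝓑 E g)
            else ∑ P ∈ E.powerset, ind (VH H δ a 𝓑 E g) *
              ind (BadH H δ a L1 𝓑 (c - E.card) (S \ E) (up yx (pr H (bs P)) E g))) else 0))
          ≤ (2 * α) ^ E.card * W0 ^ (c + 1) := by
      intro E hE
      rw [mem_filter, mem_powerset] at hE
      have hpos : 0 < E.card := card_pos.mpr hE.2
      have hrhs : 0 ≤ (2 * α) ^ E.card * W0 ^ (c + 1) :=
        mul_nonneg (pow_nonneg (by positivity) _) (pow_nonneg hW0 _)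
      by_cases hL : E.card ≤ L1
      · by_cases hc : c < E.card
        · simp only [if_pos hL, if_pos hc]
          refine (hviol g E hg hgG hE.2 hL).trans ?_
          rw [hq, mul_pow]
          exact mul_le_mul (pow_le_pow_left₀ hα (by linarith) _)
            (pow_le_pow_of_le_one hW0 hW1 (by omega)) (pow_nonneg hW0 _)
            (pow_nonneg (by positivity) _)
        · simp only [if_pos hL, if_neg hc]
          rw [av_sum]
          have h6 : ∀ P ∈ E.powerset, av (fun H : J → Fin k → Fin m =>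
              ind (VH H δ a 𝓑 E g) *
              ind (BadH H δ a L1 𝓑 (c - E.card) (S \ E) (up yx (pr H (bs P)) E g)))
              ≤ q ^ E.card * W0 ^ (c - E.card + 1) := by
            intro P _
            rw [av_mix E]
            have h3 : ∀ H' : J → Fin k → Fin m, av (fun H : J → Fin k → Fin m =>
                ind (VH (mix E H' H) δ a 𝓑 E g) *
                ind (BadH (mix E H' H) δ a L1 𝓑 (c - E.card) (S \ E)
                  (up yx (pr (mix E H' H) (bs P)) E g)))
                ≤ ind (VH H' δ a 𝓑 E g) * W0 ^ (c - E.card + 1) := by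
              intro H'
              have h4 : ∀ H : J → Fin k → Fin m,
                  ind (VH (mix E H' H) δ a 𝓑 E g) *
                  ind (BadH (mix E H' H) δ a L1 𝓑 (c - E.card) (S \ E)
                    (up yx (pr (mix E H' H) (bs P)) E g))
                  ≤ ind (VH H' δ a 𝓑 E g) *
                  ind (BadH H δ a L1 𝓑 (c - E.card) (S \ E) (up yx (pr H' (bs P)) E g)) := by
                intro H
                rw [up_congr (ω := pr (mix E H' H) (bs P)) (ω' := pr H' (bs P))
                  (fun i hi => pr_congr _ (mix_mem hi))]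
                refine mul_le_mul (ind_mono fun h => h.congr fun i hi => mix_mem hi)
                  (ind_mono fun h => ?_) (ind_nonneg _) (ind_nonneg _)
                exact h.congr fun i hi => mix_not_mem (mem_sdiff.mp hi).2
              refine (av_mono h4).trans ?_
              rw [av_mul_left]
              refine mul_le_mul_of_nonneg_left ?_ (ind_nonneg _)
              refine ih (c - E.card) (by omega) (S \ E) (up yx (pr H' (bs P)) E g)
                (up_nonneg abs_yx _ E hg) ?_
              intro x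
              refine le_trans ?_ (hG x)
              have h5 := prod_one_add_le (abs_yx (k := k) (m := m)) (pr H' (bs P)) E x
              have h6 : (2 : ℝ) ^ c = 2 ^ E.card * 2 ^ (c - E.card) := by
                rw [← pow_add]; congr 1; omega
              unfold up
              rw [h6, mul_assoc]
              exact mul_le_mul_of_nonneg_left
                (mul_le_mul_of_nonneg_right h5 (by positivity)) (hg x)
            refine (av_mono h3).trans ?_
            rw [av_mul_right]
            exact mul_le_mul_of_nonneg_right (hviol g E hg hgG hE.2 hL) (pow_nonneg hW0 _)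
          refine (sum_le_sum h6).trans (le_of_eq ?_)
          rw [sum_const, card_powerset, nsmul_eq_mul, hq, mul_pow, mul_pow]
          push_cast
          have h7 : W0 ^ (c + 1) = W0 ^ E.card * W0 ^ (c - E.card + 1) := by
            rw [← pow_add]; congr 1; omega
          rw [h7]; ring
      · simp only [if_neg hL]
        rw [show av (fun _ : J → Fin k → Fin m => (0 : ℝ)) = 0 from av_const 0]
        exact hrhs
    refine (sum_le_sum h2).trans ?_
    rw [← sum_mul]
    refine (mul_le_mul_of_nonneg_right (sum_nonempty_pow_le S (by positivity) hαM)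
      (pow_nonneg hW0 _)).trans (le_of_eq (one_mul _))

omit [DecidableEq J] [Fintype J] in
theorem fc_sum {ι : Type*} (s : Finset ι) (c : ι → ℝ) (b : ι → (Fin k → Fin m → Bool) → ℝ)
    (S : Fin k → Finset (Fin m)) :
    fc (∑ i ∈ s, c i • b i) S = ∑ i ∈ s, c i * fc (b i) S := by
  unfold fc
  simp_rw [← av_mul_left]
  rw [← av_sum]
  refine av_congr fun x => ?_
  rw [Finset.sum_apply, sum_mul]
  exact sum_congr rfl fun i _ => by rw [Pi.smul_apply, smul_eq_mul]; ring

omit [DecidableEq J] [Fintype J] in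
theorem fc_smul (c : ℝ) (b : (Fin k → Fin m → Bool) → ℝ) (S : Fin k → Finset (Fin m)) :
    fc (c • b) S = c * fc b S := by
  unfold fc
  rw [← av_mul_left]
  exact av_congr fun x => by rw [Pi.smul_apply, smul_eq_mul]; ring

omit [DecidableEq J] [Fintype J] in
/-- Normalized spanners of a family of functions. -/
theorem norm_spanner {D : ℕ} (W : Submodule ℝ ((Fin k → Fin m → Bool) → ℝ))
    (hW : Module.finrank ℝ W ≤ D + 1) {g : (Fin k → Fin m → Bool) → ℝ} (hg0 : ∀ x, 0 ≤ g x)
    {G δ : ℝ} (hg1 : ∀ x, g x ≤ G) (hδ : 0 < δ) :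
    (∀ v ∈ box W, ¬ δ ≤ av (fun x => g x * v x)) ∨
    ∃ b : Fin (D + 1) → (Fin k → Fin m → Bool) → ℝ,
      (∀ i, (∀ x, 0 ≤ b i x) ∧ (∀ x, b i x ≤ G / δ) ∧ av (b i) = 1 ∧
        ∃ v ∈ box W, δ ≤ av (fun x => g x * v x) ∧
          (1 / av (fun x => g x * v x)) • (fun x => g x * v x) = b i) ∧
      ∀ v ∈ box W, δ ≤ av (fun x => g x * v x) → ∃ c : Fin (D + 1) → ℝ, (∀ i, |c i| ≤ 1) ∧
        (1 / av (fun x => g x * v x)) • (fun x => g x * v x) = ∑ i, c i • b i := by
  classical
  set 𝓖 : Set ((Fin k → Fin m → Bool) → ℝ) :=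
    (fun v : (Fin k → Fin m → Bool) → ℝ =>
      (1 / av (fun x => g x * v x)) • fun x => g x * v x) ''
    (box W ∩ {v | δ ≤ av (fun x => g x * v x)}) with h𝓖
  have hcontav : Continuous fun v : (Fin k → Fin m → Bool) → ℝ => av (fun x => g x * v x) := by
    unfold av
    exact (continuous_finsetSum _ fun x _ => continuous_const.mul (continuous_apply x)).div_const _
  have hcomp : IsCompact 𝓖 := by
    refine IsCompact.image_of_continuousOn ?_ ?_
    · exact (box_compact W).inter_right (isClosed_le continuous_const hcontav)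
    · refine continuousOn_pi.mpr fun x => ?_
      have hc1 : ContinuousOn (fun v : (Fin k → Fin m → Bool) → ℝ =>
          1 / av (fun x => g x * v x)) (box W ∩ {v | δ ≤ av (fun x => g x * v x)}) := by
        refine ContinuousOn.div continuousOn_const hcontav.continuousOn fun v hv => ?_
        have h1 : δ ≤ av (fun x => g x * v x) := hv.2
        exact (lt_of_lt_of_le hδ h1).ne'
      have hc2 : ContinuousOn (fun v : (Fin k → Fin m → Bool) → ℝ => g x * v x)
          (box W ∩ {v | δ ≤ av (fun x => g x * v x)}) :=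
        (continuous_const.mul (continuous_apply x)).continuousOn
      exact hc1.mul hc2
  have hGpos : ∀ v ∈ box W, ∀ x, 0 ≤ g x * v x := fun v hv x => mul_nonneg (hg0 x) (hv.2 x).1
  by_cases hne : 𝓖.Nonempty
  · right
    -- the dimension
    have hrank : Module.finrank ℝ (Submodule.span ℝ 𝓖) ≤ D + 1 := by
      let T : ((Fin k → Fin m → Bool) → ℝ) →ₗ[ℝ] ((Fin k → Fin m → Bool) → ℝ) :=
        { toFun := fun v x => g x * v x
          map_add' := by intro v w; funext x; simp only [Pi.add_apply]; ring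
          map_smul' := by
            intro t v; funext x
            simp only [Pi.smul_apply, smul_eq_mul, RingHom.id_apply]; ring }
      have h1 : Submodule.span ℝ 𝓖 ≤ W.map T := by
        refine Submodule.span_le.mpr ?_
        rintro _ ⟨v, hv, rfl⟩
        refine (W.map T).smul_mem _ ?_
        exact Submodule.mem_map.mpr ⟨v, hv.1.1, rfl⟩
      have h2 := Submodule.finrank_mono h1
      have h3 := Submodule.finrank_map_le T W
      omega
    obtain ⟨b, hb, hc⟩ := spanner 𝓖 hcomp hne hrank
    refine ⟨b, fun i => ?_, fun v hv hv1 => ?_⟩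
    · obtain ⟨v, hv, hvb⟩ := hb i
      have hpos : 0 < av (fun x => g x * v x) := lt_of_lt_of_le hδ hv.2
      have hbi : ∀ x, b i x = 1 / av (fun x => g x * v x) * (g x * v x) := fun x => by
        rw [← hvb]; rfl
      refine ⟨fun x => ?_, fun x => ?_, ?_, v, hv.1, hv.2, hvb⟩
      · rw [hbi]; exact mul_nonneg (by positivity) (hGpos v hv.1 x)
      · rw [hbi, one_div_mul_eq_div]
        have h1 : g x * v x ≤ G := by
          have := (hv.1.2 x).2
          have := (hv.1.2 x).1
          nlinarith [hg0 x, hg1 x]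
        exact div_le_div₀ ((hg0 x).trans (hg1 x)) h1 hδ hv.2
      · rw [av_congr hbi, av_mul_left]
        field_simp
    · exact hc _ ⟨v, ⟨hv, hv1⟩, rfl⟩
  · left
    intro v hv hv1
    exact hne ⟨_, v, ⟨hv, hv1⟩, rfl⟩

/-- The probability of a violation for a finite-dimensional family. -/
theorem violH_prob (hm : 0 < m) {D L1 : ℕ} {β G δ a : ℝ} (hβ0 : 0 ≤ β) (hδ : 0 < δ) (ha : 0 < a)
    (hmom : ∀ b : (Fin k → Fin m → Bool) → ℝ, (∀ x, 0 ≤ b x) → (∀ x, b x ≤ G / δ) → av b = 1 →
      ∀ E : Finset J, E.Nonempty → E.card ≤ L1 →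
        av (fun H : J → Fin k → Fin m => (1 / a) ^ nS (SE H E) * fc b (SE H E) ^ 2)
          ≤ β ^ E.card)
    (W : Submodule ℝ ((Fin k → Fin m → Bool) → ℝ))
    (hW : Module.finrank ℝ W ≤ D + 1) {g : (Fin k → Fin m → Bool) → ℝ} (hg0 : ∀ x, 0 ≤ g x)
    (hg1 : ∀ x, g x ≤ G) {E : Finset J} (hE : E.Nonempty) (hEL : E.card ≤ L1) :
    av (fun H : J → Fin k → Fin m => ind (VH H δ a (box W) E g))
      ≤ ((D + 1) ^ 2 * β) ^ E.card := by
  have : NeZero m := ⟨by omega⟩
  have hD1 : (0 : ℝ) ≤ D := Nat.cast_nonneg _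
  rcases norm_spanner W hW hg0 hg1 hδ with hno | ⟨b, hb, hc⟩
  · have h1 : ∀ H : J → Fin k → Fin m, ind (VH H δ a (box W) E g) = 0 := by
      intro H
      refine ind_false ?_
      rintro ⟨v, hv, hv1, -⟩
      exact hno v hv hv1
    rw [av_congr h1, show av (fun _ : J → Fin k → Fin m => (0 : ℝ)) = 0 from av_const 0]
    positivity
  · have h1 : ∀ H : J → Fin k → Fin m, ind (VH H δ a (box W) E g)
        ≤ ∑ i, (D + 1) * ((1 / a) ^ nS (SE H E) * fc (b i) (SE H E) ^ 2) := by
      intro H
      by_cases hV : VH H δ a (box W) E g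
      · obtain ⟨v, hv, hv1, hv2⟩ := hV
        have hpos : 0 < av (fun x => g x * v x) := lt_of_lt_of_le hδ hv1
        obtain ⟨c, hc1, hc2⟩ := hc v hv hv1
        have h2 : a ^ nS (SE H E)
            < fc ((1 / av (fun x => g x * v x)) • fun x => g x * v x) (SE H E) ^ 2 := by
          rw [fc_smul, mul_pow, one_div, inv_pow, ← div_eq_inv_mul, lt_div_iff₀ (by positivity)]
          exact hv2
        rw [hc2, fc_sum] at h2
        have h3 : (∑ i, c i * fc (b i) (SE H E)) ^ 2
            ≤ (D + 1) * ∑ i, fc (b i) (SE H E) ^ 2 := by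
          have h4 := Finset.sum_mul_sq_le_sq_mul_sq univ c fun i => fc (b i) (SE H E)
          refine h4.trans (mul_le_mul_of_nonneg_right ?_ (sum_nonneg fun i _ => sq_nonneg _))
          calc ∑ i, c i ^ 2 ≤ ∑ _i : Fin (D + 1), (1 : ℝ) := by
                refine sum_le_sum fun i _ => ?_
                rw [← sq_abs]
                exact pow_le_one₀ (abs_nonneg _) (hc1 i)
            _ = D + 1 := by
                rw [sum_const, card_univ, Fintype.card_fin, nsmul_eq_mul, mul_one]
                push_cast; ring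
        have h5 : 1 ≤ (1 / a) ^ nS (SE H E) * ((D + 1) * ∑ i, fc (b i) (SE H E) ^ 2) := by
          rw [one_div, inv_pow, ← div_eq_inv_mul, le_div_iff₀ (by positivity), one_mul]
          exact (h2.trans_le h3).le
        refine (ind_le_one _).trans (h5.trans (le_of_eq ?_))
        rw [mul_sum, mul_sum]
        exact sum_congr rfl fun i _ => by ring
      · rw [ind_false hV]; exact sum_nonneg fun i _ => by positivity
    refine (av_mono h1).trans ?_
    rw [av_sum]
    have h2 : ∀ i, av (fun H : J → Fin k → Fin m =>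
        (D + 1) * ((1 / a) ^ nS (SE H E) * fc (b i) (SE H E) ^ 2)) ≤ (D + 1) * β ^ E.card := by
      intro i
      rw [av_mul_left]
      exact mul_le_mul_of_nonneg_left
        (hmom (b i) (hb i).1 (hb i).2.1 (hb i).2.2.1 E hE hEL) (by positivity)
    refine (sum_le_sum fun i _ => h2 i).trans ?_
    rw [sum_const, card_univ, Fintype.card_fin, nsmul_eq_mul]
    have h9 : ((D : ℝ) + 1) ^ 2 ≤ (((D : ℝ) + 1) ^ 2) ^ E.card := by
      refine le_self_pow₀ ?_ (card_pos.mpr hE).ne'
      exact one_le_pow₀ (by linarith)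
    calc ((D + 1 : ℕ) : ℝ) * ((D + 1) * β ^ E.card) = ((D : ℝ) + 1) ^ 2 * β ^ E.card := by
          push_cast; ring
      _ ≤ (((D : ℝ) + 1) ^ 2) ^ E.card * β ^ E.card :=
          mul_le_mul_of_nonneg_right h9 (by positivity)
      _ = ((D + 1) ^ 2 * β) ^ E.card := (mul_pow _ _ _).symm

/-- The sum of `x ^ |E|` over the sets with more than `L1` elements. -/
theorem sum_large_pow_le {L1 L : ℕ} {x : ℝ} (hx : 0 ≤ x)
    (h2 : 2 * Fintype.card J * x ≤ 1) :
    ∑ E ∈ univ.filter (fun E : Finset J => L1 < E.card ∧ E.card ≤ L), x ^ E.card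
      ≤ (2 * Fintype.card J * x) ^ (L1 + 1) := by
  by_cases hM : Fintype.card J = 0
  · have : ∀ E ∈ univ.filter (fun E : Finset J => L1 < E.card ∧ E.card ≤ L),
        x ^ E.card ≤ 0 := by
      intro E hE
      rw [mem_filter] at hE
      have := Finset.card_le_univ E
      omega
    refine (sum_nonpos this).trans ?_
    positivity
  have hMpos : (0 : ℝ) < Fintype.card J := by
    exact_mod_cast Nat.pos_of_ne_zero hM
  have hbase : 0 ≤ 2 * Fintype.card J * x := by positivity
  have h3 : ∀ E ∈ univ.filter (fun E : Finset J => L1 < E.card ∧ E.card ≤ L),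
      x ^ E.card ≤
        (2 * Fintype.card J * x) ^ (L1 + 1) * (1 / (2 * Fintype.card J)) ^ E.card := by
    intro E hE
    rw [mem_filter] at hE
    have h4 : x ^ E.card
        = (2 * Fintype.card J * x) ^ E.card * (1 / (2 * Fintype.card J)) ^ E.card := by
      rw [← mul_pow]; congr 1; field_simp
    rw [h4]
    refine mul_le_mul_of_nonneg_right (pow_le_pow_of_le_one hbase h2 (by omega)) (by positivity)
  refine (sum_le_sum h3).trans ?_
  rw [← mul_sum]
  have h5 : ∑ E ∈ univ.filter (fun E : Finset J => L1 < E.card ∧ E.card ≤ L),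
      (1 / (2 * (Fintype.card J : ℝ))) ^ E.card ≤ 1 := by
    refine le_trans ?_ (sum_nonempty_pow_le (univ : Finset J)
      (a := 1 / (2 * (Fintype.card J : ℝ))) (by positivity) ?_)
    · refine sum_le_sum_of_subset_of_nonneg ?_ fun _ _ _ => by positivity
      intro E hE
      rw [mem_filter] at hE
      rw [mem_filter, mem_powerset]
      exact ⟨subset_univ _, card_pos.mp (by omega)⟩
    · rw [div_mul_eq_mul_div, one_mul, div_le_div_iff₀ (by positivity) (by norm_num)]
      linarith
  calc (2 * (Fintype.card J : ℝ) * x) ^ (L1 + 1) *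
      ∑ E ∈ univ.filter (fun E : Finset J => L1 < E.card ∧ E.card ≤ L),
        (1 / (2 * (Fintype.card J : ℝ))) ^ E.card
      ≤ (2 * (Fintype.card J : ℝ) * x) ^ (L1 + 1) * 1 :=
        mul_le_mul_of_nonneg_left h5 (pow_nonneg hbase _)
    _ = _ := mul_one _

/-- The probability that a large set has a large Fourier coefficient. -/
theorem tailH_prob {L1 L : ℕ} {β a : ℝ} (hβ0 : 0 ≤ β) (ha : 0 < a)
    {b : (Fin k → Fin m → Bool) → ℝ}
    (hmom : ∀ E : Finset J, E.Nonempty → E.card ≤ L →
        av (fun H : J → Fin k → Fin m => (1 / a) ^ nS (SE H E) * fc b (SE H E) ^ 2)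
          ≤ β ^ E.card)
    (h2 : 2 * Fintype.card J * β ≤ 1) :
    av (fun H : J → Fin k → Fin m => ind (∃ E : Finset J, L1 < E.card ∧ E.card ≤ L ∧
      a ^ nS (SE H E) < fc b (SE H E) ^ 2)) ≤ (2 * Fintype.card J * β) ^ (L1 + 1) := by
  have h1 : ∀ H : J → Fin k → Fin m, ind (∃ E : Finset J, L1 < E.card ∧ E.card ≤ L ∧
      a ^ nS (SE H E) < fc b (SE H E) ^ 2)
      ≤ ∑ E ∈ univ.filter (fun E : Finset J => L1 < E.card ∧ E.card ≤ L),
        (1 / a) ^ nS (SE H E) * fc b (SE H E) ^ 2 := by
    intro H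
    have hnn : ∀ E ∈ univ.filter (fun E : Finset J => L1 < E.card ∧ E.card ≤ L),
        0 ≤ (1 / a) ^ nS (SE H E) * fc b (SE H E) ^ 2 := fun E _ => by positivity
    by_cases h : ∃ E : Finset J, L1 < E.card ∧ E.card ≤ L ∧
      a ^ nS (SE H E) < fc b (SE H E) ^ 2
    · obtain ⟨E, hE1, hE2, hE3⟩ := h
      refine (ind_le_one _).trans ?_
      refine le_trans ?_ (single_le_sum hnn (mem_filter.mpr ⟨mem_univ E, hE1, hE2⟩))
      rw [one_div, inv_pow, ← div_eq_inv_mul, le_div_iff₀ (by positivity), one_mul]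
      exact hE3.le
    · rw [ind_false h]; exact sum_nonneg hnn
  refine (av_mono h1).trans ?_
  rw [av_sum]
  refine le_trans (sum_le_sum fun E hE => ?_) (sum_large_pow_le (J := J) (L1 := L1) (L := L) hβ0 h2)
  rw [mem_filter] at hE
  exact hmom E (card_pos.mp (by omega)) hE.2.2

end chain

end Pool.Agent.TH661.LPX
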