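import Pool.Agent.TH661.LPX.Par

/-!
The choice of the constraint system.
-/

set_option autoImplicit false

namespace Pool.Agent.TH661.LPX

open Finset

section choose

variable {X J A : Type*} [Fintype X] [Fintype J] [DecidableEq J] [Fintype A] [Nonempty A]

/-- The fraction of satisfied constraints. -/
noncomputable def sat (y : A → X → ℝ) (ω : J → A) (x : X) : ℝ :=
  (1 + (∑ i, y (ω i) x) / Fintype.card J) / 2

variable {y : A → X → ℝ}

omit [Fintype X] [DecidableEq J] [Fintype A] [Nonempty A] in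
theorem sat_nonneg (hy : ∀ a x, y a x = 1 ∨ y a x = -1) [Nonempty J] (ω : J → A) (x : X) :
    0 ≤ sat y ω x := by
  have hM : (0 : ℝ) < Fintype.card J := by exact_mod_cast Fintype.card_pos
  have h : -(Fintype.card J : ℝ) ≤ ∑ i, y (ω i) x := by
    have : ∑ _i : J, (-1 : ℝ) ≤ ∑ i, y (ω i) x :=
      sum_le_sum fun i _ => by rcases hy (ω i) x with h | h <;> rw [h]; norm_num
    simpa using this
  have h2 : -1 ≤ (∑ i, y (ω i) x) / Fintype.card J := by
    rw [le_div_iff₀ hM]; linarith
  unfold sat
  linarith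

omit [Fintype X] [DecidableEq J] [Fintype A] [Nonempty A] in
theorem sat_le_one (hy : ∀ a x, y a x = 1 ∨ y a x = -1) [Nonempty J] (ω : J → A) (x : X) :
    sat y ω x ≤ 1 := by
  have hM : (0 : ℝ) < Fintype.card J := by exact_mod_cast Fintype.card_pos
  have h : ∑ i, y (ω i) x ≤ (Fintype.card J : ℝ) := by
    have : ∑ i, y (ω i) x ≤ ∑ _i : J, (1 : ℝ) :=
      sum_le_sum fun i _ => by rcases hy (ω i) x with h | h <;> rw [h]; norm_num
    simpa using this
  have h2 : (∑ i, y (ω i) x) / Fintype.card J ≤ 1 := by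
    rw [div_le_iff₀ hM]; linarith
  unfold sat
  linarith

omit [Fintype X] in
theorem av_DL_sat (hy : ∀ a x, y a x = 1 ∨ y a x = -1) (h0 : ∀ x, av (fun a => y a x) = 0)
    [Nonempty J] {L : ℕ} (hL : 1 ≤ L) (x : X) (c : ℝ) :
    av (fun ω : J → A => DL y ω L x * (sat y ω x - c)) = 1 - c := by
  have hM : (Fintype.card J : ℝ) ≠ 0 := by exact_mod_cast Fintype.card_ne_zero
  have h1 : ∀ ω : J → A, DL y ω L x * (sat y ω x - c)
      = DL y ω L x * (1 / 2 - c)
        + (∑ i, DL y ω L x * y (ω i) x) * (1 / (2 * Fintype.card J)) := by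
    intro ω
    unfold sat
    rw [← mul_sum]
    field_simp
    ring
  rw [av_congr h1, av_add, av_mul_right, av_DL h0, av_mul_right, av_sum]
  simp_rw [av_DL_mul hy h0 hL]
  rw [sum_const, card_univ, nsmul_eq_mul]
  field_simp
  ring

open Classical in
/-- The functional on a truncated class. -/
noncomputable def gam (y : A → X → ℝ) (ω : J → A) (L : ℕ) (X1 X2 : Finset X) (ε : ℝ) (x : X) : ℝ :=
  (if x ∈ X2 then DL y ω L x else 0) + (if x ∈ X1 then ε else 0)

theorem choose_omega (hy : ∀ a x, y a x = 1 ∨ y a x = -1) (h0 : ∀ x, av (fun a => y a x) = 0)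
    [Nonempty J] {L : ℕ} (hL : 1 ≤ L) {X1 X2 : Finset X} (h21 : X2 ⊆ X1)
    (hcard : X1.card ≤ 2 * X2.card) (hne : X1.Nonempty) {c η p p' τ : ℝ} (hc0 : 0 ≤ c)
    (hc1 : c < 1) {V : Type*} [Fintype V] (v : V → X → ℝ)
    (hp : ∀ i, av (fun ω : J → A => ind (av (fun x => v i x * DL y ω L x) < - τ)) ≤ p)
    (hp' : av (fun ω : J → A => ind (∃ x, 2 * η * Fintype.card J < ∑ i, y (ω i) x)) ≤ p')
    (hsmall : (Fintype.card V * p + p') * (NL J L + 1) < (1 - c) / 4) :
    ∃ ω : J → A, (∀ x, ∑ i, y (ω i) x ≤ 2 * η * Fintype.card J) ∧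
      (∀ i, - τ ≤ av (fun x => v i x * DL y ω L x)) ∧
      0 < ∑ x, gam y ω L X1 X2 ((1 - c) / 4) x * (sat y ω x - c) := by
  classical
  by_contra hcon
  push Not at hcon
  have hya : ∀ a x, |y a x| = 1 := fun a x => by
    rcases hy a x with h | h <;> rw [h] <;> norm_num
  set ε : ℝ := (1 - c) / 4 with hε
  have hε0 : 0 < ε := by rw [hε]; linarith
  set Φ : (J → A) → ℝ := fun ω => ∑ x, gam y ω L X1 X2 ε x * (sat y ω x - c) with hΦ
  have hNL : 0 ≤ NL J L := Nat.cast_nonneg _
  have hX1 : (0 : ℝ) < X1.card := by exact_mod_cast card_pos.mpr hne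
  -- splitting
  have hsplit : ∀ ω : J → A, Φ ω = ∑ x ∈ X2, DL y ω L x * (sat y ω x - c)
      + ∑ x ∈ X1, ε * (sat y ω x - c) := by
    intro ω
    simp only [hΦ, gam]
    have h1 : ∀ x, ((if x ∈ X2 then DL y ω L x else 0) + (if x ∈ X1 then ε else 0)) *
        (sat y ω x - c) = (if x ∈ X2 then DL y ω L x * (sat y ω x - c) else 0)
          + (if x ∈ X1 then ε * (sat y ω x - c) else 0) := by
      intro x
      split_ifs <;> ring
    rw [sum_congr rfl (fun x _ => h1 x), sum_add_distrib, ← sum_filter, ← sum_filter]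
    congr 2 <;> · ext x; simp
  -- the lower bound for the average
  have hlow : X1.card * ε ≤ av Φ := by
    have h1 : av Φ = ∑ x ∈ X2, av (fun ω : J → A => DL y ω L x * (sat y ω x - c))
        + av (fun ω : J → A => ∑ x ∈ X1, ε * (sat y ω x - c)) := by
      rw [av_congr hsplit, av_add, av_sum]
    rw [h1, sum_congr rfl (fun x _ => av_DL_sat hy h0 hL x c), sum_const, nsmul_eq_mul]
    have h2 : -(X1.card * ε) ≤ av (fun ω : J → A => ∑ x ∈ X1, ε * (sat y ω x - c)) := by
      refine const_le_av fun ω => ?_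
      have h3 : ∑ x ∈ X1, (-ε) ≤ ∑ x ∈ X1, ε * (sat y ω x - c) := by
        refine sum_le_sum fun x _ => ?_
        have := sat_nonneg hy ω x
        nlinarith
      rw [sum_const, nsmul_eq_mul] at h3
      linarith
    have h4 : (X1.card : ℝ) ≤ 2 * X2.card := by exact_mod_cast hcard
    have h5 : (1 : ℝ) - c = 4 * ε := by rw [hε]; ring
    rw [h5]
    nlinarith
  -- the upper bound
  have hup : ∀ ω : J → A, Φ ω ≤
      (ind (∃ x, 2 * η * Fintype.card J < ∑ i, y (ω i) x)
        + ∑ i, ind (av (fun x => v i x * DL y ω L x) < - τ)) * (X1.card * (NL J L + 1)) := by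
    intro ω
    have hpos : 0 ≤ X1.card * (NL J L + 1) := by positivity
    have hsum : 0 ≤ ∑ i, ind (av (fun x => v i x * DL y ω L x) < - τ) :=
      sum_nonneg fun _ _ => ind_nonneg _
    have hcrude : Φ ω ≤ X1.card * (NL J L + 1) := by
      rw [hsplit ω]
      have h1 : ∑ x ∈ X2, DL y ω L x * (sat y ω x - c) ≤ ∑ x ∈ X2, NL J L := by
        refine sum_le_sum fun x _ => ?_
        have h2 : |DL y ω L x * (sat y ω x - c)| ≤ NL J L * 1 := by
          rw [abs_mul]
          refine mul_le_mul (abs_DL_le hya ω L x) ?_ (abs_nonneg _) hNL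
          have h3 := sat_nonneg hy ω x
          have h4 := sat_le_one hy ω x
          rw [abs_le]
          constructor <;> linarith
        rw [mul_one] at h2
        exact (le_abs_self _).trans h2
      have h5 : ∑ x ∈ X1, ε * (sat y ω x - c) ≤ ∑ x ∈ X1, (1 : ℝ) := by
        refine sum_le_sum fun x _ => ?_
        have h4 := sat_le_one hy ω x
        have h6 : ε ≤ 1 := by rw [hε]; linarith
        nlinarith
      rw [sum_const, nsmul_eq_mul] at h1 h5
      have h7 : (X2.card : ℝ) ≤ X1.card := by exact_mod_cast card_le_card h21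
      have h8 : (X2.card : ℝ) * NL J L ≤ X1.card * NL J L :=
        mul_le_mul_of_nonneg_right h7 hNL
      nlinarith
    by_cases hg : ∃ x, 2 * η * Fintype.card J < ∑ i, y (ω i) x
    · rw [ind_true hg]
      nlinarith
    · by_cases hb : ∃ i, av (fun x => v i x * DL y ω L x) < - τ
      · obtain ⟨i, hi⟩ := hb
        have h1 : (1 : ℝ) ≤ ∑ i, ind (av (fun x => v i x * DL y ω L x) < - τ) := by
          rw [← ind_true hi]
          exact single_le_sum (f := fun i => ind (av (fun x => v i x * DL y ω L x) < - τ))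
            (fun _ _ => ind_nonneg _) (mem_univ i)
        rw [ind_false hg, zero_add]
        nlinarith
      · push Not at hg hb
        have h1 : Φ ω ≤ 0 := hcon ω hg hb
        have h2 : 0 ≤ ind (∃ x, 2 * η * Fintype.card J < ∑ i, y (ω i) x) := ind_nonneg _
        have h3 := mul_nonneg (add_nonneg h2 hsum) hpos
        linarith
  have h1 := av_mono hup
  rw [av_mul_right, av_add] at h1
  have h2 : av (fun ω : J → A => ∑ i, ind (av (fun x => v i x * DL y ω L x) < - τ))
      ≤ Fintype.card V * p := by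
    rw [av_sum]
    refine (sum_le_sum fun i _ => hp i).trans (le_of_eq ?_)
    rw [sum_const, card_univ, nsmul_eq_mul]
  have h3 : av Φ ≤ (p' + Fintype.card V * p) * (X1.card * (NL J L + 1)) := by
    refine h1.trans (mul_le_mul_of_nonneg_right (add_le_add hp' h2) (by positivity))
  have h4 : (p' + Fintype.card V * p) * (X1.card * (NL J L + 1))
      = X1.card * ((Fintype.card V * p + p') * (NL J L + 1)) := by ring
  rw [h4] at h3
  have h5 : X1.card * ((Fintype.card V * p + p') * (NL J L + 1)) < X1.card * ε :=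
    mul_lt_mul_of_pos_left hsmall hX1
  linarith

/-- Mixed-binary linear programs: there is a constraint system of small value, a pattern and an
affine combination of the points of this pattern which satisfies all inequalities and at which the
objective is large. -/
theorem region_lp [Nonempty X] (hy : ∀ a x, y a x = 1 ∨ y a x = -1)
    (h0 : ∀ x, av (fun a => y a x) = 0)
    [Nonempty J] {L : ℕ} (hL : 1 ≤ L) {c η p p' τ : ℝ} (hc0 : 0 ≤ c) (hc1 : c < 1)
    {P : Type*} [Fintype P] (β : X → P) {r : ℕ} (s : Fin r → X → ℝ) (hs : ∀ j x, 0 ≤ s j x)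
    (hτ : 0 < τ) (hτ2 : 2 * (r + 1) * Fintype.card P * τ ≤ (1 - c) / 4)
    (hp : ∀ v : X → ℝ, (∀ x, 0 ≤ v x) → (∀ x, v x ≤ 1) →
      av (fun ω : J → A => ind (av (fun x => v x * DL y ω L x) < - τ)) ≤ p)
    (hp' : av (fun ω : J → A => ind (∃ x, 2 * η * Fintype.card J < ∑ i, y (ω i) x)) ≤ p')
    (hsmall : ((r + 1) * p + p') * (NL J L + 1) < (1 - c) / 4) :
    ∃ ω : J → A, (∀ x, ∑ i, y (ω i) x ≤ 2 * η * Fintype.card J) ∧
      ∃ q : P, ∃ γ : X → ℝ, (∀ x, β x ≠ q → γ x = 0) ∧ ∑ x, γ x = 1 ∧
        (∀ j, 0 ≤ ∑ x, γ x * s j x) ∧ c ≤ ∑ x, γ x * sat y ω x := by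
  classical
  -- a large class
  obtain ⟨q, hq⟩ : ∃ q : P, (Fintype.card X : ℝ) / Fintype.card P
      ≤ ((univ.filter fun x => β x = q).card : ℝ) := by
    by_contra hcon
    push Not at hcon
    have : Nonempty P := ⟨β (Classical.arbitrary X)⟩
    have h1 : ∑ q : P, ((univ.filter fun x => β x = q).card : ℝ)
        < ∑ _q : P, (Fintype.card X : ℝ) / Fintype.card P :=
      sum_lt_sum_of_nonempty univ_nonempty fun q _ => hcon q
    have h2 : ∑ q : P, ((univ.filter fun x => β x = q).card : ℝ) = Fintype.card X := by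
      rw [← Nat.cast_sum]
      congr 1
      rw [← card_univ (α := X)]
      exact (card_eq_sum_card_fiberwise fun x _ => mem_univ (β x)).symm
    have h3 : (Fintype.card P : ℝ) ≠ 0 := by exact_mod_cast Fintype.card_ne_zero
    rw [h2, sum_const, card_univ, nsmul_eq_mul] at h1
    field_simp at h1
    exact lt_irrefl _ h1
  set X1 : Finset X := univ.filter fun x => β x = q with hX1
  have hXpos : (0 : ℝ) < Fintype.card X := by exact_mod_cast Fintype.card_pos
  have hPpos : (0 : ℝ) < Fintype.card P := by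
    have : Nonempty P := ⟨q⟩
    exact_mod_cast Fintype.card_pos
  have hX1pos : (0 : ℝ) < X1.card := lt_of_lt_of_le (by positivity) hq
  have hX1ne : X1.Nonempty := card_pos.mp (by exact_mod_cast hX1pos)
  -- averages over the class
  set σ : Fin r → ℝ := fun j => (∑ x ∈ X1, s j x) / X1.card with hσ
  have hσ0 : ∀ j, 0 ≤ σ j := fun j => div_nonneg (sum_nonneg fun x _ => hs j x) hX1pos.le
  have hσs : ∀ j, ∑ x ∈ X1, s j x = X1.card * σ j := fun j => by
    rw [hσ]; field_simp
  set X2 : Finset X := X1.filter fun x => ∀ j, s j x ≤ (2 * (r + 1)) * σ j with hX2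
  have h21 : X2 ⊆ X1 := filter_subset _ _
  have hcard : X1.card ≤ 2 * X2.card := by
    have h1 : X1 \ X2 ⊆ (univ : Finset (Fin r)).biUnion fun j =>
        X1.filter fun x => (2 * (r + 1)) * σ j < s j x := by
      intro x hx
      have hx1 : x ∈ X1 := (mem_sdiff.mp hx).1
      have hx2 : x ∉ X2 := (mem_sdiff.mp hx).2
      rw [mem_biUnion]
      have h2 : ¬ ∀ j, s j x ≤ (2 * (r + 1)) * σ j := fun h => hx2 (mem_filter.mpr ⟨hx1, h⟩)
      push Not at h2
      obtain ⟨j, hj⟩ := h2
      exact ⟨j, mem_univ j, mem_filter.mpr ⟨hx1, hj⟩⟩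
    have h3 : ∀ j, ((X1.filter fun x => (2 * (r + 1)) * σ j < s j x).card : ℝ) * (2 * (r + 1))
        ≤ X1.card := by
      intro j
      by_cases hj : σ j = 0
      · have h4 : X1.filter (fun x => (2 * (r + 1)) * σ j < s j x) = ∅ := by
          rw [filter_eq_empty_iff]
          intro x hx
          rw [hj, mul_zero, not_lt]
          have h5 := hσs j
          rw [hj, mul_zero] at h5
          exact ((sum_eq_zero_iff_of_nonneg fun x _ => hs j x).mp h5 x hx).le
        rw [h4, card_empty, Nat.cast_zero, zero_mul]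
        exact hX1pos.le
      · have hjpos : 0 < σ j := lt_of_le_of_ne (hσ0 j) (Ne.symm hj)
        have h4 : ((X1.filter fun x => (2 * (r + 1)) * σ j < s j x).card : ℝ) *
            ((2 * (r + 1)) * σ j) ≤ X1.card * σ j := by
          rw [← hσs j]
          calc ((X1.filter fun x => (2 * (r + 1)) * σ j < s j x).card : ℝ) *
              ((2 * (r + 1)) * σ j)
              = ∑ x ∈ X1.filter (fun x => (2 * (r + 1)) * σ j < s j x),
                  (2 * (r + 1)) * σ j := by rw [sum_const, nsmul_eq_mul]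
            _ ≤ ∑ x ∈ X1.filter (fun x => (2 * (r + 1)) * σ j < s j x), s j x :=
                sum_le_sum fun x hx => (mem_filter.mp hx).2.le
            _ ≤ ∑ x ∈ X1, s j x :=
                sum_le_sum_of_subset_of_nonneg (filter_subset _ _) fun x _ _ => hs j x
        rw [← mul_assoc] at h4
        exact le_of_mul_le_mul_right h4 hjpos
    have h5 : ((X1 \ X2).card : ℝ) * (2 * (r + 1)) ≤ r * X1.card := by
      have h6 : ((X1 \ X2).card : ℝ) ≤
          ∑ j : Fin r, ((X1.filter fun x => (2 * (r + 1)) * σ j < s j x).card : ℝ) := by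
        rw [← Nat.cast_sum]
        exact_mod_cast (card_le_card h1).trans card_biUnion_le
      calc ((X1 \ X2).card : ℝ) * (2 * (r + 1))
          ≤ (∑ j : Fin r, ((X1.filter fun x => (2 * (r + 1)) * σ j < s j x).card : ℝ)) *
            (2 * (r + 1)) := mul_le_mul_of_nonneg_right h6 (by positivity)
        _ = ∑ j : Fin r, ((X1.filter fun x => (2 * (r + 1)) * σ j < s j x).card : ℝ) *
            (2 * (r + 1)) := sum_mul _ _ _
        _ ≤ ∑ _j : Fin r, (X1.card : ℝ) := sum_le_sum fun j _ => h3 j
        _ = r * X1.card := by rw [sum_const, card_univ, Fintype.card_fin, nsmul_eq_mul]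
    have h7 : ((X1 \ X2).card : ℝ) + X2.card = X1.card := by
      exact_mod_cast card_sdiff_add_card_eq_card h21
    have h8 : (2 : ℝ) * (X1 \ X2).card ≤ X1.card := by
      have h9 : (0 : ℝ) ≤ (X1 \ X2).card := Nat.cast_nonneg _
      have h10 : (0 : ℝ) ≤ r := Nat.cast_nonneg _
      by_contra hcon
      rw [not_le] at hcon
      have h11 : (r + 1 : ℝ) * X1.card < (r + 1) * (2 * (X1 \ X2).card) :=
        mul_lt_mul_of_pos_left hcon (by positivity)
      nlinarith
    have h12 : (X1.card : ℝ) ≤ 2 * X2.card := by linarith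
    exact_mod_cast h12
  -- test functions
  let v : Option (Fin r) → X → ℝ := fun o x =>
    if x ∈ X2 then (match o with
      | none => 1
      | some j => s j x / ((2 * (r + 1)) * σ j)) else 0
  have hv0 : ∀ o x, 0 ≤ v o x := by
    intro o x
    simp only [v]
    split_ifs
    · cases o with
      | none => exact zero_le_one
      | some j => exact div_nonneg (hs j x) (mul_nonneg (by positivity) (hσ0 j))
    · exact le_refl _
  have hv1 : ∀ o x, v o x ≤ 1 := by
    intro o x
    simp only [v]
    split_ifs with hx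
    · cases o with
      | none => exact le_refl _
      | some j =>
        exact div_le_one_of_le₀ ((mem_filter.mp hx).2 j) (mul_nonneg (by positivity) (hσ0 j))
    · exact zero_le_one
  obtain ⟨ω, hω, hZ, hΦ⟩ := choose_omega hy h0 hL h21 hcard hX1ne hc0 hc1 v
    (fun o => hp (v o) (hv0 o) (hv1 o)) hp'
    (by rw [Fintype.card_option, Fintype.card_fin]; push_cast; exact hsmall)
  refine ⟨ω, hω, q, ?_⟩
  set ε : ℝ := (1 - c) / 4 with hε
  have hε0 : 0 < ε := by rw [hε]; linarith
  -- sums against the functional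
  have hgam : ∀ f : X → ℝ, ∑ x, gam y ω L X1 X2 ε x * f x
      = Fintype.card X * av (fun x => (if x ∈ X2 then f x else 0) * DL y ω L x)
        + ε * ∑ x ∈ X1, f x := by
    intro f
    have h1 : Fintype.card X * av (fun x => (if x ∈ X2 then f x else 0) * DL y ω L x)
        = ∑ x, (if x ∈ X2 then f x else 0) * DL y ω L x := by
      unfold av; field_simp
    have h2 : ε * ∑ x ∈ X1, f x = ∑ x, if x ∈ X1 then ε * f x else 0 := by
      rw [mul_sum, ← sum_filter]; congr 1; ext x; simp
    rw [h1, h2, ← sum_add_distrib]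
    refine sum_congr rfl fun x _ => ?_
    unfold gam
    split_ifs <;> ring
  have hτX : Fintype.card X * τ * (2 * (r + 1)) ≤ ε * X1.card := by
    have h1 : (Fintype.card X : ℝ) ≤ X1.card * Fintype.card P := by
      rw [div_le_iff₀ hPpos] at hq; exact hq
    have h2 : 0 ≤ τ * (2 * (r + 1)) := by positivity
    calc Fintype.card X * τ * (2 * (r + 1)) = Fintype.card X * (τ * (2 * (r + 1))) := by ring
      _ ≤ (X1.card * Fintype.card P) * (τ * (2 * (r + 1))) := mul_le_mul_of_nonneg_right h1 h2
      _ = X1.card * (2 * (r + 1) * Fintype.card P * τ) := by ring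
      _ ≤ X1.card * ε := mul_le_mul_of_nonneg_left hτ2 hX1pos.le
      _ = ε * X1.card := mul_comm _ _
  have hΓ : 0 < ∑ x, gam y ω L X1 X2 ε x := by
    have h1 := hgam (fun _ => 1)
    simp only [mul_one] at h1
    rw [h1, sum_const, nsmul_eq_mul, mul_one]
    have h2 := hZ none
    have h3 : av (fun x => v none x * DL y ω L x)
        = av (fun x => (if x ∈ X2 then (1 : ℝ) else 0) * DL y ω L x) := rfl
    rw [h3] at h2
    have h4 : -(Fintype.card X * τ) ≤
        Fintype.card X * av (fun x => (if x ∈ X2 then (1 : ℝ) else 0) * DL y ω L x) := by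
      nlinarith
    have h5 : Fintype.card X * τ < ε * X1.card := by
      refine lt_of_lt_of_le ?_ hτX
      have h6 : 0 < Fintype.card X * τ := by positivity
      have h7 : (1 : ℝ) < 2 * (r + 1) := by
        have : (0 : ℝ) ≤ r := Nat.cast_nonneg _
        linarith
      nlinarith
    linarith
  set Γ : ℝ := ∑ x, gam y ω L X1 X2 ε x with hΓdef
  refine ⟨fun x => gam y ω L X1 X2 ε x / Γ, ?_, ?_, ?_, ?_⟩
  · intro x hx
    have h1 : x ∉ X1 := fun h => hx (mem_filter.mp h).2
    have h2 : x ∉ X2 := fun h => h1 (h21 h)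
    simp [gam, h1, h2]
  · rw [← sum_div]; exact div_self hΓ.ne'
  · intro j
    have h1 : ∑ x, gam y ω L X1 X2 ε x / Γ * s j x
        = (∑ x, gam y ω L X1 X2 ε x * s j x) / Γ := by
      rw [sum_div]; exact sum_congr rfl fun x _ => by ring
    rw [h1]
    refine div_nonneg ?_ hΓ.le
    rw [hgam, hσs]
    by_cases hj : σ j = 0
    · have h5 := hσs j
      rw [hj, mul_zero] at h5
      have h6 : ∀ x ∈ X1, s j x = 0 := (sum_eq_zero_iff_of_nonneg fun x _ => hs j x).mp h5
      have h7 : ∀ x, (if x ∈ X2 then s j x else 0) * DL y ω L x = 0 := by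
        intro x
        split_ifs with hx
        · rw [h6 x (h21 hx), zero_mul]
        · rw [zero_mul]
      rw [av_congr h7, hj]
      unfold av
      simp
    · have hjpos : 0 < σ j := lt_of_le_of_ne (hσ0 j) (Ne.symm hj)
      have h2 := hZ (some j)
      have h3 : av (fun x => (if x ∈ X2 then s j x else 0) * DL y ω L x)
          = (2 * (r + 1)) * σ j * av (fun x => v (some j) x * DL y ω L x) := by
        rw [← av_mul_left]
        refine av_congr fun x => ?_
        simp only [v]
        split_ifs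
        · field_simp
        · ring
      rw [h3]
      have h4 : -(Fintype.card X * τ * (2 * (r + 1))) * σ j ≤
          Fintype.card X * (2 * (r + 1) * σ j * av (fun x => v (some j) x * DL y ω L x)) := by
        have h5 : 0 ≤ Fintype.card X * (2 * (r + 1) * σ j) := by positivity
        nlinarith
      nlinarith
  · have h1 : ∑ x, gam y ω L X1 X2 ε x / Γ * sat y ω x
        = (∑ x, gam y ω L X1 X2 ε x * sat y ω x) / Γ := by
      rw [sum_div]; exact sum_congr rfl fun x _ => by ring
    rw [h1, le_div_iff₀ hΓ]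
    have h2 : ∑ x, gam y ω L X1 X2 ε x * (sat y ω x - c)
        = ∑ x, gam y ω L X1 X2 ε x * sat y ω x - Γ * c := by
      rw [hΓdef, sum_mul, ← sum_sub_distrib]
      exact sum_congr rfl fun x _ => by ring
    linarith

end choose

end Pool.Agent.TH661.LPX
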