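import Pool.Agent.TH661.LPX.Choose
import Pool.Agent.TH661.LPX.Frame

/-!
Conic programs: the choice of the constraint system and of the feasible point.
-/

set_option autoImplicit false

namespace Pool.Agent.TH661.LPX

open Finset

/-- An element of the net. -/
noncomputable def vz {D Q : ℕ} (z : Fin D → Fin (2 * Q + 1)) (b : Fin (D + 1) → ℝ) : ℝ :=
  b 0 + ∑ i : Fin D, ((((z i : ℕ) : ℝ) - Q) / Q * (b i.succ - b 0) + b i.succ / Q)

theorem vz_le {D Q : ℕ} (hQ : 0 < Q) (z : Fin D → Fin (2 * Q + 1)) {b : Fin (D + 1) → ℝ}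
    (hb0 : ∀ i, 0 ≤ b i) {Λ : ℝ} (hb1 : ∀ i, b i ≤ Λ) : vz z b ≤ (2 * D + 1) * Λ := by
  have hQR : (1 : ℝ) ≤ Q := by exact_mod_cast hQ
  have h1 : ∀ i : Fin D, (((z i : ℕ) : ℝ) - Q) / Q * (b i.succ - b 0) + b i.succ / Q
      ≤ 2 * Λ := by
    intro i
    have hz : ((z i : ℕ) : ℝ) ≤ 2 * Q := by
      have := (z i).2
      exact_mod_cast (by omega : (z i : ℕ) ≤ 2 * Q)
    have hz0 : (0 : ℝ) ≤ ((z i : ℕ) : ℝ) := Nat.cast_nonneg _
    have h2 : |(((z i : ℕ) : ℝ) - Q) / Q| ≤ 1 := by
      rw [abs_div, abs_of_pos (by linarith : (0 : ℝ) < Q), div_le_one (by linarith), abs_le]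
      constructor <;> linarith
    have h3 : |b i.succ - b 0| ≤ Λ := by
      rw [abs_le]
      constructor
      · linarith [hb0 i.succ, hb1 0]
      · linarith [hb0 0, hb1 i.succ]
    have h4 : (((z i : ℕ) : ℝ) - Q) / Q * (b i.succ - b 0) ≤ 1 * Λ := by
      refine (le_abs_self _).trans ?_
      rw [abs_mul]
      exact mul_le_mul h2 h3 (abs_nonneg _) zero_le_one
    have h5 : b i.succ / Q ≤ Λ := (div_le_self (hb0 _) hQR).trans (hb1 _)
    linarith
  unfold vz
  have h6 := sum_le_sum fun (i : Fin D) (_ : i ∈ univ) => h1 i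
  rw [sum_const, card_univ, Fintype.card_fin, nsmul_eq_mul] at h6
  have h7 := hb1 0
  linarith

theorem net_approx {D Q : ℕ} (hQ : 0 < Q) {c : Fin (D + 1) → ℝ} (hc : ∀ i, |c i| ≤ 1)
    (hs : ∑ i, c i = 1) : ∃ z : Fin D → Fin (2 * Q + 1), ∀ (b : Fin (D + 1) → ℝ) (Λ : ℝ),
      (∀ i, 0 ≤ b i) → (∀ i, b i ≤ Λ) → 0 ≤ vz z b - ∑ i, c i * b i ∧
      (vz z b - ∑ i, c i * b i) * Q ≤ 2 * D * Λ := by
  have hQR : (0 : ℝ) < Q := by exact_mod_cast hQ
  have hex : ∀ i : Fin D, ∃ z : Fin (2 * Q + 1), 0 ≤ c i.succ - (((z : ℕ) : ℝ) - Q) / Q ∧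
      (c i.succ - (((z : ℕ) : ℝ) - Q) / Q) * Q ≤ 1 := by
    intro i
    have h1 : 0 ≤ c i.succ * Q + Q := by
      have := (abs_le.mp (hc i.succ)).1
      nlinarith
    have h2 : c i.succ * Q + Q ≤ 2 * Q := by
      have := (abs_le.mp (hc i.succ)).2
      nlinarith
    have h3 : ⌊c i.succ * Q + Q⌋₊ < 2 * Q + 1 := by
      have h4 : ⌊c i.succ * Q + Q⌋₊ ≤ 2 * Q := by
        refine Nat.floor_le_of_le ?_
        push_cast
        exact h2
      omega
    refine ⟨⟨⌊c i.succ * Q + Q⌋₊, h3⟩, ?_, ?_⟩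
    · have h4 := Nat.floor_le h1
      rw [sub_nonneg, div_le_iff₀ hQR]
      linarith
    · have h4 := Nat.lt_floor_add_one (c i.succ * Q + Q)
      rw [sub_mul, div_mul_cancel₀ _ hQR.ne']
      simp only
      linarith
  choose z hz1 hz2 using hex
  refine ⟨z, fun b Λ hb0 hb1 => ?_⟩
  have hc0 : c 0 = 1 - ∑ i : Fin D, c i.succ := by
    rw [Fin.sum_univ_succ] at hs
    linarith
  have hdiff : vz z b - ∑ i, c i * b i
      = ∑ i : Fin D, ((1 / Q - (c i.succ - (((z i : ℕ) : ℝ) - Q) / Q)) * b i.succ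
        + (c i.succ - (((z i : ℕ) : ℝ) - Q) / Q) * b 0) := by
    unfold vz
    rw [Fin.sum_univ_succ, hc0, sub_mul, one_mul, sum_mul]
    have h1 : b 0 + ∑ i : Fin D, ((((z i : ℕ) : ℝ) - Q) / Q * (b i.succ - b 0) + b i.succ / Q)
        - (b 0 - ∑ i : Fin D, c i.succ * b 0 + ∑ i : Fin D, c i.succ * b i.succ)
        = ∑ i : Fin D, ((((z i : ℕ) : ℝ) - Q) / Q * (b i.succ - b 0) + b i.succ / Q)
          + ∑ i : Fin D, c i.succ * b 0 - ∑ i : Fin D, c i.succ * b i.succ := by ring
    rw [h1, ← sum_add_distrib, ← sum_sub_distrib]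
    exact sum_congr rfl fun i _ => by ring
  rw [hdiff]
  constructor
  · refine sum_nonneg fun i _ => ?_
    have h1 : c i.succ - (((z i : ℕ) : ℝ) - Q) / Q ≤ 1 / Q := by
      rw [le_div_iff₀ hQR]; exact hz2 i
    exact add_nonneg (mul_nonneg (by linarith) (hb0 _)) (mul_nonneg (hz1 i) (hb0 _))
  · rw [sum_mul]
    have h2 : ∀ i : Fin D, ((1 / Q - (c i.succ - (((z i : ℕ) : ℝ) - Q) / Q)) * b i.succ
        + (c i.succ - (((z i : ℕ) : ℝ) - Q) / Q) * b 0) * Q ≤ 2 * Λ := by
      intro i
      have h1 : c i.succ - (((z i : ℕ) : ℝ) - Q) / Q ≤ 1 / Q := by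
        rw [le_div_iff₀ hQR]; exact hz2 i
      have h3 : 1 / (Q : ℝ) * Q = 1 := by field_simp
      have h4 : (1 / (Q : ℝ) - (c i.succ - (((z i : ℕ) : ℝ) - Q) / Q)) * b i.succ ≤ 1 / Q * Λ :=
        mul_le_mul (by linarith [hz1 i]) (hb1 _) (hb0 _) (by positivity)
      have h5 : (c i.succ - (((z i : ℕ) : ℝ) - Q) / Q) * b 0 ≤ 1 / Q * Λ :=
        mul_le_mul h1 (hb1 _) (hb0 _) (by positivity)
      calc ((1 / Q - (c i.succ - (((z i : ℕ) : ℝ) - Q) / Q)) * b i.succ
          + (c i.succ - (((z i : ℕ) : ℝ) - Q) / Q) * b 0) * Q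
          ≤ (1 / Q * Λ + 1 / Q * Λ) * Q :=
            mul_le_mul_of_nonneg_right (add_le_add h4 h5) hQR.le
        _ = 2 * (1 / Q * Q) * Λ := by ring
        _ = 2 * Λ := by rw [h3]; ring
    refine (sum_le_sum fun i _ => h2 i).trans (le_of_eq ?_)
    rw [sum_const, card_univ, Fintype.card_fin, nsmul_eq_mul]; ring

section choose

variable {X J A : Type*} [Fintype X] [Fintype J] [DecidableEq J] [Fintype A] [Nonempty A]

variable {y : A → X → ℝ}

/-- Mixed-binary conic programs: there is a constraint system of small value, a pattern and an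
affine combination of the points of this pattern which satisfies all conic constraints and at which
the objective is large. -/
theorem region_cone [Nonempty X] (hy : ∀ a x, y a x = 1 ∨ y a x = -1)
    (h0 : ∀ x, av (fun a => y a x) = 0)
    [Nonempty J] {L : ℕ} (hL : 1 ≤ L) {c η p p' τ : ℝ} (hc0 : 0 ≤ c) (hc1 : c < 1)
    {P : Type*} [Fintype P] (β : X → P) {r D : ℕ} (s : Fin r → X → Fin (D + 1) → ℝ)
    (hτ : 0 < τ) {Q : ℕ} (hQ0 : 0 < Q) (hQ : NL J L ≤ Q * τ)
    (hτ2 : (4 * D + 1) * (2 * (r * (D + 1) + 1)) * Fintype.card P * τ ≤ (1 - c) / 4)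
    (hp : ∀ v : X → ℝ, (∀ x, 0 ≤ v x) → (∀ x, v x ≤ 1) →
      av (fun ω : J → A => ind (av (fun x => v x * DL y ω L x) < - τ)) ≤ p)
    (hp' : av (fun ω : J → A => ind (∃ x, 2 * η * Fintype.card J < ∑ i, y (ω i) x)) ≤ p')
    (hsmall : ((r * (2 * Q + 1) ^ D + 1) * p + p') * (NL J L + 1) < (1 - c) / 4) :
    ∃ ω : J → A, (∀ x, ∑ i, y (ω i) x ≤ 2 * η * Fintype.card J) ∧
      ∃ q : P, ∃ γ : X → ℝ, (∀ x, β x ≠ q → γ x = 0) ∧ ∑ x, γ x = 1 ∧
        (∀ (j : Fin r) (a : Fin (D + 1) → ℝ), (∀ x, 0 ≤ ∑ l, a l * s j x l) →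
          0 ≤ ∑ x, γ x * ∑ l, a l * s j x l) ∧ c ≤ ∑ x, γ x * sat y ω x := by
  classical
  -- a large class
  obtain ⟨q, hq⟩ : ∃ q : P, (Fintype.card X : ℝ) / Fintype.card P
      ≤ ((univ.filter fun x => β x = q).card : ℝ) := by
    by_contra hcon
    push Not at hcon
    have : Nonempty P := ⟨β (Classical.arbitrary X)⟩
    have h1 : ∑ q : P, ((univ.filter fun x => β x = q).card : ℝ)
        < ∑ _q : P, (Fintype.card X : ℝ) / Fintype.card P :=
      sum_lt_sum_of_nonempty univ_nonempty fun q _ => hcon q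
    have h2 : ∑ q : P, ((univ.filter fun x => β x = q).card : ℝ) = Fintype.card X := by
      rw [← Nat.cast_sum]
      congr 1
      rw [← card_univ (α := X)]
      exact (card_eq_sum_card_fiberwise fun x _ => mem_univ (β x)).symm
    have h3 : (Fintype.card P : ℝ) ≠ 0 := by exact_mod_cast Fintype.card_ne_zero
    rw [h2, sum_const, card_univ, nsmul_eq_mul] at h1
    field_simp at h1
    exact lt_irrefl _ h1
  set X1 : Finset X := univ.filter fun x => β x = q with hX1
  have hXpos : (0 : ℝ) < Fintype.card X := by exact_mod_cast Fintype.card_pos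
  have hPpos : (0 : ℝ) < Fintype.card P := by
    have : Nonempty P := ⟨q⟩
    exact_mod_cast Fintype.card_pos
  have hX1pos : (0 : ℝ) < X1.card := lt_of_lt_of_le (by positivity) hq
  have hX1ne : X1.Nonempty := card_pos.mp (by exact_mod_cast hX1pos)
  have hQR : (0 : ℝ) < Q := by exact_mod_cast hQ0
  -- the frames
  choose b hb0 hbsum hbc using fun j => frame X1 hX1ne (s j)
  set Λ : ℝ := 2 * (r * (D + 1) + 1) with hΛ
  have hΛpos : 0 < Λ := by positivity
  have hΛ1 : 1 < Λ := by
    rw [hΛ]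
    have : (0 : ℝ) ≤ r * (D + 1) := by positivity
    linarith
  set X2 : Finset X := X1.filter fun x => ∀ j i, b j i x ≤ Λ with hX2
  have h21 : X2 ⊆ X1 := filter_subset _ _
  have hcard : X1.card ≤ 2 * X2.card := by
    have h1 : X1 \ X2 ⊆ (univ : Finset (Fin r × Fin (D + 1))).biUnion fun p =>
        X1.filter fun x => Λ < b p.1 p.2 x := by
      intro x hx
      have hx1 : x ∈ X1 := (mem_sdiff.mp hx).1
      have hx2 : x ∉ X2 := (mem_sdiff.mp hx).2
      rw [mem_biUnion]
      have h2 : ¬ ∀ j i, b j i x ≤ Λ := fun h => hx2 (mem_filter.mpr ⟨hx1, h⟩)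
      push Not at h2
      obtain ⟨j, i, hj⟩ := h2
      exact ⟨(j, i), mem_univ _, mem_filter.mpr ⟨hx1, hj⟩⟩
    have h3 : ∀ p : Fin r × Fin (D + 1),
        ((X1.filter fun x => Λ < b p.1 p.2 x).card : ℝ) * Λ ≤ X1.card := by
      intro p
      calc ((X1.filter fun x => Λ < b p.1 p.2 x).card : ℝ) * Λ
          = ∑ x ∈ X1.filter (fun x => Λ < b p.1 p.2 x), Λ := by rw [sum_const, nsmul_eq_mul]
        _ ≤ ∑ x ∈ X1.filter (fun x => Λ < b p.1 p.2 x), b p.1 p.2 x :=
            sum_le_sum fun x hx => (mem_filter.mp hx).2.le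
        _ ≤ ∑ x ∈ X1, b p.1 p.2 x :=
            sum_le_sum_of_subset_of_nonneg (filter_subset _ _) fun x _ _ => hb0 _ _ x
        _ ≤ X1.card := hbsum _ _
    have h5 : ((X1 \ X2).card : ℝ) * Λ ≤ (r * (D + 1)) * X1.card := by
      have h6 : ((X1 \ X2).card : ℝ) ≤
          ∑ p : Fin r × Fin (D + 1), ((X1.filter fun x => Λ < b p.1 p.2 x).card : ℝ) := by
        rw [← Nat.cast_sum]
        exact_mod_cast (card_le_card h1).trans card_biUnion_le
      calc ((X1 \ X2).card : ℝ) * Λ
          ≤ (∑ p : Fin r × Fin (D + 1), ((X1.filter fun x => Λ < b p.1 p.2 x).card : ℝ)) * Λ :=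
            mul_le_mul_of_nonneg_right h6 hΛpos.le
        _ = ∑ p : Fin r × Fin (D + 1),
            ((X1.filter fun x => Λ < b p.1 p.2 x).card : ℝ) * Λ := sum_mul _ _ _
        _ ≤ ∑ _p : Fin r × Fin (D + 1), (X1.card : ℝ) := sum_le_sum fun p _ => h3 p
        _ = (r * (D + 1)) * X1.card := by
            rw [sum_const, card_univ, Fintype.card_prod, Fintype.card_fin, Fintype.card_fin,
              nsmul_eq_mul]
            push_cast; ring
    have h7 : ((X1 \ X2).card : ℝ) + X2.card = X1.card := by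
      exact_mod_cast card_sdiff_add_card_eq_card h21
    have h8 : (2 : ℝ) * (X1 \ X2).card ≤ X1.card := by
      have h9 : (0 : ℝ) ≤ (X1 \ X2).card := Nat.cast_nonneg _
      have h10 : (0 : ℝ) ≤ r * (D + 1) := by positivity
      by_contra hcon
      rw [not_le] at hcon
      have h11 : (r * (D + 1) + 1 : ℝ) * X1.card < (r * (D + 1) + 1) * (2 * (X1 \ X2).card) :=
        mul_lt_mul_of_pos_left hcon (by positivity)
      rw [hΛ] at h5
      nlinarith
    have h12 : (X1.card : ℝ) ≤ 2 * X2.card := by linarith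
    exact_mod_cast h12
  -- test functions
  have hbig : 0 < (2 * (D : ℝ) + 1) * Λ := by positivity
  let v : Option (Fin r × (Fin D → Fin (2 * Q + 1))) → X → ℝ := fun o x =>
    if x ∈ X2 then (match o with
      | none => 1
      | some p => max 0 (vz p.2 (fun i => b p.1 i x)) / ((2 * D + 1) * Λ)) else 0
  have hv0 : ∀ o x, 0 ≤ v o x := by
    intro o x
    simp only [v]
    split_ifs
    · cases o with
      | none => exact zero_le_one
      | some j => exact div_nonneg (le_max_left _ _) hbig.le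
    · exact le_refl _
  have hv1 : ∀ o x, v o x ≤ 1 := by
    intro o x
    simp only [v]
    split_ifs with hx
    · cases o with
      | none => exact le_refl _
      | some p =>
        refine div_le_one_of_le₀ (max_le hbig.le ?_) hbig.le
        exact vz_le hQ0 _ (fun i => hb0 _ _ _) (fun i => (mem_filter.mp hx).2 _ _)
    · exact zero_le_one
  obtain ⟨ω, hω, hZ, hΦ⟩ := choose_omega hy h0 hL h21 hcard hX1ne hc0 hc1 v
    (fun o => hp (v o) (hv0 o) (hv1 o)) hp'
    (by
      rw [Fintype.card_option, Fintype.card_prod, Fintype.card_fun, Fintype.card_fin,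
        Fintype.card_fin, Fintype.card_fin]
      push_cast
      exact hsmall)
  refine ⟨ω, hω, q, ?_⟩
  have hya : ∀ a x, |y a x| = 1 := fun a x => by
    rcases hy a x with h | h <;> rw [h] <;> norm_num
  set ε : ℝ := (1 - c) / 4 with hε
  have hε0 : 0 < ε := by rw [hε]; linarith
  -- sums against the functional
  have hgam : ∀ f : X → ℝ, ∑ x, gam y ω L X1 X2 ε x * f x
      = Fintype.card X * av (fun x => (if x ∈ X2 then f x else 0) * DL y ω L x)
        + ε * ∑ x ∈ X1, f x := by
    intro f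
    have h1 : Fintype.card X * av (fun x => (if x ∈ X2 then f x else 0) * DL y ω L x)
        = ∑ x, (if x ∈ X2 then f x else 0) * DL y ω L x := by
      unfold av; field_simp
    have h2 : ε * ∑ x ∈ X1, f x = ∑ x, if x ∈ X1 then ε * f x else 0 := by
      rw [mul_sum, ← sum_filter]; congr 1; ext x; simp
    rw [h1, h2, ← sum_add_distrib]
    refine sum_congr rfl fun x _ => ?_
    unfold gam
    split_ifs <;> ring
  have hτX : Fintype.card X * ((4 * D + 1) * Λ * τ) ≤ ε * X1.card := by
    have h1 : (Fintype.card X : ℝ) ≤ X1.card * Fintype.card P := by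
      rw [div_le_iff₀ hPpos] at hq; exact hq
    have h2 : 0 ≤ (4 * D + 1) * Λ * τ := by positivity
    calc Fintype.card X * ((4 * D + 1) * Λ * τ)
        ≤ (X1.card * Fintype.card P) * ((4 * D + 1) * Λ * τ) := mul_le_mul_of_nonneg_right h1 h2
      _ = X1.card * ((4 * D + 1) * (2 * (r * (D + 1) + 1)) * Fintype.card P * τ) := by
          rw [hΛ]; ring
      _ ≤ X1.card * ε := mul_le_mul_of_nonneg_left hτ2 hX1pos.le
      _ = ε * X1.card := mul_comm _ _
  have hΓ : 0 < ∑ x, gam y ω L X1 X2 ε x := by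
    have h1 := hgam (fun _ => 1)
    simp only [mul_one] at h1
    rw [h1, sum_const, nsmul_eq_mul, mul_one]
    have h2 := hZ none
    have h3 : av (fun x => v none x * DL y ω L x)
        = av (fun x => (if x ∈ X2 then (1 : ℝ) else 0) * DL y ω L x) := rfl
    rw [h3] at h2
    have h4 : -(Fintype.card X * τ) ≤
        Fintype.card X * av (fun x => (if x ∈ X2 then (1 : ℝ) else 0) * DL y ω L x) := by
      nlinarith
    have h5 : Fintype.card X * τ < ε * X1.card := by
      refine lt_of_lt_of_le ?_ hτX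
      have h6 : 0 < Fintype.card X * τ := by positivity
      have h7 : (1 : ℝ) < (4 * D + 1) * Λ := by
        have h8 : (0 : ℝ) ≤ D := Nat.cast_nonneg _
        nlinarith
      calc Fintype.card X * τ < Fintype.card X * τ * ((4 * D + 1) * Λ) :=
            lt_mul_of_one_lt_right h6 h7
        _ = Fintype.card X * ((4 * D + 1) * Λ * τ) := by ring
    linarith
  set Γ : ℝ := ∑ x, gam y ω L X1 X2 ε x with hΓdef
  have hgam0 : ∀ x, x ∉ X1 → gam y ω L X1 X2 ε x = 0 := by
    intro x h1
    have h2 : x ∉ X2 := fun h => h1 (h21 h)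
    simp [gam, h1, h2]
  refine ⟨fun x => gam y ω L X1 X2 ε x / Γ, ?_, ?_, ?_, ?_⟩
  · intro x hx
    change gam y ω L X1 X2 ε x / Γ = 0
    rw [hgam0 x fun h => hx (mem_filter.mp h).2, zero_div]
  · rw [← sum_div]; exact div_self hΓ.ne'
  · intro j a ha
    have h1 : ∑ x, gam y ω L X1 X2 ε x / Γ * ∑ l, a l * s j x l
        = (∑ x, gam y ω L X1 X2 ε x * ∑ l, a l * s j x l) / Γ := by
      rw [sum_div]; exact sum_congr rfl fun x _ => by ring
    rw [h1]
    refine div_nonneg ?_ hΓ.le
    obtain ⟨cc, hcc1, hcc2, hcc3⟩ := hbc j a fun x _ => ha x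
    set Sa : ℝ := ∑ x ∈ X1, ∑ l, a l * s j x l with hSa
    rcases (sum_nonneg fun x (_ : x ∈ X1) => ha x).lt_or_eq with hpos | hzero
    · -- the normalized coordinates
      set Aa : ℝ := Sa / X1.card with hAa
      have hAa0 : 0 < Aa := div_pos hpos hX1pos
      have hSaA : Sa = Aa * X1.card := by rw [hAa]; field_simp
      set c' : Fin (D + 1) → ℝ := fun i => cc i / Aa with hc'
      have hc'1 : ∀ i, |c' i| ≤ 1 := by
        intro i
        rw [hc']
        simp only
        rw [abs_div, abs_of_pos hAa0, div_le_one hAa0, hAa, le_div_iff₀ hX1pos]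
        exact hcc1 i
      have hc's : ∑ i, c' i = 1 := by
        rw [hc']
        simp only
        rw [← sum_div, div_eq_one_iff_eq hAa0.ne', hAa, eq_div_iff hX1pos.ne']
        exact hcc2
      obtain ⟨z, hz⟩ := net_approx hQ0 hc'1 hc's
      set g : X → ℝ := fun x => ∑ i, c' i * b j i x with hg
      have hfg : ∀ x ∈ X1, ∑ l, a l * s j x l = Aa * g x := by
        intro x hx
        rw [hcc3 x hx, hg, hc']
        simp only
        rw [mul_sum]
        exact sum_congr rfl fun i _ => by field_simp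
      have hgz : ∀ x ∈ X2, 0 ≤ g x := by
        intro x hx
        have h2 := ha x
        rw [hfg x (h21 hx)] at h2
        exact nonneg_of_mul_nonneg_right h2 hAa0
      have hdif : ∀ x ∈ X2, 0 ≤ vz z (fun i => b j i x) - g x ∧
          (vz z (fun i => b j i x) - g x) * Q ≤ 2 * D * Λ := fun x hx =>
        hz (fun i => b j i x) Λ (fun i => hb0 _ _ _) (fun i => (mem_filter.mp hx).2 _ _)
      -- the truncated density on `g`
      have hZg : -((4 * D + 1) * Λ * τ) ≤
          av (fun x => (if x ∈ X2 then g x else 0) * DL y ω L x) := by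
        have h2 := hZ (some (j, z))
        have h3 : av (fun x => (if x ∈ X2 then g x else 0) * DL y ω L x)
            = (2 * D + 1) * Λ * av (fun x => v (some (j, z)) x * DL y ω L x)
              - av (fun x => (if x ∈ X2 then (vz z (fun i => b j i x) - g x) else 0)
                * DL y ω L x) := by
          rw [← av_mul_left, ← av_sub]
          refine av_congr fun x => ?_
          simp only [v]
          split_ifs with hx
          · have h4 : max 0 (vz z (fun i => b j i x)) = vz z (fun i => b j i x) :=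
              max_eq_right (by linarith [hgz x hx, (hdif x hx).1])
            rw [h4]
            field_simp
            ring
          · ring
        have h5 : av (fun x => (if x ∈ X2 then (vz z (fun i => b j i x) - g x) else 0)
            * DL y ω L x) ≤ 2 * D * Λ * τ := by
          refine av_le_const fun x => ?_
          split_ifs with hx
          · have h6 : (vz z (fun i => b j i x) - g x) * DL y ω L x
                ≤ (vz z (fun i => b j i x) - g x) * (Q * τ) := by
              refine mul_le_mul_of_nonneg_left ?_ (hdif x hx).1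
              exact (le_abs_self _).trans ((abs_DL_le hya ω L x).trans hQ)
            have h7 : (vz z (fun i => b j i x) - g x) * (Q * τ)
                = (vz z (fun i => b j i x) - g x) * Q * τ := by ring
            rw [h7] at h6
            exact h6.trans (mul_le_mul_of_nonneg_right (hdif x hx).2 hτ.le)
          · rw [zero_mul]; positivity
        rw [h3]
        have h6 : (2 * D + 1) * Λ * (-τ)
            ≤ (2 * D + 1) * Λ * av (fun x => v (some (j, z)) x * DL y ω L x) :=
          mul_le_mul_of_nonneg_left h2 hbig.le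
        linarith
      rw [hgam]
      have h8 : ∀ x, (if x ∈ X2 then ∑ l, a l * s j x l else 0) * DL y ω L x
          = Aa * ((if x ∈ X2 then g x else 0) * DL y ω L x) := by
        intro x
        split_ifs with hx
        · rw [hfg x (h21 hx)]; ring
        · ring
      rw [av_congr h8, av_mul_left, ← hSa, hSaA]
      have h9 : Fintype.card X * -((4 * D + 1) * Λ * τ)
          ≤ Fintype.card X * av (fun x => (if x ∈ X2 then g x else 0) * DL y ω L x) :=
        mul_le_mul_of_nonneg_left hZg hXpos.le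
      have h10 : 0 ≤ Fintype.card X * av (fun x => (if x ∈ X2 then g x else 0) * DL y ω L x)
          + ε * X1.card := by linarith
      calc (0 : ℝ) ≤ Aa * (Fintype.card X *
            av (fun x => (if x ∈ X2 then g x else 0) * DL y ω L x) + ε * X1.card) :=
            mul_nonneg hAa0.le h10
        _ = _ := by ring
    · have h2 : ∀ x ∈ X1, ∑ l, a l * s j x l = 0 :=
        (sum_eq_zero_iff_of_nonneg fun x _ => ha x).mp hzero.symm
      refine le_of_eq (sum_eq_zero fun x _ => ?_).symm
      by_cases hx : x ∈ X1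
      · rw [h2 x hx, mul_zero]
      · rw [hgam0 x hx, zero_mul]
  · have h1 : ∑ x, gam y ω L X1 X2 ε x / Γ * sat y ω x
        = (∑ x, gam y ω L X1 X2 ε x * sat y ω x) / Γ := by
      rw [sum_div]; exact sum_congr rfl fun x _ => by ring
    rw [h1, le_div_iff₀ hΓ]
    have h2 : ∑ x, gam y ω L X1 X2 ε x * (sat y ω x - c)
        = ∑ x, gam y ω L X1 X2 ε x * sat y ω x - Γ * c := by
      rw [hΓdef, sum_mul, ← sum_sub_distrib]
      exact sum_congr rfl fun x _ => by ring
    linarith

end choose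

end Pool.Agent.TH661.LPX
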