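import Pool.Agent.TH661.LPX.Av

/-!
Truncated parity densities: characters of a random constraint system, adaptive conditioning.
-/

set_option autoImplicit false

namespace Pool.Agent.TH661.LPX

open Finset

section core

variable {X J A : Type*} [Fintype X] [Fintype J] [DecidableEq J]

/-- The product of the signs of the constraints in `E`. -/
def Y (y : A → X → ℝ) (ω : J → A) (E : Finset J) (x : X) : ℝ := ∏ i ∈ E, y (ω i) x

/-- The correlation of `g` with the product of the signs of the constraints in `E`. -/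
noncomputable def co (y : A → X → ℝ) (ω : J → A) (g : X → ℝ) (E : Finset J) : ℝ :=
  av fun x => g x * Y y ω E x

/-- `g` conditioned (without normalization) on the constraints in `E`. -/
def up (y : A → X → ℝ) (ω : J → A) (E : Finset J) (g : X → ℝ) : X → ℝ :=
  fun x => g x * ∏ i ∈ E, (1 + y (ω i) x)

/-- The truncated density. -/
def DL (y : A → X → ℝ) (ω : J → A) (L : ℕ) (x : X) : ℝ :=
  ∑ E ∈ univ.filter (fun E : Finset J => E.card ≤ L), Y y ω E x

/-- The absolute values of the correlations of `v` of large order. -/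
noncomputable def RR (y : A → X → ℝ) (ω : J → A) (L1 L : ℕ) (v : X → ℝ) : ℝ :=
  ∑ E ∈ univ.filter (fun E : Finset J => L1 < E.card ∧ E.card ≤ L), |co y ω v E|

/-- The number of subsets with at most `L` elements. -/
noncomputable def NL (J : Type*) [Fintype J] [DecidableEq J] (L : ℕ) : ℝ :=
  ((univ.filter (fun E : Finset J => E.card ≤ L)).card : ℝ)

variable {y : A → X → ℝ}

omit [Fintype X] [Fintype J] in
theorem Y_union (ω : J → A) {E F : Finset J} (h : Disjoint E F) (x : X) :
    Y y ω (E ∪ F) x = Y y ω E x * Y y ω F x := by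
  unfold Y; rw [prod_union h]

omit [Fintype X] [Fintype J] [DecidableEq J] in
theorem Y_empty (ω : J → A) (x : X) : Y y ω ∅ x = 1 := by simp [Y]

omit [Fintype X] [Fintype J] [DecidableEq J] in
theorem abs_Y (hy : ∀ a x, |y a x| = 1) (ω : J → A) (E : Finset J) (x : X) :
    |Y y ω E x| = 1 := by
  unfold Y
  rw [Finset.abs_prod]
  exact prod_eq_one fun i _ => hy _ _

omit [Fintype J] [DecidableEq J] in
theorem abs_co_le (hy : ∀ a x, |y a x| = 1) (ω : J → A) {g : X → ℝ} (hg : ∀ x, 0 ≤ g x)
    (E : Finset J) : |co y ω g E| ≤ av g := by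
  refine (abs_av_le _).trans (le_of_eq ?_)
  refine av_congr fun x => ?_
  rw [abs_mul, abs_Y hy, mul_one, abs_of_nonneg (hg x)]

omit [Fintype J] [DecidableEq J] in
theorem co_empty (ω : J → A) (g : X → ℝ) : co y ω g ∅ = av g := by
  unfold co
  exact av_congr fun x => by rw [Y_empty, mul_one]

omit [Fintype X] [Fintype J] [DecidableEq J] in
theorem prod_one_add_nonneg (hy : ∀ a x, |y a x| = 1) (ω : J → A) (E : Finset J) (x : X) :
    0 ≤ ∏ i ∈ E, (1 + y (ω i) x) :=
  prod_nonneg fun i _ => by
    have := neg_abs_le (y (ω i) x)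
    rw [hy] at this
    linarith

omit [Fintype X] [Fintype J] [DecidableEq J] in
theorem prod_one_add_le (hy : ∀ a x, |y a x| = 1) (ω : J → A) (E : Finset J) (x : X) :
    ∏ i ∈ E, (1 + y (ω i) x) ≤ 2 ^ E.card := by
  rw [← prod_const]
  refine prod_le_prod (fun i _ => ?_) fun i _ => ?_
  · have := neg_abs_le (y (ω i) x)
    rw [hy] at this
    linarith
  · have := le_abs_self (y (ω i) x)
    rw [hy] at this
    linarith

omit [Fintype X] [Fintype J] [DecidableEq J] in
theorem up_nonneg (hy : ∀ a x, |y a x| = 1) (ω : J → A) (E : Finset J) {g : X → ℝ}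
    (hg : ∀ x, 0 ≤ g x) (x : X) : 0 ≤ up y ω E g x :=
  mul_nonneg (hg x) (prod_one_add_nonneg hy ω E x)

omit [Fintype X] [Fintype J] [DecidableEq J] in
theorem up_empty (ω : J → A) (g : X → ℝ) : up y ω ∅ g = g := by
  funext x; simp [up]

omit [Fintype X] [Fintype J] in
theorem up_up (ω : J → A) {E F : Finset J} (h : Disjoint E F) (g : X → ℝ) :
    up y ω F (up y ω E g) = up y ω (E ∪ F) g := by
  funext x
  simp only [up]
  rw [prod_union h, mul_assoc]

theorem co_up (ω : J → A) (F : Finset J) (v : X → ℝ) {E : Finset J} (hE : Disjoint E F) :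
    co y ω (up y ω F v) E = ∑ E2 ∈ F.powerset, co y ω v (E ∪ E2) := by
  unfold co
  rw [← av_sum]
  refine av_congr fun x => ?_
  simp only [up]
  rw [Finset.prod_one_add, mul_sum, sum_mul]
  refine sum_congr rfl fun E2 hE2 => ?_
  rw [mem_powerset] at hE2
  rw [Y_union ω (Disjoint.mono_right hE2 hE)]
  unfold Y
  ring

/-- The part of the sum of the correlations that is controlled by conditioning on `F`. -/
theorem main_eq (ω : J → A) (F : Finset J) (v : X → ℝ) (L1 : ℕ) :
    ∑ E ∈ (Fᶜ).powerset.filter (fun E => E.card ≤ L1), co y ω (up y ω F v) E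
      = ∑ E ∈ univ.filter (fun E : Finset J => (E \ F).card ≤ L1), co y ω v E := by
  have h1 : ∑ E ∈ (Fᶜ).powerset.filter (fun E => E.card ≤ L1), co y ω (up y ω F v) E
      = ∑ E ∈ (Fᶜ).powerset.filter (fun E => E.card ≤ L1),
          ∑ E2 ∈ F.powerset, co y ω v (E ∪ E2) := by
    refine sum_congr rfl fun E hE => ?_
    rw [mem_filter, mem_powerset] at hE
    exact co_up ω F v (Finset.disjoint_left.mpr fun i hi hF =>
      (Finset.mem_compl.mp (hE.1 hi)) hF)
  rw [h1, ← Finset.sum_product']
  refine Finset.sum_bij' (fun p _ => p.1 ∪ p.2) (fun E _ => (E \ F, E ∩ F)) ?_ ?_ ?_ ?_ ?_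
  · intro p hp
    rw [mem_product, mem_filter, mem_powerset, mem_powerset] at hp
    rw [mem_filter]
    refine ⟨mem_univ _, ?_⟩
    have : (p.1 ∪ p.2) \ F ⊆ p.1 := by
      intro i hi
      rw [mem_sdiff, mem_union] at hi
      rcases hi.1 with h | h
      · exact h
      · exact absurd (hp.2 h) hi.2
    exact (card_le_card this).trans hp.1.2
  · intro E hE
    rw [mem_filter] at hE
    rw [mem_product, mem_filter, mem_powerset, mem_powerset]
    refine ⟨⟨?_, hE.2⟩, inter_subset_right⟩
    intro i hi
    rw [mem_compl]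
    exact (mem_sdiff.mp hi).2
  · intro p hp
    rw [mem_product, mem_filter, mem_powerset, mem_powerset] at hp
    have hd : ∀ i ∈ p.1, i ∉ F := fun i hi => mem_compl.mp (hp.1.1 hi)
    ext i
    · simp only [mem_sdiff, mem_union]
      constructor
      · rintro ⟨h | h, hF⟩
        · exact h
        · exact absurd (hp.2 h) hF
      · exact fun h => ⟨Or.inl h, hd i h⟩
    · simp only [mem_inter, mem_union]
      constructor
      · rintro ⟨h | h, hF⟩
        · exact absurd hF (hd i h)
        · exact h
      · exact fun h => ⟨Or.inr h, hp.2 h⟩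
  · intro E _
    exact sdiff_union_inter E F
  · intro p _
    rfl

theorem Z_eq (ω : J → A) (L : ℕ) (v : X → ℝ) :
    av (fun x => v x * DL y ω L x)
      = ∑ E ∈ univ.filter (fun E : Finset J => E.card ≤ L), co y ω v E := by
  unfold co DL
  rw [← av_sum]
  exact av_congr fun x => mul_sum _ _ _

theorem Z_ge (ω : J → A) (F : Finset J) (v : X → ℝ) {L1 f L : ℕ} (hL : L = L1 + f)
    (hF : F.card ≤ f) :
    ∑ E ∈ (Fᶜ).powerset.filter (fun E => E.card ≤ L1), co y ω (up y ω F v) E
      - RR y ω L1 L v ≤ av (fun x => v x * DL y ω L x) := by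
  rw [main_eq, Z_eq]
  have hsub : univ.filter (fun E : Finset J => (E \ F).card ≤ L1)
      ⊆ univ.filter (fun E : Finset J => E.card ≤ L) := by
    intro E hE
    rw [mem_filter] at hE ⊢
    refine ⟨mem_univ _, ?_⟩
    have h1 : (E \ F).card + (E ∩ F).card = E.card := card_sdiff_add_card_inter E F
    have h2 : (E ∩ F).card ≤ F.card := card_le_card inter_subset_right
    omega
  rw [← Finset.sum_sdiff hsub]
  have h3 : |∑ E ∈ univ.filter (fun E : Finset J => E.card ≤ L) \
      univ.filter (fun E : Finset J => (E \ F).card ≤ L1), co y ω v E| ≤ RR y ω L1 L v := by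
    refine (abs_sum_le_sum_abs _ _).trans ?_
    unfold RR
    refine sum_le_sum_of_subset_of_nonneg ?_ fun _ _ _ => abs_nonneg _
    intro E hE
    rw [mem_sdiff, mem_filter, mem_filter] at hE
    rw [mem_filter]
    refine ⟨mem_univ _, ?_, hE.1.2⟩
    by_contra hcon
    refine hE.2 ⟨mem_univ _, ?_⟩
    have : (E \ F).card ≤ E.card := card_le_card sdiff_subset
    omega
  have h4 := neg_abs_le (∑ E ∈ univ.filter (fun E : Finset J => E.card ≤ L) \
      univ.filter (fun E : Finset J => (E \ F).card ≤ L1), co y ω v E)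
  linarith

/-- `E` violates the smallness of correlations. -/
def Viol (y : A → X → ℝ) (ω : J → A) (δ θ : ℝ) (L1 : ℕ) (S E : Finset J) (g : X → ℝ) : Prop :=
  E ⊆ S ∧ E.Nonempty ∧ E.card ≤ L1 ∧ δ < av g ∧ θ ^ E.card * av g < |co y ω g E|

/-- There is a chain of violations of total size more than `c`. -/
inductive Bad (y : A → X → ℝ) (ω : J → A) (δ θ : ℝ) (L1 : ℕ) :
    ℕ → Finset J → (X → ℝ) → Prop
  | stop {c : ℕ} {S E : Finset J} {g : X → ℝ} (h : Viol y ω δ θ L1 S E g) (hc : c < E.card) :
      Bad y ω δ θ L1 c S g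
  | step {c : ℕ} {S E : Finset J} {g : X → ℝ} (h : Viol y ω δ θ L1 S E g) (hc : E.card ≤ c)
      (hb : Bad y ω δ θ L1 (c - E.card) (S \ E) (up y ω E g)) : Bad y ω δ θ L1 c S g

theorem exists_of_not_bad (ω : J → A) (δ θ : ℝ) (L1 : ℕ) (c : ℕ) :
    ∀ (S : Finset J) (g : X → ℝ), ¬ Bad y ω δ θ L1 c S g →
      ∃ F ⊆ S, F.card ≤ c ∧ (av (up y ω F g) ≤ δ ∨
        ∀ E, ¬ Viol y ω δ θ L1 (S \ F) E (up y ω F g)) := by
  induction c using Nat.strong_induction_on with
  | _ c ih =>
    intro S g hB
    by_cases hv : ∃ E, Viol y ω δ θ L1 S E g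
    · obtain ⟨E, hE⟩ := hv
      have hc : E.card ≤ c := by
        by_contra hcon
        exact hB (Bad.stop hE (not_le.mp hcon))
      have hpos : 0 < E.card := card_pos.mpr hE.2.1
      obtain ⟨F, hFS, hFc, hF⟩ := ih (c - E.card) (by omega) (S \ E) (up y ω E g)
        (fun h => hB (Bad.step hE hc h))
      have hd : Disjoint E F := by
        rw [Finset.disjoint_left]
        intro i hi hF
        exact (mem_sdiff.mp (hFS hF)).2 hi
      refine ⟨E ∪ F, union_subset hE.1 (hFS.trans sdiff_subset), ?_, ?_⟩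
      · rw [card_union_of_disjoint hd]; omega
      · rw [← up_up ω hd]
        rcases hF with h | h
        · exact Or.inl h
        · right
          intro E' hE'
          refine h E' ?_
          have hset : S \ (E ∪ F) = (S \ E) \ F := by
            ext i; simp only [mem_sdiff, mem_union]; tauto
          rw [hset] at hE'
          exact hE'
    · refine ⟨∅, empty_subset _, by simp, ?_⟩
      right
      intro E hE
      rw [up_empty, sdiff_empty] at hE
      exact hv ⟨E, hE⟩

/-- The deterministic part: without a long chain of violations the truncated density is almost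
nonnegative on `v`. -/
theorem Z_ge_of_not_bad [Nonempty J] (hy : ∀ a x, |y a x| = 1) (ω : J → A) {δ θ : ℝ} {L1 f L : ℕ}
    (hδ : 0 ≤ δ) (hθ : 0 ≤ θ) (hθM : θ * Fintype.card J ≤ 1 / 2) (hL : L = L1 + f) {v : X → ℝ}
    (hv : ∀ x, 0 ≤ v x) (hB : ¬ Bad y ω δ θ L1 f univ v) :
    - (δ * NL J L) - RR y ω L1 L v ≤ av (fun x => v x * DL y ω L x) := by
  obtain ⟨F, -, hFc, hF⟩ := exists_of_not_bad ω δ θ L1 f univ v hB
  have hZ := Z_ge (y := y) ω F v hL hFc
  have hg : ∀ x, 0 ≤ up y ω F v x := up_nonneg hy ω F hv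
  have hsub : (Fᶜ).powerset.filter (fun E => E.card ≤ L1)
      ⊆ univ.filter (fun E : Finset J => E.card ≤ L) := by
    intro E hE
    rw [mem_filter] at hE ⊢
    exact ⟨mem_univ _, by omega⟩
  have hNL : 0 ≤ NL J L := Nat.cast_nonneg _
  -- the light case
  have hlight : av (up y ω F v) ≤ δ →
      - (δ * NL J L) ≤
        ∑ E ∈ (Fᶜ).powerset.filter (fun E => E.card ≤ L1), co y ω (up y ω F v) E := by
    intro hl
    have h1 : |∑ E ∈ (Fᶜ).powerset.filter (fun E => E.card ≤ L1), co y ω (up y ω F v) E|
        ≤ δ * NL J L := by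
      calc |∑ E ∈ (Fᶜ).powerset.filter (fun E => E.card ≤ L1), co y ω (up y ω F v) E|
          ≤ ∑ E ∈ (Fᶜ).powerset.filter (fun E => E.card ≤ L1), |co y ω (up y ω F v) E| :=
            abs_sum_le_sum_abs _ _
        _ ≤ ∑ E ∈ (Fᶜ).powerset.filter (fun E => E.card ≤ L1), δ :=
            sum_le_sum fun E _ => (abs_co_le hy ω hg E).trans hl
        _ ≤ ∑ E ∈ univ.filter (fun E : Finset J => E.card ≤ L), δ :=
            sum_le_sum_of_subset_of_nonneg hsub fun _ _ _ => hδ
        _ = δ * NL J L := by
            rw [sum_const, nsmul_eq_mul, mul_comm]; rfl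
    have := neg_abs_le
      (∑ E ∈ (Fᶜ).powerset.filter (fun E => E.card ≤ L1), co y ω (up y ω F v) E)
    linarith
  rcases hF with h | h
  · linarith [hlight h]
  · by_cases hl : av (up y ω F v) ≤ δ
    · linarith [hlight hl]
    · rw [not_le] at hl
      have hpos : 0 ≤ av (up y ω F v) := av_nonneg hg
      have hsplit : ∑ E ∈ (Fᶜ).powerset.filter (fun E => E.card ≤ L1), co y ω (up y ω F v) E
          = av (up y ω F v) +
            ∑ E ∈ ((Fᶜ).powerset.filter (fun E => E.card ≤ L1)).erase ∅,
              co y ω (up y ω F v) E := by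
        rw [← Finset.add_sum_erase _ _ (a := (∅ : Finset J)) (by simp), co_empty]
      have hrest : |∑ E ∈ ((Fᶜ).powerset.filter (fun E => E.card ≤ L1)).erase ∅,
          co y ω (up y ω F v) E| ≤ av (up y ω F v) := by
        calc |∑ E ∈ ((Fᶜ).powerset.filter (fun E => E.card ≤ L1)).erase ∅,
              co y ω (up y ω F v) E|
            ≤ ∑ E ∈ ((Fᶜ).powerset.filter (fun E => E.card ≤ L1)).erase ∅,
              |co y ω (up y ω F v) E| := abs_sum_le_sum_abs _ _
          _ ≤ ∑ E ∈ ((Fᶜ).powerset.filter (fun E => E.card ≤ L1)).erase ∅,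
              θ ^ E.card * av (up y ω F v) := by
              refine sum_le_sum fun E hE => ?_
              rw [mem_erase, mem_filter, mem_powerset] at hE
              by_contra hcon
              rw [not_le] at hcon
              refine h E ⟨?_, nonempty_iff_ne_empty.mpr hE.1, hE.2.2, hl, hcon⟩
              intro i hi
              exact mem_sdiff.mpr ⟨mem_univ _, mem_compl.mp (hE.2.1 hi)⟩
          _ ≤ ∑ E ∈ (univ : Finset J).powerset.filter (fun E => E.Nonempty),
              θ ^ E.card * av (up y ω F v) := by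
              refine sum_le_sum_of_subset_of_nonneg ?_ fun _ _ _ =>
                mul_nonneg (pow_nonneg hθ _) hpos
              intro E hE
              rw [mem_erase] at hE
              rw [mem_filter, mem_powerset]
              exact ⟨subset_univ _, nonempty_iff_ne_empty.mpr hE.1⟩
          _ = (∑ E ∈ (univ : Finset J).powerset.filter (fun E => E.Nonempty),
              θ ^ E.card) * av (up y ω F v) := by rw [sum_mul]
          _ ≤ 1 * av (up y ω F v) :=
              mul_le_mul_of_nonneg_right (sum_nonempty_pow_le univ hθ hθM) hpos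
          _ = av (up y ω F v) := one_mul _
      have := neg_abs_le (∑ E ∈ ((Fᶜ).powerset.filter (fun E => E.card ≤ L1)).erase ∅,
          co y ω (up y ω F v) E)
      have h0 : 0 ≤ δ * NL J L := mul_nonneg hδ hNL
      linarith

end core

end Pool.Agent.TH661.LPX
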