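import Pool.Agent.TH661.LPX.Sel

/-!
The bound for the moments.
-/

set_option autoImplicit false

namespace Pool.Agent.TH661.LPX

/-- The bound for the moments of the Fourier coefficients. -/
noncomputable def mbd (k m : ℕ) (lam U : ℝ) (l : ℕ) : ℝ :=
  ((8 * lam) ^ k) ^ l + if l = 1 then 0 else (8 ^ k * (l / m) * U) ^ l

end Pool.Agent.TH661.LPX
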