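import Pool.Agent.TH661.LPX.Av

/-!
The power mean inequality for averages (helper147, job 4439).
-/

set_option autoImplicit false

namespace Pool.Agent.TH661.LPX

open Finset

namespace Jen

theorem eq_zero_of_av_nonpos {Ω : Type*} [Fintype Ω] [Nonempty Ω] {f : Ω → ℝ}
    (hf : ∀ a, 0 ≤ f a) (h : av f ≤ 0) (a : Ω) : f a = 0 := by
  have hc : (0 : ℝ) < Fintype.card Ω := by exact_mod_cast Fintype.card_pos
  unfold av at h
  have h1 : ∑ a, f a ≤ 0 := by
    by_contra hcon
    push Not at hcon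
    have := div_pos hcon hc
    linarith
  have h2 : ∑ a, f a = 0 := le_antisymm h1 (sum_nonneg fun a _ => hf a)
  exact (sum_eq_zero_iff_of_nonneg fun a _ => hf a).1 h2 a (mem_univ a)

end Jen

theorem av_sum_sq_pow_le {Ω ι : Type*} [Fintype Ω] [Nonempty Ω] [Fintype ι] {N : ℕ} (hN : 1 ≤ N)
    (p T : ι → ℝ) (Z : ι → Ω → ℝ) (hp : ∀ j, 0 ≤ p j) (hT : ∀ j, 0 ≤ T j)
    (hZ : ∀ j, av (fun σ => Z j σ ^ (2 * N)) ≤ T j ^ N) :
    av (fun σ => (∑ j, p j * Z j σ ^ 2) ^ N) ≤ (∑ j, p j * T j) ^ N := by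
  have hN0 : N ≠ 0 := by omega
  have hzero : ∀ j, T j = 0 → ∀ σ, Z j σ = 0 := by
    intro j hj σ
    have h1 := hZ j
    rw [hj, zero_pow hN0] at h1
    have h2 := Jen.eq_zero_of_av_nonpos (f := fun σ => Z j σ ^ (2 * N))
      (fun a => by rw [pow_mul]; positivity) h1 σ
    exact pow_eq_zero_iff (by omega) |>.1 h2
  set S : ℝ := ∑ j, p j * T j with hS
  have hS0 : 0 ≤ S := sum_nonneg fun j _ => mul_nonneg (hp j) (hT j)
  rcases hS0.eq_or_lt with h0 | hpos
  · have h1 : ∀ j, p j * T j = 0 := fun j =>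
      (sum_eq_zero_iff_of_nonneg fun j _ => mul_nonneg (hp j) (hT j)).1 h0.symm j (mem_univ j)
    have h2 : ∀ σ, (∑ j, p j * Z j σ ^ 2) ^ N = 0 := by
      intro σ
      rw [sum_eq_zero, zero_pow hN0]
      intro j _
      rcases mul_eq_zero.1 (h1 j) with h | h
      · rw [h, zero_mul]
      · rw [hzero j h σ]; ring
    rw [av_congr h2, av_const, ← h0, zero_pow hN0]
  · have hw0 : ∀ j, 0 ≤ p j * T j / S := fun j => div_nonneg (mul_nonneg (hp j) (hT j)) hS0
    have hw1 : ∑ j, p j * T j / S = 1 := by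
      rw [← sum_div, ← hS, div_self hpos.ne']
    have hpt : ∀ σ, (∑ j, p j * Z j σ ^ 2) ^ N ≤
        S ^ N * ∑ j, (p j * T j / S) * (Z j σ ^ 2 / T j) ^ N := by
      intro σ
      have e : ∑ j, p j * Z j σ ^ 2 = S * ∑ j, (p j * T j / S) * (Z j σ ^ 2 / T j) := by
        rw [mul_sum]
        refine sum_congr rfl fun j _ => ?_
        rcases (hT j).eq_or_lt with h | h
        · rw [hzero j h.symm σ]; simp
        · field_simp
      rw [e, mul_pow]
      refine mul_le_mul_of_nonneg_left ?_ (pow_nonneg hS0 N)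
      exact Real.pow_arith_mean_le_arith_mean_pow univ _ _ (fun j _ => hw0 j) hw1
        (fun j _ => div_nonneg (sq_nonneg _) (hT j)) N
    refine (av_mono hpt).trans ?_
    rw [av_mul_left, av_sum]
    have h3 : ∑ j, av (fun σ => (p j * T j / S) * (Z j σ ^ 2 / T j) ^ N) ≤ 1 := by
      rw [← hw1]
      refine sum_le_sum fun j _ => ?_
      rw [av_mul_left]
      rcases (hT j).eq_or_lt with h | h
      · rw [← h]; simp
      · refine mul_le_of_le_one_right (hw0 j) ?_
        have h4 : ∀ σ, (Z j σ ^ 2 / T j) ^ N = (1 / T j ^ N) * Z j σ ^ (2 * N) := by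
          intro σ
          rw [div_pow, ← pow_mul]
          ring
        rw [av_congr h4, av_mul_left, one_div, inv_mul_le_iff₀ (pow_pos h N), mul_one]
        exact hZ j
    calc S ^ N * ∑ j, av (fun σ => (p j * T j / S) * (Z j σ ^ 2 / T j) ^ N)
        ≤ S ^ N * 1 := mul_le_mul_of_nonneg_left h3 (pow_nonneg hS0 N)
      _ = S ^ N := mul_one _

end Pool.Agent.TH661.LPX
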