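import Mathlib

/-!
Kiefer-Wolfowitz design lemma with constant `4` (helper150 for helper661).
-/

set_option autoImplicit false

namespace Pool.Agent.TH661.LPX

open Finset

section KW

open Matrix

theorem kw_det {d : ℕ} (A : Matrix (Fin d) (Fin d) ℝ) (hA : IsUnit A.det) (v : Fin d → ℝ) (t : ℝ) :
    (A + t • vecMulVec v v).det = A.det * (1 + t * (v ⬝ᵥ (A⁻¹ *ᵥ v))) := by
  have h1 : t • vecMulVec v v = replicateCol Unit (t • v) * replicateRow Unit v := by
    rw [← vecMulVec_eq Unit]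
    ext i j
    simp only [Matrix.smul_apply, vecMulVec_apply, Pi.smul_apply, smul_eq_mul]
    ring
  rw [h1, det_add_replicateCol_mul_replicateRow hA]
  congr 1
  have h2 : (replicateRow Unit v * A⁻¹ * replicateCol Unit (t • v)) () () =
      t * (v ⬝ᵥ (A⁻¹ *ᵥ v)) := by
    have h3 : replicateRow Unit v * A⁻¹ = replicateRow Unit (v ᵥ* A⁻¹) :=
      (Matrix.replicateRow_vecMul _ _).symm
    rw [h3, Matrix.replicateRow_mul_replicateCol_apply, dotProduct_smul, smul_eq_mul,
      dotProduct_mulVec]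
  rw [det_unique, Matrix.add_apply, Matrix.one_apply_eq]
  exact congrArg (fun z => 1 + z) h2

theorem kw_bern {d : ℕ} (hd : 1 ≤ d) : (1 / 2 : ℝ) ≤ (1 - 1 / (2 * (d : ℝ))) ^ (d - 1) := by
  have hdR : (1 : ℝ) ≤ d := by exact_mod_cast hd
  have h1 : (-2 : ℝ) ≤ -(1 / (2 * (d : ℝ))) := by
    have : 1 / (2 * (d : ℝ)) ≤ 1 := by
      rw [div_le_one (by positivity)]
      linarith
    linarith
  have h2 := one_add_mul_le_pow h1 (d - 1)
  rw [← sub_eq_add_neg] at h2
  refine le_trans ?_ h2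
  have h3 : ((d - 1 : ℕ) : ℝ) = (d : ℝ) - 1 := by
    rw [Nat.cast_sub hd, Nat.cast_one]
  rw [h3]
  have h4 : ((d : ℝ) - 1) * (1 / (2 * (d : ℝ))) ≤ 1 / 2 := by
    rw [mul_one_div, div_le_div_iff₀ (by positivity) (by norm_num)]
    linarith
  linarith

theorem kw {d : ℕ} (hd : 1 ≤ d) (C : Set (Fin d → ℝ)) (he : ∀ i, Pi.single i (1 : ℝ) ∈ C)
    (hb : ∀ c ∈ C, ∀ i, |c i| ≤ 1) :
    ∃ (n : ℕ) (c : Fin n → Fin d → ℝ) (p : Fin n → ℝ), (∀ j, c j ∈ C) ∧ (∀ j, 0 ≤ p j) ∧
      ∑ j, p j = 1 ∧ ∀ v ∈ C, ∃ α : Fin n → ℝ, v = ∑ j, (p j * α j) • c j ∧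
        ∑ j, p j * α j ^ 2 ≤ 4 * d := by
  classical
  have hdR : (1 : ℝ) ≤ d := by exact_mod_cast hd
  have hd0 : (0 : ℝ) < d := by linarith
  set S : Set (Matrix (Fin d) (Fin d) ℝ) := (fun c => vecMulVec c c) '' C with hS
  set K : Set (Matrix (Fin d) (Fin d) ℝ) := convexHull ℝ S with hK
  have hKc : Convex ℝ K := convex_convexHull ℝ S
  -- entries are bounded
  have hent : ∀ A ∈ K, ∀ i j, |A i j| ≤ 1 := by
    intro A hA i j
    have hsub : K ⊆ {B : Matrix (Fin d) (Fin d) ℝ | |B i j| ≤ 1} := by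
      refine convexHull_min ?_ ?_
      · rintro B ⟨c, hc, rfl⟩
        change |vecMulVec c c i j| ≤ 1
        rw [vecMulVec_apply, abs_mul]
        exact mul_le_one₀ (hb c hc i) (abs_nonneg _) (hb c hc j)
      · intro B hB B' hB' a b ha hb' hab
        change |(a • B + b • B') i j| ≤ 1
        rw [Matrix.add_apply, Matrix.smul_apply, Matrix.smul_apply, smul_eq_mul, smul_eq_mul]
        have h1 : |B i j| ≤ 1 := hB
        have h2 : |B' i j| ≤ 1 := hB'
        calc |a * B i j + b * B' i j| ≤ |a * B i j| + |b * B' i j| := abs_add_le _ _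
          _ = a * |B i j| + b * |B' i j| := by
              rw [abs_mul, abs_mul, abs_of_nonneg ha, abs_of_nonneg hb']
          _ ≤ a * 1 + b * 1 := by gcongr
          _ = 1 := by rw [mul_one, mul_one, hab]
    exact hsub hA
  have hdet : ∀ A ∈ K, A.det ≤ (d.factorial : ℝ) := by
    intro A hA
    have h1 := Matrix.det_le (A := A) (abv := AbsoluteValue.abs) (x := (1 : ℝ))
      (fun i j => hent A hA i j)
    rw [one_pow, Fintype.card_fin, nsmul_eq_mul, mul_one] at h1
    exact (le_abs_self _).trans h1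
  have hbdd : BddAbove (Matrix.det '' K) := by
    refine ⟨(d.factorial : ℝ), ?_⟩
    rintro _ ⟨A, hA, rfl⟩
    exact hdet A hA
  -- the point `(1/d) I`
  have hI : ((1 / (d : ℝ)) • (1 : Matrix (Fin d) (Fin d) ℝ)) ∈ K := by
    have h1 : ∑ i : Fin d, (1 / (d : ℝ)) • vecMulVec (Pi.single i (1 : ℝ)) (Pi.single i (1 : ℝ)) ∈ K := by
      refine hKc.sum_mem (fun i _ => by positivity) ?_ (fun i _ => ?_)
      · rw [Finset.sum_const, Finset.card_univ, Fintype.card_fin, nsmul_eq_mul]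
        field_simp
      · exact subset_convexHull ℝ S ⟨_, he i, rfl⟩
    have h2 : ∑ i : Fin d, (1 / (d : ℝ)) • vecMulVec (Pi.single i (1 : ℝ)) (Pi.single i (1 : ℝ)) =
        (1 / (d : ℝ)) • (1 : Matrix (Fin d) (Fin d) ℝ) := by
      rw [← Finset.smul_sum]
      congr 1
      ext a b
      rw [Matrix.sum_apply]
      simp only [vecMulVec_apply, Pi.single_apply, Matrix.one_apply]
      simp
    rw [← h2]
    exact h1
  have hIpos : 0 < ((1 / (d : ℝ)) • (1 : Matrix (Fin d) (Fin d) ℝ)).det := by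
    rw [Matrix.det_smul, Matrix.det_one, mul_one]
    positivity
  set s : ℝ := sSup (Matrix.det '' K) with hs
  have hspos : 0 < s := lt_of_lt_of_le hIpos (le_csSup hbdd ⟨_, hI, rfl⟩)
  obtain ⟨_, ⟨A, hA, rfl⟩, hAs⟩ := exists_lt_of_lt_csSup (b := 9 / 10 * s)
    (⟨_, _, hI, rfl⟩ : (Matrix.det '' K).Nonempty) (by linarith)
  have hA0 : 0 < A.det := by linarith
  have hAu : IsUnit A.det := hA0.ne'.isUnit
  -- the quadratic form is bounded
  have hQ : ∀ v ∈ C, v ⬝ᵥ (A⁻¹ *ᵥ v) ≤ 4 * d := by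
    intro v hv
    set Q : ℝ := v ⬝ᵥ (A⁻¹ *ᵥ v) with hQd
    set x : ℝ := 1 / (2 * (d : ℝ)) with hx
    have hx0 : 0 < x := by positivity
    have hx1 : x ≤ 1 / 2 := by
      rw [hx, div_le_div_iff₀ (by positivity) (by norm_num)]
      linarith
    have h1x : 0 < 1 - x := by linarith
    have hxd : x * (4 * d) = 2 := by
      rw [hx]
      field_simp
      norm_num
    have hB : (1 - x) • A + x • vecMulVec v v ∈ K :=
      hKc hA (subset_convexHull ℝ S ⟨v, hv, rfl⟩) h1x.le hx0.le (by ring)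
    have hBs : ((1 - x) • A + x • vecMulVec v v).det ≤ s := le_csSup hbdd ⟨_, hB, rfl⟩
    have hBd : ((1 - x) • A + x • vecMulVec v v).det =
        (1 - x) ^ (d - 1) * (A.det * (1 - x + x * Q)) := by
      have e1 : (1 - x) • A + x • vecMulVec v v = (1 - x) • (A + (x / (1 - x)) • vecMulVec v v) := by
        rw [smul_add, smul_smul]
        congr 2
        field_simp
      rw [e1, Matrix.det_smul, Fintype.card_fin, kw_det A hAu, ← hQd]
      have e2 : (1 - x) ^ d = (1 - x) ^ (d - 1) * (1 - x) := by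
        rw [← pow_succ, Nat.sub_add_cancel hd]
      rw [e2]
      field_simp
    rw [hBd] at hBs
    by_contra hcon
    push Not at hcon
    have h2 : 2 < x * Q := by
      rw [← hxd]
      exact mul_lt_mul_of_pos_left hcon hx0
    have h3 : (5 / 2 : ℝ) < 1 - x + x * Q := by linarith
    have h4 := kw_bern hd
    have h5 : (1 / 2 : ℝ) * (A.det * (5 / 2)) ≤ (1 - x) ^ (d - 1) * (A.det * (1 - x + x * Q)) := by
      gcongr
    linarith
  -- the representation
  obtain ⟨ι, _, w, z, hw0, hw1, hz, hzA⟩ := mem_convexHull_iff_exists_fintype.1 hA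
  choose c' hc' hcz using hz
  set e := Fintype.equivFin ι with hedef
  refine ⟨Fintype.card ι, fun j => c' (e.symm j), fun j => w (e.symm j), fun j => hc' _,
    fun j => hw0 _, ?_, ?_⟩
  · rw [Equiv.sum_comp e.symm w]
    exact hw1
  · intro v hv
    have hAe : A = ∑ j : Fin (Fintype.card ι), w (e.symm j) •
        vecMulVec (c' (e.symm j)) (c' (e.symm j)) := by
      rw [Equiv.sum_comp e.symm (fun i => w i • vecMulVec (c' i) (c' i)), ← hzA]
      exact Finset.sum_congr rfl fun i _ => by rw [← hcz i]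
    set u : Fin d → ℝ := A⁻¹ *ᵥ v with hu
    have hAu' : A *ᵥ u = v := by
      rw [hu, Matrix.mulVec_mulVec, Matrix.mul_nonsing_inv A hAu, Matrix.one_mulVec]
    have hv' : v = ∑ j : Fin (Fintype.card ι),
        (w (e.symm j) * (c' (e.symm j) ⬝ᵥ u)) • c' (e.symm j) := by
      conv_lhs => rw [← hAu', hAe]
      rw [Matrix.sum_mulVec]
      refine Finset.sum_congr rfl fun j _ => ?_
      rw [Matrix.smul_mulVec, Matrix.vecMulVec_mulVec]
      ext i
      simp [mul_comm, mul_assoc, mul_left_comm]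
    refine ⟨fun j => c' (e.symm j) ⬝ᵥ u, hv', ?_⟩
    have h1 : ∑ j : Fin (Fintype.card ι), w (e.symm j) * (c' (e.symm j) ⬝ᵥ u) ^ 2 = v ⬝ᵥ u := by
      conv_rhs => rw [hv']
      rw [sum_dotProduct]
      refine Finset.sum_congr rfl fun j _ => ?_
      rw [smul_dotProduct, smul_eq_mul]
      ring
    rw [h1]
    exact hQ v hv

end KW

end Pool.Agent.TH661.LPX
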