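import Pool.Agent.TH661.LPX.Ch4
import Pool.Agent.TH661.LPX.Kw
import Pool.Agent.TH661.LPX.Jen

/-!
Designs for finite-dimensional families of densities.
-/

set_option autoImplicit false

namespace Pool.Agent.TH661.LPX

open Finset

theorem poly_moment' {I : Type*} [Fintype I] [DecidableEq I] (𝓔 : Finset (Finset I))
    (w : Finset I → ℝ) {N : ℕ} (hN : 1 ≤ N) :
    av (fun σ : I → Bool => (∑ E ∈ 𝓔, w E * ∏ i ∈ E, sg (σ i)) ^ (2 * N))
      ≤ (∑ E ∈ 𝓔, (2 * (N : ℝ)) ^ E.card * w E ^ 2) ^ N := by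
  classical
  have h := poly_moment (I := I) (fun E => if E ∈ 𝓔 then w E else 0) hN
  have h1 : ∀ σ : I → Bool, ∑ E : Finset I, (if E ∈ 𝓔 then w E else 0) * ∏ i ∈ E, sg (σ i)
      = ∑ E ∈ 𝓔, w E * ∏ i ∈ E, sg (σ i) := by
    intro σ
    have h2 : ∀ E : Finset I, (if E ∈ 𝓔 then w E else 0) * ∏ i ∈ E, sg (σ i)
        = if E ∈ 𝓔 then w E * ∏ i ∈ E, sg (σ i) else 0 := by
      intro E; split_ifs <;> ring
    rw [sum_congr rfl fun E _ => h2 E, ← sum_filter]
    congr 1; ext E; simp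
  have h3 : ∑ E : Finset I, (2 * (N : ℝ)) ^ E.card * (if E ∈ 𝓔 then w E else 0) ^ 2
      = ∑ E ∈ 𝓔, (2 * (N : ℝ)) ^ E.card * w E ^ 2 := by
    have h4 : ∀ E : Finset I, (2 * (N : ℝ)) ^ E.card * (if E ∈ 𝓔 then w E else 0) ^ 2
        = if E ∈ 𝓔 then (2 * (N : ℝ)) ^ E.card * w E ^ 2 else 0 := by
      intro E; split_ifs <;> ring
    rw [sum_congr rfl fun E _ => h4 E, ← sum_filter]
    congr 1; ext E; simp
  rw [h3] at h
  refine le_trans (le_of_eq ?_) h
  exact av_congr fun σ => by rw [h1]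

section design

variable {J : Type*} [DecidableEq J] [Fintype J] {k m : ℕ}

/-- Designs for a finite-dimensional family. -/
theorem design_pack {D : ℕ} (W : Submodule ℝ ((Fin k → Fin m → Bool) → ℝ))
    (hW : Module.finrank ℝ W ≤ D + 1) {g : (Fin k → Fin m → Bool) → ℝ} (hg0 : ∀ x, 0 ≤ g x)
    {G δ : ℝ} (hg1 : ∀ x, g x ≤ G) (hδ : 0 < δ) :
    ∃ T : (Fin k → Finset (Fin m)) → ℝ, (∀ S, 0 ≤ T S) ∧
      (∀ ρ : ℝ, 0 ≤ ρ → ρ ≤ 1 →
        ∑ S : Fin k → Finset (Fin m), ρ ^ nS S * T S ≤ (G / δ) ^ (2 * ρ)) ∧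
      ∀ (H : J → Fin k → Fin m) (𝓔 : Finset (Finset J)) (N : ℕ), 1 ≤ N →
        ∃ Q : (J → Bool) → ℝ, (∀ σ, 0 ≤ Q σ) ∧
          av (fun σ => Q σ ^ N) ≤ (∑ E ∈ 𝓔, (2 * (N : ℝ)) ^ E.card * T (SE H E)) ^ N ∧
          ∀ v ∈ box W, δ ≤ av (fun x => g x * v x) → ∀ σ : J → Bool,
            (∑ E ∈ 𝓔, fc (fun x => g x * v x) (SE H E) * ∏ i ∈ E, sg (σ i)) ^ 2
              ≤ 4 * (D + 1) * Q σ * av (fun x => g x * v x) ^ 2 := by
  classical
  have hG0 : 0 ≤ G := (hg0 (fun _ _ => false)).trans (hg1 _)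
  rcases norm_spanner W hW hg0 hg1 hδ with hno | ⟨b, hb, hc⟩
  · refine ⟨fun _ => 0, fun _ => le_refl _, fun ρ _ _ => ?_, fun H 𝓔 N hN => ?_⟩
    · simp only [mul_zero, sum_const_zero]
      exact Real.rpow_nonneg (by positivity) _
    · refine ⟨fun _ => 0, fun _ => le_refl _, ?_, fun v hv hv1 => absurd hv1 (hno v hv)⟩
      have h0 : (0 : ℝ) ^ N = 0 := zero_pow (by omega)
      simp only [mul_zero, sum_const_zero, h0]
      exact le_of_eq (av_const 0)
  · set C : Set (Fin (D + 1) → ℝ) := {c | (∀ i, |c i| ≤ 1) ∧ ∃ v ∈ box W,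
      δ ≤ av (fun x => g x * v x) ∧
      (1 / av (fun x => g x * v x)) • (fun x => g x * v x) = ∑ i, c i • b i} with hC
    obtain ⟨n, c, p, hcC, hp0, hp1, hα⟩ := kw (d := D + 1) (by omega) C (by
      intro i
      obtain ⟨-, -, -, v, hv, hv1, hvb⟩ := hb i
      refine ⟨fun j => ?_, v, hv, hv1, ?_⟩
      · by_cases h : j = i
        · subst h; simp
        · simp [Pi.single_apply, h]
      · rw [hvb]
        rw [Finset.sum_eq_single i]
        · simp
        · intro j _ hj; simp [Pi.single_apply, hj]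
        · intro h; exact absurd (mem_univ _) h) (fun c hc => hc.1)
    set b' : Fin n → (Fin k → Fin m → Bool) → ℝ := fun j => ∑ i, c j i • b i with hb'
    have hb'0 : ∀ j, (∀ x, 0 ≤ b' j x) ∧ (∀ x, b' j x ≤ G / δ) ∧ av (b' j) = 1 := by
      intro j
      obtain ⟨-, v, hv, hv1, hvb⟩ := hcC j
      have hpos : 0 < av (fun x => g x * v x) := lt_of_lt_of_le hδ hv1
      have hbj : ∀ x, b' j x = 1 / av (fun x => g x * v x) * (g x * v x) := fun x => by
        rw [hb']; simp only; rw [← hvb]; rfl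
      refine ⟨fun x => ?_, fun x => ?_, ?_⟩
      · rw [hbj]; exact mul_nonneg (by positivity) (mul_nonneg (hg0 x) (hv.2 x).1)
      · rw [hbj, one_div_mul_eq_div]
        have h1 : g x * v x ≤ G := by
          have := (hv.2 x).2
          have := (hv.2 x).1
          nlinarith [hg0 x, hg1 x]
        exact div_le_div₀ hG0 h1 hδ hv1
      · rw [av_congr hbj, av_mul_left]
        field_simp
    refine ⟨fun S => ∑ j, p j * fc (b' j) S ^ 2, fun S => ?_, fun ρ h0 h1 => ?_,
      fun H 𝓔 N hN => ?_⟩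
    · exact sum_nonneg fun j _ => mul_nonneg (hp0 j) (sq_nonneg _)
    · have h2 : ∑ S : Fin k → Finset (Fin m), ρ ^ nS S * ∑ j, p j * fc (b' j) S ^ 2
          = ∑ j, p j * ∑ S : Fin k → Finset (Fin m), ρ ^ nS S * fc (b' j) S ^ 2 := by
        simp_rw [mul_sum]
        rw [sum_comm]
        exact sum_congr rfl fun j _ => sum_congr rfl fun S _ => by ring
      rw [h2]
      calc ∑ j, p j * ∑ S : Fin k → Finset (Fin m), ρ ^ nS S * fc (b' j) S ^ 2
          ≤ ∑ j, p j * (G / δ) ^ (2 * ρ) := by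
            refine sum_le_sum fun j _ => mul_le_mul_of_nonneg_left ?_ (hp0 j)
            exact fc_weight_density h0 h1 (hb'0 j).1 (hb'0 j).2.1 (hb'0 j).2.2
        _ = (G / δ) ^ (2 * ρ) := by rw [← sum_mul, hp1, one_mul]
    · set Z : Fin n → (J → Bool) → ℝ := fun j σ =>
        ∑ E ∈ 𝓔, fc (b' j) (SE H E) * ∏ i ∈ E, sg (σ i) with hZ
      refine ⟨fun σ => ∑ j, p j * Z j σ ^ 2, fun σ => ?_, ?_, fun v hv hv1 σ => ?_⟩
      · exact sum_nonneg fun j _ => mul_nonneg (hp0 j) (sq_nonneg _)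
      · have h1 := av_sum_sq_pow_le hN p
          (fun j => ∑ E ∈ 𝓔, (2 * (N : ℝ)) ^ E.card * fc (b' j) (SE H E) ^ 2) Z hp0
          (fun j => sum_nonneg fun E _ => by positivity)
          (fun j => poly_moment' 𝓔 (fun E => fc (b' j) (SE H E)) hN)
        refine h1.trans (le_of_eq ?_)
        congr 1
        simp_rw [mul_sum]
        rw [sum_comm]
        exact sum_congr rfl fun j _ => sum_congr rfl fun E _ => by ring
      · have hpos : 0 < av (fun x => g x * v x) := lt_of_lt_of_le hδ hv1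
        obtain ⟨d, hd1, hd2⟩ := hc v hv hv1
        obtain ⟨α, hα1, hα2⟩ := hα d ⟨hd1, v, hv, hv1, hd2⟩
        have h1 : (1 / av (fun x => g x * v x)) • (fun x => g x * v x)
            = ∑ j, (p j * α j) • b' j := by
          rw [hd2, hα1, hb']
          have h2 : ∀ i, (∑ j, (p j * α j) • c j) i = ∑ j, (p j * α j) * c j i := by
            intro i
            rw [Finset.sum_apply]
            exact sum_congr rfl fun j _ => by rw [Pi.smul_apply, smul_eq_mul]
          simp_rw [h2, sum_smul, smul_sum]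
          rw [sum_comm]
          exact sum_congr rfl fun j _ => sum_congr rfl fun i _ => by rw [smul_smul]
        have h2 : ∀ E : Finset J, fc (fun x => g x * v x) (SE H E)
            = av (fun x => g x * v x) * ∑ j, (p j * α j) * fc (b' j) (SE H E) := by
          intro E
          rw [← fc_sum, ← h1, fc_smul]
          field_simp
        have h3 : ∑ E ∈ 𝓔, fc (fun x => g x * v x) (SE H E) * ∏ i ∈ E, sg (σ i)
            = av (fun x => g x * v x) * ∑ j, (p j * α j) * Z j σ := by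
          rw [hZ]
          simp_rw [mul_sum]
          rw [sum_comm]
          refine sum_congr rfl fun E _ => ?_
          rw [h2 E, mul_sum, sum_mul]
          exact sum_congr rfl fun i _ => by ring
        rw [h3, mul_pow]
        have h4 : (∑ j, (p j * α j) * Z j σ) ^ 2
            ≤ (∑ j, p j * α j ^ 2) * ∑ j, p j * Z j σ ^ 2 := by
          refine Finset.sum_sq_le_sum_mul_sum_of_sq_le_mul univ
            (fun j _ => mul_nonneg (hp0 j) (sq_nonneg _))
            (fun j _ => mul_nonneg (hp0 j) (sq_nonneg _)) fun j _ => le_of_eq ?_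
          ring
        have h5 : 0 ≤ ∑ j, p j * Z j σ ^ 2 :=
          sum_nonneg fun j _ => mul_nonneg (hp0 j) (sq_nonneg _)
        have h6 : (∑ j, (p j * α j) * Z j σ) ^ 2
            ≤ 4 * (D + 1) * ∑ j, p j * Z j σ ^ 2 := by
          refine h4.trans (mul_le_mul_of_nonneg_right ?_ h5)
          push_cast at hα2
          linarith
        rw [mul_comm]
        exact mul_le_mul_of_nonneg_right h6 (sq_nonneg _)

end design

end Pool.Agent.TH661.LPX
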