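import Pool.Agent.TH661.LPX.Def4

/-!
Random hypergraphs expand.
-/

set_option autoImplicit false

namespace Pool.Agent.TH661.LPX

open Finset

section expand

variable {J : Type*} [DecidableEq J] [Fintype J] {k m : ℕ}

/-- The indicator of a small number of odd vertices is bounded by a moment. -/
theorem ind_small_le {q l n : ℕ} {r y : ℝ} (hq : 1 ≤ q) (hr0 : 0 ≤ r) (hr1 : r ≤ 1)
    (hy : 0 < y) (hyq : y ^ q = r ^ (q - 1)) :
    ind (q * n < (q - 1) * l) ≤ (1 / y) ^ l * r ^ n := by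
  by_cases h : q * n < (q - 1) * l
  · rw [ind_true h, one_div, inv_pow, ← div_eq_inv_mul, le_div_iff₀ (by positivity), one_mul]
    have h1 : (y ^ l) ^ q ≤ (r ^ n) ^ q := by
      calc (y ^ l) ^ q = (y ^ q) ^ l := by rw [← pow_mul, ← pow_mul, mul_comm]
        _ = r ^ ((q - 1) * l) := by rw [hyq, ← pow_mul]
        _ ≤ r ^ (q * n) := pow_le_pow_of_le_one hr0 hr1 h.le
        _ = (r ^ n) ^ q := by rw [← pow_mul, mul_comm]
    exact (pow_le_pow_iff_left₀ (by positivity) (by positivity) (by omega)).mp h1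
  · rw [ind_false h]; positivity

theorem exp_prob (hm : 0 < m) (hk : 3 ≤ k) {L q : ℕ} {lam V κ : ℝ} (hq : 1 ≤ q)
    (hL : (L : ℝ) ≤ lam * m) (hlam1 : lam ≤ 1) (hV0 : 0 ≤ V)
    (hV : lam ^ ((k - 3) * q + 1) ≤ V ^ (2 * q))
    (hκ : 3 * Fintype.card J * 6 ^ k * V ≤ κ * m) (hκ0 : 0 ≤ κ) (hκ1 : κ ≤ 1 / 2) :
    av (fun H : J → Fin k → Fin m => ind (∃ E : Finset J, E.Nonempty ∧ E.card ≤ L ∧
      q * nS (SE H E) < (q - 1) * E.card)) ≤ 2 * κ := by
  have hmR : (0 : ℝ) < m := by exact_mod_cast hm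
  have hqR : (0 : ℝ) < q := by exact_mod_cast hq
  set r : ℕ → ℝ := fun l => Real.sqrt (l / m) with hr
  set y : ℕ → ℝ := fun l => r l ^ (((q - 1 : ℕ) : ℝ) / q) with hy
  set z : ℕ → ℝ := fun l => (6 * r l) ^ k / y l with hz
  have hr0 : ∀ l, 0 ≤ r l := fun l => Real.sqrt_nonneg _
  have hz0 : ∀ l, 0 ≤ z l := fun l => by
    have := hr0 l
    rw [hz, hy]; simp only
    positivity
  have hrpos : ∀ l, 1 ≤ l → 0 < r l := fun l hl => by
    have : (0 : ℝ) < l := by exact_mod_cast hl
    exact Real.sqrt_pos.mpr (by positivity)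
  have hr2 : ∀ l, r l ^ 2 = l / m := fun l => Real.sq_sqrt (by positivity)
  have hrlam : ∀ l, l ≤ L → r l ^ 2 ≤ lam := fun l hl => by
    rw [hr2, div_le_iff₀ hmR]
    have : (l : ℝ) ≤ L := by exact_mod_cast hl
    linarith
  have hr1 : ∀ l, l ≤ L → r l ≤ 1 := fun l hl => by
    have := (hrlam l hl).trans hlam1
    nlinarith [hr0 l]
  have hypos : ∀ l, 1 ≤ l → 0 < y l := fun l hl => Real.rpow_pos_of_pos (hrpos l hl) _
  have hyq : ∀ l, y l ^ q = r l ^ (q - 1) := fun l => by
    rw [hy]; simp only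
    rw [← Real.rpow_natCast, ← Real.rpow_mul (hr0 l), div_mul_cancel₀ _ hqR.ne', Real.rpow_natCast]
  -- union bound
  have h1 : av (fun H : J → Fin k → Fin m => ind (∃ E : Finset J, E.Nonempty ∧ E.card ≤ L ∧
      q * nS (SE H E) < (q - 1) * E.card)) ≤
      av (fun H : J → Fin k → Fin m => ∑ E ∈ univ.filter (fun E : Finset J => 0 < E.card ∧
        E.card ≤ L), ind (q * nS (SE H E) < (q - 1) * E.card)) := by
    apply av_mono
    intro H
    by_cases h : ∃ E : Finset J, E.Nonempty ∧ E.card ≤ L ∧ q * nS (SE H E) < (q - 1) * E.card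
    · rw [ind_true h]
      obtain ⟨E, hE, hEL, hEq⟩ := h
      have hmem : E ∈ univ.filter (fun E : Finset J => 0 < E.card ∧ E.card ≤ L) :=
        mem_filter.mpr ⟨mem_univ _, card_pos.mpr hE, hEL⟩
      have h2 := single_le_sum (f := fun E : Finset J => ind (q * nS (SE H E) < (q - 1) * E.card))
        (fun E _ => ind_nonneg _) hmem
      simp only [ind_true hEq] at h2
      exact h2
    · rw [ind_false h]
      exact sum_nonneg fun E _ => ind_nonneg _
  refine h1.trans ?_
  rw [av_sum]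
  have hterm : ∀ E ∈ univ.filter (fun E : Finset J => 0 < E.card ∧ E.card ≤ L),
      av (fun H : J → Fin k → Fin m => ind (q * nS (SE H E) < (q - 1) * E.card))
        ≤ z E.card ^ E.card := by
    intro E hE
    rw [mem_filter] at hE
    have hE1 : 1 ≤ E.card := hE.2.1
    have h2 : av (fun H : J → Fin k → Fin m => ind (q * nS (SE H E) < (q - 1) * E.card)) ≤
        av (fun H : J → Fin k → Fin m => (1 / y E.card) ^ E.card * r E.card ^ nS (SE H E)) :=
      av_mono fun H => ind_small_le hq (hr0 _) (hr1 _ hE.2.2) (hypos _ hE1) (hyq _)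
    refine h2.trans ?_
    rw [av_mul_left]
    have h3 := size_moment (k := k) hm E (card_pos.mp (by omega)) (hrpos _ hE1)
      (le_refl (r E.card)) (le_refl (r E.card))
    have h4 : 0 < y E.card := hypos _ hE1
    refine (mul_le_mul_of_nonneg_left h3 (by positivity)).trans (le_of_eq ?_)
    rw [hz]; simp only
    rw [div_pow, div_pow, one_pow, ← pow_mul]
    ring
  refine (sum_le_sum hterm).trans ?_
  have h3 : ∑ E ∈ univ.filter (fun E : Finset J => 0 < E.card ∧ E.card ≤ L), z E.card ^ E.card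
      = ∑ l ∈ range (Fintype.card J + 1),
        (Fintype.card J).choose l • (if 0 < l ∧ l ≤ L then z l ^ l else 0) := by
    rw [← card_univ (α := J), ← Finset.sum_powerset_apply_card
      (fun l => if 0 < l ∧ l ≤ L then z l ^ l else 0), powerset_univ, ← sum_filter]
  rw [h3]
  have h4 : (2 : ℝ) * κ = 2 * κ ^ (0 + 1) := by rw [zero_add, pow_one]
  rw [h4]
  refine le_trans (sum_le_sum fun l _ => ?_) (geom_tail hκ0 hκ1 0 (Fintype.card J + 1))
  rw [nsmul_eq_mul]
  by_cases hl : 0 < l ∧ l ≤ L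
  · rw [if_pos hl, if_pos hl.1]
    have hl1 : 1 ≤ l := hl.1
    have hlR : (1 : ℝ) ≤ l := by exact_mod_cast hl1
    refine choose_mul_pow_le hl1 (hz0 l) ?_
    have hyp : 0 < y l := hypos l hl1
    have hrp : 0 < r l := hrpos l hl1
    set w : ℝ := r l ^ (k - 2) / y l with hw
    have hw0 : 0 ≤ w := by positivity
    have hwV : w ≤ V := by
      have e1 : w ^ (2 * q) ≤ V ^ (2 * q) := by
        refine le_trans ?_ hV
        have e2 : w ^ (2 * q) = (r l ^ 2) ^ ((k - 3) * q + 1) := by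
          rw [hw, div_pow, mul_comm 2 q, pow_mul (y l), hyq, div_eq_iff (by positivity),
            ← pow_mul, ← pow_mul, ← pow_mul, ← pow_add]
          congr 1
          obtain ⟨k', rfl⟩ : ∃ k', k = k' + 3 := ⟨k - 3, by omega⟩
          obtain ⟨q', rfl⟩ : ∃ q', q = q' + 1 := ⟨q - 1, by omega⟩
          simp only [Nat.add_sub_cancel, show k' + 3 - 2 = k' + 1 by omega]
          ring
        rw [e2]
        exact pow_le_pow_left₀ (by positivity) (hrlam l hl.2) _
      exact (pow_le_pow_iff_left₀ hw0 hV0 (by omega)).mp e1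
    have e3 : z l = 6 ^ k * (w * (l / m)) := by
      rw [hz, hw]; simp only
      rw [mul_pow, ← hr2 l]
      have : r l ^ k = r l ^ (k - 2) * r l ^ 2 := by rw [← pow_add]; congr 1; omega
      rw [this]; ring
    rw [e3]
    calc 3 * (Fintype.card J : ℝ) * (6 ^ k * (w * (l / m)))
        ≤ 3 * (Fintype.card J : ℝ) * (6 ^ k * (V * (l / m))) := by gcongr
      _ = (3 * Fintype.card J * 6 ^ k * V) * (l / m) := by ring
      _ ≤ (κ * m) * (l / m) := mul_le_mul_of_nonneg_right hκ (by positivity)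
      _ = κ * l := by field_simp
  · rw [if_neg hl, mul_zero]
    split_ifs <;> positivity

end expand

end Pool.Agent.TH661.LPX
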