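import Pool.Agent.TH661.LPX.Def4

/-!
Weighted moments of Fourier weights, single edges (job 4441, written by helper656).
-/

set_option autoImplicit false

namespace Pool.Agent.TH661.LPX

open Finset

section moone

variable {J : Type*} [DecidableEq J] [Fintype J] {k m : ℕ}

omit [Fintype J] in
theorem nS_SE_one (H : J → Fin k → Fin m) {E : Finset J} (hE : E.card = 1) :
    nS (SE H E) = k := by
  obtain ⟨i, rfl⟩ := card_eq_one.mp hE
  have h1 : SE H {i} = fun j => {H i j} := by
    have h2 := SE_insert H (E := ∅) (i := i) (notMem_empty i)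
    rw [insert_empty_eq] at h2
    rw [h2]
    funext j
    have h3 : SE H ∅ j = ∅ := os_empty _
    rw [h3]
    simp
  rw [h1]
  unfold nS
  simp

theorem moment_one (hm : 0 < m) (hk : 1 ≤ k) {t' : ℕ} {lam : ℝ} (hkt : k ≤ t')
    (hlam : (t' : ℝ) ≤ lam * (k * m)) (T : (Fin k → Finset (Fin m)) → ℝ) (hT : ∀ S, 0 ≤ T S)
    {E : Finset J} (hE : E.card = 1)
    (hW : ∑ S : Fin k → Finset (Fin m), ((k : ℝ) / t') ^ nS S * T S ≤ 4 ^ k) :
    av (fun H : J → Fin k → Fin m => T (SE H E)) ≤ (8 * lam) ^ k := by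
  have hmR : (0 : ℝ) < m := by exact_mod_cast hm
  have hkR : (0 : ℝ) < k := by exact_mod_cast hk
  have htR : (0 : ℝ) < t' := by exact_mod_cast lt_of_lt_of_le hk hkt
  have hl0 : 0 < lam := by
    by_contra h
    push Not at h
    have h1 : lam * (k * m) ≤ 0 := mul_nonpos_of_nonpos_of_nonneg h (by positivity)
    linarith
  set ρ : ℝ := (k : ℝ) / t' with hρ
  have hρ0 : 0 < ρ := by positivity
  set r : ℝ := Real.sqrt (1 / m) with hr
  have hr0 : 0 < r := Real.sqrt_pos.mpr (by positivity)
  have hr2 : r ^ 2 = 1 / m := Real.sq_sqrt (by positivity)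
  have hle : r ^ 2 ≤ lam * ρ := by
    rw [hr2, hρ, div_le_iff₀ hmR]
    have h2 : lam * (k / t') * m = (lam * (k * m)) / t' := by field_simp
    rw [h2, one_le_div htR]
    exact hlam
  have h0 : ∀ H : J → Fin k → Fin m, T (SE H E)
      = (fun S => ind (nS S = k) * T S) (SE H E) := by
    intro H
    simp only
    rw [ind_true (nS_SE_one H hE), one_mul]
  rw [av_congr h0]
  have h1 := av_SE_le (k := k) hm hr0 E (by rw [hE, hr2]; exact le_of_eq (by push_cast; field_simp))
    (w := fun S => ind (nS S = k) * T S)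
    (w' := fun S => (2 * lam) ^ k * (ρ ^ nS S * T S))
    (fun S => mul_nonneg (ind_nonneg _) (hT S))
    (fun S => mul_nonneg (by positivity) (mul_nonneg (by positivity) (hT S))) (fun S _ => by
      by_cases hS : nS S = k
      · rw [ind_true hS, one_mul, hE, mul_one, hS]
        have h2 : r ^ (k + k) ≤ (lam * ρ) ^ k := by
          calc r ^ (k + k) = (r ^ 2) ^ k := by rw [← pow_mul]; congr 1; ring
            _ ≤ (lam * ρ) ^ k := pow_le_pow_left₀ (by positivity) hle _
        calc T S * (2 ^ k * r ^ (k + k)) ≤ T S * (2 ^ k * (lam * ρ) ^ k) := by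
              refine mul_le_mul_of_nonneg_left ?_ (hT S)
              exact mul_le_mul_of_nonneg_left h2 (by positivity)
          _ = (2 * lam) ^ k * (ρ ^ k * T S) := by
              rw [mul_pow, mul_pow]; ring
      · rw [ind_false hS, zero_mul, zero_mul]
        exact mul_nonneg (by positivity) (mul_nonneg (by positivity) (hT S)))
  refine h1.trans ?_
  rw [← mul_sum]
  calc (2 * lam) ^ k * ∑ S : Fin k → Finset (Fin m), ρ ^ nS S * T S
      ≤ (2 * lam) ^ k * 4 ^ k := mul_le_mul_of_nonneg_left hW (by positivity)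
    _ = (8 * lam) ^ k := by rw [← mul_pow]; congr 1; ring

end moone

end Pool.Agent.TH661.LPX
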