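import Pool.Agent.TH661.LPX.Sgn

/-!
The choice of the hypergraph.
-/

set_option autoImplicit false

namespace Pool.Agent.TH661.LPX

open Finset

theorem choose_mul_pow_le {M l : ℕ} (hl : 1 ≤ l) {y κ : ℝ} (hy : 0 ≤ y)
    (h : 3 * M * y ≤ κ * l) : (M.choose l : ℝ) * y ^ l ≤ κ ^ l := by
  have hlR : (0 : ℝ) < l := by exact_mod_cast hl
  have hfac : (0 : ℝ) < (l.factorial : ℝ) := by exact_mod_cast Nat.factorial_pos l
  have h1 : (M.choose l : ℝ) ≤ (M : ℝ) ^ l / l.factorial := Nat.choose_le_pow_div l M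
  have h2 : (l : ℝ) ^ l ≤ 3 ^ l * l.factorial := by
    have h3 := Real.pow_div_factorial_le_exp (l : ℝ) (Nat.cast_nonneg _) l
    rw [div_le_iff₀ hfac] at h3
    refine h3.trans (mul_le_mul_of_nonneg_right ?_ hfac.le)
    have h4 : Real.exp (l : ℝ) = Real.exp 1 ^ l := by rw [← Real.exp_nat_mul, mul_one]
    rw [h4]
    refine pow_le_pow_left₀ (Real.exp_pos _).le ?_ _
    have := Real.exp_one_lt_d9
    linarith
  have h5 : (M.choose l : ℝ) * y ^ l * (l : ℝ) ^ l ≤ κ ^ l * (l : ℝ) ^ l := by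
    calc (M.choose l : ℝ) * y ^ l * (l : ℝ) ^ l
        ≤ ((M : ℝ) ^ l / l.factorial) * y ^ l * (3 ^ l * l.factorial) := by gcongr
      _ = (3 * M * y) ^ l := by rw [mul_pow, mul_pow]; field_simp
      _ ≤ (κ * l) ^ l := pow_le_pow_left₀ (by positivity) h l
      _ = κ ^ l * (l : ℝ) ^ l := mul_pow _ _ _
  exact le_of_mul_le_mul_right h5 (by positivity)

theorem geom_tail {κ : ℝ} (h0 : 0 ≤ κ) (h1 : κ ≤ 1 / 2) (l0 n : ℕ) :
    ∑ l ∈ range n, (if l0 < l then κ ^ l else 0) ≤ 2 * κ ^ (l0 + 1) := by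
  have h : ∀ n, ∑ l ∈ range n, (if l0 < l then κ ^ l else 0)
      ≤ 2 * κ ^ (l0 + 1) - (if l0 < n then 2 * κ ^ n else 0) := by
    intro n
    induction n with
    | zero => simp; positivity
    | succ n ih =>
      rw [sum_range_succ]
      have hn : 0 ≤ κ ^ n := by positivity
      by_cases h2 : l0 < n
      · rw [if_pos h2] at ih ⊢
        rw [if_pos (by omega : l0 < n + 1)]
        have h3 : κ ^ (n + 1) = κ ^ n * κ := pow_succ _ _
        have h4 : κ ^ n * κ ≤ κ ^ n * (1 / 2) := mul_le_mul_of_nonneg_left h1 hn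
        linarith
      · rw [if_neg h2] at ih ⊢
        by_cases h3 : l0 < n + 1
        · have h4 : l0 = n := by omega
          rw [if_pos h3]
          have h5 : ∑ l ∈ range n, (if l0 < l then κ ^ l else 0) = 0 := by
            refine sum_eq_zero fun l hl => ?_
            rw [mem_range] at hl
            rw [if_neg (by omega)]
          rw [h5, h4]
          linarith
        · rw [if_neg h3]
          linarith
  refine (h n).trans ?_
  have : 0 ≤ (if l0 < n then 2 * κ ^ n else 0) := by split_ifs <;> positivity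
  linarith

section sig

variable {J : Type*} [DecidableEq J] [Fintype J] {k m : ℕ}

theorem Sig_moment (hm : 0 < m) (hk : 2 ≤ k) {a κ R : ℝ} {N l0 L : ℕ} (ha : 0 < a)
    (hκ0 : 0 < κ) (hκ1 : κ ≤ 1 / 2) (hR0 : 0 ≤ R) (hR : (L : ℝ) ≤ m * R ^ 2)
    (h1 : 6 * N * Fintype.card J * (6 * a) ^ k ≤ κ)
    (h2 : 6 * N * Fintype.card J * 6 ^ k * R ^ (k - 2) ≤ κ * m) :
    av (fun H : J → Fin k → Fin m => Sig H a N l0 L) ≤ 2 * κ ^ (l0 + 1) := by
  have hmR : (0 : ℝ) < m := by exact_mod_cast hm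
  unfold Sig
  rw [av_sum]
  set y : ℕ → ℝ := fun l => 2 * N * (6 * max a (Real.sqrt (l / m))) ^ k with hy
  have hy0 : ∀ l, 0 ≤ y l := fun l => by
    rw [hy]; simp only
    have : 0 ≤ max a (Real.sqrt (l / m)) := ha.le.trans (le_max_left _ _)
    positivity
  have hterm : ∀ E ∈ univ.filter (fun E : Finset J => l0 < E.card ∧ E.card ≤ L),
      av (fun H : J → Fin k → Fin m => (2 * (N : ℝ)) ^ E.card * a ^ nS (SE H E))
        ≤ y E.card ^ E.card := by
    intro E hE
    rw [mem_filter] at hE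
    rw [av_mul_left]
    have hmax : 0 ≤ max a (Real.sqrt (E.card / m)) := ha.le.trans (le_max_left _ _)
    have h3 := size_moment (k := k) hm E (card_pos.mp (by omega)) ha
      (le_max_left a (Real.sqrt (E.card / m))) (le_max_right a (Real.sqrt (E.card / m)))
    refine (mul_le_mul_of_nonneg_left h3 (by positivity)).trans (le_of_eq ?_)
    rw [hy]; simp only
    rw [mul_pow (2 * (N : ℝ)), ← pow_mul]
  refine (sum_le_sum hterm).trans ?_
  have h3 : ∑ E ∈ univ.filter (fun E : Finset J => l0 < E.card ∧ E.card ≤ L), y E.card ^ E.card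
      = ∑ l ∈ range (Fintype.card J + 1),
        (Fintype.card J).choose l • (if l0 < l ∧ l ≤ L then y l ^ l else 0) := by
    rw [← card_univ (α := J), ← Finset.sum_powerset_apply_card
      (fun l => if l0 < l ∧ l ≤ L then y l ^ l else 0), powerset_univ, ← sum_filter]
  rw [h3]
  refine le_trans (sum_le_sum fun l _ => ?_) (geom_tail hκ0.le hκ1 l0 (Fintype.card J + 1))
  rw [nsmul_eq_mul]
  by_cases hl : l0 < l ∧ l ≤ L
  · rw [if_pos hl, if_pos hl.1]
    have hl1 : 1 ≤ l := by omega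
    have hlR : (1 : ℝ) ≤ l := by exact_mod_cast hl1
    refine choose_mul_pow_le hl1 (hy0 l) ?_
    rw [hy]; simp only
    rcases le_total a (Real.sqrt (l / m)) with h | h
    · rw [max_eq_right h]
      set r := Real.sqrt (l / m) with hr
      have hr0 : 0 ≤ r := Real.sqrt_nonneg _
      have hr2 : r ^ 2 = l / m := Real.sq_sqrt (by positivity)
      have hrR : r ≤ R := by
        have h4 : r ^ 2 ≤ R ^ 2 := by
          rw [hr2, div_le_iff₀ hmR, mul_comm]
          refine le_trans ?_ hR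
          exact_mod_cast hl.2
        exact (pow_le_pow_iff_left₀ hr0 hR0 (by norm_num)).mp h4
      have h5 : (6 * r) ^ k ≤ 6 ^ k * (l / m * R ^ (k - 2)) := by
        rw [mul_pow, ← hr2]
        refine mul_le_mul_of_nonneg_left ?_ (by positivity)
        calc r ^ k = r ^ 2 * r ^ (k - 2) := by rw [← pow_add]; congr 1; omega
          _ ≤ r ^ 2 * R ^ (k - 2) :=
              mul_le_mul_of_nonneg_left (pow_le_pow_left₀ hr0 hrR _) (by positivity)
      calc 3 * (Fintype.card J : ℝ) * (2 * N * (6 * r) ^ k)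
          ≤ 3 * (Fintype.card J : ℝ) * (2 * N * (6 ^ k * (l / m * R ^ (k - 2)))) := by gcongr
        _ = (6 * N * Fintype.card J * 6 ^ k * R ^ (k - 2)) * (l / m) := by ring
        _ ≤ (κ * m) * (l / m) := mul_le_mul_of_nonneg_right h2 (by positivity)
        _ = κ * l := by field_simp
    · rw [max_eq_left h]
      calc 3 * (Fintype.card J : ℝ) * (2 * N * (6 * a) ^ k)
          = 6 * N * Fintype.card J * (6 * a) ^ k := by ring
        _ ≤ κ := h1
        _ ≤ κ * l := le_mul_of_one_le_right hκ0.le hlR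
  · rw [if_neg hl, mul_zero]
    split_ifs <;> positivity

/-- The moments of the Fourier coefficients of bounded densities. -/
theorem moment_density (hm : 0 < m) (hk : 1 ≤ k) {L t' : ℕ} {a B G : ℝ} (ha : 0 < a)
    (hB1 : Real.sqrt (L / m) ≤ B) (hB2 : (t' : ℝ) ≤ B * a * (k * m)) (hkL : k * L ≤ t')
    (hG : G ≤ 2 ^ t') {b : (Fin k → Fin m → Bool) → ℝ} (hb0 : ∀ x, 0 ≤ b x)
    (hb1 : ∀ x, b x ≤ G) (hb : av b = 1) {E : Finset J} (hE : E.Nonempty) (hEL : E.card ≤ L) :
    av (fun H : J → Fin k → Fin m => (1 / a) ^ nS (SE H E) * fc b (SE H E) ^ 2)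
      ≤ ((8 * B) ^ k) ^ E.card := by
  have hmR : (0 : ℝ) < m := by exact_mod_cast hm
  have hkR : (0 : ℝ) < k := by exact_mod_cast hk
  have hEpos : (0 : ℝ) < E.card := by exact_mod_cast card_pos.mpr hE
  have hLpos : 0 < L := lt_of_lt_of_le (card_pos.mpr hE) hEL
  have ht' : 0 < t' := lt_of_lt_of_le (by positivity) hkL
  have htR : (0 : ℝ) < t' := by exact_mod_cast ht'
  have hELR : (E.card : ℝ) ≤ L := by exact_mod_cast hEL
  set ρ : ℝ := k * E.card / t' with hρ
  have hρ0 : 0 < ρ := by positivity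
  have hρ1 : ρ ≤ 1 := by
    rw [hρ, div_le_one htR]
    have : k * E.card ≤ t' := (Nat.mul_le_mul_left k hEL).trans hkL
    exact_mod_cast this
  set r : ℝ := Real.sqrt (E.card / m) with hr
  have hr0 : 0 < r := Real.sqrt_pos.mpr (by positivity)
  have hr2 : r ^ 2 = E.card / m := Real.sq_sqrt (by positivity)
  have hrB : r ≤ B := by
    refine le_trans (Real.sqrt_le_sqrt ?_) hB1
    exact div_le_div_of_nonneg_right hELR hmR.le
  have hB : 0 < B := lt_of_lt_of_le hr0 hrB
  have h1 : r ^ 2 ≤ B * (a * ρ) := by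
    rw [hr2, hρ, div_le_iff₀ hmR]
    have h2 : B * (a * (k * E.card / t')) * m = E.card * ((B * a * (k * m)) / t') := by
      field_simp
    rw [h2]
    refine le_mul_of_one_le_right hEpos.le ?_
    rw [one_le_div htR]
    exact hB2
  have hW : ∑ S : Fin k → Finset (Fin m), ρ ^ nS S * fc b S ^ 2 ≤ 4 ^ (k * E.card) := by
    refine (fc_weight_density hρ0.le hρ1 hb0 hb1 hb).trans ?_
    have hG0 : 0 ≤ G := by
      have : (1 : ℝ) ≤ G := by rw [← hb]; exact av_le_const hb1
      linarith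
    calc G ^ (2 * ρ) ≤ ((2 : ℝ) ^ t') ^ (2 * ρ) := Real.rpow_le_rpow hG0 hG (by positivity)
      _ = 4 ^ (k * E.card) := by
          rw [← Real.rpow_natCast 2 t', ← Real.rpow_mul (by norm_num),
            ← Real.rpow_natCast 4 (k * E.card), show (4 : ℝ) = 2 ^ (2 : ℝ) by norm_num,
            ← Real.rpow_mul (by norm_num)]
          congr 1
          rw [hρ]; push_cast; field_simp
  have h3 := fc_moment hm hr0 E (by rw [hr2]; exact le_of_eq (by field_simp)) ha hρ0 hrB h1 b hW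
  refine h3.trans (le_of_eq ?_)
  rw [← mul_pow, ← pow_mul]
  congr 1; ring

/-- The moments of the Fourier coefficients of functions with values in the unit interval. -/
theorem moment_unit (hm : 0 < m) (hk : 1 ≤ k) {L t' : ℕ} {a B : ℝ} (ha : 0 < a)
    (hB1 : Real.sqrt (L / m) ≤ B) (hB2 : (t' : ℝ) ≤ B * a * (k * m)) (hkL : k * L ≤ t')
    {b : (Fin k → Fin m → Bool) → ℝ} (hb0 : ∀ x, 0 ≤ b x)
    (hb1 : ∀ x, b x ≤ 1) {E : Finset J} (hE : E.Nonempty) (hEL : E.card ≤ L) :
    av (fun H : J → Fin k → Fin m => (1 / a) ^ nS (SE H E) * fc b (SE H E) ^ 2)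
      ≤ ((8 * B) ^ k) ^ E.card := by
  have hmR : (0 : ℝ) < m := by exact_mod_cast hm
  have hkR : (0 : ℝ) < k := by exact_mod_cast hk
  have hEpos : (0 : ℝ) < E.card := by exact_mod_cast card_pos.mpr hE
  have hLpos : 0 < L := lt_of_lt_of_le (card_pos.mpr hE) hEL
  have ht' : 0 < t' := lt_of_lt_of_le (by positivity) hkL
  have htR : (0 : ℝ) < t' := by exact_mod_cast ht'
  have hELR : (E.card : ℝ) ≤ L := by exact_mod_cast hEL
  set ρ : ℝ := k * E.card / t' with hρ
  have hρ0 : 0 < ρ := by positivity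
  have hρ1 : ρ ≤ 1 := by
    rw [hρ, div_le_one htR]
    have : k * E.card ≤ t' := (Nat.mul_le_mul_left k hEL).trans hkL
    exact_mod_cast this
  set r : ℝ := Real.sqrt (E.card / m) with hr
  have hr0 : 0 < r := Real.sqrt_pos.mpr (by positivity)
  have hr2 : r ^ 2 = E.card / m := Real.sq_sqrt (by positivity)
  have hrB : r ≤ B := by
    refine le_trans (Real.sqrt_le_sqrt ?_) hB1
    exact div_le_div_of_nonneg_right hELR hmR.le
  have hB : 0 < B := lt_of_lt_of_le hr0 hrB
  have h1 : r ^ 2 ≤ B * (a * ρ) := by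
    rw [hr2, hρ, div_le_iff₀ hmR]
    have h2 : B * (a * (k * E.card / t')) * m = E.card * ((B * a * (k * m)) / t') := by
      field_simp
    rw [h2]
    refine le_mul_of_one_le_right hEpos.le ?_
    rw [one_le_div htR]
    exact hB2
  have h3 := fc_moment hm hr0 E (by rw [hr2]; exact le_of_eq (by field_simp)) ha hρ0 hrB h1 b
    (fc_weight_le_one hρ0.le hρ1 hb0 hb1)
  refine h3.trans ?_
  rw [mul_one, ← pow_mul]
  exact pow_le_pow_left₀ (by positivity) (by linarith) _

/-- The choice of the hypergraph. -/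
theorem exists_good (hm : 0 < m) (hk : 2 ≤ k) [Nonempty J] {V : Type*} [Fintype V] {D : ℕ}
    (W : V → Submodule ℝ ((Fin k → Fin m → Bool) → ℝ))
    (hW : ∀ o, Module.finrank ℝ (W o) ≤ D + 1)
    (b : V → Fin (D + 1) → (Fin k → Fin m → Bool) → ℝ) (hb : ∀ o i, b o i ∈ box (W o))
    {δ a κ R B W0 : ℝ} {N L1 L f t' : ℕ} (hL : L = L1 + f) (hδ : 0 < δ) (ha : 0 < a)
    (hκ0 : 0 < κ) (hκ1 : κ ≤ 1 / 2) (hR0 : 0 ≤ R) (hR : (L : ℝ) ≤ m * R ^ 2)
    (h1 : 6 * N * Fintype.card J * (6 * a) ^ k ≤ κ)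
    (h2 : 6 * N * Fintype.card J * 6 ^ k * R ^ (k - 2) ≤ κ * m)
    (hRB : R ≤ B) (hB2 : (t' : ℝ) ≤ B * a * (k * m)) (hkL : k * L ≤ t')
    (hG : 2 ^ f / δ ≤ 2 ^ t')
    (hW0 : 4 * Fintype.card J * ((D + 1) ^ 2 * (8 * B) ^ k) ≤ W0) (hW1 : W0 ≤ 1)
    (hV : Fintype.card V * (W0 ^ (f + 1) + (D + 1) * W0 ^ (L1 + 1)) < 1 / 2) :
    ∃ H : J → Fin k → Fin m, Sig H a N 0 L ≤ 8 * κ ∧ Sig H a N L1 L ≤ 8 * κ ^ (L1 + 1) ∧
      ∀ o, ¬ BadH H δ a L1 (box (W o)) f univ (fun _ => 1) ∧
        ∀ i, ¬ ∃ E : Finset J, L1 < E.card ∧ E.card ≤ L ∧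
          a ^ nS (SE H E) < fc (b o i) (SE H E) ^ 2 := by
  classical
  have : NeZero m := ⟨by omega⟩
  have hmR : (0 : ℝ) < m := by exact_mod_cast hm
  have hJ : (0 : ℝ) < Fintype.card J := by exact_mod_cast Fintype.card_pos
  have hB0 : 0 ≤ B := hR0.trans hRB
  have hsq : Real.sqrt (L / m) ≤ B := by
    refine le_trans ?_ hRB
    rw [Real.sqrt_le_left hR0, div_le_iff₀ hmR, mul_comm]
    exact hR
  set β : ℝ := (8 * B) ^ k with hβ
  have hβ0 : 0 ≤ β := by positivity
  have hD1 : (1 : ℝ) ≤ (D + 1) ^ 2 := one_le_pow₀ (by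
    have : (0 : ℝ) ≤ D := Nat.cast_nonneg _
    linarith)
  have hW00 : 0 ≤ W0 := le_trans (by positivity) hW0
  -- bad hypergraphs
  have hbadprob : ∀ o, av (fun H : J → Fin k → Fin m =>
      ind (BadH H δ a L1 (box (W o)) f univ (fun _ => 1))) ≤ W0 ^ (f + 1) := by
    intro o
    refine badH_prob hm (G := 2 ^ f) (q := (1 / (4 * Fintype.card J)) * W0)
      (α := 1 / (4 * Fintype.card J)) hW00 hW1 (by positivity)
      (by field_simp; norm_num) rfl ?_ f univ _ (fun _ => zero_le_one) fun x => by rw [one_mul]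
    intro h E hh0 hh1 hE hEL
    refine (violH_prob hm (D := D) (L1 := L1) (β := β) (G := 2 ^ f) hβ0 hδ ha ?_ (W o) (hW o)
      hh0 hh1 hE hEL).trans ?_
    · intro c hc0 hc1 hc E' hE' hEL'
      exact moment_density hm (by omega) ha hsq hB2 hkL hG hc0 hc1 hc hE' (by omega)
    · refine pow_le_pow_left₀ (by positivity) ?_ _
      rw [one_div_mul_eq_div, le_div_iff₀ (by positivity)]
      linarith
  have h2β : 2 * Fintype.card J * β ≤ W0 := by
    refine le_trans ?_ hW0
    have h3 : Fintype.card J * β ≤ Fintype.card J * ((D + 1) ^ 2 * β) :=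
      mul_le_mul_of_nonneg_left (le_mul_of_one_le_left hβ0 hD1) hJ.le
    have h4 : 0 ≤ Fintype.card J * β := by positivity
    nlinarith
  have htailprob : ∀ o i, av (fun H : J → Fin k → Fin m =>
      ind (∃ E : Finset J, L1 < E.card ∧ E.card ≤ L ∧
          a ^ nS (SE H E) < fc (b o i) (SE H E) ^ 2)) ≤ W0 ^ (L1 + 1) := by
    intro o i
    refine (tailH_prob (L1 := L1) (L := L) hβ0 ha (fun E hE hEL =>
      moment_unit hm (by omega) ha hsq hB2 hkL (fun x => ((hb o i).2 x).1)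
        (fun x => ((hb o i).2 x).2) hE hEL) (h2β.trans hW1)).trans ?_
    exact pow_le_pow_left₀ (by positivity) h2β _
  by_contra hcon
  push Not at hcon
  have hall : ∀ H : J → Fin k → Fin m, (1 : ℝ) ≤ ind (8 * κ < Sig H a N 0 L)
      + ind (8 * κ ^ (L1 + 1) < Sig H a N L1 L)
      + ∑ o, (ind (BadH H δ a L1 (box (W o)) f univ (fun _ => 1))
        + ∑ i, ind (∃ E : Finset J, L1 < E.card ∧ E.card ≤ L ∧
          a ^ nS (SE H E) < fc (b o i) (SE H E) ^ 2)) := by
    intro H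
    have hnn : ∀ o ∈ (univ : Finset V), 0 ≤ (ind (BadH H δ a L1 (box (W o)) f univ (fun _ => 1))
        + ∑ i, ind (∃ E : Finset J, L1 < E.card ∧ E.card ≤ L ∧
          a ^ nS (SE H E) < fc (b o i) (SE H E) ^ 2)) :=
      fun o _ => add_nonneg (ind_nonneg _) (sum_nonneg fun i _ => ind_nonneg _)
    have hs := sum_nonneg hnn
    by_cases hA : 8 * κ < Sig H a N 0 L
    · rw [ind_true hA]
      linarith [ind_nonneg (8 * κ ^ (L1 + 1) < Sig H a N L1 L)]
    · by_cases hA2 : 8 * κ ^ (L1 + 1) < Sig H a N L1 L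
      · rw [ind_true hA2]
        linarith [ind_nonneg (8 * κ < Sig H a N 0 L)]
      · obtain ⟨o, ho⟩ := hcon H (not_lt.mp hA) (not_lt.mp hA2)
        have h3 := single_le_sum hnn (mem_univ o)
        have h4 : (1 : ℝ) ≤ ind (BadH H δ a L1 (box (W o)) f univ (fun _ => 1))
          + ∑ i, ind (∃ E : Finset J, L1 < E.card ∧ E.card ≤ L ∧
            a ^ nS (SE H E) < fc (b o i) (SE H E) ^ 2) := by
          by_cases hB : BadH H δ a L1 (box (W o)) f univ (fun _ => 1)
          · rw [ind_true hB]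
            linarith [sum_nonneg fun (i : Fin (D + 1)) (_ : i ∈ univ) =>
              ind_nonneg (∃ E : Finset J, L1 < E.card ∧ E.card ≤ L ∧
                a ^ nS (SE H E) < fc (b o i) (SE H E) ^ 2)]
          · obtain ⟨i, hi⟩ := ho hB
            have h5 := single_le_sum (f := fun i : Fin (D + 1) =>
              ind (∃ E : Finset J, L1 < E.card ∧ E.card ≤ L ∧
                a ^ nS (SE H E) < fc (b o i) (SE H E) ^ 2)) (fun i _ => ind_nonneg _) (mem_univ i)
            rw [ind_true hi] at h5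
            linarith [ind_nonneg (BadH H δ a L1 (box (W o)) f univ (fun _ => 1))]
        linarith [ind_nonneg (8 * κ < Sig H a N 0 L),
          ind_nonneg (8 * κ ^ (L1 + 1) < Sig H a N L1 L)]
  have h3 := const_le_av hall
  rw [av_add, av_add, av_sum] at h3
  have hSnn : ∀ l0 (H : J → Fin k → Fin m), 0 ≤ Sig H a N l0 L := fun l0 H =>
    sum_nonneg fun E _ => by positivity
  have h4 : av (fun H : J → Fin k → Fin m => ind (8 * κ < Sig H a N 0 L)) ≤ 1 / 4 := by
    refine (av_ind_lt_le (hSnn 0) (by positivity)).trans ?_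
    rw [div_le_iff₀ (by positivity)]
    refine (Sig_moment hm hk ha hκ0 hκ1 hR0 hR h1 h2).trans (le_of_eq ?_)
    ring
  have h5 : av (fun H : J → Fin k → Fin m => ind (8 * κ ^ (L1 + 1) < Sig H a N L1 L))
      ≤ 1 / 4 := by
    refine (av_ind_lt_le (hSnn L1) (by positivity)).trans ?_
    rw [div_le_iff₀ (by positivity)]
    refine (Sig_moment hm hk ha hκ0 hκ1 hR0 hR h1 h2).trans (le_of_eq ?_)
    ring
  have h6 : ∑ o, av (fun H : J → Fin k → Fin m =>
      ind (BadH H δ a L1 (box (W o)) f univ (fun _ => 1))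
        + ∑ i, ind (∃ E : Finset J, L1 < E.card ∧ E.card ≤ L ∧
          a ^ nS (SE H E) < fc (b o i) (SE H E) ^ 2))
      ≤ Fintype.card V * (W0 ^ (f + 1) + (D + 1) * W0 ^ (L1 + 1)) := by
    have h7 : ∀ o, av (fun H : J → Fin k → Fin m =>
      ind (BadH H δ a L1 (box (W o)) f univ (fun _ => 1))
        + ∑ i, ind (∃ E : Finset J, L1 < E.card ∧ E.card ≤ L ∧
          a ^ nS (SE H E) < fc (b o i) (SE H E) ^ 2))
        ≤ W0 ^ (f + 1) + (D + 1) * W0 ^ (L1 + 1) := by
      intro o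
      rw [av_add, av_sum]
      refine add_le_add (hbadprob o) ((sum_le_sum fun i _ => htailprob o i).trans (le_of_eq ?_))
      rw [sum_const, card_univ, Fintype.card_fin, nsmul_eq_mul]
      push_cast; ring
    refine (sum_le_sum fun o _ => h7 o).trans (le_of_eq ?_)
    rw [sum_const, card_univ, nsmul_eq_mul]
  linarith

end sig

end Pool.Agent.TH661.LPX
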