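import Pool.Agent.TH661.LPX.Def4
import Pool.Agent.TH661.LPX.SigM

/-!
Sum over sets by cardinality.
-/

set_option autoImplicit false

namespace Pool.Agent.TH661.LPX

open Finset

section sum_mbd

variable {J : Type*} [DecidableEq J] [Fintype J] {k m : ℕ}

theorem sum_mbd_le (hm : 0 < m) {l0 L : ℕ} {A lam U X Y : ℝ} (hA : 0 ≤ A) (hlam : 0 ≤ lam)
    (hU : 0 ≤ U) (hX : 3 * Fintype.card J * (A * (8 * lam) ^ k) ≤ X) (hX1 : X ≤ 1 / 2)
    (hY : 3 * Fintype.card J * (A * 8 ^ k * U) ≤ Y * m) (hY1 : Y ≤ 1 / 2) :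
    ∑ E ∈ univ.filter (fun E : Finset J => l0 < E.card ∧ E.card ≤ L),
      A ^ E.card * mbd k m lam U E.card ≤ 2 * X ^ (l0 + 1) + 2 * Y ^ (max (l0 + 1) 2) := by
  have hmR : (0 : ℝ) < m := by exact_mod_cast hm
  have hX0 : 0 ≤ X := le_trans (by positivity) hX
  have hY0 : 0 ≤ Y := by
    have h : 0 ≤ Y * m := le_trans (by positivity) hY
    exact nonneg_of_mul_nonneg_left h hmR
  have h3 : ∑ E ∈ univ.filter (fun E : Finset J => l0 < E.card ∧ E.card ≤ L),
        A ^ E.card * mbd k m lam U E.card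
      = ∑ l ∈ range (Fintype.card J + 1),
        (Fintype.card J).choose l • (if l0 < l ∧ l ≤ L then A ^ l * mbd k m lam U l else 0) := by
    rw [← card_univ (α := J), ← Finset.sum_powerset_apply_card
      (fun l => if l0 < l ∧ l ≤ L then A ^ l * mbd k m lam U l else 0), powerset_univ,
      ← sum_filter]
  rw [h3]
  have hmain : ∀ l ∈ range (Fintype.card J + 1),
      (Fintype.card J).choose l • (if l0 < l ∧ l ≤ L then A ^ l * mbd k m lam U l else 0)
        ≤ (if l0 < l then X ^ l else 0) + (if max (l0 + 1) 2 - 1 < l then Y ^ l else 0) := by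
    intro l _
    rw [nsmul_eq_mul]
    by_cases hl : l0 < l ∧ l ≤ L
    · rw [if_pos hl, if_pos hl.1]
      have hl1 : 1 ≤ l := by omega
      have hlR : (1 : ℝ) ≤ l := by exact_mod_cast hl1
      have hfirst : ((Fintype.card J).choose l : ℝ) * (A * (8 * lam) ^ k) ^ l ≤ X ^ l :=
        choose_mul_pow_le hl1 (by positivity) (hX.trans (le_mul_of_one_le_right hX0 hlR))
      by_cases h1 : l = 1
      · have hmb : mbd k m lam U l = ((8 * lam) ^ k) ^ l := by
          unfold mbd; rw [if_pos h1, add_zero]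
        have hnn : (0 : ℝ) ≤ if max (l0 + 1) 2 - 1 < l then Y ^ l else 0 := by
          split_ifs <;> positivity
        rw [hmb, ← mul_pow]
        linarith
      · have hmb : mbd k m lam U l = ((8 * lam) ^ k) ^ l + (8 ^ k * (l / m) * U) ^ l := by
          unfold mbd; rw [if_neg h1]
        have hsec : ((Fintype.card J).choose l : ℝ) * (A * (8 ^ k * (l / m) * U)) ^ l ≤ Y ^ l := by
          refine choose_mul_pow_le hl1 (by positivity) ?_
          calc 3 * (Fintype.card J : ℝ) * (A * (8 ^ k * (l / m) * U))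
              = (3 * Fintype.card J * (A * 8 ^ k * U)) * (l / m) := by ring
            _ ≤ (Y * m) * (l / m) := mul_le_mul_of_nonneg_right hY (by positivity)
            _ = Y * l := by field_simp
        rw [if_pos (show max (l0 + 1) 2 - 1 < l by omega), hmb, mul_add, ← mul_pow, ← mul_pow,
          mul_add]
        exact add_le_add hfirst hsec
    · rw [if_neg hl, mul_zero]
      have h4 : (0 : ℝ) ≤ if l0 < l then X ^ l else 0 := by split_ifs <;> positivity
      have h5 : (0 : ℝ) ≤ if max (l0 + 1) 2 - 1 < l then Y ^ l else 0 := by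
        split_ifs <;> positivity
      linarith
  refine (sum_le_sum hmain).trans ?_
  rw [sum_add_distrib]
  refine add_le_add (geom_tail hX0 hX1 _ _) ?_
  have h6 := geom_tail hY0 hY1 (max (l0 + 1) 2 - 1) (Fintype.card J + 1)
  rwa [show max (l0 + 1) 2 - 1 + 1 = max (l0 + 1) 2 by omega] at h6

end sum_mbd

end Pool.Agent.TH661.LPX
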