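import Pool.Agent.TH661.LPX.Sg4
import Pool.Agent.TH661.LPX.Des4
import Pool.Agent.TH661.LPX.MoE
import Pool.Agent.TH661.LPX.MoO
import Pool.Agent.TH661.LPX.ExP
import Pool.Agent.TH661.LPX.SuM

/-!
The choice of the hypergraph, with designs.
-/

set_option autoImplicit false

namespace Pool.Agent.TH661.LPX

open Finset

/-- The choice of the hypergraph. -/
theorem exists_good4 {J : Type*} [DecidableEq J] [Fintype J] [Nonempty J] {k m : ℕ}
    (hm : 0 < m) (hk : 3 ≤ k) {V : Type*} [Fintype V] {D : ℕ}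
    (W : V → Submodule ℝ ((Fin k → Fin m → Bool) → ℝ))
    (hW : ∀ o, Module.finrank ℝ (W o) ≤ D + 1)
    {δ lam U V' κ W0 s1 s2 τ X Y : ℝ} {q N L1 L f t' : ℕ} (hN : 1 ≤ N) (hL : L = L1 + f)
    (hδ : 0 < δ) (hτ : 0 < τ) (hq : 1 ≤ q) (hkL : k * L ≤ t')
    (hlam : (t' : ℝ) ≤ lam * (k * m)) (hlam1 : lam ≤ 1)
    (hU0 : 0 ≤ U) (hU : lam ^ ((k - 1) * q - 1) ≤ U ^ (2 * q))
    (hV0 : 0 ≤ V') (hV : lam ^ ((k - 3) * q + 1) ≤ V' ^ (2 * q))
    (hκ : 3 * Fintype.card J * 6 ^ k * V' ≤ κ * m) (hκ0 : 0 ≤ κ) (hκ1 : κ ≤ 1 / 8)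
    (hG : 2 ^ f / δ ≤ 2 ^ t') (hW0 : 0 < W0) (hW1 : W0 ≤ 1) (hs1 : 0 < s1) (hs2 : 0 < s2)
    (hX : 3 * Fintype.card J * (4 * N / W0 * (8 * lam) ^ k) ≤ X) (hX1 : X ≤ 1 / 4)
    (hY : 3 * Fintype.card J * (4 * N / W0 * 8 ^ k * U) ≤ Y * m) (hY1 : Y ≤ 1 / 4)
    (hXY : 2 * X + 2 * Y ^ 2 ≤ s1)
    (hVp : Fintype.card V * (W0 ^ (f + 1) + (D + 1) * (W0 ^ (L1 + 1) / s2)) < 1 / 2) :
    ∃ H : J → Fin k → Fin m, ∀ o, av (fun σ : J → Bool => ind (∃ v ∈ box (W o),
      av (fun x => v x * DL yx (pr H σ) L x) < - (δ * NL J L) - τ)) ≤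
      NL J f * (2 ^ f * (4 * (D + 1) * s1) ^ N
        + (D + 1) * (s2 * (D + 1) ^ 2 / τ ^ 2) ^ N) := by
  classical
  have : NeZero m := ⟨by omega⟩
  have hmR : (0 : ℝ) < m := by exact_mod_cast hm
  have hkR : (0 : ℝ) < k := by exact_mod_cast (by omega : 0 < k)
  have hkm : (0 : ℝ) < k * m := by positivity
  have hlam0 : 0 ≤ lam := by
    by_contra hcon
    rw [not_le] at hcon
    have h1 : lam * (k * m) < 0 := mul_neg_of_neg_of_pos hcon hkm
    have h2 : (0 : ℝ) ≤ t' := Nat.cast_nonneg _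
    linarith
  have hkLR : (k : ℝ) * L ≤ t' := by exact_mod_cast hkL
  have hLm : (L : ℝ) ≤ lam * m := by
    have h2 : (k : ℝ) * L ≤ k * (lam * m) := by linarith
    exact le_of_mul_le_mul_left h2 hkR
  have hmbd0 : ∀ l, 0 ≤ mbd k m lam U l := by
    intro l
    unfold mbd
    split_ifs <;> positivity
  -- the spanners
  have hspan : ∀ o, ∃ b : Fin (D + 1) → (Fin k → Fin m → Bool) → ℝ, (∀ i, b i ∈ box (W o)) ∧
      ∀ v ∈ box (W o), ∃ c : Fin (D + 1) → ℝ, (∀ i, |c i| ≤ 1) ∧ v = ∑ i, c i • b i := by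
    intro o
    have hzero : (0 : (Fin k → Fin m → Bool) → ℝ) ∈ box (W o) :=
      ⟨(W o).zero_mem, fun x => ⟨le_refl _, zero_le_one⟩⟩
    have hrank : Module.finrank ℝ (Submodule.span ℝ (box (W o))) ≤ D + 1 := by
      have h1 : Submodule.span ℝ (box (W o)) ≤ W o := Submodule.span_le.mpr fun v hv => hv.1
      exact (Submodule.finrank_mono h1).trans (hW o)
    exact spanner (box (W o)) (box_compact (W o)) ⟨0, hzero⟩ hrank
  choose b hb hbc using hspan
  -- the designs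
  have hdes : ∀ o (g : (Fin k → Fin m → Bool) → ℝ), ∃ T : (Fin k → Finset (Fin m)) → ℝ,
      (∀ S, 0 ≤ T S) ∧ ((∀ x, 0 ≤ g x) ∧ (∀ x, g x ≤ 2 ^ f) →
        (∀ ρ : ℝ, 0 ≤ ρ → ρ ≤ 1 →
          ∑ S : Fin k → Finset (Fin m), ρ ^ nS S * T S ≤ (2 ^ f / δ) ^ (2 * ρ)) ∧
        ∀ (H : J → Fin k → Fin m) (𝓔 : Finset (Finset J)) (N : ℕ), 1 ≤ N →
        ∃ Q : (J → Bool) → ℝ, (∀ σ, 0 ≤ Q σ) ∧
          av (fun σ => Q σ ^ N) ≤ (∑ E ∈ 𝓔, (2 * (N : ℝ)) ^ E.card * T (SE H E)) ^ N ∧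
          ∀ v ∈ box (W o), δ ≤ av (fun x => g x * v x) → ∀ σ : J → Bool,
            (∑ E ∈ 𝓔, fc (fun x => g x * v x) (SE H E) * ∏ i ∈ E, sg (σ i)) ^ 2
              ≤ 4 * (D + 1) * Q σ * av (fun x => g x * v x) ^ 2) := by
    intro o g
    by_cases h : (∀ x, 0 ≤ g x) ∧ (∀ x, g x ≤ 2 ^ f)
    · obtain ⟨T, hT0, hT1, hT2⟩ := design_pack (J := J) (W o) (hW o) h.1 h.2 hδ
      exact ⟨T, hT0, fun _ => ⟨hT1, hT2⟩⟩
    · exact ⟨fun _ => 0, fun _ => le_refl _, fun h' => absurd h' h⟩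
  choose T hT0 hT1 using hdes
  -- the moments
  have hmomgen : ∀ T : (Fin k → Finset (Fin m)) → ℝ, (∀ S, 0 ≤ T S) →
      (∀ l : ℕ, 0 < l → l ≤ L →
        ∑ S : Fin k → Finset (Fin m), ((k : ℝ) * l / t') ^ nS S * T S ≤ 4 ^ (k * l)) →
      ∀ E : Finset J, 0 < E.card → E.card ≤ L →
      av (fun H : J → Fin k → Fin m => ind (ex q H E) * T (SE H E)) ≤ mbd k m lam U E.card := by
    intro T hT hWt E hE hEL
    unfold mbd
    by_cases h1 : E.card = 1
    · rw [if_pos h1, add_zero, h1, pow_one]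
      have h2 : ∀ H : J → Fin k → Fin m, ind (ex q H E) * T (SE H E) ≤ T (SE H E) :=
        fun H => mul_le_of_le_one_left (hT _) (ind_le_one _)
      refine (av_mono h2).trans (moment_one hm (by omega) ?_ hlam T hT h1 ?_)
      · refine le_trans ?_ hkL
        exact Nat.le_mul_of_pos_right _ (by omega)
      · have h3 := hWt 1 one_pos (by omega)
        simpa using h3
    · rw [if_neg h1]
      exact moment_exp hm hk hq hkL hlam hU0 hU T hT (card_pos.mp hE) hEL (hWt _ hE hEL)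
  have hρ : ∀ l : ℕ, 0 < l → l ≤ L → (0 : ℝ) < t' ∧ (0 : ℝ) ≤ (k : ℝ) * l / t' ∧
      (k : ℝ) * l / t' ≤ 1 := by
    intro l hl hlL
    have h1 : k * l ≤ t' := (Nat.mul_le_mul_left k hlL).trans hkL
    have h2 : 0 < t' := lt_of_lt_of_le (Nat.mul_pos (by omega) hl) h1
    have h3 : (0 : ℝ) < t' := by exact_mod_cast h2
    refine ⟨h3, by positivity, ?_⟩
    rw [div_le_one h3]
    exact_mod_cast h1
  -- bad hypergraphs
  have hbadprob : ∀ o, av (fun H : J → Fin k → Fin m =>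
      ind (BadS q N L1 s1 (T o) H f univ (fun _ => 1))) ≤ W0 ^ (f + 1) := by
    intro o
    refine badS_prob hm (G := 2 ^ f) (e := mbd k m lam U) hs1 (fun g S => hT0 o g S) hW0 hW1
      hmbd0 ?_ ?_ f univ _ (fun _ => zero_le_one) fun x => by rw [one_mul]
    · intro g E hg0 hg1 hE hEL
      refine hmomgen (T o g) (hT0 o g) ?_ E hE (by omega)
      intro l hl hlL
      obtain ⟨h1, h2, h3⟩ := hρ l hl hlL
      refine ((hT1 o g ⟨hg0, hg1⟩).1 _ h2 h3).trans ?_
      calc ((2 : ℝ) ^ f / δ) ^ (2 * ((k : ℝ) * l / t'))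
          ≤ ((2 : ℝ) ^ t') ^ (2 * ((k : ℝ) * l / t')) :=
            Real.rpow_le_rpow (by positivity) hG (by positivity)
        _ = 4 ^ (k * l) := by
            rw [← Real.rpow_natCast 2 t', ← Real.rpow_mul (by norm_num),
              ← Real.rpow_natCast 4 (k * l), show (4 : ℝ) = 2 ^ (2 : ℝ) by norm_num,
              ← Real.rpow_mul (by norm_num)]
            congr 1
            push_cast; field_simp
    · refine (sum_mbd_le (J := J) (k := k) hm (l0 := 0) (L := L1) (A := 4 * N / W0)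
        (by positivity) hlam0 hU0 hX (by linarith) hY (by linarith)).trans (le_trans (le_of_eq ?_)
        hXY)
      norm_num
  -- the tail
  set ZZ : V → Fin (D + 1) → (J → Fin k → Fin m) → ℝ := fun o i H =>
    ∑ E ∈ univ.filter (fun E : Finset J => L1 < E.card ∧ E.card ≤ L),
      (2 * (N : ℝ)) ^ E.card * (ind (ex q H E) * fc (b o i) (SE H E) ^ 2) with hZZ
  have hZZ0 : ∀ o i H, 0 ≤ ZZ o i H := fun o i H => sum_nonneg fun E _ =>
    mul_nonneg (by positivity) (mul_nonneg (ind_nonneg _) (sq_nonneg _))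
  have htailprob : ∀ o i, av (fun H : J → Fin k → Fin m => ind (s2 < ZZ o i H))
      ≤ W0 ^ (L1 + 1) / s2 := by
    intro o i
    refine (av_ind_lt_le (hZZ0 o i) hs2).trans (div_le_div_of_nonneg_right ?_ hs2.le)
    have h1 : av (fun H : J → Fin k → Fin m => ZZ o i H)
        ≤ ∑ E ∈ univ.filter (fun E : Finset J => L1 < E.card ∧ E.card ≤ L),
          (2 * (N : ℝ)) ^ E.card * mbd k m lam U E.card := by
      rw [hZZ]
      simp only
      rw [av_sum]
      refine sum_le_sum fun E hE => ?_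
      rw [mem_filter] at hE
      rw [av_mul_left]
      refine mul_le_mul_of_nonneg_left ?_ (by positivity)
      refine hmomgen (fun S => fc (b o i) S ^ 2) (fun S => sq_nonneg _) ?_ E (by omega) hE.2.2
      intro l hl hlL
      obtain ⟨h1, h2, h3⟩ := hρ l hl hlL
      refine (fc_weight_le_one h2 h3 (fun x => ((hb o i).2 x).1)
        (fun x => ((hb o i).2 x).2)).trans ?_
      exact one_le_pow₀ (by norm_num)
    refine h1.trans ?_
    have hX' : 3 * (Fintype.card J : ℝ) * (2 * N * (8 * lam) ^ k) ≤ W0 / 8 := by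
      have h2 : 3 * (Fintype.card J : ℝ) * (2 * N * (8 * lam) ^ k)
          = (3 * Fintype.card J * (4 * N / W0 * (8 * lam) ^ k)) * (W0 / 2) := by
        field_simp; ring
      rw [h2]
      calc (3 * (Fintype.card J : ℝ) * (4 * N / W0 * (8 * lam) ^ k)) * (W0 / 2)
          ≤ (1 / 4) * (W0 / 2) :=
            mul_le_mul_of_nonneg_right (hX.trans hX1) (by positivity)
        _ = W0 / 8 := by ring
    have hY' : 3 * (Fintype.card J : ℝ) * (2 * N * 8 ^ k * U) ≤ W0 / 8 * m := by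
      have h2 : 3 * (Fintype.card J : ℝ) * (2 * N * 8 ^ k * U)
          = (3 * Fintype.card J * (4 * N / W0 * 8 ^ k * U)) * (W0 / 2) := by
        field_simp; ring
      rw [h2]
      calc (3 * (Fintype.card J : ℝ) * (4 * N / W0 * 8 ^ k * U)) * (W0 / 2)
          ≤ (Y * m) * (W0 / 2) := mul_le_mul_of_nonneg_right hY (by positivity)
        _ ≤ (1 / 4 * m) * (W0 / 2) := by gcongr
        _ = W0 / 8 * m := by ring
    refine (sum_mbd_le (J := J) (k := k) hm (l0 := L1) (L := L) (A := 2 * N) (X := W0 / 8)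
      (Y := W0 / 8) (by positivity) hlam0 hU0 hX' (by linarith) hY' (by linarith)).trans ?_
    have h3 : (W0 / 8) ^ (max (L1 + 1) 2) ≤ (W0 / 8) ^ (L1 + 1) :=
      pow_le_pow_of_le_one (by positivity) (by linarith) (le_max_left _ _)
    have h4 : (W0 / 8) ^ (L1 + 1) = W0 ^ (L1 + 1) * (1 / 8) ^ (L1 + 1) := by
      rw [div_eq_mul_one_div, mul_pow]
    have h5 : (1 / 8 : ℝ) ^ (L1 + 1) ≤ 1 / 8 := by
      rw [pow_succ]
      exact mul_le_of_le_one_left (by norm_num) (pow_le_one₀ (by norm_num) (by norm_num))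
    have h6 : (0 : ℝ) ≤ W0 ^ (L1 + 1) := by positivity
    have h7 : W0 ^ (L1 + 1) * (1 / 8 : ℝ) ^ (L1 + 1) ≤ W0 ^ (L1 + 1) * (1 / 8) :=
      mul_le_mul_of_nonneg_left h5 h6
    rw [h4] at h3 ⊢
    linarith
  by_contra hcon
  push Not at hcon
  have hall : ∀ H : J → Fin k → Fin m, (1 : ℝ) ≤
      ind (∃ E : Finset J, E.Nonempty ∧ E.card ≤ L ∧ q * nS (SE H E) < (q - 1) * E.card)
      + ∑ o, (ind (BadS q N L1 s1 (T o) H f univ (fun _ => 1))
        + ∑ i, ind (s2 < ZZ o i H)) := by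
    intro H
    have hnn : ∀ o ∈ (univ : Finset V), 0 ≤ (ind (BadS q N L1 s1 (T o) H f univ (fun _ => 1))
        + ∑ i, ind (s2 < ZZ o i H)) :=
      fun o _ => add_nonneg (ind_nonneg _) (sum_nonneg fun i _ => ind_nonneg _)
    have hs := sum_nonneg hnn
    by_cases hA : ∃ E : Finset J, E.Nonempty ∧ E.card ≤ L ∧ q * nS (SE H E) < (q - 1) * E.card
    · rw [ind_true hA]
      linarith
    · push Not at hA
      have hexH : ∀ E : Finset J, 0 < E.card → E.card ≤ L → ex q H E :=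
        fun E hE hEL => hA E (card_pos.mp hE) hEL
      obtain ⟨o, ho⟩ := hcon H
      have h3 := single_le_sum hnn (mem_univ o)
      have h4 : (1 : ℝ) ≤ ind (BadS q N L1 s1 (T o) H f univ (fun _ => 1))
          + ∑ i, ind (s2 < ZZ o i H) := by
        by_cases hB : BadS q N L1 s1 (T o) H f univ (fun _ => 1)
        · rw [ind_true hB]
          linarith [sum_nonneg fun (i : Fin (D + 1)) (_ : i ∈ univ) => ind_nonneg (s2 < ZZ o i H)]
        · by_cases hC : ∃ i, s2 < ZZ o i H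
          · obtain ⟨i, hi⟩ := hC
            have h5 := single_le_sum (f := fun i : Fin (D + 1) => ind (s2 < ZZ o i H))
              (fun i _ => ind_nonneg _) (mem_univ i)
            rw [ind_true hi] at h5
            linarith [ind_nonneg (BadS q N L1 s1 (T o) H f univ (fun _ => 1))]
          · exfalso
            push Not at hC
            refine absurd ho (not_lt.mpr ?_)
            refine signs_prob4 H hN hδ hτ hL hs1 (W o) (T o) (fun g S => hT0 o g S) ?_
              (fun E hE hEL => hexH E hE (by omega)) hB (hbc o) ?_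
            · intro g hg0 hg1 𝓔
              exact (hT1 o g ⟨hg0, hg1⟩).2 H 𝓔 N hN
            · intro i
              refine le_trans (le_of_eq ?_) (hC i)
              rw [hZZ]
              simp only
              refine sum_congr rfl fun E hE => ?_
              rw [mem_filter] at hE
              rw [ind_true (hexH E (by omega) hE.2.2), one_mul]
      linarith [ind_nonneg (∃ E : Finset J, E.Nonempty ∧ E.card ≤ L ∧
        q * nS (SE H E) < (q - 1) * E.card)]
  have h3 := const_le_av hall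
  rw [av_add, av_sum] at h3
  have h4 := exp_prob (J := J) (k := k) hm hk hq hLm hlam1 hV0 hV hκ hκ0 (by linarith)
  have h6 : ∑ o, av (fun H : J → Fin k → Fin m =>
      ind (BadS q N L1 s1 (T o) H f univ (fun _ => 1)) + ∑ i, ind (s2 < ZZ o i H))
      ≤ Fintype.card V * (W0 ^ (f + 1) + (D + 1) * (W0 ^ (L1 + 1) / s2)) := by
    have h7 : ∀ o, av (fun H : J → Fin k → Fin m =>
      ind (BadS q N L1 s1 (T o) H f univ (fun _ => 1)) + ∑ i, ind (s2 < ZZ o i H))
        ≤ W0 ^ (f + 1) + (D + 1) * (W0 ^ (L1 + 1) / s2) := by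
      intro o
      rw [av_add, av_sum]
      refine add_le_add (hbadprob o) ((sum_le_sum fun i _ => htailprob o i).trans (le_of_eq ?_))
      rw [sum_const, card_univ, Fintype.card_fin, nsmul_eq_mul]
      push_cast; ring
    refine (sum_le_sum fun o _ => h7 o).trans (le_of_eq ?_)
    rw [sum_const, card_univ, nsmul_eq_mul]
  linarith

end Pool.Agent.TH661.LPX
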