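import Pool.Agent.TH661.LPX.Prob

/-!
Truncated parity densities: second moments of correlations.
-/

set_option autoImplicit false

namespace Pool.Agent.TH661.LPX

open Finset

section mom

variable {X J A : Type*} [Fintype X] [Fintype J] [DecidableEq J] [Fintype A]

/-- The correlation kernel of a random constraint. -/
noncomputable def KK (y : A → X → ℝ) (x x' : X) : ℝ := av fun a => y a x * y a x'

variable {y : A → X → ℝ}

theorem av_pi_subset [Nonempty A] (E : Finset J) (F : J → A → ℝ) :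
    av (fun ω : J → A => ∏ i ∈ E, F i (ω i)) = ∏ i ∈ E, av (F i) := by
  have h := av_pi (J := J) (A := A) (fun i a => if i ∈ E then F i a else 1)
  have h1 : ∀ ω : J → A, (∏ i, if i ∈ E then F i (ω i) else 1) = ∏ i ∈ E, F i (ω i) := by
    intro ω; rw [← Finset.prod_filter]; congr 1; ext i; simp
  have h2 : (∏ i, av (fun a => if i ∈ E then F i a else 1)) = ∏ i ∈ E, av (F i) := by
    have h3 : ∀ i, av (fun a => if i ∈ E then F i a else 1)
        = if i ∈ E then av (F i) else 1 := by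
      intro i
      by_cases hi : i ∈ E
      · simp [hi]
      · simp only [hi, if_false]; exact av_const 1
    simp_rw [h3]
    rw [← Finset.prod_filter]; congr 1; ext i; simp
  rw [h2] at h
  rw [← h]
  exact av_congr fun ω => (h1 ω).symm

theorem second_moment [Nonempty A] (g : X → ℝ) (E : Finset J) :
    av (fun ω : J → A => co y ω g E ^ 2)
      = av (fun x => av (fun x' => g x * g x' * KK y x x' ^ E.card)) := by
  have h1 : ∀ ω : J → A, co y ω g E ^ 2
      = av (fun x => av (fun x' => g x * g x' * (Y y ω E x * Y y ω E x'))) := by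
    intro ω
    rw [sq]
    unfold co
    rw [← av_mul_right]
    refine av_congr fun x => ?_
    rw [← av_mul_left]
    exact av_congr fun x' => by ring
  rw [av_congr h1, av_comm]
  refine av_congr fun x => ?_
  rw [av_comm]
  refine av_congr fun x' => ?_
  rw [av_mul_left]
  congr 1
  have h2 : ∀ ω : J → A, Y y ω E x * Y y ω E x' = ∏ i ∈ E, (y (ω i) x * y (ω i) x') := by
    intro ω; unfold Y; rw [prod_mul_distrib]
  rw [av_congr h2, av_pi_subset E (fun _ a => y a x * y a x'), prod_const]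
  rfl

/-- The weighted moments of the kernel are small. -/
theorem kernel_weight [Nonempty X] {k m h : ℕ} (hm : 0 < m)
    (hK : ∀ (x' : X) (N : ℕ), 1 ≤ N → av (fun x => KK y x x' ^ (2 * N)) ≤ ((6 * N / m : ℝ) ^ k) ^ N)
    {β G δ : ℝ} (hβ0 : 0 ≤ β) (hβ : (48 * h / m : ℝ) ^ k ≤ β ^ 2) (hδ : 0 < δ)
    (hG : G ≤ δ * 2 ^ (k * h)) {g : X → ℝ} (hg0 : ∀ x, 0 ≤ g x) (hg1 : ∀ x, g x ≤ G)
    (hδg : δ < av g) {l : ℕ} (hl1 : 1 ≤ l) (hlh : l ≤ h) :
    av (fun x => av (fun x' => g x * g x' * KK y x x' ^ l)) ≤ β ^ l * av g ^ 2 := by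
  have hgpos : 0 < av g := hδ.trans hδg
  have hmR : (0 : ℝ) < m := by exact_mod_cast hm
  obtain ⟨u, hu⟩ : ∃ u : ℕ, h ≤ u * l ∧ u * l < h + l := by
    refine ⟨(h + l - 1) / l, ?_, ?_⟩
    · have h1 := Nat.div_add_mod (h + l - 1) l
      have h2 := Nat.mod_lt (h + l - 1) (by omega : 0 < l)
      have h3 : (h + l - 1) / l * l = l * ((h + l - 1) / l) := mul_comm _ _
      omega
    · have h1 := Nat.div_mul_le_self (h + l - 1) l
      omega
  have hu1 : 1 ≤ u := by
    rcases Nat.eq_zero_or_pos u with h0 | h0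
    · subst h0; omega
    · exact h0
  have hN1 : 1 ≤ u * l := by omega
  -- weights on pairs
  set w : X × X → ℝ := fun p => g p.1 * g p.2 / av g ^ 2 with hw
  have hw0 : ∀ p, 0 ≤ w p := fun p => div_nonneg (mul_nonneg (hg0 _) (hg0 _)) (sq_nonneg _)
  have hw1 : av w = 1 := by
    rw [av_prod]
    have : ∀ a : X, av (fun b => w (a, b)) = g a * (av g / av g ^ 2) := by
      intro a
      simp only [hw]
      have h1 : ∀ b : X, g a * g b / av g ^ 2 = (g a / av g ^ 2) * g b := fun b => by ring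
      rw [av_congr h1, av_mul_left]; ring
    rw [av_congr this, av_mul_right]
    field_simp
  have hwG : ∀ p, w p ≤ (4 : ℝ) ^ (k * (u * l)) := by
    intro p
    simp only [hw]
    rw [div_le_iff₀ (by positivity)]
    have hG0 : 0 ≤ G := (hg0 p.1).trans (hg1 p.1)
    have h1 : g p.1 * g p.2 ≤ G * G :=
      mul_le_mul (hg1 _) (hg1 _) (hg0 _) hG0
    have h2 : G * G ≤ (δ * 2 ^ (k * h)) * (δ * 2 ^ (k * h)) := mul_le_mul hG hG hG0 (by positivity)
    have h3 : (δ * 2 ^ (k * h)) * (δ * 2 ^ (k * h)) = (4 : ℝ) ^ (k * h) * δ ^ 2 := by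
      rw [show (4 : ℝ) = 2 * 2 by norm_num, mul_pow]; ring
    have h4 : (4 : ℝ) ^ (k * h) ≤ 4 ^ (k * (u * l)) :=
      pow_le_pow_right₀ (by norm_num) (Nat.mul_le_mul_left k hu.1)
    have h5 : δ ^ 2 ≤ av g ^ 2 := pow_le_pow_left₀ hδ.le hδg.le 2
    calc g p.1 * g p.2 ≤ (4 : ℝ) ^ (k * h) * δ ^ 2 := by linarith
      _ ≤ 4 ^ (k * (u * l)) * av g ^ 2 := mul_le_mul h4 h5 (by positivity) (by positivity)
  -- Jensen
  have hJ := av_weight_pow_le hw0 hw1 (f := fun p : X × X => |KK y p.1 p.2| ^ l)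
    (fun p => by positivity) (2 * u)
  have h6 : av (fun p : X × X => w p * (|KK y p.1 p.2| ^ l) ^ (2 * u))
      ≤ (4 : ℝ) ^ (k * (u * l)) * ((12 * h / m : ℝ) ^ k) ^ (u * l) := by
    have h7 : ∀ p : X × X, w p * (|KK y p.1 p.2| ^ l) ^ (2 * u)
        ≤ (4 : ℝ) ^ (k * (u * l)) * KK y p.1 p.2 ^ (2 * (u * l)) := by
      intro p
      have h8 : (|KK y p.1 p.2| ^ l) ^ (2 * u) = KK y p.1 p.2 ^ (2 * (u * l)) := by
        rw [← pow_mul, show l * (2 * u) = 2 * (u * l) by ring, pow_mul, sq_abs, ← pow_mul]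
      rw [h8]
      refine mul_le_mul_of_nonneg_right (hwG p) ?_
      rw [pow_mul]; positivity
    refine (av_mono h7).trans ?_
    rw [av_mul_left]
    refine mul_le_mul_of_nonneg_left ?_ (by positivity)
    rw [av_prod, av_comm]
    refine av_le_const fun x' => ?_
    refine (hK x' (u * l) hN1).trans ?_
    refine pow_le_pow_left₀ (by positivity) (pow_le_pow_left₀ (by positivity) ?_ _) _
    refine div_le_div_of_nonneg_right ?_ hmR.le
    have : ((u * l : ℕ) : ℝ) ≤ 2 * h := by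
      have : u * l ≤ 2 * h := by omega
      exact_mod_cast this
    linarith
  have h9 : (4 : ℝ) ^ (k * (u * l)) * ((12 * h / m : ℝ) ^ k) ^ (u * l) ≤ (β ^ l) ^ (2 * u) := by
    have h10 : (4 : ℝ) ^ (k * (u * l)) * ((12 * h / m : ℝ) ^ k) ^ (u * l)
        = ((48 * h / m : ℝ) ^ k) ^ (u * l) := by
      rw [pow_mul, ← mul_pow, ← mul_pow]
      congr 2; ring
    rw [h10]
    have h11 : (β ^ l) ^ (2 * u) = (β ^ 2) ^ (u * l) := by
      rw [← pow_mul, ← pow_mul]; congr 1; ring
    rw [h11]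
    exact pow_le_pow_left₀ (by positivity) hβ _
  have h12 : av (fun p : X × X => w p * |KK y p.1 p.2| ^ l) ≤ β ^ l := by
    have h13 : (av (fun p : X × X => w p * |KK y p.1 p.2| ^ l)) ^ (2 * u) ≤ (β ^ l) ^ (2 * u) :=
      hJ.trans (h6.trans h9)
    exact (pow_le_pow_iff_left₀ (av_nonneg fun p => mul_nonneg (hw0 p) (by positivity))
      (by positivity) (by omega)).mp h13
  have h14 : av (fun x => av (fun x' => g x * g x' * KK y x x' ^ l))
      ≤ av (fun p : X × X => w p * |KK y p.1 p.2| ^ l) * av g ^ 2 := by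
    rw [← av_mul_right, av_prod]
    refine av_mono fun x => av_mono fun x' => ?_
    simp only [hw]
    have h15 : g x * g x' / av g ^ 2 * |KK y x x'| ^ l * av g ^ 2
        = g x * g x' * |KK y x x'| ^ l := by
      field_simp
    rw [h15]
    refine mul_le_mul_of_nonneg_left ?_ (mul_nonneg (hg0 x) (hg0 x'))
    rw [← abs_pow]
    exact le_abs_self _
  exact h14.trans (mul_le_mul_of_nonneg_right h12 (sq_nonneg _))

/-- The probability of a violation. -/
theorem viol_prob [Nonempty X] [Nonempty A] {k m h : ℕ} (hm : 0 < m)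
    (hK : ∀ (x' : X) (N : ℕ), 1 ≤ N → av (fun x => KK y x x' ^ (2 * N)) ≤ ((6 * N / m : ℝ) ^ k) ^ N)
    {β G δ θ : ℝ} (hβ0 : 0 ≤ β) (hβ : (48 * h / m : ℝ) ^ k ≤ β ^ 2) (hδ : 0 < δ) (hθ : 0 < θ)
    (hG : G ≤ δ * 2 ^ (k * h)) {g : X → ℝ} (hg0 : ∀ x, 0 ≤ g x) (hg1 : ∀ x, g x ≤ G)
    {E : Finset J} (hE : E.Nonempty) (hEh : E.card ≤ h) :
    av (fun ω : J → A => ind (δ < av g ∧ θ ^ E.card * av g < |co y ω g E|))
      ≤ (β / θ ^ 2) ^ E.card := by
  by_cases hδg : δ < av g
  · have hgpos : 0 < av g := hδ.trans hδg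
    have hpos : 0 < θ ^ E.card * av g := by positivity
    have h1 : ∀ ω : J → A, ind (δ < av g ∧ θ ^ E.card * av g < |co y ω g E|)
        ≤ ind ((θ ^ E.card * av g) ^ 2 < co y ω g E ^ 2) := by
      intro ω
      refine ind_mono fun h => ?_
      rw [← sq_abs (co y ω g E)]
      exact pow_lt_pow_left₀ h.2 hpos.le (by norm_num)
    refine (av_mono h1).trans ?_
    refine (av_ind_lt_le (fun ω => sq_nonneg _) (by positivity)).trans ?_
    rw [second_moment, div_le_iff₀ (by positivity)]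
    refine (kernel_weight hm hK hβ0 hβ hδ hG hg0 hg1 hδg (card_pos.mpr hE) hEh).trans
      (le_of_eq ?_)
    rw [div_pow, mul_pow, ← pow_mul, ← pow_mul, mul_comm 2 E.card]
    field_simp
  · have h1 : ∀ ω : J → A, ind (δ < av g ∧ θ ^ E.card * av g < |co y ω g E|) = 0 :=
      fun ω => ind_false fun h => hδg h.1
    rw [av_congr h1, show av (fun _ : J → A => (0 : ℝ)) = 0 from av_const 0]
    positivity

/-- The average size of a correlation. -/
theorem co_avg [Nonempty X] [Nonempty A] {k m L : ℕ} (hm : 0 < m)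
    (hK : ∀ (x' : X) (N : ℕ), 1 ≤ N → av (fun x => KK y x x' ^ (2 * N)) ≤ ((6 * N / m : ℝ) ^ k) ^ N)
    {ρ : ℝ} (hρ0 : 0 ≤ ρ) (hρ : (6 * L / m : ℝ) ^ k ≤ ρ ^ 4)
    {v : X → ℝ} (hv0 : ∀ x, 0 ≤ v x) (hv1 : ∀ x, v x ≤ 1) {E : Finset J} (hE : E.card ≤ L) :
    av (fun ω : J → A => |co y ω v E|) ≤ ρ ^ E.card := by
  rcases Nat.eq_zero_or_pos E.card with h0 | hpos
  · rw [card_eq_zero] at h0
    subst h0
    rw [card_empty, pow_zero]
    refine av_le_const fun ω => ?_
    rw [co_empty, abs_of_nonneg (av_nonneg hv0)]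
    exact av_le_const hv1
  · have hmR : (0 : ℝ) < m := by exact_mod_cast hm
    have h1 : (av fun ω : J → A => |co y ω v E|) ^ 2
        ≤ av (fun x => av (fun x' => |KK y x x'| ^ E.card)) := by
      refine (av_pow_le (fun ω => abs_nonneg _) 2).trans ?_
      have h2 : ∀ ω : J → A, |co y ω v E| ^ 2 = co y ω v E ^ 2 := fun ω => sq_abs _
      rw [av_congr h2, second_moment]
      refine av_mono fun x => av_mono fun x' => ?_
      have h3 : KK y x x' ^ E.card ≤ |KK y x x'| ^ E.card := by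
        rw [← abs_pow]; exact le_abs_self _
      have h4 : v x * v x' ≤ 1 := mul_le_one₀ (hv1 x) (hv0 x') (hv1 x')
      have h5 : 0 ≤ v x * v x' := mul_nonneg (hv0 x) (hv0 x')
      have h6 : 0 ≤ |KK y x x'| ^ E.card := by positivity
      calc v x * v x' * KK y x x' ^ E.card ≤ v x * v x' * |KK y x x'| ^ E.card :=
            mul_le_mul_of_nonneg_left h3 h5
        _ ≤ 1 * |KK y x x'| ^ E.card := mul_le_mul_of_nonneg_right h4 h6
        _ = _ := one_mul _
    have h7 : (av (fun x => av (fun x' => |KK y x x'| ^ E.card))) ^ 2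
        ≤ ((6 * E.card / m : ℝ) ^ k) ^ E.card := by
      refine (av_pow_le (fun x => av_nonneg fun x' => by positivity) 2).trans ?_
      have h8 : ∀ x : X, (av fun x' => |KK y x x'| ^ E.card) ^ 2
          ≤ av fun x' => KK y x x' ^ (2 * E.card) := by
        intro x
        refine (av_pow_le (fun x' => by positivity) 2).trans (le_of_eq ?_)
        refine av_congr fun x' => ?_
        rw [← pow_mul, mul_comm E.card 2, pow_mul, sq_abs, ← pow_mul]
      refine (av_mono h8).trans ?_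
      rw [av_comm]
      exact av_le_const fun x' => hK x' E.card hpos
    have h9 : ((6 * E.card / m : ℝ) ^ k) ^ E.card ≤ (ρ ^ 4) ^ E.card := by
      refine pow_le_pow_left₀ (by positivity) (le_trans ?_ hρ) _
      refine pow_le_pow_left₀ (by positivity) ?_ _
      refine div_le_div_of_nonneg_right ?_ hmR.le
      have : (E.card : ℝ) ≤ L := by exact_mod_cast hE
      linarith
    have h10 : (av fun ω : J → A => |co y ω v E|) ^ 4 ≤ (ρ ^ E.card) ^ 4 := by
      calc (av fun ω : J → A => |co y ω v E|) ^ 4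
          = ((av fun ω : J → A => |co y ω v E|) ^ 2) ^ 2 := by rw [← pow_mul]
        _ ≤ (av (fun x => av (fun x' => |KK y x x'| ^ E.card))) ^ 2 :=
            pow_le_pow_left₀ (sq_nonneg _) h1 2
        _ ≤ (ρ ^ 4) ^ E.card := h7.trans h9
        _ = (ρ ^ E.card) ^ 4 := by rw [← pow_mul, ← pow_mul, mul_comm]
    exact (pow_le_pow_iff_left₀ (av_nonneg fun ω => abs_nonneg _) (by positivity)
      (by norm_num)).mp h10

end mom

end Pool.Agent.TH661.LPX
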