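import Pool.Agent.TH661.LPX.NumS
import Pool.Agent.TH661.LPX.Ex4

/-!
The choice of the parameters, large cones.
-/

set_option autoImplicit false

namespace Pool.Agent.TH661.LPX

open Finset

theorem density4 {k n M t K : ℕ} {D : ℕ} {η : ℝ} (hk : 3 ≤ k) (hK : 1 ≤ K) (hkM : 2 ^ k ≤ M)
    (hMt : M ≤ 2 ^ t)
    (hη0 : 0 ≤ η) (hη1 : η ≤ 1 / 2) (hnM : (n : ℝ) ≤ 2 * η ^ 2 * M)
    (hmain : ((5 * 10 ^ 4 * K ^ 2 * t) ^ (k + 1) * M ^ 2 * (D + 1)) ^ K * M ^ 4
      ≤ n ^ ((k + 1) * K))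
    (hexp : (200 * K * t) ^ ((k - 3) * K + 1) * (48 * k * 6 ^ k * M) ^ (2 * K)
      ≤ n ^ ((k - 1) * K + 1)) (hn1 : 1 ≤ n) :
    1 ≤ n / k ∧ 1 ≤ t ∧ (20000 : ℝ) ≤ M ∧ ∃ u : ℕ, 1 ≤ u ∧ (2 : ℝ) ^ t ≤ (M : ℝ) ^ u ∧
      NL (Fin M) (19 * K * u) ≤ 2 * ((M : ℝ) ^ u) ^ (19 * K) ∧
      (∀ {V : Type} [Fintype V] (W : V → Submodule ℝ ((Fin k → Fin (n / k) → Bool) → ℝ)),
        (∀ o, Module.finrank ℝ (W o) ≤ D + 1) →
        Fintype.card V * (D + 2) ≤ 4 * 2 ^ t →
        ∃ H : Fin M → Fin k → Fin (n / k), ∀ o, av (fun σ : Fin M → Bool =>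
          ind (∃ v ∈ box (W o),
            av (fun x => v x * DL yx (pr H σ) (19 * K * u) x) < - (1 / 2 ^ (3 * t + 3)))) ≤
          4 * (D + 1) / ((M : ℝ) ^ u) ^ (26 * K)) ∧
      Fintype.card (Fin k → Fin (n / k) → Bool) *
        Real.exp (-(2 * η ^ 2 * Fintype.card (Fin M))) ≤
        1 / (64 * ((M : ℝ) ^ u) ^ (19 * K + 1)) := by
  obtain ⟨u, hu1, h2tS, hS4, hku⟩ := numbersU (by omega : 1 ≤ k) hkM hMt
  have hM2 : 2 ≤ M := le_trans (by
    calc 2 = 2 ^ 1 := by norm_num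
      _ ≤ 2 ^ k := Nat.pow_le_pow_right (by norm_num) (by omega)) hkM
  have ht1 : 1 ≤ t := by
    rcases Nat.eq_zero_or_pos t with h | h
    · subst h; omega
    · exact h
  have hKt : 1 ≤ K * t := Nat.mul_pos hK ht1
  have hK2t : K * t ≤ K ^ 2 * t := Nat.mul_le_mul_right _ (Nat.le_self_pow (by norm_num) K)
  have hut : u ≤ t := by
    have : 2 * u ≤ k * u := Nat.mul_le_mul_right _ (by omega)
    omega
  -- `n` is large
  have hnt : 5 * 10 ^ 4 * K ^ 2 * t ≤ n := by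
    have h1 : (5 * 10 ^ 4 * K ^ 2 * t) ^ ((k + 1) * K) ≤ n ^ ((k + 1) * K) := by
      refine le_trans ?_ hmain
      have hMpos : 0 < M ^ 2 := by positivity
      have hMpos4 : 0 < M ^ 4 := by positivity
      have hDpos : 0 < D + 1 := by positivity
      calc (5 * 10 ^ 4 * K ^ 2 * t) ^ ((k + 1) * K) = ((5 * 10 ^ 4 * K ^ 2 * t) ^ (k + 1)) ^ K := by
            rw [pow_mul]
        _ ≤ ((5 * 10 ^ 4 * K ^ 2 * t) ^ (k + 1) * M ^ 2 * (D + 1)) ^ K := by
            refine Nat.pow_le_pow_left ?_ K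
            calc (5 * 10 ^ 4 * K ^ 2 * t) ^ (k + 1)
                ≤ (5 * 10 ^ 4 * K ^ 2 * t) ^ (k + 1) * M ^ 2 := Nat.le_mul_of_pos_right _ hMpos
              _ ≤ (5 * 10 ^ 4 * K ^ 2 * t) ^ (k + 1) * M ^ 2 * (D + 1) :=
                  Nat.le_mul_of_pos_right _ hDpos
        _ ≤ _ := Nat.le_mul_of_pos_right _ hMpos4
    have hkK : (k + 1) * K ≠ 0 := by
      have : 0 < (k + 1) * K := Nat.mul_pos (by omega) hK
      omega
    exact (Nat.pow_le_pow_iff_left hkK).mp h1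
  have hbig : 5 * 10 ^ 4 * (K ^ 2 * t) ≤ n := by rw [← mul_assoc]; exact hnt
  have hkt : k ≤ 2 * t := le_trans (Nat.le_mul_of_pos_right _ hu1) hku
  have hkn : 2 * k ≤ n := by
    have : 1 ≤ K ^ 2 * t := hKt.trans hK2t
    have h2 : t ≤ K ^ 2 * t := Nat.le_mul_of_pos_left _ (by positivity)
    omega
  have hm1 : 1 ≤ n / k := by
    refine (Nat.one_le_div_iff (by omega)).mpr ?_
    omega
  set m := n / k with hmdef
  have hmpos : 0 < m := by omega
  have : NeZero m := ⟨by omega⟩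
  have hmn : n ≤ 2 * (k * m) := by
    have h2 := Nat.div_add_mod n k
    have h3 := Nat.mod_lt n (by omega : 0 < k)
    rw [← hmdef] at h2
    omega
  have : Nonempty (Fin M) := ⟨⟨0, by omega⟩⟩
  have hMR : (2 : ℝ) ≤ M := by exact_mod_cast hM2
  have hMpos : (0 : ℝ) < M := by linarith
  have hmR : (0 : ℝ) < (m : ℝ) := by exact_mod_cast hmpos
  have hkR : (0 : ℝ) < k := by exact_mod_cast (by omega : 0 < k)
  have hnR : (0 : ℝ) < n := by exact_mod_cast hn1
  have htR : (1 : ℝ) ≤ t := by exact_mod_cast ht1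
  have hKR : (1 : ℝ) ≤ K := by exact_mod_cast hK
  have huR : (1 : ℝ) ≤ u := by exact_mod_cast hu1
  have hutR : (u : ℝ) ≤ t := by exact_mod_cast hut
  have hkuR : (k : ℝ) * u ≤ 2 * t := by exact_mod_cast hku
  have hmnR : (n : ℝ) ≤ 2 * (k * m) := by exact_mod_cast hmn
  have hη2 : η ^ 2 ≤ 1 / 4 := by nlinarith
  have hn2 : (n : ℝ) ≤ 2 * (1 / 4) * M :=
    hnM.trans (mul_le_mul_of_nonneg_right (by linarith) hMpos.le)
  have hnMR : (n : ℝ) ≤ M := by linarith only [hn2, hMpos]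
  have hMbig : (20000 : ℝ) ≤ M := by
    have h3 : (2 * 10 ^ 4 : ℝ) ≤ n := by
      have h4 : 2 * 10 ^ 4 ≤ n := by
        have : 1 ≤ K ^ 2 * t := hKt.trans hK2t
        omega
      exact_mod_cast h4
    linarith
  refine ⟨hm1, ht1, hMbig, u, hu1, ?_⟩
  -- the quantity `S = M ^ u`
  set S : ℝ := (M : ℝ) ^ u with hS
  have hSpos : 0 < S := by positivity
  have hS1 : (2 : ℝ) ^ t ≤ S := by rw [hS]; exact_mod_cast h2tS
  have hS2 : S ≤ 2 ^ (4 * t) := by rw [hS]; exact_mod_cast hS4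
  have hSge1 : (1 : ℝ) ≤ S := le_trans (one_le_pow₀ (by norm_num)) hS1
  have hJ : Fintype.card (Fin M) = M := Fintype.card_fin M
  have hNLle : ∀ c : ℕ, NL (Fin M) (c * K * u) ≤ 2 * S ^ (c * K) := by
    intro c
    have h1 := NL_le (Fin M) (by rw [hJ]; exact hM2) (c * K * u)
    rw [hJ] at h1
    refine h1.trans (le_of_eq ?_)
    rw [hS, ← pow_mul, mul_comm u (c * K)]
  have hNLpos : 1 ≤ NL (Fin M) (19 * K * u) := by
    unfold NL
    have : 0 < (univ.filter (fun E : Finset (Fin M) => E.card ≤ 19 * K * u)).card :=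
      card_pos.mpr ⟨∅, by simp⟩
    exact_mod_cast this
  -- the root `q`
  set q : ℝ := (1 / (M : ℝ)) ^ (1 / (K : ℝ)) with hq
  have hq0 : 0 < q := by positivity
  have hqK : q ^ K = 1 / M := by
    rw [hq, one_div (K : ℝ)]
    exact Real.rpow_inv_natCast_pow (by positivity) (by omega)
  have hq1 : q ≤ 1 := by
    rw [hq]
    refine Real.rpow_le_one (by positivity) ?_ (by positivity)
    rw [div_le_one hMpos]; linarith
  have hqKu : ∀ c : ℕ, q ^ (c * K * u) = 1 / S ^ c := by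
    intro c
    rw [show c * K * u = K * (u * c) by ring, pow_mul, hqK, div_pow, one_pow, hS, ← pow_mul]
  -- the constant `A`
  set A : ℝ := 5 * 10 ^ 4 * K ^ 2 * t with hA
  have hKKt : (1 : ℝ) ≤ K ^ 2 * t :=
    one_le_mul_of_one_le_of_one_le (one_le_pow₀ hKR) htR
  have hKt2 : (K : ℝ) * t ≤ K ^ 2 * t :=
    mul_le_mul_of_nonneg_right (le_self_pow₀ hKR (by norm_num)) (Nat.cast_nonneg _)
  have hKtpos : (0 : ℝ) < K * t := by positivity
  have hA0 : 0 < A := by rw [hA]; positivity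
  -- the main inequality
  have hstar : A ^ (k + 1) * M ^ 2 * (D + 1) ≤ q ^ 4 * (n : ℝ) ^ (k + 1) := by
    have h1 : (A ^ (k + 1) * M ^ 2 * (D + 1)) ^ K ≤ (q ^ 4 * (n : ℝ) ^ (k + 1)) ^ K := by
      have h2 : (A ^ (k + 1) * M ^ 2 * (D + 1)) ^ K * M ^ 4
          ≤ (n : ℝ) ^ ((k + 1) * K) := by rw [hA]; exact_mod_cast hmain
      have h3 : (q ^ 4 * (n : ℝ) ^ (k + 1)) ^ K = (n : ℝ) ^ ((k + 1) * K) / M ^ 4 := by
        rw [mul_pow, ← pow_mul, mul_comm 4 K, pow_mul, hqK, ← pow_mul]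
        field_simp
      rw [h3, le_div_iff₀ (by positivity)]
      exact h2
    exact (pow_le_pow_iff_left₀ (by positivity) (by positivity) (by omega)).mp h1
  have hstar2 : A ^ (k + 1) * M * (D + 1) ≤ q ^ 2 * (n : ℝ) ^ k := by
    have h1 : (A ^ (k + 1) * M * (D + 1)) * M ≤ (q ^ 2 * (n : ℝ) ^ k) * M := by
      calc (A ^ (k + 1) * M * (D + 1)) * M = A ^ (k + 1) * M ^ 2 * (D + 1) := by ring
        _ ≤ q ^ 4 * (n : ℝ) ^ (k + 1) := hstar
        _ = q ^ 2 * (q ^ 2 * (n : ℝ) ^ k) * n := by ring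
        _ ≤ 1 * (q ^ 2 * (n : ℝ) ^ k) * M := by
            have h5 : q ^ 2 ≤ 1 := pow_le_one₀ hq0.le hq1
            gcongr
        _ = (q ^ 2 * (n : ℝ) ^ k) * M := by ring
    exact le_of_mul_le_mul_right h1 hMpos
  have hD1 : (1 : ℝ) ≤ D + 1 := by
    have h0 : (0 : ℝ) ≤ D := Nat.cast_nonneg _
    linarith only [h0]
  have hDpos : (0 : ℝ) < D + 1 := by linarith only [hD1]
  -- the parameters
  set N : ℕ := 32 * K ^ 2 * u with hN
  have hN1 : 1 ≤ N := by
    have : 0 < K ^ 2 * u := Nat.mul_pos (by positivity) hu1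
    rw [hN, mul_assoc]; omega
  have hNR : (0 : ℝ) < N := by exact_mod_cast hN1
  have hNle : (N : ℝ) ≤ 64 * K ^ 2 * t := by
    rw [hN]; push_cast
    have h1 := mul_le_mul_of_nonneg_left hutR (by positivity : (0 : ℝ) ≤ 32 * K ^ 2)
    have h2 : (0 : ℝ) ≤ 32 * K ^ 2 * t := by positivity
    linarith only [h1, h2]
  have hkN : (k : ℝ) * N ≤ 64 * K ^ 2 * t := by
    rw [hN]; push_cast
    calc (k : ℝ) * (32 * (K : ℝ) ^ 2 * u) = 32 * (K : ℝ) ^ 2 * (k * u) := by ring
      _ ≤ 32 * (K : ℝ) ^ 2 * (2 * t) := mul_le_mul_of_nonneg_left hkuR (by positivity)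
      _ = 64 * (K : ℝ) ^ 2 * t := by ring
  set L : ℕ := 19 * K * u with hL
  set L1 : ℕ := 16 * K * u with hL1
  set f : ℕ := 3 * K * u with hf
  have hLsum : L = L1 + f := by rw [hL, hL1, hf]; ring
  have hLpos : (0 : ℝ) < L := by
    have : 0 < L := by rw [hL]; positivity
    exact_mod_cast this
  set t' : ℕ := 100 * K * t with ht'
  have ht'R : (t' : ℝ) = 100 * K * t := by rw [ht']; push_cast; ring
  -- `lam`
  set lam : ℝ := 200 * K * t / n with hlamdef
  have hlam0 : 0 < lam := by rw [hlamdef]; positivity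
  have hnA : A ≤ n := by rw [hA]; exact_mod_cast hnt
  have hlam1 : lam ≤ 1 := by
    rw [hlamdef, div_le_one hnR]
    refine le_trans ?_ hnA
    rw [hA]; linarith only [hKt2, hKKt]
  have hlam : (t' : ℝ) ≤ lam * (k * m) := by
    rw [ht'R, hlamdef, div_mul_eq_mul_div, le_div_iff₀ hnR]
    calc 100 * (K : ℝ) * t * n ≤ 100 * (K : ℝ) * t * (2 * (k * m)) :=
          mul_le_mul_of_nonneg_left hmnR (by positivity)
      _ = 200 * K * t * (k * m) := by ring
  have hlamM : 1 ≤ lam * M := by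
    rw [hlamdef, div_mul_eq_mul_div, le_div_iff₀ hnR, one_mul]
    refine hnMR.trans ?_
    refine le_mul_of_one_le_left hMpos.le ?_
    have h1 : (1 : ℝ) ≤ K * t := one_le_mul_of_one_le_of_one_le hKR htR
    linarith only [h1]
  -- `U`
  set U : ℝ := Real.sqrt (lam ^ (k - 1) / q) with hUdef
  have hU0 : 0 ≤ U := Real.sqrt_nonneg _
  have hU2 : U ^ 2 = lam ^ (k - 1) / q := Real.sq_sqrt (by positivity)
  have hU : lam ^ ((k - 1) * K - 1) ≤ U ^ (2 * K) := by
    have h1 : lam ^ ((k - 1) * K) = lam ^ ((k - 1) * K - 1) * lam := by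
      rw [← pow_succ]
      congr 1
      have : 0 < (k - 1) * K := Nat.mul_pos (by omega) hK
      omega
    have h2 : U ^ (2 * K) = lam ^ ((k - 1) * K - 1) * (lam * M) := by
      calc U ^ (2 * K) = (U ^ 2) ^ K := by rw [pow_mul]
        _ = (lam ^ (k - 1)) ^ K / q ^ K := by rw [hU2, div_pow (lam ^ (k - 1)) q K]
        _ = lam ^ ((k - 1) * K) * M := by rw [hqK, ← pow_mul]; field_simp
        _ = _ := by rw [h1]; ring
    rw [h2]
    exact le_mul_of_one_le_right (by positivity) hlamM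
  -- `V'`
  set V' : ℝ := n / (48 * k * 6 ^ k * M) with hV'def
  have hV0 : 0 ≤ V' := by rw [hV'def]; positivity
  have hV : lam ^ ((k - 3) * K + 1) ≤ V' ^ (2 * K) := by
    rw [hlamdef, hV'def, div_pow, div_pow, div_le_div_iff₀ (by positivity) (by positivity)]
    have h1 : (200 * K * t : ℝ) ^ ((k - 3) * K + 1) * (48 * k * 6 ^ k * M) ^ (2 * K)
      ≤ (n : ℝ) ^ ((k - 1) * K + 1) := by exact_mod_cast hexp
    refine h1.trans (le_of_eq ?_)
    rw [← pow_add]
    congr 1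
    obtain ⟨j, rfl⟩ : ∃ j, k = j + 3 := ⟨k - 3, by omega⟩
    have e1 : j + 3 - 1 = j + 2 := by omega
    have e2 : j + 3 - 3 = j := by omega
    rw [e1, e2]; ring
  have hκ : 3 * (M : ℝ) * 6 ^ k * V' ≤ 1 / 8 * m := by
    have h1 : 3 * (M : ℝ) * 6 ^ k * V' = n / (16 * k) := by
      rw [hV'def]; field_simp; norm_num
    rw [h1, div_le_iff₀ (by positivity)]
    calc (n : ℝ) ≤ 2 * (k * m) := hmnR
      _ = 1 / 8 * m * (16 * k) := by ring
  -- the numbers `τ`, `δ`
  set τ : ℝ := 1 / 2 ^ (3 * t + 4) with hτ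
  have hτ0 : 0 < τ := by positivity
  set δ : ℝ := τ / NL (Fin M) L with hδ
  have hNLL : 1 ≤ NL (Fin M) L := hNLpos
  have hδ0 : 0 < δ := by positivity
  have hδN : δ * NL (Fin M) L = τ := by rw [hδ]; field_simp
  have h2f : (2 : ℝ) ^ f ≤ S ^ (3 * K) := by
    rw [hf, hS, ← pow_mul, mul_comm u (3 * K)]
    exact pow_le_pow_left₀ (by norm_num) hMR _
  have hG : 2 ^ f / δ ≤ (2 : ℝ) ^ t' := by
    rw [hδ, div_div_eq_mul_div, div_le_iff₀ hτ0, hτ, mul_one_div, le_div_iff₀ (by positivity)]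
    have h1 : NL (Fin M) L ≤ 2 * (2 ^ (4 * t)) ^ (19 * K) :=
      (hNLle 19).trans (mul_le_mul_of_nonneg_left (pow_le_pow_left₀ hSpos.le hS2 _)
        (by norm_num))
    calc (2 : ℝ) ^ f * NL (Fin M) L * 2 ^ (3 * t + 4)
        ≤ 2 ^ f * (2 * (2 ^ (4 * t)) ^ (19 * K)) * 2 ^ (3 * t + 4) := by gcongr
      _ = 2 ^ (f + 1 + 4 * t * (19 * K) + (3 * t + 4)) := by
          rw [← pow_mul, pow_add, pow_add, pow_add]; ring
      _ ≤ 2 ^ t' := by
          refine pow_le_pow_right₀ (by norm_num) ?_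
          rw [hf, ht']
          have h2 : K * u ≤ K * t := Nat.mul_le_mul_left _ hut
          have h3 : t ≤ K * t := Nat.le_mul_of_pos_left _ hK
          have h4 : 3 * K * u = 3 * (K * u) := by ring
          have h5 : 4 * t * (19 * K) = 76 * (K * t) := by ring
          have h6 : 100 * K * t = 100 * (K * t) := by ring
          omega
  have hkL : k * L ≤ t' := by
    rw [hL, ht']
    calc k * (19 * K * u) = 19 * K * (k * u) := by ring
      _ ≤ 19 * K * (2 * t) := Nat.mul_le_mul_left _ hku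
      _ = 38 * K * t := by ring
      _ ≤ 100 * K * t := by gcongr; norm_num
  -- `s1`, `s2`, `X`, `Y`
  set s1 : ℝ := q / (4 * (D + 1)) with hs1def
  have hs1 : 0 < s1 := by positivity
  have hs1q : 4 * (D + 1) * s1 = q := by rw [hs1def]; field_simp
  set s2 : ℝ := q * τ ^ 2 / (D + 1) ^ 2 with hs2def
  have hs2 : 0 < s2 := by positivity
  have hs2q : s2 * (D + 1) ^ 2 / τ ^ 2 = q := by rw [hs2def]; field_simp
  set X : ℝ := 3 * M * (4 * N / q * (8 * lam) ^ k) with hXdef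
  have hX2 : X ≤ q / (16 * (D + 1)) := by
    have h1 : X = 12 * N * M * (1600 * K * t) ^ k / (q * n ^ k) := by
      rw [hXdef, show 8 * lam = 1600 * K * t / n by rw [hlamdef]; ring, div_pow]
      field_simp; norm_num
    rw [h1, div_le_div_iff₀ (by positivity) (by positivity)]
    have h2 : 192 * (N : ℝ) ≤ A := by rw [hA]; linarith only [hNle, hKKt]
    have h3 : (1600 * K * t : ℝ) ^ k ≤ A ^ k := by
      refine pow_le_pow_left₀ (by positivity) ?_ k
      rw [hA]; linarith only [hKt2, hKKt]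
    calc 12 * (N : ℝ) * M * (1600 * K * t) ^ k * (16 * (D + 1))
        = 192 * N * (1600 * K * t) ^ k * (M * (D + 1)) := by ring
      _ ≤ A * A ^ k * (M * (D + 1)) := by gcongr
      _ = A ^ (k + 1) * M * (D + 1) := by rw [pow_succ]; ring
      _ ≤ q ^ 2 * (n : ℝ) ^ k := hstar2
      _ = q * (q * n ^ k) := by ring
  set Y : ℝ := 3 * M * (4 * N / q * 8 ^ k * U) / m with hYdef
  have hY0 : 0 ≤ Y := by rw [hYdef]; positivity
  have hY2 : Y ^ 2 ≤ q / (16 * (D + 1)) := by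
    have h1 : Y ≤ 1536 * K ^ 2 * t * M * 8 ^ k * U / (q * n) := by
      rw [hYdef, div_le_div_iff₀ hmR (by positivity)]
      calc 3 * (M : ℝ) * (4 * N / q * 8 ^ k * U) * (q * n)
          = 12 * N * M * 8 ^ k * U * n := by field_simp; ring
        _ ≤ 12 * N * M * 8 ^ k * U * (2 * (k * m)) := by gcongr
        _ = 24 * (k * N) * (M * 8 ^ k * U * m) := by ring
        _ ≤ 24 * (64 * K ^ 2 * t) * (M * 8 ^ k * U * m) := by gcongr
        _ = 1536 * K ^ 2 * t * M * 8 ^ k * U * m := by ring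
    have h2 : Y ^ 2 ≤ (1536 * K ^ 2 * t * M * 8 ^ k * U / (q * n)) ^ 2 :=
      pow_le_pow_left₀ hY0 h1 2
    refine h2.trans ?_
    have h3 : (1536 * K ^ 2 * t * M * 8 ^ k * U / (q * n)) ^ 2
        = (1536 * K ^ 2 * t) ^ 2 * M ^ 2 * 64 ^ k * (200 * K * t) ^ (k - 1)
          / (q ^ 3 * (n : ℝ) ^ (k + 1)) := by
      have e1 : (1536 * K ^ 2 * t * M * 8 ^ k * U / (q * n)) ^ 2
          = (1536 * K ^ 2 * t) ^ 2 * M ^ 2 * (8 ^ k) ^ 2 * U ^ 2 / (q ^ 2 * (n : ℝ) ^ 2) := by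
        rw [div_pow, mul_pow q]
        congr 1
        ring
      have e2 : ((8 : ℝ) ^ k) ^ 2 = 64 ^ k := by
        rw [← pow_mul, mul_comm, pow_mul]; norm_num
      have e3 : (n : ℝ) ^ (k + 1) = n ^ 2 * n ^ (k - 1) := by
        rw [← pow_add]; congr 1; omega
      rw [e1, e2, hU2, hlamdef, div_pow, e3]
      field_simp
    rw [h3, div_le_div_iff₀ (by positivity) (by positivity)]
    have h4 : (64 : ℝ) ^ k = 64 * 64 ^ (k - 1) := by
      rw [← pow_succ']; congr 1; omega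
    have h5 : A ^ (k + 1) = A ^ 2 * A ^ (k - 1) := by
      rw [← pow_add]; congr 1; omega
    have h6 : (12800 * K * t : ℝ) ^ (k - 1) ≤ A ^ (k - 1) := by
      refine pow_le_pow_left₀ (by positivity) ?_ _
      rw [hA]; linarith only [hKt2, hKKt]
    have h7 : (49152 * K ^ 2 * t : ℝ) ^ 2 ≤ A ^ 2 := by
      refine pow_le_pow_left₀ (by positivity) ?_ _
      rw [hA]; linarith only [hKKt]
    calc (1536 * (K : ℝ) ^ 2 * t) ^ 2 * M ^ 2 * 64 ^ k * (200 * K * t) ^ (k - 1) * (16 * (D + 1))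
        = (49152 * K ^ 2 * t) ^ 2 * (12800 * K * t) ^ (k - 1) * (M ^ 2 * (D + 1)) := by
          rw [h4, show (12800 * K * t : ℝ) = 64 * (200 * K * t) by ring,
            mul_pow 64 (200 * (K : ℝ) * t)]
          ring
      _ ≤ A ^ 2 * A ^ (k - 1) * (M ^ 2 * (D + 1)) := by gcongr
      _ = A ^ (k + 1) * M ^ 2 * (D + 1) := by rw [h5]; ring
      _ ≤ q ^ 4 * (n : ℝ) ^ (k + 1) := hstar
      _ = q * (q ^ 3 * (n : ℝ) ^ (k + 1)) := by ring
  have hq16 : q / (16 * (D + 1)) ≤ 1 / 16 := by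
    rw [div_le_div_iff₀ (by positivity) (by norm_num)]
    nlinarith only [hq1, hD1]
  have hX1 : X ≤ 1 / 4 := by linarith only [hX2, hq16]
  have hY1 : Y ≤ 1 / 4 := by
    have h1 : Y ^ 2 ≤ (1 / 4) ^ 2 := by
      refine hY2.trans (hq16.trans ?_); norm_num
    exact (pow_le_pow_iff_left₀ hY0 (by norm_num) (by norm_num)).mp h1
  have hXY : 2 * X + 2 * Y ^ 2 ≤ s1 := by
    have h1 : s1 = 4 * (q / (16 * (D + 1))) := by rw [hs1def]; field_simp; norm_num
    rw [h1]; linarith only [hX2, hY2]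
  refine ⟨hS1, hNLle 19, ?_, ?_⟩
  · intro V _ W hW hV4
    obtain ⟨H, hH⟩ := exists_good4 (J := Fin M) (k := k) (m := m) hmpos hk W hW
      (δ := δ) (lam := lam) (U := U) (V' := V') (κ := 1 / 8) (W0 := q) (s1 := s1) (s2 := s2)
      (τ := τ) (X := X) (Y := Y) (q := K) (N := N) (L1 := L1) (L := L)
      (f := f) (t' := t') hN1 hLsum hδ0 hτ0 hK hkL hlam hlam1 hU0 hU hV0 hV
      (by rw [hJ]; exact hκ) (by norm_num) le_rfl hG hq0 hq1 hs1 hs2
      (by rw [hJ]) hX1
      (by rw [hJ, hYdef, div_mul_cancel₀ _ hmR.ne']) hY1 hXY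
      (by
        rcases Nat.eq_zero_or_pos (Fintype.card V) with h0 | h0
        · rw [h0]; norm_num
        have h1 : q ^ (f + 1) ≤ 1 / S ^ 3 := by
          rw [← hqKu 3]
          exact pow_le_pow_of_le_one hq0.le hq1 (by omega)
        have hVR : (1 : ℝ) ≤ Fintype.card V := by exact_mod_cast h0
        have h3 : (Fintype.card V : ℝ) * (D + 2) ≤ 4 * 2 ^ t := by exact_mod_cast hV4
        have h3' : (Fintype.card V : ℝ) * (D + 2) ≤ 4 * S := h3.trans (by linarith only [hS1])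
        have hD2 : (D : ℝ) + 2 ≤ 4 * S := by
          refine le_trans ?_ h3'
          exact le_mul_of_one_le_left (by linarith only [hD1]) hVR
        have hD4 : (D : ℝ) + 1 ≤ 4 * S := by linarith only [hD2]
        have h2 : q ^ (L1 + 1) / s2 ≤ 4096 / S ^ 8 := by
          have e1 : q ^ (L1 + 1) / s2 = (D + 1) ^ 2 * (1 / τ ^ 2) * q ^ L1 := by
            rw [hs2def, pow_succ]; field_simp
          have e2 : q ^ L1 = 1 / S ^ 16 := hqKu 16
          have e3 : 1 / τ ^ 2 ≤ 256 * S ^ 6 := by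
            rw [hτ, div_pow, one_pow, one_div_one_div]
            calc ((2 : ℝ) ^ (3 * t + 4)) ^ 2 = 256 * (2 ^ t) ^ 6 := by
                  rw [← pow_mul, ← pow_mul, show (3 * t + 4) * 2 = 8 + t * 6 by ring, pow_add]
                  norm_num
              _ ≤ 256 * S ^ 6 := by gcongr
          rw [e1, e2]
          calc ((D : ℝ) + 1) ^ 2 * (1 / τ ^ 2) * (1 / S ^ 16)
              ≤ (4 * S) ^ 2 * (256 * S ^ 6) * (1 / S ^ 16) := by gcongr
            _ = 4096 / S ^ 8 := by field_simp; norm_num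
        have hSM : (M : ℝ) ≤ S := by
          rw [hS]
          exact le_self_pow₀ (by linarith only [hMR]) (by omega)
        have h40 : (20000 : ℝ) ≤ S := hMbig.trans hSM
        have hV1 : (Fintype.card V : ℝ) ≤ 4 * S := by
          refine le_trans ?_ h3'
          exact le_mul_of_one_le_right (by linarith only [hVR]) (by linarith only [hD1])
        have hVD : (Fintype.card V : ℝ) * (D + 1) ≤ 4 * S := by
          refine le_trans ?_ h3'
          exact mul_le_mul_of_nonneg_left (by linarith) (by linarith only [hVR])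
        calc (Fintype.card V : ℝ) * (q ^ (f + 1) + (D + 1) * (q ^ (L1 + 1) / s2))
            ≤ Fintype.card V * (1 / S ^ 3 + (D + 1) * (4096 / S ^ 8)) := by gcongr
          _ = Fintype.card V * (1 / S ^ 3) + (Fintype.card V * (D + 1)) * (4096 / S ^ 8) := by ring
          _ ≤ (4 * S) * (1 / S ^ 3) + (4 * S) * (4096 / S ^ 8) := by gcongr
          _ = 4 / S ^ 2 + 16384 / S ^ 7 := by field_simp; ring
          _ < 1 / 4 + 1 / 4 := by
              refine add_lt_add ?_ ?_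
              · rw [div_lt_div_iff₀ (by positivity) (by norm_num)]
                nlinarith only [h40]
              · rw [div_lt_div_iff₀ (by positivity) (by norm_num)]
                have h5 : (20000 : ℝ) ^ 7 ≤ S ^ 7 := pow_le_pow_left₀ (by norm_num) h40 7
                refine lt_of_lt_of_le ?_ ((one_mul (S ^ 7)).symm ▸ h5)
                norm_num
          _ = 1 / 2 := by norm_num)
    refine ⟨H, fun o => ?_⟩
    have h1 := hH o
    rw [hδN] at h1
    have h2 : -τ - τ = -(1 / 2 ^ (3 * t + 3)) := by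
      rw [hτ, show 3 * t + 4 = (3 * t + 3) + 1 by ring, pow_succ]; field_simp; norm_num
    rw [h2] at h1
    refine h1.trans ?_
    rw [hs1q, hs2q]
    have hqN : q ^ N = 1 / S ^ (32 * K) := by
      rw [← hqKu (32 * K), hN]
      congr 1; ring
    have h7 : NL (Fin M) f ≤ 2 * S ^ (3 * K) := hNLle 3
    have h8 : (1 : ℝ) ≤ S ^ (3 * K) := one_le_pow₀ hSge1
    have hqN0 : 0 < q ^ N := by positivity
    calc NL (Fin M) f * (2 ^ f * q ^ N + (D + 1) * q ^ N)
        ≤ (2 * S ^ (3 * K)) * (S ^ (3 * K) * q ^ N + (D + 1) * q ^ N) := by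
          have h9 : 0 ≤ NL (Fin M) f := Nat.cast_nonneg _
          gcongr
      _ ≤ (2 * S ^ (3 * K)) * (S ^ (3 * K) * ((D + 1) * q ^ N)
          + S ^ (3 * K) * ((D + 1) * q ^ N)) := by
          have h9 : (D + 1) * q ^ N ≤ S ^ (3 * K) * ((D + 1) * q ^ N) :=
            le_mul_of_one_le_left (by positivity) h8
          have h10 : q ^ N ≤ (D + 1) * q ^ N := le_mul_of_one_le_left hqN0.le hD1
          gcongr
      _ = 4 * (D + 1) * (S ^ (3 * K) * S ^ (3 * K)) * q ^ N := by ring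
      _ = 4 * (D + 1) / S ^ (26 * K) := by
          rw [hqN, ← pow_add, show 32 * K = (3 * K + 3 * K) + 26 * K by ring, pow_add S _ (26 * K)]
          field_simp
  · -- the probability of a large value
    rw [hJ]
    have hcardX : (Fintype.card (Fin k → Fin m → Bool) : ℝ) ≤ 2 ^ n := by
      rw [Fintype.card_fun, Fintype.card_fun, Fintype.card_fin, Fintype.card_fin,
        Fintype.card_bool, ← pow_mul]
      have : m * k ≤ n := Nat.div_mul_le_self n k
      exact_mod_cast Nat.pow_le_pow_right (by norm_num) this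
    have h1 : Real.exp (-(2 * η ^ 2 * M)) ≤ Real.exp (-n) := Real.exp_le_exp.mpr (by linarith only [hnM])
    have h2 : (Fintype.card (Fin k → Fin m → Bool) : ℝ) * Real.exp (-(2 * η ^ 2 * M))
        ≤ 2 ^ n * Real.exp (-n) :=
      mul_le_mul hcardX h1 (Real.exp_pos _).le (by positivity)
    refine h2.trans ((chernoff_num (E := 80 * (K * t)) ?_).trans ?_)
    · have h3 : K * t ≤ K ^ 2 * t := hK2t
      omega
    · refine one_div_le_one_div_of_le (by positivity) ?_
      have h9 : S ^ (19 * K + 1) ≤ 2 ^ (80 * (K * t)) := by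
        calc S ^ (19 * K + 1) ≤ (2 ^ (4 * t)) ^ (19 * K + 1) := pow_le_pow_left₀ hSpos.le hS2 _
          _ = 2 ^ (4 * t * (19 * K + 1)) := by rw [← pow_mul]
          _ ≤ 2 ^ (80 * (K * t)) := by
              refine pow_le_pow_right₀ (by norm_num) ?_
              have h3 : t ≤ K * t := Nat.le_mul_of_pos_left _ hK
              have h4 : 4 * t * (19 * K + 1) = 76 * (K * t) + 4 * t := by ring
              omega
      calc 64 * S ^ (19 * K + 1) ≤ 64 * 2 ^ (80 * (K * t)) := by linarith only [h9]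
        _ = 2 ^ (80 * (K * t) + 6) := by rw [pow_add]; norm_num; ring

end Pool.Agent.TH661.LPX
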