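import Pool.Agent.TH661.LPX.Cone
import Pool.Agent.TH661.LPX.Num

/-!
The choice of the parameters for conic programs.
-/

set_option autoImplicit false

namespace Pool.Agent.TH661.LPX

open Finset

/-- The numbers used in the proof. -/
theorem numbersC {k n M t e : ℕ} (hk : 1 ≤ k) (hkM : 2 ^ k ≤ M) (hMt : M ≤ 2 ^ t)
    (hmain : 64 * M ^ e * (2 * 10 ^ 4 * t) ^ k ≤ n ^ k) (hn1 : 1 ≤ n) :
    ∃ u h : ℕ, 1 ≤ u ∧ 2 ^ t ≤ M ^ u ∧ M ^ u ≤ 2 ^ (4 * t) ∧ 22 * u ≤ h ∧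
      2 ^ (7 * u + 7) * M ^ (22 * u) ≤ 2 ^ (k * h) ∧
      48 * h * n ≤ 2 * 10 ^ 4 * t * (n / k) ∧ 2 * 10 ^ 4 * t ≤ n ∧ 1 ≤ t ∧ 1 ≤ n / k := by
  have hM2 : 2 ≤ M := le_trans (by
    calc 2 = 2 ^ 1 := by norm_num
      _ ≤ 2 ^ k := Nat.pow_le_pow_right (by norm_num) hk) hkM
  have ht1 : 1 ≤ t := by
    rcases Nat.eq_zero_or_pos t with h | h
    · subst h; omega
    · exact h
  have hMpos : 0 < M ^ e := by positivity
  have hnt : 2 * 10 ^ 4 * t ≤ n := by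
    have h1 : (2 * 10 ^ 4 * t) ^ k ≤ n ^ k := by
      refine le_trans ?_ hmain
      exact Nat.le_mul_of_pos_left _ (by positivity)
    exact (Nat.pow_le_pow_iff_left (by omega)).mp h1
  set B := Nat.log 2 M with hB
  have hB1 : 2 ^ B ≤ M := Nat.pow_log_le_self 2 (by omega)
  have hB2 : M < 2 ^ (B + 1) := Nat.lt_pow_succ_log_self (by norm_num) M
  have hkB : k ≤ B := Nat.le_log_of_pow_le (by norm_num) hkM
  have hBt : B ≤ t := by
    by_contra hcon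
    push Not at hcon
    have h1 : 2 ^ t < 2 ^ B := Nat.pow_lt_pow_right (by norm_num) hcon
    omega
  have hBpos : 0 < B := by omega
  set s := (t + B - 1) / B with hs
  have hs1 : t ≤ s * B := by
    have h1 := Nat.div_add_mod (t + B - 1) B
    have h2 := Nat.mod_lt (t + B - 1) hBpos
    have h3 : (t + B - 1) / B * B = B * ((t + B - 1) / B) := mul_comm _ _
    rw [hs]
    omega
  have hs2 : s * B ≤ 2 * t := by
    have h1 := Nat.div_mul_le_self (t + B - 1) B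
    rw [hs]
    omega
  have hspos : 1 ≤ s := by
    rcases Nat.eq_zero_or_pos s with h | h
    · rw [h] at hs1; omega
    · exact h
  have hsB : s ≤ s * B := Nat.le_mul_of_pos_right _ hBpos
  set h := (22 * (s * B) + 22 * s + 7 * s + 7 + k - 1) / k with hh
  have hkh1 : 22 * (s * B) + 22 * s + 7 * s + 7 ≤ k * h := by
    have h1 := Nat.div_add_mod (22 * (s * B) + 22 * s + 7 * s + 7 + k - 1) k
    have h2 := Nat.mod_lt (22 * (s * B) + 22 * s + 7 * s + 7 + k - 1) (by omega : 0 < k)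
    rw [hh]
    omega
  have hkh2 : k * h ≤ 200 * t := by
    have h1 := Nat.mul_div_le (22 * (s * B) + 22 * s + 7 * s + 7 + k - 1) k
    rw [← hh] at h1
    omega
  have hh18 : 22 * s ≤ h := by
    have h1 : k * (22 * s) ≤ k * h := by
      refine le_trans ?_ hkh1
      have h2 : k * s ≤ s * B := by rw [mul_comm]; exact Nat.mul_le_mul_left _ hkB
      have h3 : k * (22 * s) = 22 * (k * s) := by ring
      omega
    exact Nat.le_of_mul_le_mul_left h1 (by omega)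
  refine ⟨s, h, hspos, ?_, ?_, hh18, ?_, ?_, hnt, ht1, ?_⟩
  · calc 2 ^ t ≤ 2 ^ (B * s) := Nat.pow_le_pow_right (by norm_num) (by rw [mul_comm]; exact hs1)
      _ = (2 ^ B) ^ s := by rw [pow_mul]
      _ ≤ M ^ s := Nat.pow_le_pow_left hB1 s
  · calc M ^ s ≤ (2 ^ (B + 1)) ^ s := Nat.pow_le_pow_left hB2.le s
      _ = 2 ^ ((B + 1) * s) := by rw [pow_mul]
      _ ≤ 2 ^ (4 * t) := by
          refine Nat.pow_le_pow_right (by norm_num) ?_
          have : (B + 1) * s = s * B + s := by ring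
          omega
  · calc 2 ^ (7 * s + 7) * M ^ (22 * s) ≤ 2 ^ (7 * s + 7) * (2 ^ (B + 1)) ^ (22 * s) :=
          Nat.mul_le_mul_left _ (Nat.pow_le_pow_left hB2.le _)
      _ = 2 ^ (7 * s + 7 + (B + 1) * (22 * s)) := by rw [← pow_mul, ← pow_add]
      _ ≤ 2 ^ (k * h) := by
          refine Nat.pow_le_pow_right (by norm_num) ?_
          have : (B + 1) * (22 * s) = 22 * (s * B) + 22 * s := by ring
          omega
  · have h1 : n ≤ 2 * (k * (n / k)) := by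
      have h2 := Nat.div_add_mod n k
      have h3 := Nat.mod_lt n (by omega : 0 < k)
      omega
    calc 48 * h * n ≤ 48 * h * (2 * (k * (n / k))) := Nat.mul_le_mul_left _ h1
      _ = (96 * (k * h)) * (n / k) := by ring
      _ ≤ (2 * 10 ^ 4 * t) * (n / k) := Nat.mul_le_mul_right _ (by omega)
  · refine (Nat.one_le_div_iff (by omega)).mpr ?_
    omega

section density

variable {k n M t e : ℕ}

/-- The truncated density is almost nonnegative on every fixed function, except with small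
probability; the number of terms is small; no point satisfies many constraints. -/
theorem density {D : ℕ} {η : ℝ} (hk : 1 ≤ k) (hkM : 2 ^ k ≤ M) (hMt : M ≤ 2 ^ t)
    (hη0 : 0 ≤ η) (hη1 : η ≤ 1 / 2) (hnM : (n : ℝ) ≤ 2 * η ^ 2 * M)
    (hmain : 64 * M ^ (12 + 8 * D) * (2 * 10 ^ 4 * t) ^ k ≤ n ^ k) (hn1 : 1 ≤ n) :
    1 ≤ n / k ∧ 1 ≤ t ∧ (20000 : ℝ) ≤ M ∧ ∃ u : ℕ, 1 ≤ u ∧ (2 : ℝ) ^ t ≤ (M : ℝ) ^ u ∧
      NL (Fin M) (19 * u) ≤ 2 * ((M : ℝ) ^ u) ^ 19 ∧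
      (∀ v : (Fin k → Fin (n / k) → Bool) → ℝ, (∀ x, 0 ≤ v x) → (∀ x, v x ≤ 1) →
        av (fun ω : Fin M → (Fin k → Fin (n / k)) × Bool =>
          ind (av (fun x => v x * DL yx ω (19 * u) x) < - (1 / 2 ^ (3 * t + 5)))) ≤
        65 / (((M : ℝ) ^ u) ^ (21 + 23 * D) * (M : ℝ) ^ 2)) ∧
      av (fun ω : Fin M → (Fin k → Fin (n / k)) × Bool =>
        ind (∃ x, 2 * η * Fintype.card (Fin M) < ∑ i, yx (ω i) x)) ≤
        1 / (64 * ((M : ℝ) ^ u) ^ 20) := by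
  obtain ⟨u, h, hu1, h2tS, hS4, huh, hG, hmn, hnt, ht1, hm1⟩ :=
    numbersC hk hkM hMt hmain hn1
  have hmpos : 0 < n / k := by omega
  have : NeZero (n / k) := ⟨by omega⟩
  have hM2 : 2 ≤ M := le_trans (by
    calc 2 = 2 ^ 1 := by norm_num
      _ ≤ 2 ^ k := Nat.pow_le_pow_right (by norm_num) hk) hkM
  have : Nonempty (Fin M) := ⟨⟨0, by omega⟩⟩
  have : Nonempty (Fin k → Fin (n / k)) := ⟨fun _ => ⟨0, hmpos⟩⟩
  have hMR : (2 : ℝ) ≤ M := by exact_mod_cast hM2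
  have hMpos : (0 : ℝ) < M := by linarith
  have hmR : (0 : ℝ) < ((n / k : ℕ) : ℝ) := by exact_mod_cast hmpos
  have hnR : (0 : ℝ) < n := by exact_mod_cast hn1
  have hntR : (2 : ℝ) * 10 ^ 4 * t ≤ n := by exact_mod_cast hnt
  have htR : (1 : ℝ) ≤ t := by exact_mod_cast ht1
  have hMbig : (20000 : ℝ) ≤ M := by
    have h1 : η ^ 2 ≤ 1 / 4 := by nlinarith
    have h2 : (n : ℝ) ≤ 2 * (1 / 4) * M :=
      hnM.trans (mul_le_mul_of_nonneg_right (by linarith) hMpos.le)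
    linarith
  refine ⟨hm1, ht1, hMbig, u, hu1, ?_⟩
  -- the quantity `S = M ^ u`
  set S : ℝ := (M : ℝ) ^ u with hS
  have hSpos : 0 < S := by positivity
  have hS1 : (2 : ℝ) ^ t ≤ S := by rw [hS]; exact_mod_cast h2tS
  have hS2 : S ≤ 2 ^ (4 * t) := by rw [hS]; exact_mod_cast hS4
  have hSge1 : (1 : ℝ) ≤ S := le_trans (one_le_pow₀ (by norm_num)) hS1
  have hJ : Fintype.card (Fin M) = M := Fintype.card_fin M
  have hNLle : NL (Fin M) (19 * u) ≤ 2 * S ^ 19 := by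
    have h1 := NL_le (Fin M) (by rw [hJ]; exact hM2) (19 * u)
    rw [hJ] at h1
    refine h1.trans (le_of_eq ?_)
    rw [hS, ← pow_mul, mul_comm u 19]
  have hNLpos : 1 ≤ NL (Fin M) (19 * u) := by
    unfold NL
    have : 0 < (univ.filter (fun E : Finset (Fin M) => E.card ≤ 19 * u)).card :=
      card_pos.mpr ⟨∅, by simp⟩
    exact_mod_cast this
  -- the main inequality
  set κ : ℝ := (48 * h / (n / k : ℕ) : ℝ) ^ k with hκ
  have hκ0 : 0 ≤ κ := by positivity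
  have hκM : κ * (64 * (M : ℝ) ^ (12 + 8 * D)) ≤ 1 := by
    have h1 : (48 * h / (n / k : ℕ) : ℝ) ≤ 2 * 10 ^ 4 * t / n := by
      rw [div_le_div_iff₀ hmR hnR]
      exact_mod_cast hmn
    have h2 : κ ≤ (2 * 10 ^ 4 * t / n : ℝ) ^ k := pow_le_pow_left₀ (by positivity) h1 k
    have h3 : (2 * 10 ^ 4 * t / n : ℝ) ^ k * (64 * (M : ℝ) ^ (12 + 8 * D)) ≤ 1 := by
      rw [div_pow, div_mul_eq_mul_div, div_le_one (by positivity)]
      have h4 : (64 * (M : ℝ) ^ (12 + 8 * D)) * (2 * 10 ^ 4 * t : ℝ) ^ k ≤ (n : ℝ) ^ k := by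
        exact_mod_cast hmain
      linarith
    exact (mul_le_mul_of_nonneg_right h2 (by positivity)).trans h3
  -- beta
  set bet : ℝ := Real.sqrt κ with hbet
  have hbet0 : 0 ≤ bet := Real.sqrt_nonneg _
  have hbet2 : bet ^ 2 = κ := Real.sq_sqrt hκ0
  have hbetM : bet * (8 * (M : ℝ) ^ (6 + 4 * D)) ≤ 1 := by
    have h1 : (bet * (8 * (M : ℝ) ^ (6 + 4 * D))) ^ 2 ≤ 1 ^ 2 := by
      have h2 : (bet * (8 * (M : ℝ) ^ (6 + 4 * D))) ^ 2
          = bet ^ 2 * (64 * (M : ℝ) ^ (12 + 8 * D)) := by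
        rw [mul_pow, mul_pow, ← pow_mul, show (6 + 4 * D) * 2 = 12 + 8 * D by ring]; norm_num
      rw [h2, hbet2, one_pow]
      exact hκM
    exact (pow_le_pow_iff_left₀ (by positivity) zero_le_one (by norm_num)).mp h1
  set W0 : ℝ := 8 * (M : ℝ) ^ 3 * bet with hW0
  have hW00 : 0 ≤ W0 := by positivity
  have hW0M : W0 * (M : ℝ) ^ (3 + 4 * D) ≤ 1 := by
    have : W0 * (M : ℝ) ^ (3 + 4 * D) = bet * (8 * (M : ℝ) ^ (6 + 4 * D)) := by
      rw [hW0, show 6 + 4 * D = 3 + (3 + 4 * D) by ring, pow_add (M : ℝ) 3]; ring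
    rw [this]; exact hbetM
  have hM3 : (1 : ℝ) ≤ (M : ℝ) ^ (3 + 4 * D) := one_le_pow₀ (by linarith)
  have hW01 : W0 ≤ 1 := le_trans (le_mul_of_one_le_right hW00 hM3) hW0M
  -- rho
  set ρ : ℝ := Real.sqrt (Real.sqrt ((6 * (19 * u : ℕ) / (n / k : ℕ) : ℝ) ^ k)) with hρ
  have hρ0 : 0 ≤ ρ := Real.sqrt_nonneg _
  have hρ4 : ρ ^ 4 = (6 * (19 * u : ℕ) / (n / k : ℕ) : ℝ) ^ k := by
    have h1 : ρ ^ 2 = Real.sqrt ((6 * (19 * u : ℕ) / (n / k : ℕ) : ℝ) ^ k) :=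
      Real.sq_sqrt (Real.sqrt_nonneg _)
    have h2 : ρ ^ 4 = (ρ ^ 2) ^ 2 := by ring
    rw [h2, h1]
    exact Real.sq_sqrt (by positivity)
  have hρκ : ρ ^ 4 ≤ κ := by
    rw [hρ4]
    refine pow_le_pow_left₀ (by positivity) (div_le_div_of_nonneg_right ?_ hmR.le) k
    have : 6 * (19 * u) ≤ 48 * h := by omega
    exact_mod_cast this
  have hρM : 2 * (M : ℝ) * ρ * (M : ℝ) ^ (2 + 2 * D) ≤ 1 := by
    have h1 : (2 * (M : ℝ) * ρ * (M : ℝ) ^ (2 + 2 * D)) ^ 4 ≤ 1 ^ 4 := by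
      have h2 : (2 * (M : ℝ) * ρ * (M : ℝ) ^ (2 + 2 * D)) ^ 4
          = ρ ^ 4 * (16 * (M : ℝ) ^ (12 + 8 * D)) := by
        rw [mul_pow, mul_pow, mul_pow, ← pow_mul, show (2 + 2 * D) * 4 = 8 + 8 * D by ring,
          show 12 + 8 * D = 4 + (8 + 8 * D) by ring, pow_add (M : ℝ) 4]
        ring
      rw [h2, one_pow]
      have h3 : (0 : ℝ) ≤ 16 * (M : ℝ) ^ (12 + 8 * D) := by positivity
      have h4 : ρ ^ 4 * (16 * (M : ℝ) ^ (12 + 8 * D)) ≤ κ * (16 * (M : ℝ) ^ (12 + 8 * D)) :=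
        mul_le_mul_of_nonneg_right hρκ h3
      have h5 : κ * (16 * (M : ℝ) ^ (12 + 8 * D)) ≤ κ * (64 * (M : ℝ) ^ (12 + 8 * D)) :=
        mul_le_mul_of_nonneg_left (by nlinarith [pow_pos hMpos (12 + 8 * D)]) hκ0
      linarith
    exact (pow_le_pow_iff_left₀ (by positivity) zero_le_one (by norm_num)).mp h1
  have hM2' : (1 : ℝ) ≤ (M : ℝ) ^ (2 + 2 * D) := one_le_pow₀ (by linarith)
  have hρ1 : 2 * (M : ℝ) * ρ ≤ 1 :=
    le_trans (le_mul_of_one_le_right (by positivity) hM2') hρM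
  -- tau, delta, theta
  set τ : ℝ := 1 / 2 ^ (3 * t + 5) with hτ
  have hτ0 : 0 < τ := by positivity
  have h2pow : (2 : ℝ) ^ (3 * t + 5) = 32 * (2 ^ t) ^ 3 := by
    rw [pow_add, mul_comm 3 t, pow_mul]; norm_num; ring
  set δ : ℝ := τ / (2 * NL (Fin M) (19 * u)) with hδ
  have hδ0 : 0 < δ := by positivity
  have hδN : δ * NL (Fin M) (19 * u) = τ / 2 := by rw [hδ]; field_simp
  set θ : ℝ := 1 / (2 * M) with hθ
  have hθ0 : 0 < θ := by positivity
  have hθM : θ * Fintype.card (Fin M) ≤ 1 / 2 := by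
    rw [hJ, hθ]; field_simp; exact le_refl _
  have hS3 : ((2 : ℝ) ^ t) ^ 3 ≤ S ^ 3 := pow_le_pow_left₀ (by positivity) hS1 3
  have hGδ : (2 : ℝ) ^ (7 * u) ≤ δ * 2 ^ (k * h) := by
    have h1 : (2 : ℝ) ^ (7 * u + 7) * (M : ℝ) ^ (22 * u) ≤ 2 ^ (k * h) := by exact_mod_cast hG
    have h2 : (M : ℝ) ^ (22 * u) = S ^ 22 := by rw [hS, ← pow_mul, mul_comm u 22]
    rw [h2] at h1
    rw [hδ, div_mul_eq_mul_div, le_div_iff₀ (by positivity)]
    rw [hτ, one_div_mul_eq_div, le_div_iff₀ (by positivity), h2pow]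
    calc (2 : ℝ) ^ (7 * u) * (2 * NL (Fin M) (19 * u)) * (32 * (2 ^ t) ^ 3)
        ≤ 2 ^ (7 * u) * (2 * (2 * S ^ 19)) * (32 * S ^ 3) := by gcongr
      _ = 2 ^ (7 * u + 7) * S ^ 22 := by rw [pow_add]; norm_num; ring
      _ ≤ 2 ^ (k * h) := h1
  refine ⟨hS1, hNLle, ?_, ?_⟩
  · -- the probability that the density is negative on a fixed function
    intro v hv0 hv1
    have h1 := Z_prob (X := Fin k → Fin (n / k) → Bool) (J := Fin M)
      (A := (Fin k → Fin (n / k)) × Bool) (y := yx) (abs_yx)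
      (δ := δ) (θ := θ) (q := bet / θ ^ 2) (W0 := W0) (a := θ) (ρ := ρ) (τ := τ / 2)
      (L1 := 12 * u) (f := 7 * u) (L := 19 * u) (by omega) hδ0.le hθ0.le hθM hW00 hW01 hθ0.le
      hθM (by rw [hW0, hθ]; field_simp; ring)
      (fun g E hg0 hg1 hE hEL => viol_prob hmpos (fun x' N hN => KK_yx_moment x' N hN) hbet0
        (by rw [hbet2]) hδ0 hθ0 hGδ hg0 hg1 hE (by omega))
      hv0 hv1 hρ0
      (fun E hE => co_avg hmpos (fun x' N hN => KK_yx_moment x' N hN) hρ0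
        (by rw [hρ4]) hv0 hv1 hE)
      (by rw [hJ]; exact hρ1) (by linarith)
    rw [hδN, hJ] at h1
    have h2 : - (τ / 2) - τ / 2 = - τ := by ring
    rw [h2] at h1
    refine h1.trans ?_
    have hSpow : ∀ i : ℕ, S ^ i * (M : ℝ) ^ 2 ≠ 0 := fun i => by positivity
    have h3 : W0 ^ (7 * u + 1) ≤ 1 / (S ^ (21 + 23 * D) * (M : ℝ) ^ 2) := by
      rw [le_div_iff₀ (by positivity)]
      have h4 : S ^ (21 + 23 * D) * (M : ℝ) ^ 2 ≤ ((M : ℝ) ^ (3 + 4 * D)) ^ (7 * u + 1) := by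
        rw [hS, ← pow_mul, ← pow_mul, ← pow_add]
        refine pow_le_pow_right₀ (by linarith) ?_
        nlinarith
      calc W0 ^ (7 * u + 1) * (S ^ (21 + 23 * D) * (M : ℝ) ^ 2)
          ≤ W0 ^ (7 * u + 1) * ((M : ℝ) ^ (3 + 4 * D)) ^ (7 * u + 1) :=
            mul_le_mul_of_nonneg_left h4 (by positivity)
        _ = (W0 * (M : ℝ) ^ (3 + 4 * D)) ^ (7 * u + 1) := (mul_pow _ _ _).symm
        _ ≤ 1 := pow_le_one₀ (by positivity) hW0M
    have h5 : (2 * (M : ℝ) * ρ) ^ (12 * u + 1) / (τ / 2)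
        ≤ 64 / (S ^ (21 + 23 * D) * (M : ℝ) ^ 2) := by
      have h6 : (2 * (M : ℝ) * ρ) ^ (12 * u + 1) ≤ 1 / (S ^ (24 + 24 * D) * (M : ℝ) ^ 2) := by
        rw [le_div_iff₀ (by positivity)]
        have h4 : S ^ (24 + 24 * D) * (M : ℝ) ^ 2 ≤ ((M : ℝ) ^ (2 + 2 * D)) ^ (12 * u + 1) := by
          rw [hS, ← pow_mul, ← pow_mul, ← pow_add]
          refine pow_le_pow_right₀ (by linarith) ?_
          nlinarith
        calc (2 * (M : ℝ) * ρ) ^ (12 * u + 1) * (S ^ (24 + 24 * D) * (M : ℝ) ^ 2)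
            ≤ (2 * (M : ℝ) * ρ) ^ (12 * u + 1) * ((M : ℝ) ^ (2 + 2 * D)) ^ (12 * u + 1) :=
              mul_le_mul_of_nonneg_left h4 (by positivity)
          _ = (2 * (M : ℝ) * ρ * (M : ℝ) ^ (2 + 2 * D)) ^ (12 * u + 1) := (mul_pow _ _ _).symm
          _ ≤ 1 := pow_le_one₀ (by positivity) hρM
      have h7 : 1 / (τ / 2) ≤ 64 * S ^ 3 := by
        have h8 : 1 / (τ / 2) = 64 * (2 ^ t) ^ 3 := by
          rw [hτ, h2pow]; field_simp; norm_num
        rw [h8]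
        linarith
      calc (2 * (M : ℝ) * ρ) ^ (12 * u + 1) / (τ / 2)
          = (2 * (M : ℝ) * ρ) ^ (12 * u + 1) * (1 / (τ / 2)) := by ring
        _ ≤ 1 / (S ^ (24 + 24 * D) * (M : ℝ) ^ 2) * (64 * S ^ 3) :=
            mul_le_mul h6 h7 (by positivity) (by positivity)
        _ = 64 / (S ^ (21 + 24 * D) * (M : ℝ) ^ 2) := by
            rw [show 24 + 24 * D = (21 + 24 * D) + 3 by ring, pow_add S (21 + 24 * D) 3]
            field_simp
        _ ≤ 64 / (S ^ (21 + 23 * D) * (M : ℝ) ^ 2) := by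
            refine div_le_div_of_nonneg_left (by norm_num) (by positivity) ?_
            refine mul_le_mul_of_nonneg_right ?_ (by positivity)
            exact pow_le_pow_right₀ hSge1 (by omega)
    calc W0 ^ (7 * u + 1) + (2 * (M : ℝ) * ρ) ^ (12 * u + 1) / (τ / 2)
        ≤ 1 / (S ^ (21 + 23 * D) * (M : ℝ) ^ 2) + 64 / (S ^ (21 + 23 * D) * (M : ℝ) ^ 2) :=
          add_le_add h3 h5
      _ = 65 / (S ^ (21 + 23 * D) * (M : ℝ) ^ 2) := by ring
  · -- the probability of a large value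
    have hcher := chernoff_union (X := Fin k → Fin (n / k) → Bool) (J := Fin M)
      (A := (Fin k → Fin (n / k)) × Bool) (y := yx) yx_cases av_yx hη0
    have hcardX : (Fintype.card (Fin k → Fin (n / k) → Bool) : ℝ) ≤ 2 ^ n := by
      rw [Fintype.card_fun, Fintype.card_fun, Fintype.card_fin, Fintype.card_fin,
        Fintype.card_bool, ← pow_mul]
      have : (n / k) * k ≤ n := Nat.div_mul_le_self n k
      exact_mod_cast Nat.pow_le_pow_right (by norm_num) this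
    refine hcher.trans ?_
    rw [hJ]
    have h1 : Real.exp (-(2 * η ^ 2 * M)) ≤ Real.exp (-n) := Real.exp_le_exp.mpr (by linarith)
    have h2 : (Fintype.card (Fin k → Fin (n / k) → Bool) : ℝ) * Real.exp (-(2 * η ^ 2 * M))
        ≤ 2 ^ n * Real.exp (-n) :=
      mul_le_mul hcardX h1 (Real.exp_pos _).le (by positivity)
    refine h2.trans ?_
    rw [le_div_iff₀ (by positivity)]
    have h3 : (2 : ℝ) ^ n * Real.exp (-n) = (2 / Real.exp 1) ^ n := by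
      rw [div_pow, ← Real.exp_nat_mul, mul_one, Real.exp_neg]; ring
    have h4 : (2 / Real.exp 1) ^ 3 ≤ 1 / 2 := by
      have h5 := Real.exp_one_gt_d9
      rw [div_pow, div_le_div_iff₀ (by positivity) (by norm_num)]
      have h6 : (2.7182818283 : ℝ) ^ 3 ≤ Real.exp 1 ^ 3 :=
        pow_le_pow_left₀ (by norm_num) h5.le 3
      norm_num at h6 ⊢
      linarith
    have h7 : (2 / Real.exp 1 : ℝ) ≤ 1 := by
      rw [div_le_one (Real.exp_pos _)]
      have h5 := Real.exp_one_gt_d9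
      linarith
    have h8 : (2 / Real.exp 1) ^ n ≤ 1 / 2 ^ (80 * t + 6) := by
      calc (2 / Real.exp 1) ^ n ≤ (2 / Real.exp 1) ^ (3 * (80 * t + 6)) :=
            pow_le_pow_of_le_one (by positivity) h7 (by omega)
        _ = ((2 / Real.exp 1) ^ 3) ^ (80 * t + 6) := by rw [pow_mul]
        _ ≤ (1 / 2) ^ (80 * t + 6) := pow_le_pow_left₀ (by positivity) h4 _
        _ = 1 / 2 ^ (80 * t + 6) := by rw [div_pow, one_pow]
    have h9 : S ^ 20 ≤ 2 ^ (80 * t) := by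
      calc S ^ 20 ≤ (2 ^ (4 * t)) ^ 20 := pow_le_pow_left₀ hSpos.le hS2 20
        _ = 2 ^ (80 * t) := by rw [← pow_mul]; congr 1; ring
    rw [h3]
    calc (2 / Real.exp 1) ^ n * (64 * S ^ 20)
        ≤ 1 / 2 ^ (80 * t + 6) * (64 * 2 ^ (80 * t)) := by
          refine mul_le_mul h8 ?_ (by positivity) (by positivity)
          linarith
      _ = 1 := by rw [pow_add]; field_simp; norm_num

end density

end Pool.Agent.TH661.LPX
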