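import Pool.Agent.TH661.LPX.Sel
import Pool.Agent.TH661.LPX.Num

/-!
The choice of the parameters.
-/

set_option autoImplicit false

namespace Pool.Agent.TH661.LPX

open Finset

/-- The number `u`. -/
theorem numbersU {k M t : ℕ} (hk : 1 ≤ k) (hkM : 2 ^ k ≤ M) (hMt : M ≤ 2 ^ t) :
    ∃ u : ℕ, 1 ≤ u ∧ 2 ^ t ≤ M ^ u ∧ M ^ u ≤ 2 ^ (4 * t) ∧ k * u ≤ 2 * t := by
  have hM2 : 2 ≤ M := le_trans (by
    calc 2 = 2 ^ 1 := by norm_num
      _ ≤ 2 ^ k := Nat.pow_le_pow_right (by norm_num) hk) hkM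
  have ht1 : 1 ≤ t := by
    rcases Nat.eq_zero_or_pos t with h | h
    · subst h; omega
    · exact h
  set B := Nat.log 2 M with hB
  have hB1 : 2 ^ B ≤ M := Nat.pow_log_le_self 2 (by omega)
  have hB2 : M < 2 ^ (B + 1) := Nat.lt_pow_succ_log_self (by norm_num) M
  have hkB : k ≤ B := Nat.le_log_of_pow_le (by norm_num) hkM
  have hBt : B ≤ t := by
    by_contra hcon
    push Not at hcon
    have h1 : 2 ^ t < 2 ^ B := Nat.pow_lt_pow_right (by norm_num) hcon
    omega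
  have hBpos : 0 < B := by omega
  set s := (t + B - 1) / B with hs
  have hs1 : t ≤ s * B := by
    have h1 := Nat.div_add_mod (t + B - 1) B
    have h2 := Nat.mod_lt (t + B - 1) hBpos
    have h3 : (t + B - 1) / B * B = B * ((t + B - 1) / B) := mul_comm _ _
    rw [hs]
    omega
  have hs2 : s * B ≤ 2 * t := by
    have h1 := Nat.div_mul_le_self (t + B - 1) B
    rw [hs]
    omega
  have hspos : 1 ≤ s := by
    rcases Nat.eq_zero_or_pos s with h | h
    · rw [h] at hs1; omega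
    · exact h
  have hsB : s ≤ s * B := Nat.le_mul_of_pos_right _ hBpos
  refine ⟨s, hspos, ?_, ?_, ?_⟩
  · calc 2 ^ t ≤ 2 ^ (B * s) := Nat.pow_le_pow_right (by norm_num) (by rw [mul_comm]; exact hs1)
      _ = (2 ^ B) ^ s := by rw [pow_mul]
      _ ≤ M ^ s := Nat.pow_le_pow_left hB1 s
  · calc M ^ s ≤ (2 ^ (B + 1)) ^ s := Nat.pow_le_pow_left hB2.le s
      _ = 2 ^ ((B + 1) * s) := by rw [pow_mul]
      _ ≤ 2 ^ (4 * t) := by
          refine Nat.pow_le_pow_right (by norm_num) ?_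
          have : (B + 1) * s = s * B + s := by ring
          omega
  · have h2 : k * s ≤ s * B := by rw [mul_comm]; exact Nat.mul_le_mul_left _ hkB
    omega

/-- Chernoff's bound in the range of the parameters. -/
theorem chernoff_num {n E : ℕ} (h : 3 * (E + 6) ≤ n) :
    (2 : ℝ) ^ n * Real.exp (-n) ≤ 1 / 2 ^ (E + 6) := by
  have h3 : (2 : ℝ) ^ n * Real.exp (-n) = (2 / Real.exp 1) ^ n := by
    rw [div_pow, ← Real.exp_nat_mul, mul_one, Real.exp_neg]; ring
  have h4 : (2 / Real.exp 1) ^ 3 ≤ 1 / 2 := by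
    have h5 := Real.exp_one_gt_d9
    rw [div_pow, div_le_div_iff₀ (by positivity) (by norm_num)]
    have h6 : (2.7182818283 : ℝ) ^ 3 ≤ Real.exp 1 ^ 3 :=
      pow_le_pow_left₀ (by norm_num) h5.le 3
    norm_num at h6 ⊢
    linarith
  have h7 : (2 / Real.exp 1 : ℝ) ≤ 1 := by
    rw [div_le_one (Real.exp_pos _)]
    have h5 := Real.exp_one_gt_d9
    linarith
  rw [h3]
  calc (2 / Real.exp 1) ^ n ≤ (2 / Real.exp 1) ^ (3 * (E + 6)) :=
        pow_le_pow_of_le_one (by positivity) h7 h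
    _ = ((2 / Real.exp 1) ^ 3) ^ (E + 6) := by rw [pow_mul]
    _ ≤ (1 / 2) ^ (E + 6) := pow_le_pow_left₀ (by positivity) h4 _
    _ = 1 / 2 ^ (E + 6) := by rw [div_pow, one_pow]

section density

variable {k n M t K : ℕ}

/-- For finitely many families there is a hypergraph such that for random signs the truncated
density is almost nonnegative on the families, except with small probability. -/
theorem densityS {D : ℕ} {η : ℝ} (hk : 2 ≤ k) (hK : 1 ≤ K) (hkM : 2 ^ k ≤ M) (hMt : M ≤ 2 ^ t)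
    (hη0 : 0 ≤ η) (hη1 : η ≤ 1 / 2) (hnM : (n : ℝ) ≤ 2 * η ^ 2 * M)
    (hmain : ((2 * 10 ^ 4 * K ^ 2 * t) ^ (k + 1) * M ^ 2 * (D + 1) ^ 4) ^ K * M ^ 2
      ≤ n ^ (k * K)) (hn1 : 1 ≤ n) :
    1 ≤ n / k ∧ 1 ≤ t ∧ (20000 : ℝ) ≤ M ∧ ∃ u : ℕ, 1 ≤ u ∧ (2 : ℝ) ^ t ≤ (M : ℝ) ^ u ∧
      NL (Fin M) (19 * K * u) ≤ 2 * ((M : ℝ) ^ u) ^ (19 * K) ∧
      (∀ {V : Type} [Fintype V] (W : V → Submodule ℝ ((Fin k → Fin (n / k) → Bool) → ℝ)),
        (∀ o, Module.finrank ℝ (W o) ≤ D + 1) →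
        Fintype.card V * (D + 2) ≤ 4 * 2 ^ t →
        ∃ H : Fin M → Fin k → Fin (n / k), ∀ o, av (fun σ : Fin M → Bool =>
          ind (∃ v ∈ box (W o),
            av (fun x => v x * DL yx (pr H σ) (19 * K * u) x) < - (1 / 2 ^ (3 * t + 3)))) ≤
          4 * (D + 1) / ((M : ℝ) ^ u) ^ (26 * K)) ∧
      Fintype.card (Fin k → Fin (n / k) → Bool) *
        Real.exp (-(2 * η ^ 2 * Fintype.card (Fin M))) ≤
        1 / (64 * ((M : ℝ) ^ u) ^ (19 * K + 1)) := by
  obtain ⟨u, hu1, h2tS, hS4, hku⟩ := numbersU (by omega : 1 ≤ k) hkM hMt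
  have hM2 : 2 ≤ M := le_trans (by
    calc 2 = 2 ^ 1 := by norm_num
      _ ≤ 2 ^ k := Nat.pow_le_pow_right (by norm_num) (by omega)) hkM
  have ht1 : 1 ≤ t := by
    rcases Nat.eq_zero_or_pos t with h | h
    · subst h; omega
    · exact h
  have hKt : 1 ≤ K * t := Nat.mul_pos hK ht1
  have hK2t : K * t ≤ K ^ 2 * t := Nat.mul_le_mul_right _ (Nat.le_self_pow (by norm_num) K)
  have hut : u ≤ t := by
    have : 2 * u ≤ k * u := Nat.mul_le_mul_right _ hk
    omega
  -- `n` is large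
  have hnt : 2 * 10 ^ 4 * K ^ 2 * t ≤ n := by
    have h1 : (2 * 10 ^ 4 * K ^ 2 * t) ^ (k * K) ≤ n ^ (k * K) := by
      refine le_trans ?_ hmain
      have hbase : 1 ≤ 2 * 10 ^ 4 * K ^ 2 * t := by
        have : 1 ≤ K ^ 2 * t := hKt.trans hK2t
        calc 1 ≤ 2 * 10 ^ 4 * (K ^ 2 * t) := by omega
          _ = 2 * 10 ^ 4 * K ^ 2 * t := by ring
      have hMpos : 0 < M ^ 2 := by positivity
      have hDpos : 0 < (D + 1) ^ 4 := by positivity
      calc (2 * 10 ^ 4 * K ^ 2 * t) ^ (k * K) = ((2 * 10 ^ 4 * K ^ 2 * t) ^ k) ^ K := by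
            rw [pow_mul]
        _ ≤ ((2 * 10 ^ 4 * K ^ 2 * t) ^ (k + 1) * M ^ 2 * (D + 1) ^ 4) ^ K := by
            refine Nat.pow_le_pow_left ?_ K
            calc (2 * 10 ^ 4 * K ^ 2 * t) ^ k ≤ (2 * 10 ^ 4 * K ^ 2 * t) ^ (k + 1) :=
                  Nat.pow_le_pow_right hbase (by omega)
              _ ≤ (2 * 10 ^ 4 * K ^ 2 * t) ^ (k + 1) * M ^ 2 := Nat.le_mul_of_pos_right _ hMpos
              _ ≤ (2 * 10 ^ 4 * K ^ 2 * t) ^ (k + 1) * M ^ 2 * (D + 1) ^ 4 :=
                  Nat.le_mul_of_pos_right _ hDpos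
        _ ≤ _ := Nat.le_mul_of_pos_right _ hMpos
    have hkK : k * K ≠ 0 := by
      have : 0 < k * K := Nat.mul_pos (by omega) hK
      omega
    exact (Nat.pow_le_pow_iff_left hkK).mp h1
  have hbig : 2 * 10 ^ 4 * (K ^ 2 * t) ≤ n := by rw [← mul_assoc]; exact hnt
  have hkt : k ≤ 2 * t := le_trans (Nat.le_mul_of_pos_right _ hu1) hku
  have hkn : 2 * k ≤ n := by
    have : 1 ≤ K ^ 2 * t := hKt.trans hK2t
    have h2 : t ≤ K ^ 2 * t := Nat.le_mul_of_pos_left _ (by positivity)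
    omega
  have hm1 : 1 ≤ n / k := by
    refine (Nat.one_le_div_iff (by omega)).mpr ?_
    omega
  set m := n / k with hmdef
  have hmpos : 0 < m := by omega
  have : NeZero m := ⟨by omega⟩
  have hmn : n ≤ 2 * (k * m) := by
    have h2 := Nat.div_add_mod n k
    have h3 := Nat.mod_lt n (by omega : 0 < k)
    rw [← hmdef] at h2
    omega
  have : Nonempty (Fin M) := ⟨⟨0, by omega⟩⟩
  have hMR : (2 : ℝ) ≤ M := by exact_mod_cast hM2
  have hMpos : (0 : ℝ) < M := by linarith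
  have hmR : (0 : ℝ) < (m : ℝ) := by exact_mod_cast hmpos
  have hkR : (0 : ℝ) < k := by exact_mod_cast (by omega : 0 < k)
  have hnR : (0 : ℝ) < n := by exact_mod_cast hn1
  have htR : (1 : ℝ) ≤ t := by exact_mod_cast ht1
  have hKR : (1 : ℝ) ≤ K := by exact_mod_cast hK
  have huR : (1 : ℝ) ≤ u := by exact_mod_cast hu1
  have hutR : (u : ℝ) ≤ t := by exact_mod_cast hut
  have hkuR : (k : ℝ) * u ≤ 2 * t := by exact_mod_cast hku
  have hmnR : (n : ℝ) ≤ 2 * (k * m) := by exact_mod_cast hmn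
  have hMbig : (20000 : ℝ) ≤ M := by
    have h1 : η ^ 2 ≤ 1 / 4 := by nlinarith
    have h2 : (n : ℝ) ≤ 2 * (1 / 4) * M :=
      hnM.trans (mul_le_mul_of_nonneg_right (by linarith) hMpos.le)
    have h3 : (2 * 10 ^ 4 : ℝ) ≤ n := by
      have h4 : 2 * 10 ^ 4 ≤ n := by
        have : 1 ≤ K ^ 2 * t := hKt.trans hK2t
        omega
      exact_mod_cast h4
    linarith
  refine ⟨hm1, ht1, hMbig, u, hu1, ?_⟩
  -- the quantity `S = M ^ u`
  set S : ℝ := (M : ℝ) ^ u with hS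
  have hSpos : 0 < S := by positivity
  have hS1 : (2 : ℝ) ^ t ≤ S := by rw [hS]; exact_mod_cast h2tS
  have hS2 : S ≤ 2 ^ (4 * t) := by rw [hS]; exact_mod_cast hS4
  have hSge1 : (1 : ℝ) ≤ S := le_trans (one_le_pow₀ (by norm_num)) hS1
  have hJ : Fintype.card (Fin M) = M := Fintype.card_fin M
  have hNLle : ∀ c : ℕ, NL (Fin M) (c * K * u) ≤ 2 * S ^ (c * K) := by
    intro c
    have h1 := NL_le (Fin M) (by rw [hJ]; exact hM2) (c * K * u)
    rw [hJ] at h1
    refine h1.trans (le_of_eq ?_)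
    rw [hS, ← pow_mul, mul_comm u (c * K)]
  have hNLpos : 1 ≤ NL (Fin M) (19 * K * u) := by
    unfold NL
    have : 0 < (univ.filter (fun E : Finset (Fin M) => E.card ≤ 19 * K * u)).card :=
      card_pos.mpr ⟨∅, by simp⟩
    exact_mod_cast this
  -- the root `q`
  set q : ℝ := (1 / (M : ℝ)) ^ (1 / (K : ℝ)) with hq
  have hq0 : 0 < q := by positivity
  have hqK : q ^ K = 1 / M := by
    rw [hq, one_div (K : ℝ)]
    exact Real.rpow_inv_natCast_pow (by positivity) (by omega)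
  have hq1 : q ≤ 1 := by
    rw [hq]
    refine Real.rpow_le_one (by positivity) ?_ (by positivity)
    rw [div_le_one hMpos]; linarith
  have hqKu : ∀ c : ℕ, q ^ (c * K * u) = 1 / S ^ c := by
    intro c
    rw [show c * K * u = K * (u * c) by ring, pow_mul, hqK, div_pow, one_pow, hS, ← pow_mul]
  -- the main inequality
  have hstar : (2 * 10 ^ 4 * K ^ 2 * t : ℝ) ^ (k + 1) * M ^ 2 * (D + 1) ^ 4
      ≤ q ^ 2 * (n : ℝ) ^ k := by
    have h1 : ((2 * 10 ^ 4 * K ^ 2 * t : ℝ) ^ (k + 1) * M ^ 2 * (D + 1) ^ 4) ^ K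
        ≤ (q ^ 2 * (n : ℝ) ^ k) ^ K := by
      have h2 : (((2 * 10 ^ 4 * K ^ 2 * t : ℝ) ^ (k + 1) * M ^ 2 * (D + 1) ^ 4) ^ K) * M ^ 2
          ≤ (n : ℝ) ^ (k * K) := by exact_mod_cast hmain
      have h3 : (q ^ 2 * (n : ℝ) ^ k) ^ K = (n : ℝ) ^ (k * K) / M ^ 2 := by
        rw [mul_pow, ← pow_mul, mul_comm 2 K, pow_mul, hqK, ← pow_mul]
        field_simp
      rw [h3, le_div_iff₀ (by positivity)]
      exact h2
    exact (pow_le_pow_iff_left₀ (by positivity) (by positivity) (by omega)).mp h1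
  have hD1 : (1 : ℝ) ≤ D + 1 := by
    have h0 : (0 : ℝ) ≤ D := Nat.cast_nonneg _
    linarith only [h0]
  have hDpos : (0 : ℝ) < D + 1 := by linarith only [hD1]
  -- the parameters
  set N : ℕ := 32 * K ^ 2 * u with hN
  have hN1 : 1 ≤ N := by
    have : 0 < K ^ 2 * u := Nat.mul_pos (by positivity) hu1
    rw [hN, mul_assoc]; omega
  have hNR : (0 : ℝ) < N := by exact_mod_cast hN1
  have hNle : (N : ℝ) ≤ 64 * K ^ 2 * t := by
    rw [hN]; push_cast
    have h1 := mul_le_mul_of_nonneg_left hutR (by positivity : (0 : ℝ) ≤ 32 * K ^ 2)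
    have h2 : (0 : ℝ) ≤ 32 * K ^ 2 * t := by positivity
    linarith only [h1, h2]
  have hkN : (k : ℝ) * N ≤ 64 * K ^ 2 * t := by
    rw [hN]; push_cast
    calc (k : ℝ) * (32 * (K : ℝ) ^ 2 * u) = 32 * (K : ℝ) ^ 2 * (k * u) := by ring
      _ ≤ 32 * (K : ℝ) ^ 2 * (2 * t) := mul_le_mul_of_nonneg_left hkuR (by positivity)
      _ = 64 * (K : ℝ) ^ 2 * t := by ring
  set κ : ℝ := q / (8 * (D + 1) ^ 2) with hκ
  have hκ0 : 0 < κ := by positivity
  have hκq : 8 * κ * (D + 1) ^ 2 = q := by rw [hκ]; field_simp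
  have hκle : κ ≤ q / 8 := by
    rw [hκ]
    refine div_le_div_of_nonneg_left hq0.le (by norm_num) ?_
    have h0 : (1 : ℝ) ≤ (D + 1) ^ 2 := one_le_pow₀ hD1
    linarith only [h0]
  have hκ1 : κ ≤ 1 / 2 := by linarith only [hκle, hq1]
  set a : ℝ := (κ / (6 * N * M)) ^ (1 / (k : ℝ)) / 6 with ha
  have ha0 : 0 < a := by positivity
  have hak : (6 * a) ^ k = κ / (6 * N * M) := by
    have h1 : 6 * a = (κ / (6 * N * M)) ^ (1 / (k : ℝ)) := by rw [ha]; ring
    rw [h1, one_div (k : ℝ)]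
    exact Real.rpow_inv_natCast_pow (by positivity) (by omega)
  set L : ℕ := 19 * K * u with hL
  set L1 : ℕ := 16 * K * u with hL1
  set f : ℕ := 3 * K * u with hf
  have hLsum : L = L1 + f := by rw [hL, hL1, hf]; ring
  have hLpos : (0 : ℝ) < L := by
    have : 0 < L := by rw [hL]; positivity
    exact_mod_cast this
  set R : ℝ := Real.sqrt (L / m) with hR
  have hR0 : 0 ≤ R := Real.sqrt_nonneg _
  have hR2 : R ^ 2 = L / m := Real.sq_sqrt (by positivity)
  have hLm : (L : ℝ) / m ≤ 76 * K * t / n := by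
    rw [div_le_div_iff₀ hmR hnR, hL]
    push_cast
    calc (19 * K * u : ℝ) * n ≤ (19 * K * u) * (2 * (k * m)) :=
          mul_le_mul_of_nonneg_left hmnR (by positivity)
      _ = 38 * K * (k * u) * m := by ring
      _ ≤ 38 * K * (2 * t) * m := by gcongr
      _ = 76 * K * t * m := by ring
  set t' : ℕ := 100 * K * t with ht'
  set B : ℝ := max R (t' / (a * (k * m))) with hB
  have hB0 : 0 ≤ B := hR0.trans (le_max_left _ _)
  -- the constants
  set C : ℝ := 2 * 10 ^ 4 * K ^ 2 * t with hC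
  have hKKt : (1 : ℝ) ≤ K ^ 2 * t :=
    one_le_mul_of_one_le_of_one_le (one_le_pow₀ hKR) htR
  have hKt2 : (K : ℝ) * t ≤ K ^ 2 * t :=
    mul_le_mul_of_nonneg_right (le_self_pow₀ hKR (by norm_num)) (Nat.cast_nonneg _)
  have hC0 : 0 < C := by rw [hC]; positivity
  have hC1 : (20000 : ℝ) ≤ C := by rw [hC]; linarith only [hKKt]
  -- first inequality
  have hi1 : 4 * (M : ℝ) * ((D + 1) ^ 2 * (8 * R) ^ k) ≤ q := by
    have h1 : (4 * (M : ℝ) * ((D + 1) ^ 2 * (8 * R) ^ k)) ^ 2 ≤ q ^ 2 := by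
      have h2 : (4 * (M : ℝ) * ((D + 1) ^ 2 * (8 * R) ^ k)) ^ 2
          = 16 * M ^ 2 * (D + 1) ^ 4 * (64 * R ^ 2) ^ k := by
        rw [mul_pow 8 R, mul_pow 64 (R ^ 2), ← pow_mul R 2 k, show (64 : ℝ) = 8 ^ 2 by norm_num,
          ← pow_mul 8 2 k]
        ring
      rw [h2, hR2]
      have h3 : (64 * ((L : ℝ) / m)) ^ k ≤ C ^ k / n ^ k := by
        rw [← div_pow]
        refine pow_le_pow_left₀ (by positivity) ?_ k
        calc 64 * ((L : ℝ) / m) ≤ 64 * (76 * K * t / n) := by gcongr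
          _ = (4864 * (K * t)) / n := by ring
          _ ≤ C / n := by
              refine div_le_div_of_nonneg_right ?_ hnR.le
              rw [hC]; linarith only [hKt2, hKKt]
      have h4 : 16 * (M : ℝ) ^ 2 * (D + 1) ^ 4 * (64 * ((L : ℝ) / m)) ^ k
          ≤ 16 * (M : ℝ) ^ 2 * (D + 1) ^ 4 * (C ^ k / n ^ k) :=
        mul_le_mul_of_nonneg_left h3 (by positivity)
      refine h4.trans ?_
      rw [mul_div_assoc', div_le_iff₀ (by positivity)]
      refine le_trans ?_ hstar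
      calc 16 * (M : ℝ) ^ 2 * (D + 1) ^ 4 * C ^ k = 16 * (C ^ k * M ^ 2 * (D + 1) ^ 4) := by ring
        _ ≤ C * (C ^ k * M ^ 2 * (D + 1) ^ 4) :=
            mul_le_mul_of_nonneg_right (by linarith only [hC1]) (by positivity)
        _ = C ^ (k + 1) * M ^ 2 * (D + 1) ^ 4 := by rw [pow_succ]; ring
    exact (pow_le_pow_iff_left₀ (by positivity) hq0.le (by norm_num)).mp h1
  -- second inequality
  have hi2 : 4 * (M : ℝ) * ((D + 1) ^ 2 * (8 * (t' / (a * (k * m)))) ^ k) ≤ q := by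
    have h1 : (8 * ((t' : ℝ) / (a * (k * m)))) ^ k
        ≤ (96 * t' / n) ^ k * (6 * N * M / κ) := by
      have h2 : 8 * ((t' : ℝ) / (a * (k * m))) ≤ (96 * t' / n) * (1 / (6 * a)) := by
        have h3 : (96 * (t' : ℝ) / n) * (1 / (6 * a)) = 8 * (t' / (a * (n / 2))) := by
          field_simp; ring
        rw [h3]
        refine mul_le_mul_of_nonneg_left ?_ (by norm_num)
        refine div_le_div_of_nonneg_left (Nat.cast_nonneg _) (by positivity) ?_
        exact mul_le_mul_of_nonneg_left (by linarith only [hmnR]) ha0.le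
      calc (8 * ((t' : ℝ) / (a * (k * m)))) ^ k ≤ ((96 * t' / n) * (1 / (6 * a))) ^ k :=
            pow_le_pow_left₀ (by positivity) h2 k
        _ = (96 * t' / n) ^ k * (6 * N * M / κ) := by
            rw [mul_pow, div_pow 1, one_pow, hak, one_div_div]
    have h3 : 4 * (M : ℝ) * ((D + 1) ^ 2 * (8 * ((t' : ℝ) / (a * (k * m)))) ^ k)
        ≤ 4 * (M : ℝ) * ((D + 1) ^ 2 * ((96 * t' / n) ^ k * (6 * N * M / κ))) := by gcongr
    refine h3.trans ?_
    have h4 : 4 * (M : ℝ) * ((D + 1) ^ 2 * ((96 * t' / n) ^ k * (6 * N * M / κ)))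
        = 192 * N * ((96 * t') ^ k * M ^ 2 * (D + 1) ^ 4) / (q * n ^ k) := by
      rw [hκ, div_pow (96 * (t' : ℝ)) n k]; field_simp; ring
    rw [h4, div_le_iff₀ (by positivity)]
    refine le_trans ?_ (hstar.trans (le_of_eq (by ring)))
    have h5 : (96 * (t' : ℝ)) ^ k ≤ C ^ k := by
      refine pow_le_pow_left₀ (by positivity) ?_ k
      rw [ht', hC]; push_cast
      linarith only [hKt2, hKKt]
    have h6 : 192 * (N : ℝ) ≤ C := by rw [hC]; linarith only [hNle, hKKt]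
    calc 192 * (N : ℝ) * ((96 * t') ^ k * M ^ 2 * (D + 1) ^ 4)
        ≤ C * (C ^ k * M ^ 2 * (D + 1) ^ 4) := by gcongr
      _ = C ^ (k + 1) * M ^ 2 * (D + 1) ^ 4 := by rw [pow_succ]; ring
  have hi12 : 4 * (M : ℝ) * ((D + 1) ^ 2 * (8 * B) ^ k) ≤ q := by
    rcases le_total R (t' / (a * (k * m))) with h | h
    · rw [hB, max_eq_right h]; exact hi2
    · rw [hB, max_eq_left h]; exact hi1
  -- third inequality
  have hi3 : 6 * (N : ℝ) * M * 6 ^ k * R ^ (k - 2) ≤ κ * m := by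
    rw [hκ, div_mul_eq_mul_div, le_div_iff₀ (by positivity)]
    have h1 : (6 * (N : ℝ) * M * 6 ^ k * R ^ (k - 2) * (8 * (D + 1) ^ 2)) ^ 2 ≤ (q * m) ^ 2 := by
      have h2 : (6 * (N : ℝ) * M * 6 ^ k * R ^ (k - 2) * (8 * (D + 1) ^ 2)) ^ 2
          = 2304 * 36 ^ k * N ^ 2 * M ^ 2 * (D + 1) ^ 4 * (R ^ 2) ^ (k - 2) := by
        rw [← pow_mul R 2 (k - 2), show (36 : ℝ) = 6 ^ 2 by norm_num, ← pow_mul 6 2 k]
        ring
      rw [h2, hR2]
      have h3 : ((L : ℝ) / m) ^ (k - 2) ≤ (76 * K * t) ^ (k - 2) / n ^ (k - 2) := by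
        rw [← div_pow]
        exact pow_le_pow_left₀ (by positivity) hLm _
      have h4 : 2304 * (36 : ℝ) ^ k * N ^ 2 * M ^ 2 * (D + 1) ^ 4 * ((L : ℝ) / m) ^ (k - 2)
          ≤ 2304 * (36 : ℝ) ^ k * N ^ 2 * M ^ 2 * (D + 1) ^ 4 *
            ((76 * K * t) ^ (k - 2) / n ^ (k - 2)) :=
        mul_le_mul_of_nonneg_left h3 (by positivity)
      refine h4.trans ?_
      -- multiply with `4 k ^ 2`
      have h5 : (q * n) ^ 2 ≤ (q * m) ^ 2 * (4 * k ^ 2) := by
        calc (q * n) ^ 2 ≤ (q * (2 * (k * m))) ^ 2 := by gcongr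
          _ = _ := by ring
      have h6 : 2304 * (36 : ℝ) ^ k * N ^ 2 * M ^ 2 * (D + 1) ^ 4 *
            ((76 * K * t) ^ (k - 2) / n ^ (k - 2)) * (4 * k ^ 2) ≤ (q * n) ^ 2 := by
        have h7 : 2304 * (36 : ℝ) ^ k * N ^ 2 * M ^ 2 * (D + 1) ^ 4 *
            ((76 * K * t) ^ (k - 2) / n ^ (k - 2)) * (4 * k ^ 2)
            = (9216 * (k * N) ^ 2 * 36 ^ k * (76 * K * t) ^ (k - 2)) * (M ^ 2 * (D + 1) ^ 4)
              / n ^ (k - 2) := by ring
        rw [h7, div_le_iff₀ (by positivity)]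
        have h8 : (q * n) ^ 2 * (n : ℝ) ^ (k - 2) = q ^ 2 * (n : ℝ) ^ k := by
          rw [mul_pow, mul_assoc, ← pow_add, show 2 + (k - 2) = k by omega]
        rw [h8]
        refine le_trans ?_ hstar
        have h9 : 9216 * ((k : ℝ) * N) ^ 2 * 36 ^ k * (76 * K * t) ^ (k - 2) ≤ C ^ (k + 1) := by
          have h10 : (36 : ℝ) ^ k = 36 ^ 2 * 36 ^ (k - 2) := by
            rw [← pow_add]; congr 1; omega
          have h11 : C ^ (k + 1) = C * (C ^ 2 * C ^ (k - 2)) := by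
            rw [← pow_add, ← pow_succ']; congr 1; omega
          rw [h10, h11]
          calc 9216 * ((k : ℝ) * N) ^ 2 * (36 ^ 2 * 36 ^ (k - 2)) * (76 * K * t) ^ (k - 2)
              = 9216 * ((36 * (k * N)) ^ 2 * (36 * (76 * K * t)) ^ (k - 2)) := by
                rw [mul_pow 36 (76 * (K : ℝ) * t) (k - 2)]; ring
            _ ≤ C * (C ^ 2 * C ^ (k - 2)) := by
                have h12 : 36 * ((k : ℝ) * N) ≤ C := by rw [hC]; linarith only [hkN, hKKt]
                have h13 : 36 * (76 * (K : ℝ) * t) ≤ C := by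
                  rw [hC]; linarith only [hKt2, hKKt]
                have h14 : (9216 : ℝ) ≤ C := by linarith only [hC1]
                gcongr
        calc 9216 * ((k : ℝ) * N) ^ 2 * 36 ^ k * (76 * K * t) ^ (k - 2) * (M ^ 2 * (D + 1) ^ 4)
            ≤ C ^ (k + 1) * (M ^ 2 * (D + 1) ^ 4) :=
              mul_le_mul_of_nonneg_right h9 (by positivity)
          _ = _ := by ring
      have hk2 : (0 : ℝ) < 4 * k ^ 2 := by positivity
      exact le_of_mul_le_mul_right (h6.trans h5) hk2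
    have h2 := (pow_le_pow_iff_left₀ (by positivity) (by positivity) (by norm_num)).mp h1
    exact h2
  -- the numbers `τ`, `δ`
  set τ : ℝ := 1 / 2 ^ (3 * t + 4) with hτ
  have hτ0 : 0 < τ := by positivity
  set δ : ℝ := τ / NL (Fin M) L with hδ
  have hNLL : 1 ≤ NL (Fin M) L := hNLpos
  have hδ0 : 0 < δ := by positivity
  have hδN : δ * NL (Fin M) L = τ := by rw [hδ]; field_simp
  have h2f : (2 : ℝ) ^ f ≤ S ^ (3 * K) := by
    rw [hf, hS, ← pow_mul, mul_comm u (3 * K)]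
    exact pow_le_pow_left₀ (by norm_num) hMR _
  have hG : 2 ^ f / δ ≤ (2 : ℝ) ^ t' := by
    rw [hδ, div_div_eq_mul_div, div_le_iff₀ hτ0, hτ, mul_one_div, le_div_iff₀ (by positivity)]
    have h1 : NL (Fin M) L ≤ 2 * (2 ^ (4 * t)) ^ (19 * K) :=
      (hNLle 19).trans (mul_le_mul_of_nonneg_left (pow_le_pow_left₀ hSpos.le hS2 _)
        (by norm_num))
    calc (2 : ℝ) ^ f * NL (Fin M) L * 2 ^ (3 * t + 4)
        ≤ 2 ^ f * (2 * (2 ^ (4 * t)) ^ (19 * K)) * 2 ^ (3 * t + 4) := by gcongr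
      _ = 2 ^ (f + 1 + 4 * t * (19 * K) + (3 * t + 4)) := by
          rw [← pow_mul, pow_add, pow_add, pow_add]; ring
      _ ≤ 2 ^ t' := by
          refine pow_le_pow_right₀ (by norm_num) ?_
          rw [hf, ht']
          have h2 : K * u ≤ K * t := Nat.mul_le_mul_left _ hut
          have h3 : t ≤ K * t := Nat.le_mul_of_pos_left _ hK
          have h4 : 3 * K * u = 3 * (K * u) := by ring
          have h5 : 4 * t * (19 * K) = 76 * (K * t) := by ring
          have h6 : 100 * K * t = 100 * (K * t) := by ring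
          omega
  have hkL : k * L ≤ t' := by
    rw [hL, ht']
    calc k * (19 * K * u) = 19 * K * (k * u) := by ring
      _ ≤ 19 * K * (2 * t) := Nat.mul_le_mul_left _ hku
      _ = 38 * K * t := by ring
      _ ≤ 100 * K * t := by gcongr; norm_num
  refine ⟨hS1, hNLle 19, ?_, ?_⟩
  · intro V _ W hW hV
    have hspan : ∀ o, ∃ b : Fin (D + 1) → (Fin k → Fin m → Bool) → ℝ, (∀ i, b i ∈ box (W o)) ∧
        ∀ v ∈ box (W o), ∃ c : Fin (D + 1) → ℝ, (∀ i, |c i| ≤ 1) ∧ v = ∑ i, c i • b i := by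
      intro o
      have hzero : (0 : (Fin k → Fin m → Bool) → ℝ) ∈ box (W o) :=
        ⟨(W o).zero_mem, fun x => ⟨le_refl _, zero_le_one⟩⟩
      have hrank : Module.finrank ℝ (Submodule.span ℝ (box (W o))) ≤ D + 1 := by
        have h1 : Submodule.span ℝ (box (W o)) ≤ W o := Submodule.span_le.mpr fun v hv => hv.1
        exact (Submodule.finrank_mono h1).trans (hW o)
      exact spanner (box (W o)) (box_compact (W o)) ⟨0, hzero⟩ hrank
    choose b hb hbc using hspan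
    obtain ⟨H, hH1, hH2, hH3⟩ := exists_good (J := Fin M) (k := k) (m := m) hmpos hk W hW b hb
      (δ := δ) (a := a) (κ := κ) (R := R) (B := B) (W0 := q) (N := N) (L1 := L1) (L := L)
      (f := f) (t' := t') hLsum hδ0 ha0 hκ0 hκ1 hR0
      (by rw [hR2]; exact le_of_eq (by field_simp))
      (by rw [hJ, hak]; exact le_of_eq (by field_simp))
      (by rw [hJ]; exact hi3)
      (le_max_left _ _)
      (by
        have h1 : (t' : ℝ) / (a * (k * m)) ≤ B := le_max_right _ _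
        rw [div_le_iff₀ (by positivity)] at h1
        exact h1.trans (le_of_eq (by ring)))
      hkL hG (by rw [hJ]; exact hi12) hq1
      (by
        have h1 : q ^ (f + 1) ≤ 1 / S ^ 3 := by
          rw [← hqKu 3]
          exact pow_le_pow_of_le_one hq0.le hq1 (by omega)
        have h2 : q ^ (L1 + 1) ≤ 1 / S ^ 3 := by
          rw [← hqKu 3]
          refine pow_le_pow_of_le_one hq0.le hq1 ?_
          rw [hL1]
          have : 3 * K * u ≤ 16 * K * u := by gcongr; norm_num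
          omega
        have h3 : (Fintype.card V : ℝ) * (D + 2) ≤ 4 * 2 ^ t := by exact_mod_cast hV
        calc (Fintype.card V : ℝ) * (q ^ (f + 1) + (D + 1) * q ^ (L1 + 1))
            ≤ Fintype.card V * (1 / S ^ 3 + (D + 1) * (1 / S ^ 3)) := by gcongr
          _ = (Fintype.card V * (D + 2)) / S ^ 3 := by ring
          _ ≤ (4 * S) / S ^ 3 :=
              div_le_div_of_nonneg_right (h3.trans (by linarith only [hS1])) (by positivity)
          _ < 1 / 2 := by
              rw [div_lt_div_iff₀ (by positivity) (by norm_num)]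
              have hSM : (M : ℝ) ≤ S := by
                rw [hS]
                exact le_self_pow₀ (by linarith only [hMR]) (by omega)
              have h40 : (20000 : ℝ) ≤ S := hMbig.trans hSM
              have h4 : (8 : ℝ) < S ^ 2 := by nlinarith only [h40]
              calc 4 * S * 2 = 8 * S := by ring
                _ < S ^ 2 * S := mul_lt_mul_of_pos_right h4 hSpos
                _ = 1 * S ^ 3 := by ring)
    refine ⟨H, fun o => ?_⟩
    have h1 := signs_prob (J := Fin M) H (δ := δ) (a := a) (s1 := 8 * κ)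
      (s2 := 8 * κ ^ (L1 + 1)) (τ := τ) (N := N) (L1 := L1) (L := L) (f := f) (D := D) hN1 hδ0
      ha0 hτ0 hLsum hH1 (by positivity) hH2 (W o) (hW o) (hH3 o).1 (hbc o) (hH3 o).2
    rw [hδN] at h1
    have h2 : -τ - τ = -(1 / 2 ^ (3 * t + 3)) := by
      rw [hτ, show 3 * t + 4 = (3 * t + 3) + 1 by ring, pow_succ]; field_simp; norm_num
    rw [h2] at h1
    refine h1.trans ?_
    rw [hκq]
    have h3 : 8 * κ ^ (L1 + 1) * (D + 1) ^ 2 / τ ^ 2 ≤ q := by
      have h4 : 8 * κ ^ (L1 + 1) * (D + 1) ^ 2 = q * κ ^ L1 := by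
        rw [← hκq, pow_succ]; ring
      rw [h4, div_le_iff₀ (by positivity)]
      refine mul_le_mul_of_nonneg_left ?_ hq0.le
      have h5 : κ ^ L1 ≤ 1 / S ^ 16 := by
        rw [← hqKu 16]
        refine pow_le_pow_left₀ hκ0.le ?_ _
        linarith only [hκle, hq0]
      refine h5.trans ?_
      rw [hτ, div_pow, one_pow]
      refine one_div_le_one_div_of_le (by positivity) ?_
      calc ((2 : ℝ) ^ (3 * t + 4)) ^ 2 = 2 ^ ((3 * t + 4) * 2) := by rw [← pow_mul]
        _ ≤ 2 ^ (t * 16) := pow_le_pow_right₀ (by norm_num) (by omega)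
        _ = (2 ^ t) ^ 16 := by rw [pow_mul]
        _ ≤ S ^ 16 := pow_le_pow_left₀ (by positivity) hS1 _
    have hqN : q ^ N = 1 / S ^ (32 * K) := by
      rw [← hqKu (32 * K), hN]
      congr 1; ring
    have h6 : (8 * κ ^ (L1 + 1) * (D + 1) ^ 2 / τ ^ 2) ^ N ≤ q ^ N :=
      pow_le_pow_left₀ (by positivity) h3 N
    have h7 : NL (Fin M) f ≤ 2 * S ^ (3 * K) := hNLle 3
    have h8 : (1 : ℝ) ≤ S ^ (3 * K) := one_le_pow₀ hSge1
    calc NL (Fin M) f * (2 ^ f * ((D + 1) * q ^ N)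
          + (D + 1) * (8 * κ ^ (L1 + 1) * (D + 1) ^ 2 / τ ^ 2) ^ N)
        ≤ (2 * S ^ (3 * K)) * (S ^ (3 * K) * ((D + 1) * q ^ N) + (D + 1) * q ^ N) := by
          have h9 : 0 ≤ NL (Fin M) f := Nat.cast_nonneg _
          gcongr
      _ ≤ (2 * S ^ (3 * K)) * (S ^ (3 * K) * ((D + 1) * q ^ N)
          + S ^ (3 * K) * ((D + 1) * q ^ N)) := by
          have h9 : (D + 1) * q ^ N ≤ S ^ (3 * K) * ((D + 1) * q ^ N) :=
            le_mul_of_one_le_left (by positivity) h8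
          gcongr
      _ = 4 * (D + 1) * (S ^ (3 * K) * S ^ (3 * K)) * q ^ N := by ring
      _ = 4 * (D + 1) / S ^ (26 * K) := by
          rw [hqN, ← pow_add, show 32 * K = (3 * K + 3 * K) + 26 * K by ring, pow_add S _ (26 * K)]
          field_simp
  · -- the probability of a large value
    rw [hJ]
    have hcardX : (Fintype.card (Fin k → Fin m → Bool) : ℝ) ≤ 2 ^ n := by
      rw [Fintype.card_fun, Fintype.card_fun, Fintype.card_fin, Fintype.card_fin,
        Fintype.card_bool, ← pow_mul]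
      have : m * k ≤ n := Nat.div_mul_le_self n k
      exact_mod_cast Nat.pow_le_pow_right (by norm_num) this
    have h1 : Real.exp (-(2 * η ^ 2 * M)) ≤ Real.exp (-n) := Real.exp_le_exp.mpr (by linarith only [hnM])
    have h2 : (Fintype.card (Fin k → Fin m → Bool) : ℝ) * Real.exp (-(2 * η ^ 2 * M))
        ≤ 2 ^ n * Real.exp (-n) :=
      mul_le_mul hcardX h1 (Real.exp_pos _).le (by positivity)
    refine h2.trans ((chernoff_num (E := 80 * (K * t)) ?_).trans ?_)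
    · have h3 : K * t ≤ K ^ 2 * t := hK2t
      omega
    · refine one_div_le_one_div_of_le (by positivity) ?_
      have h9 : S ^ (19 * K + 1) ≤ 2 ^ (80 * (K * t)) := by
        calc S ^ (19 * K + 1) ≤ (2 ^ (4 * t)) ^ (19 * K + 1) := pow_le_pow_left₀ hSpos.le hS2 _
          _ = 2 ^ (4 * t * (19 * K + 1)) := by rw [← pow_mul]
          _ ≤ 2 ^ (80 * (K * t)) := by
              refine pow_le_pow_right₀ (by norm_num) ?_
              have h3 : t ≤ K * t := Nat.le_mul_of_pos_left _ hK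
              have h4 : 4 * t * (19 * K + 1) = 76 * (K * t) + 4 * t := by ring
              omega
      calc 64 * S ^ (19 * K + 1) ≤ 64 * 2 ^ (80 * (K * t)) := by linarith only [h9]
        _ = 2 ^ (80 * (K * t) + 6) := by rw [pow_add]; norm_num; ring

end density

end Pool.Agent.TH661.LPX
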