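import Pool.Agent.TH661.LPX.Bon

/-!
Random hypergraphs: the sets of the vertices of odd degree.
-/

set_option autoImplicit false

namespace Pool.Agent.TH661.LPX

open Finset

/-- Independence of one coordinate from the other ones. -/
theorem av_indep {J A : Type*} [Fintype J] [DecidableEq J] [Fintype A] [Nonempty A] (i : J)
    (Ψ : A → (J → A) → ℝ)
    (hΨ : ∀ (a : A) (ω ω' : J → A), (∀ j, j ≠ i → ω j = ω' j) → Ψ a ω = Ψ a ω') :
    av (fun ω : J → A => Ψ (ω i) ω) = av (fun a => av (fun ω => Ψ a ω)) := by
  rw [av_mix {i}]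
  have h1 : ∀ ω' : J → A, av (fun ω : J → A => Ψ (mix {i} ω' ω i) (mix {i} ω' ω))
      = av (fun ω => Ψ (ω' i) ω) := by
    intro ω'
    refine av_congr fun ω => ?_
    rw [mix_mem (mem_singleton_self i)]
    refine hΨ _ _ _ fun j hj => ?_
    exact mix_not_mem (by rwa [mem_singleton])
  rw [av_congr h1]
  have h2 := av_pi_subset (J := J) (A := A) {i} (fun _ a => av (fun ω => Ψ a ω))
  simpa using h2

section odd

variable {J : Type*} [DecidableEq J] {k m : ℕ}

/-- The elements which are taken an odd number of times. -/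
def os (f : J → Fin m) (E : Finset J) : Finset (Fin m) :=
  univ.filter fun v => Odd (E.filter fun i => f i = v).card

omit [DecidableEq J] in
theorem os_empty (f : J → Fin m) : os f ∅ = ∅ := by simp [os]

theorem os_insert (f : J → Fin m) {E : Finset J} {i : J} (hi : i ∉ E) :
    os f (insert i E) = symmDiff (os f E) {f i} := by
  ext v
  rw [mem_symmDiff, mem_singleton]
  unfold os
  rw [mem_filter, mem_filter]
  by_cases hv : f i = v
  · rw [filter_insert, if_pos hv, card_insert_of_notMem (fun h => hi (mem_filter.mp h).1)]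
    subst hv
    simp [Nat.odd_add_one]
  · rw [filter_insert, if_neg hv]
    have : ¬ v = f i := fun h => hv h.symm
    simp [this]

theorem card_symmDiff_single_of_mem {T : Finset (Fin m)} {v : Fin m} (h : v ∈ T) :
    (symmDiff T {v}).card = T.card - 1 := by
  have : symmDiff T {v} = T.erase v := by
    ext u
    rw [mem_symmDiff, mem_singleton, mem_erase]
    constructor
    · rintro (⟨h1, h2⟩ | ⟨h1, h2⟩)
      · exact ⟨h2, h1⟩
      · exact absurd (h1 ▸ h) h2
    · rintro ⟨h1, h2⟩
      exact Or.inl ⟨h2, h1⟩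
  rw [this, card_erase_of_mem h]

theorem card_symmDiff_single_of_notMem {T : Finset (Fin m)} {v : Fin m} (h : v ∉ T) :
    (symmDiff T {v}).card = T.card + 1 := by
  have : symmDiff T {v} = insert v T := by
    ext u
    rw [mem_symmDiff, mem_singleton, mem_insert]
    constructor
    · rintro (⟨h1, _⟩ | ⟨h1, _⟩)
      · exact Or.inr h1
      · exact Or.inl h1
    · rintro (h1 | h1)
      · exact Or.inr ⟨h1, h1 ▸ h⟩
      · exact Or.inl ⟨h1, fun h2 => h (h2 ▸ h1)⟩
  rw [this, card_insert_of_notMem h]

theorem card_symmDiff_single_le (T : Finset (Fin m)) (v : Fin m) :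
    (symmDiff T {v}).card ≤ T.card + 1 := by
  by_cases h : v ∈ T
  · rw [card_symmDiff_single_of_mem h]; omega
  · rw [card_symmDiff_single_of_notMem h]

theorem card_os_le (f : J → Fin m) (E : Finset J) : (os f E).card ≤ E.card := by
  induction E using Finset.induction_on with
  | empty => rw [os_empty]; simp
  | insert i E hi ih =>
    rw [os_insert f hi, card_insert_of_notMem hi]
    exact (card_symmDiff_single_le _ _).trans (by omega)

theorem prod_symmDiff_single (T : Finset (Fin m)) (v : Fin m) (s : Fin m → ℝ)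
    (hs : ∀ u, s u * s u = 1) : ∏ u ∈ symmDiff T {v}, s u = (∏ u ∈ T, s u) * s v := by
  by_cases h : v ∈ T
  · have h1 : symmDiff T {v} = T.erase v := by
      ext u
      rw [mem_symmDiff, mem_singleton, mem_erase]
      constructor
      · rintro (⟨h1, h2⟩ | ⟨h1, h2⟩)
        · exact ⟨h2, h1⟩
        · exact absurd (h1 ▸ h) h2
      · rintro ⟨h1, h2⟩
        exact Or.inl ⟨h2, h1⟩
    rw [h1, ← mul_prod_erase T s h]
    calc ∏ u ∈ T.erase v, s u = (s v * s v) * ∏ u ∈ T.erase v, s u := by rw [hs, one_mul]
      _ = _ := by ring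
  · have h1 : symmDiff T {v} = insert v T := by
      ext u
      rw [mem_symmDiff, mem_singleton, mem_insert]
      constructor
      · rintro (⟨h1, _⟩ | ⟨h1, _⟩)
        · exact Or.inr h1
        · exact Or.inl h1
      · rintro (h1 | h1)
        · exact Or.inr ⟨h1, h1 ▸ h⟩
        · exact Or.inl ⟨h1, fun h2 => h (h2 ▸ h1)⟩
    rw [h1, prod_insert h, mul_comm]

/-- The vertices of odd degree. -/
def SE (H : J → Fin k → Fin m) (E : Finset J) : Fin k → Finset (Fin m) :=
  fun j => os (fun i => H i j) E

theorem SE_insert (H : J → Fin k → Fin m) {E : Finset J} {i : J} (hi : i ∉ E) :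
    SE H (insert i E) = fun j => symmDiff (SE H E j) {H i j} := by
  funext j
  exact os_insert _ hi

theorem nS_SE_le (H : J → Fin k → Fin m) (E : Finset J) : nS (SE H E) ≤ k * E.card := by
  unfold nS
  calc ∑ j, (SE H E j).card ≤ ∑ _j : Fin k, E.card := sum_le_sum fun j _ => card_os_le _ _
    _ = k * E.card := by rw [sum_const, card_univ, Fintype.card_fin, smul_eq_mul]

theorem chi_SE (H : J → Fin k → Fin m) (E : Finset J) (x : Fin k → Fin m → Bool) :
    chi (SE H E) x = ∏ i ∈ E, ∏ j, sg (x j (H i j)) := by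
  unfold chi
  rw [prod_comm]
  refine prod_congr rfl fun j _ => ?_
  induction E using Finset.induction_on with
  | empty => simp [SE, os_empty]
  | insert i E hi ih =>
    rw [SE_insert H hi, prod_insert hi]
    simp only
    rw [prod_symmDiff_single _ _ _ fun u => sg_mul_self _, ih, mul_comm]

/-- The signed hypergraph. -/
def pr (H : J → Fin k → Fin m) (σ : J → Bool) : J → (Fin k → Fin m) × Bool := fun i => (H i, σ i)

theorem Y_pr (H : J → Fin k → Fin m) (σ : J → Bool) (E : Finset J) (x : Fin k → Fin m → Bool) :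
    Y yx (pr H σ) E x = (∏ i ∈ E, sg (σ i)) * chi (SE H E) x := by
  rw [chi_SE, ← prod_mul_distrib]
  rfl

theorem co_pr (H : J → Fin k → Fin m) (σ : J → Bool) (g : (Fin k → Fin m → Bool) → ℝ)
    (E : Finset J) : co yx (pr H σ) g E = (∏ i ∈ E, sg (σ i)) * fc g (SE H E) := by
  unfold co fc
  rw [← av_mul_left]
  refine av_congr fun x => ?_
  rw [Y_pr]; ring

omit [DecidableEq J] in
theorem abs_prod_sg (σ : J → Bool) (E : Finset J) : |∏ i ∈ E, sg (σ i)| = 1 := by
  rw [Finset.abs_prod]
  refine prod_eq_one fun i _ => ?_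
  rcases sg_cases (σ i) with h | h <;> rw [h] <;> norm_num

theorem abs_co_pr (H : J → Fin k → Fin m) (σ : J → Bool) (g : (Fin k → Fin m → Bool) → ℝ)
    (E : Finset J) : |co yx (pr H σ) g E| = |fc g (SE H E)| := by
  rw [co_pr, abs_mul, abs_prod_sg, one_mul]

/-- One step. -/
theorem av_pow_symmDiff (hm : 0 < m) {r : ℝ} (hr : 0 < r) {T : Finset (Fin m)}
    (hT : (T.card : ℝ) ≤ m * r ^ 2) :
    av (fun v : Fin m => r ^ (symmDiff T {v}).card) ≤ 2 * r ^ (T.card + 1) := by
  have hmR : (0 : ℝ) < m := by exact_mod_cast hm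
  have h1 : ∀ v : Fin m, r ^ (symmDiff T {v}).card
      ≤ (if v ∈ T then r ^ (T.card - 1) else 0) + r ^ (T.card + 1) := by
    intro v
    by_cases h : v ∈ T
    · rw [card_symmDiff_single_of_mem h, if_pos h]
      have : 0 < r ^ (T.card + 1) := by positivity
      linarith
    · rw [card_symmDiff_single_of_notMem h, if_neg h, zero_add]
  refine (av_mono h1).trans ?_
  have : NeZero m := ⟨by omega⟩
  rw [av_add, av_const]
  have h2 : av (fun v : Fin m => if v ∈ T then r ^ (T.card - 1) else 0)
      = T.card * r ^ (T.card - 1) / m := by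
    unfold av
    rw [← sum_filter, sum_const, Fintype.card_fin, nsmul_eq_mul]
    congr 3
    rw [filter_mem_eq_inter, univ_inter]
  have h3 : T.card * r ^ (T.card - 1) / m ≤ r ^ (T.card + 1) := by
    rw [div_le_iff₀ hmR]
    rcases Nat.eq_zero_or_pos T.card with h | h
    · rw [h]; simp; positivity
    · calc (T.card : ℝ) * r ^ (T.card - 1) ≤ m * r ^ 2 * r ^ (T.card - 1) :=
            mul_le_mul_of_nonneg_right hT (by positivity)
        _ = r ^ (T.card + 1) * m := by
            rw [mul_assoc, ← pow_add, show 2 + (T.card - 1) = T.card + 1 by omega, mul_comm]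
  rw [h2]
  linarith

variable [Fintype J]

/-- The probability that the vertices of odd degree are given. -/
theorem prob_SE (hm : 0 < m) {r : ℝ} (hr : 0 < r) (E : Finset J) :
    ∀ S : Fin k → Finset (Fin m), (E.card : ℝ) ≤ m * r ^ 2 →
      av (fun H : J → Fin k → Fin m => ind (SE H E = S))
        ≤ 2 ^ (k * E.card) * r ^ (k * E.card + nS S) := by
  have : NeZero m := ⟨by omega⟩
  induction E using Finset.induction_on with
  | empty =>
    intro S _
    rw [card_empty, mul_zero, pow_zero, one_mul, zero_add]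
    by_cases hS : nS S = 0
    · rw [hS, pow_zero]
      exact av_le_const fun H => ind_le_one _
    · have h0 : av (fun H : J → Fin k → Fin m => ind (SE H ∅ = S)) ≤ 0 := by
        refine av_le_const fun H => ?_
        rw [ind_false]
        rintro rfl
        exact hS (by simp [nS, SE, os_empty])
      exact h0.trans (by positivity)
  | insert i E hi ih =>
    intro S hE
    rw [card_insert_of_notMem hi] at hE ⊢
    by_cases hbig : ∃ j, E.card + 1 < (S j).card
    · obtain ⟨j, hj⟩ := hbig
      have h0 : av (fun H : J → Fin k → Fin m => ind (SE H (insert i E) = S)) ≤ 0 := by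
        refine av_le_const fun H => ?_
        rw [ind_false]
        rintro rfl
        have h1 := card_os_le (fun i => H i j) (insert i E)
        rw [card_insert_of_notMem hi] at h1
        exact absurd hj (not_lt.mpr h1)
      exact h0.trans (by positivity)
    · push Not at hbig
      have h1 : ∀ H : J → Fin k → Fin m, ind (SE H (insert i E) = S)
          = ind (SE H E = fun j => symmDiff (S j) {H i j}) := by
        intro H
        rw [SE_insert H hi]
        congr 1
        refine propext ⟨fun h => ?_, fun h => ?_⟩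
        · rw [← h]; funext j
          rw [symmDiff_symmDiff_cancel_right]
        · rw [h]; funext j
          rw [symmDiff_symmDiff_cancel_right]
      rw [av_congr h1, av_indep i (fun (a : Fin k → Fin m) (H : J → Fin k → Fin m) =>
        ind (SE H E = fun j => symmDiff (S j) {a j})) ?_]
      · have h2 : ∀ a : Fin k → Fin m, av (fun H : J → Fin k → Fin m =>
            ind (SE H E = fun j => symmDiff (S j) {a j}))
            ≤ 2 ^ (k * E.card) * r ^ (k * E.card) * ∏ j, r ^ (symmDiff (S j) {a j}).card := by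
          intro a
          refine (ih _ ?_).trans (le_of_eq ?_)
          · push_cast at hE; linarith
          · rw [pow_add, prod_pow_eq_pow_sum]
            unfold nS
            ring
        refine (av_mono h2).trans ?_
        rw [av_mul_left, av_pi (fun j v => r ^ (symmDiff (S j) {v}).card)]
        have h3 : ∏ j, av (fun v => r ^ (symmDiff (S j) {v}).card)
            ≤ ∏ j, (2 * r ^ ((S j).card + 1)) := by
          refine prod_le_prod (fun j _ => av_nonneg fun v => by positivity) fun j _ => ?_
          refine av_pow_symmDiff hm hr ?_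
          refine le_trans ?_ hE
          exact_mod_cast hbig j
        refine (mul_le_mul_of_nonneg_left h3 (by positivity)).trans (le_of_eq ?_)
        rw [prod_mul_distrib, prod_const, card_univ, Fintype.card_fin, prod_pow_eq_pow_sum,
          sum_add_distrib, sum_const, card_univ, Fintype.card_fin, smul_eq_mul, mul_one]
        unfold nS
        rw [show k * (E.card + 1) = k * E.card + k by ring]
        simp only [pow_add]
        ring
      · intro a ω ω' h
        have : SE ω E = SE ω' E := by
          funext j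
          unfold SE os
          congr 1
          funext v
          congr 1
          congr 1
          refine filter_congr fun i' hi' => ?_
          simp only
          rw [h i' (fun h' => hi (h' ▸ hi'))]
        rw [this]

theorem av_SE_le (hm : 0 < m) {r : ℝ} (hr : 0 < r) (E : Finset J)
    (hE : (E.card : ℝ) ≤ m * r ^ 2) {w : (Fin k → Finset (Fin m)) → ℝ} (hw : ∀ S, 0 ≤ w S)
    {w' : (Fin k → Finset (Fin m)) → ℝ} (hw' : ∀ S, 0 ≤ w' S)
    (h : ∀ S, nS S ≤ k * E.card → w S * (2 ^ (k * E.card) * r ^ (k * E.card + nS S)) ≤ w' S) :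
    av (fun H : J → Fin k → Fin m => w (SE H E)) ≤ ∑ S, w' S := by
  have : NeZero m := ⟨by omega⟩
  have h1 : ∀ H : J → Fin k → Fin m, w (SE H E)
      = ∑ S, w S * ind (SE H E = S) := by
    intro H
    rw [sum_eq_single (SE H E)]
    · rw [ind_true rfl, mul_one]
    · intro S _ hS
      rw [ind_false (Ne.symm hS), mul_zero]
    · intro h; exact absurd (mem_univ _) h
  rw [av_congr h1, av_sum]
  refine sum_le_sum fun S _ => ?_
  rw [av_mul_left]
  by_cases hS : nS S ≤ k * E.card
  · exact (mul_le_mul_of_nonneg_left (prob_SE hm hr E S hE) (hw S)).trans (h S hS)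
  · have h2 : av (fun H : J → Fin k → Fin m => ind (SE H E = S)) ≤ 0 := by
      refine av_le_const fun H => ?_
      rw [ind_false]
      rintro rfl
      exact hS (nS_SE_le H E)
    exact (mul_nonpos_of_nonneg_of_nonpos (hw S) h2).trans (hw' S)

/-- Weighted second moments of Fourier coefficients. -/
theorem fc_moment (hm : 0 < m) {r B a ρ : ℝ} (hr : 0 < r) (E : Finset J)
    (hE : (E.card : ℝ) ≤ m * r ^ 2) (ha : 0 < a) (hρ : 0 < ρ) (hB1 : r ≤ B)
    (hB2 : r ^ 2 ≤ B * (a * ρ)) (b : (Fin k → Fin m → Bool) → ℝ) {W : ℝ}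
    (hW : ∑ S : Fin k → Finset (Fin m), ρ ^ nS S * fc b S ^ 2 ≤ W) :
    av (fun H : J → Fin k → Fin m => (1 / a) ^ nS (SE H E) * fc b (SE H E) ^ 2)
      ≤ (2 * B) ^ (k * E.card) * W := by
  have hB : 0 < B := lt_of_lt_of_le hr hB1
  have h1 := av_SE_le (k := k) hm hr E hE (w := fun S => (1 / a) ^ nS S * fc b S ^ 2)
    (w' := fun S => (2 * B) ^ (k * E.card) * (ρ ^ nS S * fc b S ^ 2))
    (fun S => by positivity) (fun S => by positivity) (fun S hS => by
      have h2 : (1 / a) ^ nS S * r ^ (k * E.card + nS S) ≤ B ^ (k * E.card) * ρ ^ nS S := by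
        have h3 : r ^ (k * E.card + nS S) = r ^ (k * E.card - nS S) * (r ^ 2) ^ nS S := by
          rw [← pow_mul, ← pow_add]; congr 1; omega
        have h4 : r ^ (k * E.card - nS S) * (r ^ 2) ^ nS S
            ≤ B ^ (k * E.card - nS S) * (B * (a * ρ)) ^ nS S :=
          mul_le_mul (pow_le_pow_left₀ hr.le hB1 _) (pow_le_pow_left₀ (by positivity) hB2 _)
            (by positivity) (by positivity)
        have h5 : B ^ (k * E.card - nS S) * (B * (a * ρ)) ^ nS S
            = B ^ (k * E.card) * (a * ρ) ^ nS S := by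
          rw [mul_pow B, ← mul_assoc, ← pow_add]
          congr 2; omega
        rw [h3]
        calc (1 / a) ^ nS S * (r ^ (k * E.card - nS S) * (r ^ 2) ^ nS S)
            ≤ (1 / a) ^ nS S * (B ^ (k * E.card) * (a * ρ) ^ nS S) := by
              rw [← h5]; exact mul_le_mul_of_nonneg_left h4 (by positivity)
          _ = B ^ (k * E.card) * ((1 / a) ^ nS S * (a ^ nS S * ρ ^ nS S)) := by
              rw [mul_pow a ρ]; ring
          _ = B ^ (k * E.card) * ρ ^ nS S := by
              rw [← mul_assoc ((1 / a) ^ nS S), ← mul_pow (1 / a) a, one_div_mul_cancel ha.ne',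
                one_pow, one_mul]
      calc (1 / a) ^ nS S * fc b S ^ 2 * (2 ^ (k * E.card) * r ^ (k * E.card + nS S))
          = 2 ^ (k * E.card) * ((1 / a) ^ nS S * r ^ (k * E.card + nS S)) * fc b S ^ 2 := by ring
        _ ≤ 2 ^ (k * E.card) * (B ^ (k * E.card) * ρ ^ nS S) * fc b S ^ 2 := by gcongr
        _ = (2 * B) ^ (k * E.card) * (ρ ^ nS S * fc b S ^ 2) := by rw [mul_pow]; ring)
  refine h1.trans ?_
  rw [← mul_sum]
  exact mul_le_mul_of_nonneg_left hW (by positivity)

theorem sum_pow_nS (x : ℝ) :
    ∑ S : Fin k → Finset (Fin m), x ^ nS S = (1 + x) ^ (k * m) := by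
  have h1 : ∏ _j : Fin k, ∑ T ∈ (univ : Finset (Finset (Fin m))), x ^ T.card
      = ∑ S : Fin k → Finset (Fin m), x ^ nS S := by
    rw [Finset.prod_univ_sum, Fintype.piFinset_univ]
    exact sum_congr rfl fun S _ => prod_pow_eq_pow_sum _ _ _
  rw [← h1, ← Finset.powerset_univ, sum_powerset_pow, prod_const, card_univ, card_univ,
    Fintype.card_fin, Fintype.card_fin, ← pow_mul]
  congr 1; ring

/-- The moment generating function of the number of the vertices of odd degree. -/
theorem size_moment (hm : 0 < m) {a B : ℝ} (E : Finset J) (hEne : E.Nonempty)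
    (ha : 0 < a) (hB1 : a ≤ B) (hB2 : Real.sqrt (E.card / m) ≤ B) :
    av (fun H : J → Fin k → Fin m => a ^ nS (SE H E)) ≤ (6 * B) ^ (k * E.card) := by
  have hmR : (0 : ℝ) < m := by exact_mod_cast hm
  have hEpos : (0 : ℝ) < E.card := by exact_mod_cast card_pos.mpr hEne
  set r : ℝ := Real.sqrt (E.card / m) with hr
  have hr0 : 0 < r := Real.sqrt_pos.mpr (by positivity)
  have hr2 : m * r ^ 2 = E.card := by
    rw [hr, Real.sq_sqrt (by positivity)]; field_simp
  have hB : 0 < B := lt_of_lt_of_le ha hB1
  obtain ⟨b, hb0, hb1, hb2, hb3⟩ : ∃ b : ℝ, 0 < b ∧ b ≤ 1 ∧ m * r * a * b ≤ E.card ∧ r ≤ B * b := by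
    by_cases h : m * r * a ≤ E.card
    · exact ⟨1, one_pos, le_refl _, by rw [mul_one]; exact h, by rw [mul_one]; exact hB2⟩
    · push Not at h
      have hpos : 0 < m * r * a := by positivity
      refine ⟨E.card / (m * r * a), by positivity, ?_, ?_, ?_⟩
      · rw [div_le_one hpos]; exact h.le
      · rw [mul_div_cancel₀ _ hpos.ne']
      · rw [mul_div_assoc', le_div_iff₀ hpos]
        calc r * (m * r * a) = (m * r ^ 2) * a := by ring
          _ = E.card * a := by rw [hr2]
          _ ≤ E.card * B := mul_le_mul_of_nonneg_left hB1 hEpos.le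
          _ = B * E.card := mul_comm _ _
  have h1 := av_SE_le (k := k) hm hr0 E hr2.symm.le (w := fun S => a ^ nS S)
    (w' := fun S => (2 * B) ^ (k * E.card) * (r * a * b) ^ nS S)
    (fun S => by positivity) (fun S => by positivity) (fun S hS => by
      have h2 : r ^ (k * E.card) ≤ B ^ (k * E.card) * b ^ nS S := by
        calc r ^ (k * E.card) ≤ (B * b) ^ (k * E.card) := pow_le_pow_left₀ hr0.le hb3 _
          _ = B ^ (k * E.card) * b ^ (k * E.card) := mul_pow _ _ _
          _ ≤ B ^ (k * E.card) * b ^ nS S :=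
              mul_le_mul_of_nonneg_left (pow_le_pow_of_le_one hb0.le hb1 hS) (by positivity)
      calc a ^ nS S * (2 ^ (k * E.card) * r ^ (k * E.card + nS S))
          = 2 ^ (k * E.card) * r ^ (k * E.card) * (r * a) ^ nS S := by
            rw [pow_add, mul_pow r a]; ring
        _ ≤ 2 ^ (k * E.card) * (B ^ (k * E.card) * b ^ nS S) * (r * a) ^ nS S := by gcongr
        _ = (2 * B) ^ (k * E.card) * (r * a * b) ^ nS S := by
            rw [mul_pow 2 B, mul_pow (r * a) b]; ring)
  refine h1.trans ?_
  rw [← mul_sum, sum_pow_nS]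
  have h2 : (1 + r * a * b) ^ (k * m) ≤ 3 ^ (k * E.card) := by
    calc (1 + r * a * b) ^ (k * m) ≤ (Real.exp (r * a * b)) ^ (k * m) :=
          pow_le_pow_left₀ (by positivity) (by linarith [Real.add_one_le_exp (r * a * b)]) _
      _ = Real.exp (k * (m * r * a * b)) := by
          rw [← Real.exp_nat_mul]; congr 1; push_cast; ring
      _ ≤ Real.exp (k * E.card) :=
          Real.exp_le_exp.mpr (mul_le_mul_of_nonneg_left hb2 (Nat.cast_nonneg _))
      _ = Real.exp 1 ^ (k * E.card) := by
          rw [← Real.exp_nat_mul]; congr 1; push_cast; ring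
      _ ≤ 3 ^ (k * E.card) := by
          refine pow_le_pow_left₀ (Real.exp_pos _).le ?_ _
          have := Real.exp_one_lt_d9
          linarith
  calc (2 * B) ^ (k * E.card) * (1 + r * a * b) ^ (k * m)
      ≤ (2 * B) ^ (k * E.card) * 3 ^ (k * E.card) :=
        mul_le_mul_of_nonneg_left h2 (by positivity)
    _ = (6 * B) ^ (k * E.card) := by rw [← mul_pow]; congr 1; ring

end odd

end Pool.Agent.TH661.LPX
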