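import Pool.Agent.TH661.LPX.Mom

/-!
Random parity constraints: Chernoff bound, moments of the kernel, averages of the density.
-/

set_option autoImplicit false

namespace Pool.Agent.TH661.LPX

open Finset

section mean

variable {X J A : Type*} [Fintype X] [Fintype J] [DecidableEq J] [Fintype A] [Nonempty A]

variable {y : A → X → ℝ}

omit [Fintype X] [Nonempty A] in
theorem av_exp (hy : ∀ a x, y a x = 1 ∨ y a x = -1) {x : X} (h0 : av (fun a => y a x) = 0)
    [Nonempty A] (l : ℝ) : av (fun a => Real.exp (l * y a x)) = Real.cosh l := by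
  have h1 : ∀ a, Real.exp (l * y a x) = Real.cosh l + Real.sinh l * y a x := by
    intro a
    rcases hy a x with h | h
    · rw [h, mul_one, mul_one, Real.cosh_add_sinh]
    · rw [h, mul_neg, mul_neg, mul_one, mul_one, ← sub_eq_add_neg, Real.cosh_sub_sinh]
  rw [av_congr h1, av_add, av_mul_left, h0, av_const, mul_zero, add_zero]

omit [Fintype X] in
/-- A Chernoff bound. -/
theorem chernoff (hy : ∀ a x, y a x = 1 ∨ y a x = -1) {x : X} (h0 : av (fun a => y a x) = 0)
    {η : ℝ} (hη : 0 ≤ η) :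
    av (fun ω : J → A => ind (2 * η * Fintype.card J < ∑ i, y (ω i) x))
      ≤ Real.exp (-(2 * η ^ 2 * Fintype.card J)) := by
  have h1 : ∀ ω : J → A, ind (2 * η * Fintype.card J < ∑ i, y (ω i) x)
      ≤ Real.exp (2 * η * (∑ i, y (ω i) x - 2 * η * Fintype.card J)) := by
    intro ω
    by_cases h : 2 * η * Fintype.card J < ∑ i, y (ω i) x
    · rw [ind_true h]
      apply Real.one_le_exp
      have : 0 ≤ ∑ i, y (ω i) x - 2 * η * Fintype.card J := by linarith
      positivity
    · rw [ind_false h]; positivity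
  refine (av_mono h1).trans ?_
  have h2 : ∀ ω : J → A, Real.exp (2 * η * (∑ i, y (ω i) x - 2 * η * Fintype.card J))
      = (∏ i, Real.exp (2 * η * y (ω i) x)) * Real.exp (-(4 * η ^ 2 * Fintype.card J)) := by
    intro ω
    rw [← Real.exp_sum, ← Real.exp_add, ← mul_sum]
    congr 1; ring
  rw [av_congr h2, av_mul_right, av_pi (fun _ a => Real.exp (2 * η * y a x))]
  rw [prod_const, card_univ, av_exp hy h0]
  have h3 := Real.cosh_le_exp_half_sq (2 * η)
  have h4 : Real.cosh (2 * η) ^ Fintype.card J ≤ Real.exp (2 * η ^ 2 * Fintype.card J) := by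
    refine (pow_le_pow_left₀ (Real.cosh_pos _).le h3 _).trans (le_of_eq ?_)
    rw [← Real.exp_nat_mul]; congr 1; ring
  refine (mul_le_mul_of_nonneg_right h4 (Real.exp_pos _).le).trans (le_of_eq ?_)
  rw [← Real.exp_add]; congr 1; ring

theorem chernoff_union (hy : ∀ a x, y a x = 1 ∨ y a x = -1)
    (h0 : ∀ x, av (fun a => y a x) = 0) {η : ℝ} (hη : 0 ≤ η) :
    av (fun ω : J → A => ind (∃ x, 2 * η * Fintype.card J < ∑ i, y (ω i) x))
      ≤ Fintype.card X * Real.exp (-(2 * η ^ 2 * Fintype.card J)) := by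
  have h1 : ∀ ω : J → A, ind (∃ x, 2 * η * Fintype.card J < ∑ i, y (ω i) x)
      ≤ ∑ x, ind (2 * η * Fintype.card J < ∑ i, y (ω i) x) := by
    intro ω
    by_cases h : ∃ x, 2 * η * Fintype.card J < ∑ i, y (ω i) x
    · obtain ⟨x, hx⟩ := h
      rw [ind_true ⟨x, hx⟩, ← ind_true hx]
      exact single_le_sum (f := fun x => ind (2 * η * Fintype.card J < ∑ i, y (ω i) x))
        (fun _ _ => ind_nonneg _) (mem_univ x)
    · rw [ind_false h]; exact sum_nonneg fun _ _ => ind_nonneg _
  refine (av_mono h1).trans ?_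
  rw [av_sum]
  refine (sum_le_sum fun x _ => chernoff hy (h0 x) hη).trans (le_of_eq ?_)
  rw [sum_const, card_univ, nsmul_eq_mul]

omit [Fintype X] in
theorem av_Y (h0 : ∀ x, av (fun a => y a x) = 0) (E : Finset J) (x : X) :
    av (fun ω : J → A => Y y ω E x) = if E = ∅ then 1 else 0 := by
  unfold Y
  rw [av_pi_subset E (fun _ a => y a x)]
  rw [prod_const, h0 x]
  split_ifs with h
  · subst h; simp
  · exact zero_pow (card_ne_zero.mpr (nonempty_iff_ne_empty.mpr h))

omit [Fintype X] in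
theorem av_DL (h0 : ∀ x, av (fun a => y a x) = 0) (L : ℕ) (x : X) :
    av (fun ω : J → A => DL y ω L x) = 1 := by
  unfold DL
  rw [av_sum]
  simp_rw [av_Y h0]
  rw [Finset.sum_ite_eq' (univ.filter (fun E : Finset J => E.card ≤ L)) ∅]
  simp

omit [Fintype X] in
theorem av_Y_mul (hy : ∀ a x, y a x = 1 ∨ y a x = -1) (h0 : ∀ x, av (fun a => y a x) = 0)
    (E : Finset J) (i : J) (x : X) :
    av (fun ω : J → A => Y y ω E x * y (ω i) x) = if E = {i} then 1 else 0 := by
  by_cases hi : i ∈ E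
  · have h1 : ∀ ω : J → A, Y y ω E x * y (ω i) x = Y y ω (E.erase i) x := by
      intro ω
      unfold Y
      rw [← mul_prod_erase E _ hi]
      rcases hy (ω i) x with h | h <;> rw [h] <;> ring
    rw [av_congr h1, av_Y h0]
    have h2 : E.erase i = ∅ ↔ E = {i} := by
      rw [erase_eq_empty_iff]
      constructor
      · rintro (h | h)
        · rw [h] at hi; exact absurd hi (notMem_empty _)
        · exact h
      · exact fun h => Or.inr h
    simp only [h2]
  · have h1 : ∀ ω : J → A, Y y ω E x * y (ω i) x = Y y ω (insert i E) x := by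
      intro ω
      unfold Y
      rw [prod_insert hi]; ring
    rw [av_congr h1, av_Y h0]
    rw [if_neg (insert_ne_empty i E), if_neg]
    intro h
    rw [h] at hi
    exact hi (mem_singleton_self i)

omit [Fintype X] in
theorem av_DL_mul (hy : ∀ a x, y a x = 1 ∨ y a x = -1) (h0 : ∀ x, av (fun a => y a x) = 0)
    {L : ℕ} (hL : 1 ≤ L) (i : J) (x : X) :
    av (fun ω : J → A => DL y ω L x * y (ω i) x) = 1 := by
  have h1 : ∀ ω : J → A, DL y ω L x * y (ω i) x
      = ∑ E ∈ univ.filter (fun E : Finset J => E.card ≤ L), Y y ω E x * y (ω i) x :=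
    fun ω => sum_mul _ _ _
  rw [av_congr h1, av_sum]
  simp_rw [av_Y_mul hy h0]
  rw [Finset.sum_ite_eq' (univ.filter (fun E : Finset J => E.card ≤ L)) {i}]
  simp [hL]

omit [Fintype X] [Fintype A] [Nonempty A] in
theorem abs_DL_le (hy : ∀ a x, |y a x| = 1) (ω : J → A) (L : ℕ) (x : X) :
    |DL y ω L x| ≤ NL J L := by
  unfold DL NL
  refine (abs_sum_le_sum_abs _ _).trans (le_of_eq ?_)
  rw [sum_congr rfl (fun E _ => abs_Y hy ω E x), sum_const, nsmul_eq_mul, mul_one]

end mean

/-- The sign of a bit. -/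
def sg (b : Bool) : ℝ := if b = true then -1 else 1

theorem sg_cases (b : Bool) : sg b = 1 ∨ sg b = -1 := by cases b <;> simp [sg]

theorem sg_mul_self (b : Bool) : sg b * sg b = 1 := by cases b <;> simp [sg]

theorem av_sg : av sg = 0 := by
  unfold av sg
  simp

/-- The even moments of a signed sum. -/
theorem sign_moment {m : ℕ} (hm : 0 < m) (z' : Fin m → Bool) {N : ℕ} (hN : 1 ≤ N) :
    av (fun z : Fin m → Bool => (av fun i => sg (z i) * sg (z' i)) ^ (2 * N))
      ≤ (6 * N / m : ℝ) ^ N := by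
  have hmR : (0 : ℝ) < m := by exact_mod_cast hm
  have hNR : (0 : ℝ) < N := by exact_mod_cast hN
  -- moment generating function
  have hmgf : ∀ l : ℝ, av (fun z : Fin m → Bool =>
      Real.exp (l * ∑ i, sg (z i) * sg (z' i))) ≤ Real.exp (m * l ^ 2 / 2) := by
    intro l
    have h1 : ∀ z : Fin m → Bool, Real.exp (l * ∑ i, sg (z i) * sg (z' i))
        = ∏ i, Real.exp (l * (sg (z i) * sg (z' i))) := by
      intro z; rw [← Real.exp_sum, mul_sum]
    rw [av_congr h1, av_pi (fun i b => Real.exp (l * (sg b * sg (z' i))))]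
    have h2 : ∀ i : Fin m, av (fun b : Bool => Real.exp (l * (sg b * sg (z' i))))
        = Real.cosh l := by
      intro i
      refine av_exp (y := fun (b : Bool) (_ : Unit) => sg b * sg (z' i)) (x := ()) ?_ ?_ l
      · intro b _
        rcases sg_cases b with h | h <;> rcases sg_cases (z' i) with h' | h' <;>
          rw [h, h'] <;> norm_num
      · rw [av_mul_right, av_sg, zero_mul]
    rw [prod_congr rfl (fun i _ => h2 i), prod_const, card_univ, Fintype.card_fin]
    refine (pow_le_pow_left₀ (Real.cosh_pos _).le (Real.cosh_le_exp_half_sq l) _).trans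
      (le_of_eq ?_)
    rw [← Real.exp_nat_mul]; congr 1; ring
  set l : ℝ := Real.sqrt (2 * N / m) with hl
  have hl2 : l ^ 2 = 2 * N / m := Real.sq_sqrt (by positivity)
  have hcosh : ∀ z : Fin m → Bool,
      (l * ∑ i, sg (z i) * sg (z' i)) ^ (2 * N) / ((2 * N).factorial : ℝ)
        ≤ (Real.exp (l * ∑ i, sg (z i) * sg (z' i))
          + Real.exp ((-l) * ∑ i, sg (z i) * sg (z' i))) / 2 := by
    intro z
    have h1 := sum_le_hasSum {N}
      (fun i _ => by rw [pow_mul]; positivity)
      (Real.hasSum_cosh (l * ∑ i, sg (z i) * sg (z' i)))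
    rw [sum_singleton, Real.cosh_eq] at h1
    rw [neg_mul]
    exact h1
  have h3 : av (fun z : Fin m → Bool =>
      (l * ∑ i, sg (z i) * sg (z' i)) ^ (2 * N) / ((2 * N).factorial : ℝ)) ≤ Real.exp N := by
    refine (av_mono hcosh).trans ?_
    have h4 : ∀ z : Fin m → Bool, (Real.exp (l * ∑ i, sg (z i) * sg (z' i))
          + Real.exp ((-l) * ∑ i, sg (z i) * sg (z' i))) / 2
        = (Real.exp (l * ∑ i, sg (z i) * sg (z' i))
          + Real.exp ((-l) * ∑ i, sg (z i) * sg (z' i))) * (1 / 2) := fun z => by ring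
    rw [av_congr h4, av_mul_right, av_add]
    have h5 := hmgf l
    have h6 := hmgf (-l)
    have h7 : (m : ℝ) * l ^ 2 / 2 = N := by rw [hl2]; field_simp
    have h8 : (m : ℝ) * (-l) ^ 2 / 2 = N := by rw [neg_sq]; exact h7
    rw [h7] at h5
    rw [h8] at h6
    linarith
  have h9 : ∀ z : Fin m → Bool, (av fun i => sg (z i) * sg (z' i)) ^ (2 * N)
      = (((2 * N).factorial : ℝ) / ((2 * N / m : ℝ) ^ N * (m : ℝ) ^ (2 * N))) *
        ((l * ∑ i, sg (z i) * sg (z' i)) ^ (2 * N) / ((2 * N).factorial : ℝ)) := by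
    intro z
    have hf : ((2 * N).factorial : ℝ) ≠ 0 := by exact_mod_cast Nat.factorial_ne_zero _
    rw [mul_pow l, pow_mul l, hl2]
    unfold av
    rw [Fintype.card_fin, div_pow]
    have h10 : (2 * N / m : ℝ) ^ N ≠ 0 := by positivity
    have h11 : (m : ℝ) ^ (2 * N) ≠ 0 := by positivity
    field_simp
  rw [av_congr h9, av_mul_left]
  have hfac : ((2 * N).factorial : ℝ) ≤ (2 * N) ^ (2 * N) := by
    have := Nat.factorial_le_pow (2 * N)
    exact_mod_cast this
  have he : Real.exp N ≤ 3 ^ N := by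
    have h12 : Real.exp (N : ℝ) = Real.exp 1 ^ N := by rw [← Real.exp_nat_mul, mul_one]
    rw [h12]
    refine pow_le_pow_left₀ (Real.exp_pos _).le ?_ _
    have := Real.exp_one_lt_d9
    linarith
  calc (((2 * N).factorial : ℝ) / ((2 * N / m : ℝ) ^ N * (m : ℝ) ^ (2 * N))) *
        av (fun z : Fin m → Bool =>
          (l * ∑ i, sg (z i) * sg (z' i)) ^ (2 * N) / ((2 * N).factorial : ℝ))
      ≤ ((2 * N : ℝ) ^ (2 * N) / ((2 * N / m : ℝ) ^ N * (m : ℝ) ^ (2 * N))) * 3 ^ N := by
        refine mul_le_mul ?_ (h3.trans he) ?_ (by positivity)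
        · exact div_le_div_of_nonneg_right hfac (by positivity)
        · refine av_nonneg fun z => ?_
          refine div_nonneg ?_ (Nat.cast_nonneg _)
          rw [pow_mul]; positivity
    _ = (6 * N / m : ℝ) ^ N := by
        rw [show (6 * N / m : ℝ) = 3 * (2 * N / m) by ring, mul_pow 3]
        rw [pow_mul (2 * (N : ℝ)) 2 N, pow_mul (m : ℝ) 2 N, ← mul_pow, ← div_pow, ← mul_pow,
          ← mul_pow]
        congr 1
        field_simp

section xor

variable {k m : ℕ}

/-- The sign of the parity constraint `⊕ⱼ xⱼ(eⱼ) = b` at `x`: `1` if it holds, else `-1`. -/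
def yx (a : (Fin k → Fin m) × Bool) (x : Fin k → Fin m → Bool) : ℝ :=
  sg a.2 * ∏ j, sg (x j (a.1 j))

theorem yx_cases (a : (Fin k → Fin m) × Bool) (x : Fin k → Fin m → Bool) :
    yx a x = 1 ∨ yx a x = -1 := by
  have h : ∀ s : Finset (Fin k), ∏ j ∈ s, sg (x j (a.1 j)) = 1 ∨
      ∏ j ∈ s, sg (x j (a.1 j)) = -1 := by
    intro s
    induction s using Finset.induction_on with
    | empty => left; simp
    | insert j s hj ih =>
      rw [prod_insert hj]
      rcases ih with h | h <;> rcases sg_cases (x j (a.1 j)) with h' | h' <;>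
        rw [h, h'] <;> norm_num
  unfold yx
  rcases h univ with h | h <;> rcases sg_cases a.2 with h' | h' <;> rw [h, h'] <;> norm_num

theorem abs_yx (a : (Fin k → Fin m) × Bool) (x : Fin k → Fin m → Bool) : |yx a x| = 1 := by
  rcases yx_cases a x with h | h <;> rw [h] <;> norm_num

theorem av_yx (x : Fin k → Fin m → Bool) : av (fun a => yx a x) = 0 := by
  rw [av_prod]
  unfold yx
  have h : ∀ e : Fin k → Fin m, av (fun b => sg b * ∏ j, sg (x j (e j))) = 0 := by
    intro e
    rw [av_mul_right, av_sg, zero_mul]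
  simp only [h]
  unfold av
  simp

theorem KK_yx [NeZero m] (x x' : Fin k → Fin m → Bool) :
    KK yx x x' = ∏ j, av (fun i => sg (x j i) * sg (x' j i)) := by
  unfold KK
  rw [av_prod, ← av_pi (fun j i => sg (x j i) * sg (x' j i))]
  refine av_congr fun e => ?_
  unfold yx
  have h : ∀ b : Bool, sg b * (∏ j, sg (x j (e j))) * (sg b * ∏ j, sg (x' j (e j)))
      = ∏ j, sg (x j (e j)) * sg (x' j (e j)) := by
    intro b
    rw [prod_mul_distrib]
    calc sg b * (∏ j, sg (x j (e j))) * (sg b * ∏ j, sg (x' j (e j)))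
        = (sg b * sg b) * ((∏ j, sg (x j (e j))) * ∏ j, sg (x' j (e j))) := by ring
      _ = _ := by rw [sg_mul_self, one_mul]
  rw [av_congr h, av_const]

theorem KK_yx_moment [NeZero m] (x' : Fin k → Fin m → Bool) (N : ℕ) (hN : 1 ≤ N) :
    av (fun x => KK yx x x' ^ (2 * N)) ≤ ((6 * N / m : ℝ) ^ k) ^ N := by
  have h1 : ∀ x : Fin k → Fin m → Bool, KK yx x x' ^ (2 * N)
      = ∏ j, (av (fun i => sg (x j i) * sg (x' j i))) ^ (2 * N) := by
    intro x; rw [KK_yx, prod_pow]
  rw [av_congr h1, av_pi (fun j (z : Fin m → Bool) =>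
    (av (fun i => sg (z i) * sg (x' j i))) ^ (2 * N))]
  refine (prod_le_prod (fun j _ => ?_) fun j _ =>
    sign_moment (Nat.pos_of_ne_zero (NeZero.ne m)) (x' j) hN).trans (le_of_eq ?_)
  · refine av_nonneg fun z => ?_
    rw [pow_mul]; positivity
  · rw [prod_const, card_univ, Fintype.card_fin, ← pow_mul, ← pow_mul, mul_comm N k]

end xor

end Pool.Agent.TH661.LPX
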