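import Pool.Agent.TH661.LPX.SatS

namespace Pool.Agent.TH661.LPX

open Finset

/-- `params4`: asymptotic choice of the parameters. -/
theorem params4 {ε η : ℝ} (hε : 0 < ε) (hη0 : 0 < η) (hη1 : η ≤ 1 / 2) :
    ∃ C K : ℕ, 1 ≤ K ∧ ∀ n k D t : ℕ, 3 ≤ k → 1 ≤ D → 2 ^ k ≤ n → n ≤ 2 ^ t →
      (n : ℝ) ^ (1 + ε) * D * t * (C * t) ^ k ≤ n ^ k → ∃ M : ℕ,
      2 ^ k ≤ M ∧ M ≤ 2 ^ (2 * t) ∧ (n : ℝ) ≤ 2 * η ^ 2 * M ∧ (M : ℝ) ≤ n / η ^ 2 ∧
      ((5 * 10 ^ 4 * K ^ 2 * (2 * t)) ^ (k + 1) * M ^ 2 * D) ^ K * M ^ 4 ≤ n ^ ((k + 1) * K) ∧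
      (200 * K * (2 * t)) ^ ((k - 3) * K + 1) * (48 * k * 6 ^ k * M) ^ (2 * K)
        ≤ n ^ ((k - 1) * K + 1) := by
  obtain ⟨K, hK⟩ := exists_nat_ge (4 / ε)
  have hK0 : (0 : ℝ) < K := lt_of_lt_of_le (by positivity) hK
  have hK1 : 1 ≤ K := by
    have : 0 < K := by exact_mod_cast hK0
    omega
  have hKR : (1 : ℝ) ≤ K := by exact_mod_cast hK1
  set A : ℝ := 10 ^ 5 * (K : ℝ) ^ 2 with hA
  have hA1 : 1 ≤ A := by
    have : (1 : ℝ) ≤ (K : ℝ) ^ 2 := one_le_pow₀ hKR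
    rw [hA]
    linarith
  have hη2 : 0 < η ^ 2 := by positivity
  have hη2' : η ^ 2 ≤ 1 / 4 := by nlinarith
  set F : ℝ := 1 / η ^ 2 with hF
  have hF1 : 1 ≤ F := by rw [hF, le_div_iff₀ hη2]; linarith
  have hF0 : 0 < F := by linarith
  set B : ℝ := 48 ^ 2 * 144 ^ 3 * F ^ 2 with hB
  have hB1 : 1 ≤ B := by
    have : (1 : ℝ) ≤ F ^ 2 := one_le_pow₀ hF1
    rw [hB]
    linarith
  have hB0 : 0 < B := by linarith
  set P : ℝ := 144 * B ^ K with hP
  have hBK : 1 ≤ B ^ K := one_le_pow₀ hB1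
  have hP1 : 1 ≤ P := by rw [hP]; linarith
  have hP0 : 0 < P := by linarith
  obtain ⟨C, hC'⟩ := exists_nat_ge (A ^ 2 * F ^ 6 + P * (400 * K))
  have hC : A ^ 2 * F ^ 6 ≤ C := by
    have : 0 ≤ P * (400 * K) := by positivity
    linarith
  have hC2 : P * (400 * K) ≤ C := by
    have : 0 ≤ A ^ 2 * F ^ 6 := by positivity
    linarith
  refine ⟨C, K, hK1, fun n k D t hk hD hkn hnt hmain => ?_⟩
  have hk0 : 0 < k := by omega
  have hn2 : 2 ≤ n := le_trans (by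
    calc 2 = 2 ^ 1 := by norm_num
      _ ≤ 2 ^ k := Nat.pow_le_pow_right (by norm_num) hk0) hkn
  have hnR : (2 : ℝ) ≤ n := by exact_mod_cast hn2
  have hn0 : (0 : ℝ) < n := by linarith
  have hDR : (1 : ℝ) ≤ D := by exact_mod_cast hD
  have ht1 : 1 ≤ t := by
    rcases Nat.eq_zero_or_pos t with h | h
    · subst h; omega
    · exact h
  have htR : (1 : ℝ) ≤ t := by exact_mod_cast ht1
  have hCpos : (0 : ℝ) < C := lt_of_lt_of_le (by positivity) hC
  -- `n` is large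
  have hCtn : (C : ℝ) * t ≤ n := by
    have h1 : ((C : ℝ) * t) ^ k ≤ (n : ℝ) ^ k := by
      refine le_trans ?_ hmain
      have h2 : (1 : ℝ) ≤ (n : ℝ) ^ (1 + ε) := Real.one_le_rpow (by linarith) (by linarith)
      have h4 : (1 : ℝ) ≤ (n : ℝ) ^ (1 + ε) * D * t :=
        one_le_mul_of_one_le_of_one_le (one_le_mul_of_one_le_of_one_le h2 hDR) htR
      exact le_mul_of_one_le_left (by positivity) h4
    exact (pow_le_pow_iff_left₀ (by positivity) hn0.le (by omega)).mp h1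
  have hCn : (C : ℝ) ≤ n := (le_mul_of_one_le_right hCpos.le htR).trans hCtn
  have hηn : F ≤ n := by
    refine le_trans ?_ (hC.trans hCn)
    calc F ≤ F ^ 6 := le_self_pow₀ hF1 (by norm_num)
      _ ≤ A ^ 2 * F ^ 6 := le_mul_of_one_le_left (by positivity) (one_le_pow₀ hA1)
  -- the choice of `M`
  set M : ℕ := ⌈(n : ℝ) / (2 * η ^ 2)⌉₊ with hM
  have hM1 : (n : ℝ) / (2 * η ^ 2) ≤ M := Nat.le_ceil _
  have hM2 : (M : ℝ) ≤ n / η ^ 2 := by
    have h1 := Nat.ceil_lt_add_one (a := (n : ℝ) / (2 * η ^ 2)) (by positivity)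
    rw [← hM] at h1
    have h2 : (1 : ℝ) ≤ n / (2 * η ^ 2) := by
      rw [le_div_iff₀ (by positivity)]; linarith
    have h3 : (n : ℝ) / η ^ 2 = n / (2 * η ^ 2) + n / (2 * η ^ 2) := by field_simp; norm_num
    linarith
  have hM3 : (M : ℝ) ≤ n * F := by
    refine hM2.trans (le_of_eq ?_)
    rw [hF]; ring
  have hnM : (n : ℝ) ≤ 2 * η ^ 2 * M := by
    rw [div_le_iff₀ (by positivity)] at hM1
    linarith
  have hkM : 2 ^ k ≤ M := by
    have h1 : (n : ℝ) ≤ M := by nlinarith [(Nat.cast_nonneg M : (0 : ℝ) ≤ M)]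
    exact hkn.trans (by exact_mod_cast h1)
  have hntR : (n : ℝ) ≤ 2 ^ t := by exact_mod_cast hnt
  have hMt : M ≤ 2 ^ (2 * t) := by
    have h1 : (M : ℝ) ≤ 2 ^ (2 * t) := by
      calc (M : ℝ) ≤ n * F := hM3
        _ ≤ 2 ^ t * 2 ^ t := mul_le_mul hntR (hηn.trans hntR) (by positivity) (by positivity)
        _ = 2 ^ (2 * t) := by rw [← pow_add]; congr 1; ring
    exact_mod_cast h1
  have hMR0 : (0 : ℝ) ≤ M := Nat.cast_nonneg _
  refine ⟨M, hkM, hMt, hnM, hM2, ?_, ?_⟩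
  · -- the first inequality
    set g : ℝ := (n : ℝ) ^ ε with hg
    have hg0 : 0 < g := by positivity
    have hgK : (n : ℝ) ^ 4 ≤ g ^ K := by
      rw [hg, ← Real.rpow_natCast ((n : ℝ) ^ ε) K, ← Real.rpow_mul hn0.le,
        ← Real.rpow_natCast (n : ℝ) 4]
      refine Real.rpow_le_rpow_of_exponent_le (by linarith) ?_
      rw [div_le_iff₀ hε] at hK
      push_cast
      linarith
    have hM4K : (M : ℝ) ^ 4 ≤ (g * F ^ 4) ^ K := by
      have h1 : F ^ 4 ≤ (F ^ 4) ^ K := le_self_pow₀ (one_le_pow₀ hF1) (by omega)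
      calc (M : ℝ) ^ 4 ≤ (n * F) ^ 4 := pow_le_pow_left₀ hMR0 hM3 4
        _ = n ^ 4 * F ^ 4 := by ring
        _ ≤ g ^ K * (F ^ 4) ^ K := mul_le_mul hgK h1 (by positivity) (by positivity)
        _ = (g * F ^ 4) ^ K := (mul_pow _ _ _).symm
    have hfinal : (((5 * 10 ^ 4 * K ^ 2 * (2 * t)) ^ (k + 1) * M ^ 2 * D : ℝ)) ^ K * M ^ 4
        ≤ (n : ℝ) ^ ((k + 1) * K) := by
      calc (((5 * 10 ^ 4 * K ^ 2 * (2 * t)) ^ (k + 1) * M ^ 2 * D : ℝ)) ^ K * M ^ 4
          ≤ (((5 * 10 ^ 4 * K ^ 2 * (2 * t)) ^ (k + 1) * M ^ 2 * D : ℝ)) ^ K *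
            (g * F ^ 4) ^ K := mul_le_mul_of_nonneg_left hM4K (by positivity)
        _ = ((A * t) ^ (k + 1) * M ^ 2 * D * (g * F ^ 4)) ^ K := by
            rw [← mul_pow, hA]; congr 2; ring
        _ ≤ ((n : ℝ) ^ (k + 1)) ^ K := by
            refine pow_le_pow_left₀ (by positivity) ?_ K
            have h1 : (n : ℝ) ^ (1 + ε) = n * g := by
              rw [Real.rpow_add hn0, Real.rpow_one, hg]
            rw [h1] at hmain
            have h2 : (M : ℝ) ^ 2 ≤ n ^ 2 * F ^ 2 := by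
              calc (M : ℝ) ^ 2 ≤ (n * F) ^ 2 := pow_le_pow_left₀ hMR0 hM3 2
                _ = _ := by ring
            have h3 : A ^ (k + 1) * F ^ 6 ≤ (C : ℝ) ^ k := by
              calc A ^ (k + 1) * F ^ 6 ≤ A ^ (2 * k) * (F ^ 6) ^ k := by
                    refine mul_le_mul (pow_le_pow_right₀ hA1 (by omega))
                      (le_self_pow₀ (one_le_pow₀ hF1) (by omega)) (by positivity) (by positivity)
                _ = (A ^ 2 * F ^ 6) ^ k := by rw [mul_pow (A ^ 2) (F ^ 6) k, pow_mul A 2 k]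
                _ ≤ (C : ℝ) ^ k := pow_le_pow_left₀ (by positivity) hC k
            calc (A * t) ^ (k + 1) * M ^ 2 * D * (g * F ^ 4)
                ≤ (A * t) ^ (k + 1) * (n ^ 2 * F ^ 2) * D * (g * F ^ 4) := by gcongr
              _ = (A ^ (k + 1) * F ^ 6) * (n ^ 2 * g * D * t * t ^ k) := by
                  rw [mul_pow A, pow_succ (t : ℝ) k]; ring
              _ ≤ (C : ℝ) ^ k * (n ^ 2 * g * D * t * t ^ k) :=
                  mul_le_mul_of_nonneg_right h3 (by positivity)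
              _ = n * (n * g * D * t * (C * t) ^ k) := by rw [mul_pow (C : ℝ)]; ring
              _ ≤ n * n ^ k := mul_le_mul_of_nonneg_left hmain hn0.le
              _ = (n : ℝ) ^ (k + 1) := by ring
        _ = (n : ℝ) ^ ((k + 1) * K) := by rw [← pow_mul]
    exact_mod_cast hfinal
  · -- the second inequality
    obtain ⟨e, he⟩ : ∃ e, e = (k - 3) * K := ⟨_, rfl⟩
    have he2 : (k - 1) * K + 1 = (e + 1) + 2 * K := by
      have : k - 1 = (k - 3) + 2 := by omega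
      rw [this, he]; ring
    have hkK : k * K = 3 * K + e := by
      obtain ⟨j, rfl⟩ : ∃ j, k = 3 + j := ⟨k - 3, by omega⟩
      rw [he, Nat.add_sub_cancel_left]; ring
    have hL : P * (200 * K * (2 * t)) ≤ n := by
      calc P * (200 * K * (2 * t)) = P * (400 * K) * t := by ring
        _ ≤ C * t := mul_le_mul_of_nonneg_right hC2 (by linarith)
        _ ≤ n := hCtn
    have hk6 : (k : ℝ) * 6 ^ k ≤ 12 ^ k := by
      have h1 : (k : ℝ) ≤ 2 ^ k := by exact_mod_cast (Nat.lt_two_pow_self (n := k)).le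
      calc (k : ℝ) * 6 ^ k ≤ 2 ^ k * 6 ^ k := mul_le_mul_of_nonneg_right h1 (by positivity)
        _ = 12 ^ k := by rw [← mul_pow]; norm_num
    have hQ : (48 * k * 6 ^ k * M : ℝ) ^ (2 * K) ≤ P ^ (e + 1) * n ^ (2 * K) := by
      calc (48 * k * 6 ^ k * M : ℝ) ^ (2 * K)
          ≤ (48 * 12 ^ k * (n * F)) ^ (2 * K) := by
            refine pow_le_pow_left₀ (by positivity) ?_ _
            calc (48 * k * 6 ^ k * M : ℝ) = 48 * (k * 6 ^ k) * M := by ring
              _ ≤ 48 * 12 ^ k * (n * F) := by gcongr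
        _ = B ^ K * 144 ^ e * n ^ (2 * K) := by
            have h12 : ((12 : ℝ) ^ k) ^ (2 * K) = (144 ^ 3) ^ K * 144 ^ e := by
              rw [← pow_mul, show k * (2 * K) = 2 * (k * K) by ring, pow_mul, hkK, pow_add,
                pow_mul _ 3 K, show ((12 : ℝ) ^ 2) = 144 by norm_num]
            rw [mul_pow, mul_pow, mul_pow, h12, hB, mul_pow, mul_pow, pow_mul (48 : ℝ) 2 K,
              pow_mul F 2 K]
            ring
        _ ≤ P ^ (e + 1) * n ^ (2 * K) := by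
            refine mul_le_mul_of_nonneg_right ?_ (by positivity)
            calc B ^ K * 144 ^ e = 144 ^ e * B ^ K := mul_comm _ _
              _ ≤ 144 ^ (e + 1) * (B ^ K) ^ (e + 1) :=
                  mul_le_mul (pow_le_pow_right₀ (by norm_num) (Nat.le_succ e))
                    (le_self_pow₀ hBK (Nat.succ_ne_zero e)) (by positivity) (by positivity)
              _ = P ^ (e + 1) := (mul_pow _ _ _).symm
    have hfinal : (200 * K * (2 * t) : ℝ) ^ (e + 1) * (48 * k * 6 ^ k * M) ^ (2 * K)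
        ≤ (n : ℝ) ^ ((e + 1) + 2 * K) := by
      calc (200 * K * (2 * t) : ℝ) ^ (e + 1) * (48 * k * 6 ^ k * M) ^ (2 * K)
          ≤ (200 * K * (2 * t) : ℝ) ^ (e + 1) * (P ^ (e + 1) * n ^ (2 * K)) :=
            mul_le_mul_of_nonneg_left hQ (by positivity)
        _ = (P * (200 * K * (2 * t))) ^ (e + 1) * n ^ (2 * K) := by
            rw [mul_pow P]; ring
        _ ≤ (n : ℝ) ^ (e + 1) * n ^ (2 * K) :=
            mul_le_mul_of_nonneg_right (pow_le_pow_left₀ (by positivity) hL _) (by positivity)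
        _ = (n : ℝ) ^ ((e + 1) + 2 * K) := (pow_add _ _ _).symm
    rw [he2, ← he]
    exact_mod_cast hfinal

end Pool.Agent.TH661.LPX
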