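import Pool.Agent.TH661.LPX.Core

/-!
Truncated parity densities: the probability of a long chain of violations.
-/

set_option autoImplicit false

namespace Pool.Agent.TH661.LPX

open Finset

section prob

variable {X J A : Type*} [Fintype X] [Fintype J] [DecidableEq J]

variable {y : A → X → ℝ}

omit [Fintype X] [Fintype J] [DecidableEq J] in
theorem Y_congr {ω ω' : J → A} {E : Finset J} (h : ∀ i ∈ E, ω i = ω' i) :
    Y y ω E = Y y ω' E := by
  funext x
  unfold Y
  exact prod_congr rfl fun i hi => by rw [h i hi]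

omit [Fintype J] [DecidableEq J] in
theorem co_congr {ω ω' : J → A} {E : Finset J} (h : ∀ i ∈ E, ω i = ω' i) (g : X → ℝ) :
    co y ω g E = co y ω' g E := by
  unfold co; rw [Y_congr h]

omit [Fintype X] [Fintype J] [DecidableEq J] in
theorem up_congr {ω ω' : J → A} {E : Finset J} (h : ∀ i ∈ E, ω i = ω' i) (g : X → ℝ) :
    up y ω E g = up y ω' E g := by
  funext x
  unfold up
  congr 1
  exact prod_congr rfl fun i hi => by rw [h i hi]

omit [Fintype J] in
theorem Bad.congr {ω ω' : J → A} {δ θ : ℝ} {L1 c : ℕ} {S : Finset J} {g : X → ℝ}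
    (h : Bad y ω δ θ L1 c S g) (hω : ∀ i ∈ S, ω i = ω' i) : Bad y ω' δ θ L1 c S g := by
  induction h with
  | stop h hc =>
    refine Bad.stop ⟨h.1, h.2.1, h.2.2.1, h.2.2.2.1, ?_⟩ hc
    rw [← co_congr (fun i hi => hω i (h.1 hi))]
    exact h.2.2.2.2
  | step h hc hb ih =>
    refine Bad.step ⟨h.1, h.2.1, h.2.2.1, h.2.2.2.1, ?_⟩ hc ?_
    · rw [← co_congr (fun i hi => hω i (h.1 hi))]
      exact h.2.2.2.2
    · rw [← up_congr (fun i hi => hω i (h.1 hi))]
      exact ih (fun i hi => hω i (mem_sdiff.mp hi).1)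

variable [Fintype A] [Nonempty A]

/-- The probability of a chain of violations of total size more than `c`. -/
theorem bad_prob (hy : ∀ a x, |y a x| = 1) {δ θ G q W0 a : ℝ} {L1 : ℕ} (hW0 : 0 ≤ W0)
    (hW1 : W0 ≤ 1) (ha : 0 ≤ a) (haM : a * Fintype.card J ≤ 1 / 2) (hq : q = a * W0)
    (hviol : ∀ (g : X → ℝ) (E : Finset J), (∀ x, 0 ≤ g x) → (∀ x, g x ≤ G) → E.Nonempty →
      E.card ≤ L1 →
      av (fun ω : J → A => ind (δ < av g ∧ θ ^ E.card * av g < |co y ω g E|)) ≤ q ^ E.card)
    (c : ℕ) : ∀ (S : Finset J) (g : X → ℝ), (∀ x, 0 ≤ g x) → (∀ x, g x * 2 ^ c ≤ G) →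
      av (fun ω : J → A => ind (Bad y ω δ θ L1 c S g)) ≤ W0 ^ (c + 1) := by
  induction c using Nat.strong_induction_on with
  | _ c ih =>
    intro S g hg hG
    have hgG : ∀ x, g x ≤ G := fun x => by
      refine le_trans ?_ (hG x)
      exact le_mul_of_one_le_right (hg x) (one_le_pow₀ (by norm_num))
    -- the union bound
    have h1 : ∀ ω : J → A, ind (Bad y ω δ θ L1 c S g) ≤
        ∑ E ∈ S.powerset.filter (fun E => E.Nonempty),
          (if E.card ≤ L1 then
            (if c < E.card then ind (δ < av g ∧ θ ^ E.card * av g < |co y ω g E|)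
            else ind (δ < av g ∧ θ ^ E.card * av g < |co y ω g E|) *
              ind (Bad y ω δ θ L1 (c - E.card) (S \ E) (up y ω E g))) else 0) := by
      intro ω
      have hnn : ∀ E ∈ S.powerset.filter (fun E => E.Nonempty), 0 ≤
          (if E.card ≤ L1 then
            (if c < E.card then ind (δ < av g ∧ θ ^ E.card * av g < |co y ω g E|)
            else ind (δ < av g ∧ θ ^ E.card * av g < |co y ω g E|) *
              ind (Bad y ω δ θ L1 (c - E.card) (S \ E) (up y ω E g))) else 0) := by
        intro E _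
        split_ifs
        · exact ind_nonneg _
        · exact mul_nonneg (ind_nonneg _) (ind_nonneg _)
        · exact le_refl _
      by_cases hB : Bad y ω δ θ L1 c S g
      · rw [ind_true hB]
        cases hB with
        | @stop _ _ E _ h hc =>
          refine le_trans ?_ (single_le_sum hnn (mem_filter.mpr ⟨mem_powerset.mpr h.1, h.2.1⟩))
          rw [if_pos h.2.2.1, if_pos hc, ind_true h.2.2.2]
        | @step _ _ E _ h hc hb =>
          refine le_trans ?_ (single_le_sum hnn (mem_filter.mpr ⟨mem_powerset.mpr h.1, h.2.1⟩))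
          rw [if_pos h.2.2.1, if_neg (not_lt.mpr hc), ind_true h.2.2.2, ind_true hb, one_mul]
      · rw [ind_false hB]
        exact sum_nonneg hnn
    refine (av_mono h1).trans ?_
    rw [av_sum]
    -- each term
    have h2 : ∀ E ∈ S.powerset.filter (fun E => E.Nonempty),
        av (fun ω : J → A => (if E.card ≤ L1 then
            (if c < E.card then ind (δ < av g ∧ θ ^ E.card * av g < |co y ω g E|)
            else ind (δ < av g ∧ θ ^ E.card * av g < |co y ω g E|) *
              ind (Bad y ω δ θ L1 (c - E.card) (S \ E) (up y ω E g))) else 0))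
          ≤ a ^ E.card * W0 ^ (c + 1) := by
      intro E hE
      rw [mem_filter, mem_powerset] at hE
      have hpos : 0 < E.card := card_pos.mpr hE.2
      have hrhs : 0 ≤ a ^ E.card * W0 ^ (c + 1) := mul_nonneg (pow_nonneg ha _) (pow_nonneg hW0 _)
      by_cases hL : E.card ≤ L1
      · by_cases hc : c < E.card
        · simp only [if_pos hL, if_pos hc]
          refine (hviol g E hg hgG hE.2 hL).trans ?_
          rw [hq, mul_pow]
          exact mul_le_mul_of_nonneg_left (pow_le_pow_of_le_one hW0 hW1 (by omega))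
            (pow_nonneg ha _)
        · simp only [if_pos hL, if_neg hc]
          rw [av_mix E]
          have h3 : ∀ ω' : J → A, av (fun ω : J → A =>
              ind (δ < av g ∧ θ ^ E.card * av g < |co y (mix E ω' ω) g E|) *
              ind (Bad y (mix E ω' ω) δ θ L1 (c - E.card) (S \ E) (up y (mix E ω' ω) E g)))
              ≤ ind (δ < av g ∧ θ ^ E.card * av g < |co y ω' g E|) *
                W0 ^ (c - E.card + 1) := by
            intro ω'
            have h4 : ∀ ω : J → A,
                ind (δ < av g ∧ θ ^ E.card * av g < |co y (mix E ω' ω) g E|) *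
                ind (Bad y (mix E ω' ω) δ θ L1 (c - E.card) (S \ E) (up y (mix E ω' ω) E g))
                ≤ ind (δ < av g ∧ θ ^ E.card * av g < |co y ω' g E|) *
                ind (Bad y ω δ θ L1 (c - E.card) (S \ E) (up y ω' E g)) := by
              intro ω
              rw [co_congr (ω := mix E ω' ω) (ω' := ω') (fun i hi => mix_mem hi),
                up_congr (ω := mix E ω' ω) (ω' := ω') (fun i hi => mix_mem hi)]
              refine mul_le_mul_of_nonneg_left (ind_mono fun h => ?_) (ind_nonneg _)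
              exact h.congr fun i hi => mix_not_mem (mem_sdiff.mp hi).2
            refine (av_mono h4).trans ?_
            rw [av_mul_left]
            refine mul_le_mul_of_nonneg_left ?_ (ind_nonneg _)
            refine ih (c - E.card) (by omega) (S \ E) (up y ω' E g) (up_nonneg hy ω' E hg) ?_
            intro x
            refine le_trans ?_ (hG x)
            have h5 := prod_one_add_le hy ω' E x
            have h6 : (2 : ℝ) ^ c = 2 ^ E.card * 2 ^ (c - E.card) := by
              rw [← pow_add]; congr 1; omega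
            unfold up
            rw [h6, mul_assoc]
            exact mul_le_mul_of_nonneg_left
              (mul_le_mul_of_nonneg_right h5 (by positivity)) (hg x)
          refine (av_mono h3).trans ?_
          rw [av_mul_right]
          refine (mul_le_mul_of_nonneg_right (hviol g E hg hgG hE.2 hL)
            (pow_nonneg hW0 _)).trans (le_of_eq ?_)
          rw [hq, mul_pow, mul_assoc, ← pow_add]
          congr 2
          omega
      · simp only [if_neg hL]
        rw [show av (fun _ : J → A => (0 : ℝ)) = 0 from av_const 0]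
        exact hrhs
    refine (sum_le_sum h2).trans ?_
    rw [← sum_mul]
    refine (mul_le_mul_of_nonneg_right (sum_nonempty_pow_le S ha haM)
      (pow_nonneg hW0 _)).trans (le_of_eq (one_mul _))

omit [Nonempty A] in
theorem RR_prob {v : X → ℝ} {ρ : ℝ} {L1 L : ℕ} (hρ0 : 0 ≤ ρ)
    (hρ : ∀ E : Finset J, E.card ≤ L → av (fun ω : J → A => |co y ω v E|) ≤ ρ ^ E.card)
    (h2 : 2 * Fintype.card J * ρ ≤ 1) :
    av (fun ω : J → A => RR y ω L1 L v) ≤ (2 * Fintype.card J * ρ) ^ (L1 + 1) := by
  unfold RR
  rw [av_sum]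
  by_cases hM : Fintype.card J = 0
  · have : ∀ E ∈ univ.filter (fun E : Finset J => L1 < E.card ∧ E.card ≤ L),
        av (fun ω : J → A => |co y ω v E|) ≤ 0 := by
      intro E hE
      rw [mem_filter] at hE
      have := Finset.card_le_univ E
      omega
    refine (sum_nonpos this).trans ?_
    positivity
  have hMpos : (0 : ℝ) < Fintype.card J := by
    exact_mod_cast Nat.pos_of_ne_zero hM
  have hbase : 0 ≤ 2 * Fintype.card J * ρ := by positivity
  have h3 : ∀ E ∈ univ.filter (fun E : Finset J => L1 < E.card ∧ E.card ≤ L),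
      av (fun ω : J → A => |co y ω v E|) ≤
        (2 * Fintype.card J * ρ) ^ (L1 + 1) * (1 / (2 * Fintype.card J)) ^ E.card := by
    intro E hE
    rw [mem_filter] at hE
    refine (hρ E hE.2.2).trans ?_
    have h4 : ρ ^ E.card
        = (2 * Fintype.card J * ρ) ^ E.card * (1 / (2 * Fintype.card J)) ^ E.card := by
      rw [← mul_pow]; congr 1; field_simp
    rw [h4]
    refine mul_le_mul_of_nonneg_right (pow_le_pow_of_le_one hbase h2 (by omega)) (by positivity)
  refine (sum_le_sum h3).trans ?_
  rw [← mul_sum]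
  have h5 : ∑ E ∈ univ.filter (fun E : Finset J => L1 < E.card ∧ E.card ≤ L),
      (1 / (2 * (Fintype.card J : ℝ))) ^ E.card ≤ 1 := by
    refine le_trans ?_ (sum_nonempty_pow_le (univ : Finset J)
      (a := 1 / (2 * (Fintype.card J : ℝ))) (by positivity) ?_)
    · refine sum_le_sum_of_subset_of_nonneg ?_ fun _ _ _ => by positivity
      intro E hE
      rw [mem_filter] at hE
      rw [mem_filter, mem_powerset]
      exact ⟨subset_univ _, card_pos.mp (by omega)⟩
    · rw [div_mul_eq_mul_div, one_mul, div_le_div_iff₀ (by positivity) (by norm_num)]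
      linarith
  calc (2 * (Fintype.card J : ℝ) * ρ) ^ (L1 + 1) *
      ∑ E ∈ univ.filter (fun E : Finset J => L1 < E.card ∧ E.card ≤ L),
        (1 / (2 * (Fintype.card J : ℝ))) ^ E.card
      ≤ (2 * (Fintype.card J : ℝ) * ρ) ^ (L1 + 1) * 1 :=
        mul_le_mul_of_nonneg_left h5 (pow_nonneg hbase _)
    _ = _ := mul_one _

/-- The truncated density is almost nonnegative on a fixed function, except with small
probability. -/
theorem Z_prob [Nonempty J] (hy : ∀ a x, |y a x| = 1) {δ θ q W0 a ρ τ : ℝ} {L1 f L : ℕ}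
    (hL : L = L1 + f) (hδ : 0 ≤ δ) (hθ : 0 ≤ θ) (hθM : θ * Fintype.card J ≤ 1 / 2)
    (hW0 : 0 ≤ W0) (hW1 : W0 ≤ 1) (ha : 0 ≤ a) (haM : a * Fintype.card J ≤ 1 / 2)
    (hq : q = a * W0)
    (hviol : ∀ (g : X → ℝ) (E : Finset J), (∀ x, 0 ≤ g x) → (∀ x, g x ≤ 2 ^ f) → E.Nonempty →
      E.card ≤ L1 →
      av (fun ω : J → A => ind (δ < av g ∧ θ ^ E.card * av g < |co y ω g E|)) ≤ q ^ E.card)
    {v : X → ℝ} (hv0 : ∀ x, 0 ≤ v x) (hv1 : ∀ x, v x ≤ 1) (hρ0 : 0 ≤ ρ)
    (hρ : ∀ E : Finset J, E.card ≤ L → av (fun ω : J → A => |co y ω v E|) ≤ ρ ^ E.card)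
    (h2 : 2 * Fintype.card J * ρ ≤ 1) (hτ : 0 < τ) :
    av (fun ω : J → A => ind (av (fun x => v x * DL y ω L x) < - (δ * NL J L) - τ)) ≤
      W0 ^ (f + 1) + (2 * Fintype.card J * ρ) ^ (L1 + 1) / τ := by
  have h1 : ∀ ω : J → A, ind (av (fun x => v x * DL y ω L x) < - (δ * NL J L) - τ) ≤
      ind (Bad y ω δ θ L1 f univ v) + ind (τ < RR y ω L1 L v) := by
    intro ω
    refine le_trans (ind_mono fun h => ?_) (ind_or _ _)
    by_contra hcon
    push Not at hcon
    have := Z_ge_of_not_bad hy ω hδ hθ hθM hL hv0 hcon.1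
    linarith [hcon.2]
  refine (av_mono h1).trans ?_
  rw [av_add]
  refine add_le_add ?_ ?_
  · refine bad_prob hy hW0 hW1 ha haM hq hviol f univ v hv0 fun x => ?_
    have : (0 : ℝ) ≤ 2 ^ f := by positivity
    nlinarith [hv1 x]
  · refine (av_ind_lt_le (fun ω => ?_) hτ).trans ?_
    · unfold RR; exact sum_nonneg fun _ _ => abs_nonneg _
    · exact div_le_div_of_nonneg_right (RR_prob hρ0 hρ h2) hτ.le

end prob

end Pool.Agent.TH661.LPX
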