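import Pool.Agent.TH661.LPX.SatC
import Pool.Agent.TH661.LPX.ProgDef

/-!
Mixed-binary conic programs for Max-k-SAT: the lower bound.
-/

set_option autoImplicit false

namespace Pool.Agent.TH661.LPX

open Finset

theorem aff_sum {d : ℕ} {ι : Type*} (s : Finset ι) (a : (Fin d → ℝ) × ℝ) (γ : ι → ℝ)
    (z : ι → Fin d → ℝ) (h : ∑ i ∈ s, γ i = 1) :
    aff a (∑ i ∈ s, γ i • z i) = ∑ i ∈ s, γ i * aff a (z i) := by
  unfold aff
  simp only [Finset.sum_apply, Pi.smul_apply, smul_eq_mul, mul_add, mul_sum]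
  rw [sum_add_distrib, ← sum_mul, h, one_mul, sum_comm]
  congr 1
  exact sum_congr rfl fun i _ => sum_congr rfl fun j _ => by ring

open Classical in
/-- The explicit form of the lower bound for mixed-binary conic programs. -/
theorem maxsat_program {k n M t N b r D : ℕ} {η : ℝ} (hk : 1 ≤ k) (hkM : 2 ^ k ≤ M)
    (hMt : M ≤ 2 ^ t) (hη0 : 0 ≤ η) (hη1 : η ≤ 1 / 2) (hnM : (n : ℝ) ≤ 2 * η ^ 2 * M)
    (hmain : 64 * M ^ (12 + 8 * D) * (2 * 10 ^ 4 * t) ^ k ≤ n ^ k) (hn1 : 1 ≤ n)
    (hN : M * 2 ^ (k - 1) ≤ N) (hD : D + 1 ≤ 2 ^ t) (hsize : 2 ^ b * (r * (D + 1) + 1) ≤ 2 ^ t)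
    (P : ConicProgram b r (D + 1)) (S : Formulation n k N P) :
    ∃ F : CNF n, Exactly k F ∧ F.length = M * 2 ^ (k - 1) ∧
      (∀ x, (satCount F x : ℝ) ≤ (1 - (1 - 2 * η) / 2 ^ k) * F.length) ∧
      ∃ z, P.Feasible z ∧ (1 - 1 / 2 ^ t) * F.length ≤ aff (S.w F) z := by
  have hm : k * (n / k) ≤ n := Nat.mul_div_le n k
  obtain ⟨ω, hω, q, γ, hγq, hγ1, hγs, hγv⟩ := cone_parity hk hkM hMt hη0 hη1 hnM hmain hn1 hD
    hsize (fun z i => decide (aff (P.bin i) (S.y (ext hm z)) = 1))
    (fun j z l => aff (P.map j l) (S.y (ext hm z)))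
  have hM0 : 0 < M := lt_of_lt_of_le (by positivity) hkM
  have hMR : (0 : ℝ) < M := by exact_mod_cast hM0
  have h2k : (2 : ℝ) ^ k = 2 * 2 ^ (k - 1) := by
    rw [← pow_succ']; congr 1; omega
  have hlen : ((formula hm ω).length : ℝ) = M * 2 ^ (k - 1) := by
    rw [formula_length hm hk]; push_cast; ring
  refine ⟨formula hm ω, formula_exact hm ω, formula_length hm hk ω, ?_, ?_⟩
  · intro x
    rw [formula_count hm hk, hlen]
    have h1 := hω (fun j i => x (var hm j i))
    have h2 : (1 - (1 - 2 * η) / 2 ^ k) * ((M : ℝ) * 2 ^ (k - 1))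
        = M * 2 ^ (k - 1) - (M - 2 * η * M) / 2 := by
      rw [h2k]; field_simp
    rw [h2]
    linarith
  · -- the feasible point
    have hval : ∀ z, aff (S.w (formula hm ω)) (S.y (ext hm z))
        = M * 2 ^ (k - 1) - M + M * sat yx ω z := by
      intro z
      rw [S.value _ (formula_exact hm ω) (by rw [formula_length hm hk]; exact hN),
        formula_count hm hk]
      have h1 : (fun j i => ext hm z (var hm j i)) = z := by
        funext j i; exact ext_var hm z j i
      rw [h1]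
      unfold sat
      rw [Fintype.card_fin]
      field_simp
      ring
    refine ⟨∑ z, γ z • S.y (ext hm z), ⟨?_, ?_, ?_⟩, ?_⟩
    · intro a ha
      rw [aff_sum _ _ _ _ hγ1]
      exact sum_eq_zero fun z _ => by rw [(S.feasible (ext hm z)).1 a ha, mul_zero]
    · intro i
      rw [aff_sum _ _ _ _ hγ1]
      have h1 : ∀ z, γ z * aff (P.bin i) (S.y (ext hm z))
          = γ z * (if q i = true then 1 else 0) := by
        intro z
        by_cases hz : (fun i => decide (aff (P.bin i) (S.y (ext hm z)) = 1)) = q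
        · congr 1
          have h2 : decide (aff (P.bin i) (S.y (ext hm z)) = 1) = q i := congrFun hz i
          rw [← h2]
          rcases (S.feasible (ext hm z)).2.1 i with h3 | h3
          · rw [h3]; simp
          · rw [h3]; simp
        · rw [hγq z hz, zero_mul, zero_mul]
      rw [sum_congr rfl fun z _ => h1 z, ← sum_mul, hγ1, one_mul]
      by_cases hq : q i = true
      · right; rw [if_pos hq]
      · left; rw [if_neg hq]
    · intro j
      refine mem_cone (P.closed j) (P.convex j) (P.scale j)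
        ⟨_, (S.feasible (fun _ => false)).2.2 j⟩ fun a ha => ?_
      have h1 := hγs j a fun z => ha _ ((S.feasible (ext hm z)).2.2 j)
      have h2 : ∑ l, a l * aff (P.map j l) (∑ z, γ z • S.y (ext hm z))
          = ∑ z, γ z * ∑ l, a l * aff (P.map j l) (S.y (ext hm z)) := by
        simp only [aff_sum _ _ _ _ hγ1, mul_sum]
        rw [sum_comm]
        exact sum_congr rfl fun z _ => sum_congr rfl fun l _ => by ring
      rw [h2]
      exact h1
    · rw [aff_sum _ _ _ _ hγ1]
      have h1 : ∀ z, γ z * aff (S.w (formula hm ω)) (S.y (ext hm z))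
          = γ z * (M * 2 ^ (k - 1) - M) + M * (γ z * sat yx ω z) := by
        intro z
        rw [hval]; ring
      rw [sum_congr rfl fun z _ => h1 z, sum_add_distrib, ← sum_mul, hγ1, ← mul_sum, hlen]
      have h3 : (M : ℝ) * (1 - 1 / 2 ^ t) ≤ M * ∑ z, γ z * sat yx ω z :=
        mul_le_mul_of_nonneg_left hγv hMR.le
      have h4 : (1 : ℝ) ≤ 2 ^ (k - 1) := one_le_pow₀ (by norm_num)
      have h5 : (0 : ℝ) < 1 / 2 ^ t := by positivity
      have h6 : (M : ℝ) * (1 / 2 ^ t) ≤ M * (1 / 2 ^ t) * 2 ^ (k - 1) :=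
        le_mul_of_one_le_right (by positivity) h4
      nlinarith

end Pool.Agent.TH661.LPX
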