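import Pool.Agent.TH661.LPX.ProgDef

/-!
Linear programming formulations of Max-k-SAT: definitions.
-/

set_option autoImplicit false

namespace Pool.Agent.TH661.LPX

/-- The zero-one vector of `β`. -/
def bits {b : ℕ} (β : Fin b → Bool) : Fin b → ℝ := fun j => if β j = true then 1 else 0

/-- A mixed-binary linear programming formulation of Max-k-SAT for the formulas with `n` variables
and at most `N` clauses. It has `b` binary variables, any number `d` of free real variables, `r`
nonnegative real variables, and any number `q` of linear equations `A (β, f, z) = c`; this feasible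
region does not depend on the formula. Every assignment `x` has a feasible point `y x`. Every
formula has an affine objective function, whose value at `y x` is the number of clauses which are
true at `x`. -/
structure MaxSatLP (n k N b r : ℕ) where
  d : ℕ
  q : ℕ
  A : ((Fin b → ℝ) × (Fin d → ℝ) × (Fin r → ℝ)) →ₗ[ℝ] (Fin q → ℝ)
  c : Fin q → ℝ
  y : (Fin n → Bool) → (Fin b → Bool) × (Fin d → ℝ) × (Fin r → ℝ)
  w : CNF n → ((Fin b → ℝ) × (Fin d → ℝ) × (Fin r → ℝ)) →ₗ[ℝ] ℝ
  w0 : CNF n → ℝ
  nonneg : ∀ x j, 0 ≤ (y x).2.2 j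
  eqn : ∀ x, A (bits (y x).1, (y x).2) = c
  value : ∀ F, Exactly k F → F.length ≤ N → ∀ x,
    w F (bits (y x).1, (y x).2) + w0 F = satCount F x

/-- There is a feasible point at which the objective of `F` is at least `v`. -/
def MaxSatLP.Reaches {n k N b r : ℕ} (P : MaxSatLP n k N b r) (F : CNF n) (v : ℝ) : Prop :=
  ∃ (β : Fin b → Bool) (f : Fin P.d → ℝ) (z : Fin r → ℝ),
    (∀ j, 0 ≤ z j) ∧ P.A (bits β, f, z) = P.c ∧ v ≤ P.w F (bits β, f, z) + P.w0 F

end Pool.Agent.TH661.LPX
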