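import Mathlib
import Pool.Agent.TH661.LPX.Num
import Pool.Agent.TH661.LPX.SatDef

/-!
Linear programming formulations of Max-k-SAT.
-/

set_option autoImplicit false

namespace Pool.Agent.TH661.LPX

open Finset

section reduction

variable {n k : ℕ}

/-- The variable `i` of the block `j`. -/
def var {m : ℕ} (h : k * m ≤ n) (j : Fin k) (i : Fin m) : Fin n :=
  ⟨j * m + i, by
    have h1 : (j : ℕ) * m + m ≤ k * m := by
      have h2 : (j : ℕ) + 1 ≤ k := j.2
      calc (j : ℕ) * m + m = (j + 1) * m := by ring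
        _ ≤ k * m := Nat.mul_le_mul_right m h2
    have h3 := i.2
    omega⟩

theorem var_inj {m : ℕ} (h : k * m ≤ n) {j j' : Fin k} {i i' : Fin m}
    (hv : var h j i = var h j' i') : j = j' ∧ i = i' := by
  have h1 : (j : ℕ) * m + i = j' * m + i' := congrArg Fin.val hv
  have hm : 0 < m := by have := i.2; omega
  have h2 : (j : ℕ) = j' := by
    have h3 : ((j : ℕ) * m + i) / m = j := by
      rw [mul_comm, Nat.mul_add_div hm, Nat.div_eq_of_lt i.2, add_zero]
    have h4 : ((j' : ℕ) * m + i') / m = j' := by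
      rw [mul_comm, Nat.mul_add_div hm, Nat.div_eq_of_lt i'.2, add_zero]
    rw [← h3, ← h4, h1]
  refine ⟨Fin.ext h2, Fin.ext ?_⟩
  rw [h2] at h1
  omega

open Classical in
/-- The assignment with the given blocks. -/
noncomputable def ext {m : ℕ} (h : k * m ≤ n) (z : Fin k → Fin m → Bool) : Fin n → Bool :=
  fun v => decide (∃ j i, var h j i = v ∧ z j i = true)

theorem ext_var {m : ℕ} (h : k * m ≤ n) (z : Fin k → Fin m → Bool) (j : Fin k) (i : Fin m) :
    ext h z (var h j i) = z j i := by
  unfold ext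
  by_cases hz : z j i = true
  · rw [hz, decide_eq_true_eq]
    exact ⟨j, i, rfl, hz⟩
  · rw [Bool.not_eq_true] at hz
    rw [hz, decide_eq_false_iff_not]
    rintro ⟨j', i', hv, hz'⟩
    obtain ⟨h1, h2⟩ := var_inj h hv
    subst h1 h2
    rw [hz] at hz'
    exact Bool.false_ne_true hz'

/-- The clause which excludes the values `u` of the variables `(j, e j)`. -/
def clause {m : ℕ} (h : k * m ≤ n) (e : Fin k → Fin m) (u : Fin k → Bool) :
    List (Fin n × Bool) :=
  (List.finRange k).map fun j => (var h j (e j), !(u j))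

theorem clause_exact {m : ℕ} (h : k * m ≤ n) (e : Fin k → Fin m) (u : Fin k → Bool) :
    (clause h e u).length = k ∧ ((clause h e u).map Prod.fst).Nodup := by
  unfold clause
  refine ⟨by simp, ?_⟩
  rw [List.map_map]
  refine List.Nodup.map ?_ (List.nodup_finRange k)
  intro j j' hj
  exact (var_inj h hj).1

theorem clause_any {m : ℕ} (h : k * m ≤ n) (e : Fin k → Fin m) (u : Fin k → Bool)
    (x : Fin n → Bool) :
    ((clause h e u).any fun l => x l.1 == l.2) = decide (u ≠ fun j => x (var h j (e j))) := by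
  rw [Bool.eq_iff_iff, List.any_eq_true, decide_eq_true_eq]
  unfold clause
  constructor
  · rintro ⟨l, hl, hx⟩ hu
    rw [List.mem_map] at hl
    obtain ⟨j, -, rfl⟩ := hl
    have h1 := congrFun hu j
    simp only [beq_iff_eq] at hx
    rw [hx] at h1
    cases hu' : u j <;> simp [hu'] at h1
  · intro hu
    have h1 : ∃ j, u j ≠ x (var h j (e j)) := by
      by_contra hcon
      push Not at hcon
      exact hu (funext hcon)
    obtain ⟨j, hj⟩ := h1
    refine ⟨(var h j (e j), !(u j)), List.mem_map.mpr ⟨j, List.mem_finRange j, rfl⟩, ?_⟩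
    simp only [beq_iff_eq]
    cases hu' : u j <;> cases hx' : x (var h j (e j)) <;> simp [hu', hx'] at hj ⊢

/-- The values which violate the parity constraint with right-hand side `a`. -/
noncomputable def viols (k : ℕ) (a : Bool) : Finset (Fin k → Bool) :=
  univ.filter fun u => sg a * ∏ j, sg (u j) = -1

theorem sg_prod_cases (a : Bool) (u : Fin k → Bool) :
    sg a * ∏ j, sg (u j) = 1 ∨ sg a * ∏ j, sg (u j) = -1 := by
  have h := yx_cases (m := 1) (k := k) (fun _ => 0, a) (fun j _ => u j)
  exact h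

theorem card_viols (hk : 1 ≤ k) (a : Bool) : (viols k a).card = 2 ^ (k - 1) := by
  -- flipping the first bit exchanges the two kinds
  have h0 : 0 < k := hk
  set flip : (Fin k → Bool) → (Fin k → Bool) := fun u => Function.update u ⟨0, h0⟩ (!(u ⟨0, h0⟩))
    with hflip
  have hff : ∀ u, flip (flip u) = u := by
    intro u; simp [hflip]
  have hsg : ∀ u : Fin k → Bool, sg a * ∏ j, sg (flip u j) = -(sg a * ∏ j, sg (u j)) := by
    intro u
    have h1 : ∏ j, sg (flip u j) = -∏ j, sg (u j) := by
      rw [← mul_prod_erase univ (fun j => sg (flip u j)) (mem_univ (⟨0, h0⟩ : Fin k)),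
        ← mul_prod_erase univ (fun j => sg (u j)) (mem_univ (⟨0, h0⟩ : Fin k))]
      have h2 : ∏ j ∈ univ.erase (⟨0, h0⟩ : Fin k), sg (flip u j)
          = ∏ j ∈ univ.erase (⟨0, h0⟩ : Fin k), sg (u j) := by
        refine prod_congr rfl fun j hj => ?_
        rw [hflip]
        simp only
        rw [Function.update_of_ne (ne_of_mem_erase hj)]
      rw [h2]
      have h3 : sg (flip u ⟨0, h0⟩) = - sg (u ⟨0, h0⟩) := by
        rw [hflip]
        simp only [Function.update_self]
        cases u ⟨0, h0⟩ <;> simp [sg]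
      rw [h3]; ring
    rw [h1]; ring
  have hc : (viols k a).card = (univ.filter fun u : Fin k → Bool => ¬ (u ∈ viols k a)).card := by
    refine Finset.card_bij' (fun u _ => flip u) (fun u _ => flip u) ?_ ?_ ?_ ?_
    · intro u hu
      rw [mem_filter]
      refine ⟨mem_univ _, ?_⟩
      unfold viols at hu ⊢
      rw [mem_filter] at hu ⊢
      rw [hsg, hu.2]
      norm_num
    · intro u hu
      rw [mem_filter] at hu
      unfold viols at hu ⊢
      rw [mem_filter] at hu ⊢
      refine ⟨mem_univ _, ?_⟩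
      rw [hsg]
      rcases sg_prod_cases a u with h | h
      · rw [h]
      · exact absurd ⟨mem_univ _, h⟩ hu.2
    · intro u _; exact hff u
    · intro u _; exact hff u
  have ht : (viols k a).card + (univ.filter fun u : Fin k → Bool => ¬ (u ∈ viols k a)).card
      = 2 ^ k := by
    have h1 := Finset.card_filter_add_card_filter_not (s := (univ : Finset (Fin k → Bool)))
      (fun u => u ∈ viols k a)
    have h2 : (univ.filter fun u : Fin k → Bool => u ∈ viols k a) = viols k a := by
      ext u; simp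
    rw [h2, card_univ, Fintype.card_fun, Fintype.card_fin, Fintype.card_bool] at h1
    exact h1
  have h2k : 2 ^ k = 2 * 2 ^ (k - 1) := by
    rw [← pow_succ']; congr 1; omega
  omega

/-- The clauses of a parity constraint. -/
noncomputable def clauses {m : ℕ} (h : k * m ≤ n) (a : (Fin k → Fin m) × Bool) : CNF n :=
  (viols k a.2).toList.map fun u => clause h a.1 u

theorem clauses_count {m : ℕ} (h : k * m ≤ n) (hk : 1 ≤ k) (a : (Fin k → Fin m) × Bool)
    (x : Fin n → Bool) :
    ((satCount (clauses h a) x : ℕ) : ℝ)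
      = 2 ^ (k - 1) - (1 - yx a (fun j i => x (var h j i))) / 2 := by
  unfold satCount clauses
  rw [List.countP_map]
  set u0 : Fin k → Bool := fun j => x (var h j (a.1 j)) with hu0
  have h1 : ((fun C : List (Fin n × Bool) => C.any fun l => x l.1 == l.2) ∘ fun u =>
      clause h a.1 u) = fun u => decide (u ≠ u0) := by
    funext u
    exact clause_any h a.1 u x
  rw [h1]
  have h2 : (viols k a.2).toList.countP (fun u => decide (u ≠ u0))
      = ((viols k a.2).filter fun u => u ≠ u0).card := by
    rw [List.countP_eq_length_filter, ← Finset.length_toList]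
    apply List.Perm.length_eq
    apply (List.perm_ext_iff_of_nodup ((Finset.nodup_toList _).filter _)
      (Finset.nodup_toList _)).mpr
    intro u
    simp
  rw [h2]
  have h3 : yx a (fun j i => x (var h j i)) = sg a.2 * ∏ j, sg (u0 j) := rfl
  rw [h3]
  have h4 : (viols k a.2).filter (fun u => u ≠ u0) = (viols k a.2).erase u0 := by
    ext u
    simp only [mem_filter, mem_erase]
    tauto
  rw [h4]
  by_cases hmem : u0 ∈ viols k a.2
  · rw [card_erase_of_mem hmem, card_viols hk]
    have h5 : sg a.2 * ∏ j, sg (u0 j) = -1 := (mem_filter.mp hmem).2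
    rw [h5]
    have h6 : 1 ≤ 2 ^ (k - 1) := Nat.one_le_two_pow
    push_cast [h6]
    norm_num
  · rw [erase_eq_of_notMem hmem, card_viols hk]
    have h5 : sg a.2 * ∏ j, sg (u0 j) = 1 := by
      rcases sg_prod_cases a.2 u0 with h | h
      · exact h
      · exact absurd (show u0 ∈ viols k a.2 from mem_filter.mpr ⟨mem_univ _, h⟩) hmem
    rw [h5]
    push_cast
    norm_num

/-- The formula of a system of parity constraints. -/
noncomputable def formula {m M : ℕ} (h : k * m ≤ n) (ω : Fin M → (Fin k → Fin m) × Bool) :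
    CNF n :=
  (List.finRange M).flatMap fun i => clauses h (ω i)

theorem formula_exact {m M : ℕ} (h : k * m ≤ n) (ω : Fin M → (Fin k → Fin m) × Bool) :
    Exactly k (formula h ω) := by
  intro C hC
  unfold formula clauses at hC
  rw [List.mem_flatMap] at hC
  obtain ⟨i, -, hC⟩ := hC
  rw [List.mem_map] at hC
  obtain ⟨u, -, rfl⟩ := hC
  exact clause_exact h (ω i).1 u

theorem formula_length {m M : ℕ} (h : k * m ≤ n) (hk : 1 ≤ k)
    (ω : Fin M → (Fin k → Fin m) × Bool) : (formula h ω).length = M * 2 ^ (k - 1) := by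
  unfold formula clauses
  rw [List.length_flatMap]
  have h1 : (List.finRange M).map (fun i =>
      ((viols k (ω i).2).toList.map fun u => clause h (ω i).1 u).length)
      = (List.finRange M).map fun _ => 2 ^ (k - 1) := by
    refine List.map_congr_left fun i _ => ?_
    rw [List.length_map, Finset.length_toList, card_viols hk]
  rw [h1]
  simp

theorem formula_count {m M : ℕ} (h : k * m ≤ n) (hk : 1 ≤ k)
    (ω : Fin M → (Fin k → Fin m) × Bool) (x : Fin n → Bool) :
    ((satCount (formula h ω) x : ℕ) : ℝ)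
      = M * 2 ^ (k - 1) - (M - ∑ i, yx (ω i) (fun j i => x (var h j i))) / 2 := by
  unfold formula satCount
  rw [List.countP_flatMap]
  have h1 : (((List.finRange M).map (List.countP (fun C => C.any fun l => x l.1 == l.2) ∘
      fun i => clauses h (ω i))).sum : ℕ)
      = ∑ i : Fin M, satCount (clauses h (ω i)) x := by
    rw [← List.sum_ofFn, List.ofFn_eq_map]
    rfl
  rw [h1]
  push_cast
  rw [sum_congr rfl fun i _ => clauses_count h hk (ω i) x]
  rw [sum_sub_distrib, sum_const, card_univ, Fintype.card_fin, nsmul_eq_mul, ← sum_div,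
    sum_sub_distrib, sum_const, card_univ, Fintype.card_fin, nsmul_eq_mul, mul_one]

end reduction

/-- The explicit form of the lower bound. -/
theorem maxsat_lp {k n M t N b r : ℕ} {η : ℝ} (hk : 1 ≤ k) (hkM : 2 ^ k ≤ M) (hMt : M ≤ 2 ^ t)
    (hη0 : 0 ≤ η) (hη1 : η ≤ 1 / 2) (hnM : (n : ℝ) ≤ 2 * η ^ 2 * M)
    (hmain : 64 * M ^ 12 * (10 ^ 4 * t) ^ k ≤ n ^ k) (hn1 : 1 ≤ n)
    (hN : M * 2 ^ (k - 1) ≤ N) (hsize : 2 ^ b * (r + 1) ≤ 2 ^ t) (P : MaxSatLP n k N b r) :
    ∃ F : CNF n, Exactly k F ∧ F.length = M * 2 ^ (k - 1) ∧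
      (∀ x, (satCount F x : ℝ) ≤ (1 - (1 - 2 * η) / 2 ^ k) * F.length) ∧
      P.Reaches F ((1 - 1 / 2 ^ t) * F.length) := by
  have hm : k * (n / k) ≤ n := Nat.mul_div_le n k
  obtain ⟨ω, hω, q, γ, hγq, hγ1, hγs, hγv⟩ := lp_parity hk hkM hMt hη0 hη1 hnM hmain hn1 hsize
    (fun z => (P.y (ext hm z)).1) (fun j z => (P.y (ext hm z)).2.2 j)
    (fun j z => P.nonneg _ j)
  have hM0 : 0 < M := lt_of_lt_of_le (by positivity) hkM
  have hMR : (0 : ℝ) < M := by exact_mod_cast hM0
  have h2k : (2 : ℝ) ^ k = 2 * 2 ^ (k - 1) := by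
    rw [← pow_succ']; congr 1; omega
  have hlen : ((formula hm ω).length : ℝ) = M * 2 ^ (k - 1) := by
    rw [formula_length hm hk]; push_cast; ring
  refine ⟨formula hm ω, formula_exact hm ω, formula_length hm hk ω, ?_, ?_⟩
  · intro x
    rw [formula_count hm hk, hlen]
    have h1 := hω (fun j i => x (var hm j i))
    have h2 : (1 - (1 - 2 * η) / 2 ^ k) * ((M : ℝ) * 2 ^ (k - 1))
        = M * 2 ^ (k - 1) - (M - 2 * η * M) / 2 := by
      rw [h2k]; field_simp
    rw [h2]
    linarith
  · -- the feasible point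
    have hval : ∀ z, P.w (formula hm ω) (bits (P.y (ext hm z)).1, (P.y (ext hm z)).2)
        + P.w0 (formula hm ω) = M * 2 ^ (k - 1) - M + M * sat yx ω z := by
      intro z
      rw [P.value _ (formula_exact hm ω) (by rw [formula_length hm hk]; exact hN),
        formula_count hm hk]
      have h1 : (fun j i => ext hm z (var hm j i)) = z := by
        funext j i; exact ext_var hm z j i
      rw [h1]
      unfold sat
      rw [Fintype.card_fin]
      field_simp
      ring
    have hbits : ∑ z, γ z • bits (P.y (ext hm z)).1 = bits q := by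
      have h1 : ∀ z, γ z • bits (P.y (ext hm z)).1 = γ z • bits q := by
        intro z
        by_cases hz : (P.y (ext hm z)).1 = q
        · rw [hz]
        · rw [hγq z hz, zero_smul, zero_smul]
      rw [sum_congr rfl fun z _ => h1 z, ← sum_smul, hγ1, one_smul]
    have hsum : ∑ z, γ z • ((bits (P.y (ext hm z)).1, (P.y (ext hm z)).2) :
        (Fin b → ℝ) × (Fin P.d → ℝ) × (Fin r → ℝ))
        = (bits q, ∑ z, γ z • (P.y (ext hm z)).2.1, ∑ z, γ z • (P.y (ext hm z)).2.2) := by
      refine Prod.ext ?_ (Prod.ext ?_ ?_)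
      · rw [Prod.fst_sum]; exact hbits
      · rw [Prod.snd_sum, Prod.fst_sum]; rfl
      · rw [Prod.snd_sum, Prod.snd_sum]; rfl
    refine ⟨q, ∑ z, γ z • (P.y (ext hm z)).2.1, ∑ z, γ z • (P.y (ext hm z)).2.2, ?_, ?_, ?_⟩
    · intro j
      rw [Finset.sum_apply]
      exact hγs j
    · rw [← hsum, map_sum]
      have h1 : ∀ z, P.A (γ z • ((bits (P.y (ext hm z)).1, (P.y (ext hm z)).2) :
          (Fin b → ℝ) × (Fin P.d → ℝ) × (Fin r → ℝ))) = γ z • P.c := by
        intro z; rw [map_smul, P.eqn]
      rw [sum_congr rfl fun z _ => h1 z, ← sum_smul, hγ1, one_smul]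
    · rw [← hsum, map_sum]
      have h1 : ∀ z, P.w (formula hm ω) (γ z • ((bits (P.y (ext hm z)).1, (P.y (ext hm z)).2) :
          (Fin b → ℝ) × (Fin P.d → ℝ) × (Fin r → ℝ)))
          = γ z * (M * 2 ^ (k - 1) - M - P.w0 (formula hm ω)) + M * (γ z * sat yx ω z) := by
        intro z
        rw [map_smul, smul_eq_mul]
        have := hval z
        have h2 : P.w (formula hm ω) (bits (P.y (ext hm z)).1, (P.y (ext hm z)).2)
            = M * 2 ^ (k - 1) - M + M * sat yx ω z - P.w0 (formula hm ω) := by linarith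
        rw [h2]; ring
      rw [sum_congr rfl fun z _ => h1 z, sum_add_distrib, ← sum_mul, hγ1, ← mul_sum, hlen]
      have h3 : (M : ℝ) * (1 - 1 / 2 ^ t) ≤ M * ∑ z, γ z * sat yx ω z :=
        mul_le_mul_of_nonneg_left hγv hMR.le
      have h4 : (1 : ℝ) ≤ 2 ^ (k - 1) := one_le_pow₀ (by norm_num)
      have h5 : (0 : ℝ) < 1 / 2 ^ t := by positivity
      have h6 : (M : ℝ) * (1 / 2 ^ t) ≤ M * (1 / 2 ^ t) * 2 ^ (k - 1) :=
        le_mul_of_one_le_right (by positivity) h4
      nlinarith

end Pool.Agent.TH661.LPX
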