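import Pool.Agent.TH661.LPX.Num4
import Pool.Agent.TH661.LPX.Par4

/-!
Mixed-binary conic programs for Max-k-SAT: the lower bound with designs.
-/

set_option autoImplicit false

namespace Pool.Agent.TH661.LPX

open Finset

/-- Mixed-binary conic programs for parity constraints on `k` blocks of `n / k` variables. -/
theorem cone_parity4 {k n M t b r D K : ℕ} {η : ℝ} (hk : 3 ≤ k) (hK : 1 ≤ K) (hkM : 2 ^ k ≤ M)
    (hMt : M ≤ 2 ^ t)
    (hη0 : 0 ≤ η) (hη1 : η ≤ 1 / 2) (hnM : (n : ℝ) ≤ 2 * η ^ 2 * M)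
    (hmain : ((5 * 10 ^ 4 * K ^ 2 * t) ^ (k + 1) * M ^ 2 * (D + 1)) ^ K * M ^ 4
      ≤ n ^ ((k + 1) * K))
    (hexp : (200 * K * t) ^ ((k - 3) * K + 1) * (48 * k * 6 ^ k * M) ^ (2 * K)
      ≤ n ^ ((k - 1) * K + 1)) (hn1 : 1 ≤ n)
    (hD : D + 1 ≤ 2 ^ t) (hsize : 2 ^ b * (r * (D + 1) + 1) ≤ 2 ^ t)
    (β : (Fin k → Fin (n / k) → Bool) → (Fin b → Bool))
    (s : Fin r → (Fin k → Fin (n / k) → Bool) → Fin (D + 1) → ℝ) :
    ∃ ω : Fin M → (Fin k → Fin (n / k)) × Bool, (∀ x, ∑ i, yx (ω i) x ≤ 2 * η * M) ∧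
      ∃ q : Fin b → Bool, ∃ γ : (Fin k → Fin (n / k) → Bool) → ℝ,
        (∀ x, β x ≠ q → γ x = 0) ∧ ∑ x, γ x = 1 ∧
        (∀ (j : Fin r) (a : Fin (D + 1) → ℝ), (∀ x, 0 ≤ ∑ l, a l * s j x l) →
          0 ≤ ∑ x, γ x * ∑ l, a l * s j x l) ∧
        1 - 1 / 2 ^ t ≤ ∑ x, γ x * sat yx ω x := by
  obtain ⟨hm1, ht1, hMbig, u, hu1, hS1, hNLle, hprob, hprob'⟩ :=
    density4 (D := D) hk hK hkM hMt hη0 hη1 hnM hmain hexp hn1
  have hM1 : 1 ≤ M := le_trans Nat.one_le_two_pow hkM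
  have : Nonempty (Fin M) := ⟨⟨0, by omega⟩⟩
  have hMpos : (0 : ℝ) < M := by linarith
  set S : ℝ := (M : ℝ) ^ u with hS
  have hSM : (M : ℝ) ≤ S := by
    rw [hS]
    exact le_self_pow₀ (by linarith) (by omega)
  have hSbig : (20000 : ℝ) ≤ S := hMbig.trans hSM
  have hSpos : 0 < S := by linarith
  have hSge1 : 1 ≤ S := by linarith
  have h2tpos : (0 : ℝ) < 2 ^ t := by positivity
  have h2t1 : (1 : ℝ) ≤ 2 ^ t := one_le_pow₀ (by norm_num)
  have hDR : ((D : ℝ) + 1) ≤ 2 ^ t := by exact_mod_cast hD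
  have hDpos : (0 : ℝ) < (D : ℝ) + 1 := by positivity
  -- the size
  have hrN : r * (D + 1) + 1 ≤ 2 ^ t := le_trans (Nat.le_mul_of_pos_left _ (by positivity)) hsize
  have hr1 : ((r : ℝ) + 1) * (D + 1) ≤ 2 * 2 ^ t := by
    have h1 : ((r : ℝ) * (D + 1) + 1) ≤ 2 ^ t := by exact_mod_cast hrN
    linarith
  have hmain2 := region_signs (J := Fin M) (k := k) (m := n / k) (L := 19 * K * u)
    (by have : 0 < K * u := Nat.mul_pos hK hu1
        rw [mul_assoc]; omega)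
    (c := 1 - 1 / 2 ^ t) (η := η)
    (p := 4 * (D + 1) / S ^ (26 * K)) (p' := 1 / (64 * S ^ (19 * K + 1)))
    (τ := 1 / 2 ^ (3 * t + 3))
    (by
      have : (1 : ℝ) / 2 ^ t ≤ 1 := by rw [div_le_one h2tpos]; exact h2t1
      linarith)
    (by
      have : (0 : ℝ) < 1 / 2 ^ t := by positivity
      linarith)
    hη0 β s (by positivity)
    (by
      rw [Fintype.card_fun, Fintype.card_fin, Fintype.card_bool]
      push_cast
      have h1 : (2 : ℝ) ^ b * (r * (D + 1) + 1) ≤ 2 ^ t := by exact_mod_cast hsize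
      have h2pow : (2 : ℝ) ^ (3 * t + 3) = 8 * (2 ^ t) ^ 3 := by
        rw [pow_add, mul_comm 3 t, pow_mul]; norm_num; ring
      rw [h2pow]
      calc ((D : ℝ) + 1) * (2 * (r * (D + 1) + 1)) * 2 ^ b * (1 / (8 * (2 ^ t) ^ 3))
          = (D + 1) * (2 * (2 ^ b * (r * (D + 1) + 1))) * (1 / (8 * (2 ^ t) ^ 3)) := by ring
        _ ≤ 2 ^ t * (2 * 2 ^ t) * (1 / (8 * (2 ^ t) ^ 3)) := by gcongr
        _ = 1 / 2 ^ t / 4 := by field_simp; norm_num
        _ = (1 - (1 - 1 / 2 ^ t)) / 4 := by ring)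
    (by
      intro V hV
      refine hprob V hV ?_
      rw [Fintype.card_option, Fintype.card_fin]
      have h1 : (r + 1) * (D + 2) ≤ (r + 1) * (2 * (D + 1)) := Nat.mul_le_mul_left _ (by omega)
      have h2 : (r + 1) * (2 * (D + 1)) = 2 * (r * (D + 1)) + 2 * (D + 1) := by ring
      omega)
    hprob'
    (by
      have h1 : NL (Fin M) (19 * K * u) + 1 ≤ 3 * S ^ (19 * K) := by
        have : (1 : ℝ) ≤ S ^ (19 * K) := one_le_pow₀ hSge1
        linarith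
      have h2 : ((r : ℝ) + 1) * (4 * (D + 1) / S ^ (26 * K)) ≤ 8 * S / S ^ (26 * K) := by
        rw [mul_div_assoc']
        refine div_le_div_of_nonneg_right ?_ (by positivity)
        calc ((r : ℝ) + 1) * (4 * (D + 1)) = 4 * (((r : ℝ) + 1) * (D + 1)) := by ring
          _ ≤ 4 * (2 * 2 ^ t) := by gcongr
          _ = 8 * 2 ^ t := by ring
          _ ≤ 8 * S := by gcongr
      have h3 : (((r : ℝ) + 1) * (4 * (D + 1) / S ^ (26 * K)) + 1 / (64 * S ^ (19 * K + 1))) *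
          (NL (Fin M) (19 * K * u) + 1)
          ≤ (8 * S / S ^ (26 * K) + 1 / (64 * S ^ (19 * K + 1))) * (3 * S ^ (19 * K)) := by
        refine mul_le_mul (add_le_add h2 (le_refl _)) h1 ?_ (by positivity)
        have : 0 ≤ NL (Fin M) (19 * K * u) := Nat.cast_nonneg _
        linarith
      refine lt_of_le_of_lt h3 ?_
      have h4 : (8 * S / S ^ (26 * K) + 1 / (64 * S ^ (19 * K + 1))) * (3 * S ^ (19 * K))
          = (24 * (S ^ 2 / S ^ (7 * K)) + 3 / 64) / S := by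
        rw [show 26 * K = 19 * K + 7 * K by ring, pow_add S (19 * K) (7 * K),
          pow_succ S (19 * K)]
        field_simp
        ring
      rw [h4, div_lt_iff₀ hSpos]
      have h5 : S ^ 2 / S ^ (7 * K) ≤ 1 / 20000 := by
        rw [div_le_div_iff₀ (by positivity) (by norm_num)]
        have h6 : S ^ 3 ≤ S ^ (7 * K) := pow_le_pow_right₀ hSge1 (by omega)
        calc S ^ 2 * 20000 ≤ S ^ 2 * S := mul_le_mul_of_nonneg_left hSbig (by positivity)
          _ = S ^ 3 := by ring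
          _ ≤ S ^ (7 * K) := h6
          _ = 1 * S ^ (7 * K) := (one_mul _).symm
      have h6 : (1 : ℝ) / 4 ≤ (1 - (1 - 1 / 2 ^ t)) / 4 * S := by
        have h7 : 1 ≤ S / 2 ^ t := by rw [le_div_iff₀ h2tpos, one_mul]; exact hS1
        calc (1 : ℝ) / 4 ≤ S / 2 ^ t / 4 := by linarith
          _ = (1 - (1 - 1 / 2 ^ t)) / 4 * S := by ring
      linarith)
  rw [Fintype.card_fin] at hmain2
  exact hmain2

end Pool.Agent.TH661.LPX
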