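import Pool.Agent.TH661.LPX.NumC
import Pool.Agent.TH661.LPX.Sat
import Pool.Agent.TH661.LPX.ConeDef

/-!
Conic programming formulations of Max-k-SAT: the lower bound.
-/

set_option autoImplicit false

namespace Pool.Agent.TH661.LPX

open Finset

/-- Mixed-binary conic programs for parity constraints on `k` blocks of `n / k` variables. -/
theorem cone_parity {k n M t b r D : ℕ} {η : ℝ} (hk : 1 ≤ k) (hkM : 2 ^ k ≤ M) (hMt : M ≤ 2 ^ t)
    (hη0 : 0 ≤ η) (hη1 : η ≤ 1 / 2) (hnM : (n : ℝ) ≤ 2 * η ^ 2 * M)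
    (hmain : 64 * M ^ (12 + 8 * D) * (2 * 10 ^ 4 * t) ^ k ≤ n ^ k) (hn1 : 1 ≤ n)
    (hD : D + 1 ≤ 2 ^ t) (hsize : 2 ^ b * (r * (D + 1) + 1) ≤ 2 ^ t)
    (β : (Fin k → Fin (n / k) → Bool) → (Fin b → Bool))
    (s : Fin r → (Fin k → Fin (n / k) → Bool) → Fin (D + 1) → ℝ) :
    ∃ ω : Fin M → (Fin k → Fin (n / k)) × Bool, (∀ x, ∑ i, yx (ω i) x ≤ 2 * η * M) ∧
      ∃ q : Fin b → Bool, ∃ γ : (Fin k → Fin (n / k) → Bool) → ℝ,
        (∀ x, β x ≠ q → γ x = 0) ∧ ∑ x, γ x = 1 ∧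
        (∀ (j : Fin r) (a : Fin (D + 1) → ℝ), (∀ x, 0 ≤ ∑ l, a l * s j x l) →
          0 ≤ ∑ x, γ x * ∑ l, a l * s j x l) ∧
        1 - 1 / 2 ^ t ≤ ∑ x, γ x * sat yx ω x := by
  obtain ⟨hm1, ht1, hMbig, u, hu1, hS1, hNLle, hprob, hprob'⟩ :=
    density hk hkM hMt hη0 hη1 hnM hmain hn1
  have hmpos : 0 < n / k := by omega
  have : NeZero (n / k) := ⟨by omega⟩
  have hM1 : 1 ≤ M := le_trans Nat.one_le_two_pow hkM
  have : Nonempty (Fin M) := ⟨⟨0, by omega⟩⟩
  have : Nonempty (Fin k → Fin (n / k)) := ⟨fun _ => ⟨0, hmpos⟩⟩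
  have hMpos : (0 : ℝ) < M := by linarith
  set S : ℝ := (M : ℝ) ^ u with hS
  have hSM : (M : ℝ) ≤ S := by
    rw [hS]
    exact le_self_pow₀ (by linarith) (by omega)
  have hSbig : (20000 : ℝ) ≤ S := hMbig.trans hSM
  have hSpos : 0 < S := by linarith
  have hSge1 : 1 ≤ S := by linarith
  have h2tpos : (0 : ℝ) < 2 ^ t := by positivity
  have h2t1 : (1 : ℝ) ≤ 2 ^ t := one_le_pow₀ (by norm_num)
  have hS3 : ((2 : ℝ) ^ t) ^ 3 ≤ S ^ 3 := pow_le_pow_left₀ (by positivity) hS1 3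
  have h2pow : (2 : ℝ) ^ (3 * t + 5) = 32 * (2 ^ t) ^ 3 := by
    rw [pow_add, mul_comm 3 t, pow_mul]; norm_num; ring
  -- the fineness of the net
  set Q : ℕ := 2 ^ (3 * t + 6) * (M ^ u) ^ 19 with hQdef
  have hQ0 : 0 < Q := by positivity
  have hQR : (Q : ℝ) = 64 * (2 ^ t) ^ 3 * S ^ 19 := by
    have h1 : (2 : ℝ) ^ (3 * t + 6) = 64 * (2 ^ t) ^ 3 := by
      rw [pow_add, mul_comm 3 t, pow_mul]; norm_num; ring
    rw [hQdef]
    push_cast
    rw [h1]
  have hQ1 : NL (Fin M) (19 * u) ≤ Q * (1 / 2 ^ (3 * t + 5)) := by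
    rw [hQR, h2pow]
    refine hNLle.trans (le_of_eq ?_)
    field_simp; norm_num
  have hQS : (2 * Q + 1 : ℝ) ≤ S ^ 23 := by
    have h1 : (Q : ℝ) ≤ 64 * S ^ 3 * S ^ 19 := by
      rw [hQR]
      refine mul_le_mul_of_nonneg_right ?_ (by positivity)
      linarith
    have h2 : (1 : ℝ) ≤ S ^ 22 := one_le_pow₀ hSge1
    have h3 : 64 * S ^ 3 * S ^ 19 = 64 * S ^ 22 := by ring
    calc (2 * Q + 1 : ℝ) ≤ 129 * S ^ 22 := by linarith
      _ ≤ S * S ^ 22 := mul_le_mul_of_nonneg_right (by linarith) (by positivity)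
      _ = S ^ 23 := by ring
  have hc : (1 : ℝ) - (1 - 1 / 2 ^ t) = 1 / 2 ^ t := by ring
  have hbr : ((2 : ℝ) ^ b) * (r * (D + 1) + 1) ≤ 2 ^ t := by exact_mod_cast hsize
  have hDR : ((D : ℝ) + 1) ≤ 2 ^ t := by exact_mod_cast hD
  have hr1 : (r + 1 : ℝ) ≤ 2 ^ t := by
    refine le_trans ?_ hbr
    have h1 : (1 : ℝ) ≤ 2 ^ b := one_le_pow₀ (by norm_num)
    have h2 : (r + 1 : ℝ) ≤ r * (D + 1) + 1 := by
      have : (0 : ℝ) ≤ r * D := by positivity
      linarith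
    have h3 : (0 : ℝ) ≤ r * (D + 1) + 1 := by positivity
    nlinarith
  have hmain2 := region_cone (X := Fin k → Fin (n / k) → Bool) (J := Fin M)
    (A := (Fin k → Fin (n / k)) × Bool) (y := yx) yx_cases av_yx (L := 19 * u) (by omega)
    (c := 1 - 1 / 2 ^ t) (η := η) (p := 65 / (S ^ (21 + 23 * D) * (M : ℝ) ^ 2))
    (p' := 1 / (64 * S ^ 20)) (τ := 1 / 2 ^ (3 * t + 5))
    (by rw [sub_nonneg, div_le_one h2tpos]; exact h2t1)
    (by
      have : (0 : ℝ) < 1 / 2 ^ t := by positivity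
      linarith)
    β s (by positivity) hQ0 hQ1
    (by
      rw [hc, Fintype.card_fun, Fintype.card_fin, Fintype.card_bool, h2pow]
      push_cast
      have h4 : (4 * (D : ℝ) + 1) * (2 * ((r : ℝ) * (D + 1) + 1)) * 2 ^ b
          ≤ 8 * (2 ^ t) ^ 2 := by
        have h5 : (4 * (D : ℝ) + 1) ≤ 4 * 2 ^ t := by linarith
        calc (4 * (D : ℝ) + 1) * (2 * ((r : ℝ) * (D + 1) + 1)) * 2 ^ b
            = (4 * (D : ℝ) + 1) * (2 * (2 ^ b * ((r : ℝ) * (D + 1) + 1))) := by ring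
          _ ≤ (4 * 2 ^ t) * (2 * 2 ^ t) :=
              mul_le_mul h5 (by linarith) (by positivity) (by positivity)
          _ = 8 * (2 ^ t) ^ 2 := by ring
      calc (4 * (D : ℝ) + 1) * (2 * ((r : ℝ) * (D + 1) + 1)) * 2 ^ b * (1 / (32 * (2 ^ t) ^ 3))
          ≤ 8 * (2 ^ t) ^ 2 * (1 / (32 * (2 ^ t) ^ 3)) :=
            mul_le_mul_of_nonneg_right h4 (by positivity)
        _ = 1 / 2 ^ t / 4 := by field_simp; norm_num)
    hprob hprob'
    (by
      rw [hc]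
      have h1 : NL (Fin M) (19 * u) + 1 ≤ 3 * S ^ 19 := by
        have : (1 : ℝ) ≤ S ^ 19 := one_le_pow₀ hSge1
        linarith
      have h2 : (r : ℝ) * (2 * Q + 1) ^ D + 1 ≤ S * S ^ (23 * D) := by
        have h3 : (2 * Q + 1 : ℝ) ^ D ≤ S ^ (23 * D) := by
          rw [pow_mul]; exact pow_le_pow_left₀ (by positivity) hQS D
        have h4 : (1 : ℝ) ≤ S ^ (23 * D) := one_le_pow₀ hSge1
        calc (r : ℝ) * (2 * Q + 1) ^ D + 1 ≤ r * S ^ (23 * D) + S ^ (23 * D) :=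
              add_le_add (mul_le_mul_of_nonneg_left h3 (Nat.cast_nonneg _)) h4
          _ = (r + 1) * S ^ (23 * D) := by ring
          _ ≤ S * S ^ (23 * D) :=
              mul_le_mul_of_nonneg_right (hr1.trans hS1) (by positivity)
      have hp0 : 0 ≤ 65 / (S ^ (21 + 23 * D) * (M : ℝ) ^ 2) := by positivity
      have h3 : (((r : ℝ) * (2 * Q + 1) ^ D + 1) * (65 / (S ^ (21 + 23 * D) * (M : ℝ) ^ 2))
          + 1 / (64 * S ^ 20)) * (NL (Fin M) (19 * u) + 1)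
          ≤ (S * S ^ (23 * D) * (65 / (S ^ (21 + 23 * D) * (M : ℝ) ^ 2))
          + 1 / (64 * S ^ 20)) * (3 * S ^ 19) := by
        refine mul_le_mul (add_le_add (mul_le_mul_of_nonneg_right h2 hp0) (le_refl _)) h1 ?_
          (by positivity)
        have : 0 ≤ NL (Fin M) (19 * u) := Nat.cast_nonneg _
        linarith
      refine lt_of_le_of_lt h3 ?_
      have h4 : (S * S ^ (23 * D) * (65 / (S ^ (21 + 23 * D) * (M : ℝ) ^ 2))
          + 1 / (64 * S ^ 20)) * (3 * S ^ 19) = (195 / (M : ℝ) ^ 2 + 3 / 64) / S := by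
        rw [pow_add S 21 (23 * D)]
        field_simp
        ring
      rw [h4, div_lt_iff₀ hSpos]
      have h5 : 195 / (M : ℝ) ^ 2 ≤ 1 / 10 := by
        rw [div_le_div_iff₀ (by positivity) (by norm_num)]
        have h7 : (20000 : ℝ) ^ 2 ≤ (M : ℝ) ^ 2 := pow_le_pow_left₀ (by norm_num) hMbig 2
        linarith
      have h6 : (1 : ℝ) / 4 ≤ 1 / 2 ^ t / 4 * S := by
        have h7 : 1 ≤ S / 2 ^ t := by rw [le_div_iff₀ h2tpos, one_mul]; exact hS1
        calc (1 : ℝ) / 4 ≤ S / 2 ^ t / 4 := by linarith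
          _ = 1 / 2 ^ t / 4 * S := by ring
      linarith)
  rw [Fintype.card_fin] at hmain2
  exact hmain2

/-- Membership in a closed convex cone can be tested with linear functionals. -/
theorem mem_cone {D : ℕ} {K : Set (Fin D → ℝ)} (hcl : IsClosed K) (hcv : Convex ℝ K)
    (hsc : ∀ z ∈ K, ∀ t : ℝ, 0 ≤ t → t • z ∈ K) (hne : K.Nonempty) {p : Fin D → ℝ}
    (hp : ∀ a : Fin D → ℝ, (∀ z ∈ K, 0 ≤ ∑ l, a l * z l) → 0 ≤ ∑ l, a l * p l) : p ∈ K := by
  by_contra hcon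
  obtain ⟨f, u, hf1, hf2⟩ := geometric_hahn_banach_closed_point hcv hcl hcon
  obtain ⟨z0, hz0⟩ := hne
  have h0 : (0 : Fin D → ℝ) ∈ K := by
    have := hsc z0 hz0 0 (le_refl _)
    rwa [zero_smul] at this
  have hu : 0 < u := by
    have := hf1 0 h0
    rwa [map_zero] at this
  have hf0 : ∀ z ∈ K, f z ≤ 0 := by
    intro z hz
    by_contra hpos
    rw [not_le] at hpos
    have h1 := hf1 ((u / f z) • z) (hsc z hz (u / f z) (div_nonneg hu.le hpos.le))
    rw [map_smul, smul_eq_mul, div_mul_cancel₀ _ hpos.ne'] at h1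
    exact lt_irrefl _ h1
  set a : Fin D → ℝ := fun l => - f (Pi.single l 1) with ha
  have hfa : ∀ z : Fin D → ℝ, ∑ l, a l * z l = - f z := by
    intro z
    have h1 : z = ∑ l, z l • (Pi.single l 1 : Fin D → ℝ) := by
      funext i
      rw [Finset.sum_apply]
      simp [Pi.single_apply]
    have h2 : f z = ∑ l, z l * f (Pi.single l 1) := by
      conv_lhs => rw [h1]
      rw [map_sum]
      exact sum_congr rfl fun l _ => by rw [map_smul, smul_eq_mul]
    rw [h2, ← sum_neg_distrib]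
    exact sum_congr rfl fun l _ => by rw [ha]; ring
  have h3 := hp a fun z hz => by
    rw [hfa]
    linarith [hf0 z hz]
  rw [hfa] at h3
  linarith

/-- The explicit form of the lower bound for conic programs. -/
theorem maxsat_conic {k n M t N b r D : ℕ} {η : ℝ} (hk : 1 ≤ k) (hkM : 2 ^ k ≤ M)
    (hMt : M ≤ 2 ^ t) (hη0 : 0 ≤ η) (hη1 : η ≤ 1 / 2) (hnM : (n : ℝ) ≤ 2 * η ^ 2 * M)
    (hmain : 64 * M ^ (12 + 8 * D) * (2 * 10 ^ 4 * t) ^ k ≤ n ^ k) (hn1 : 1 ≤ n)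
    (hN : M * 2 ^ (k - 1) ≤ N) (hD : D + 1 ≤ 2 ^ t) (hsize : 2 ^ b * (r * (D + 1) + 1) ≤ 2 ^ t)
    (P : MaxSatConic n k N b r (D + 1)) :
    ∃ F : CNF n, Exactly k F ∧ F.length = M * 2 ^ (k - 1) ∧
      (∀ x, (satCount F x : ℝ) ≤ (1 - (1 - 2 * η) / 2 ^ k) * F.length) ∧
      P.Reaches F ((1 - 1 / 2 ^ t) * F.length) := by
  have hm : k * (n / k) ≤ n := Nat.mul_div_le n k
  obtain ⟨ω, hω, q, γ, hγq, hγ1, hγs, hγv⟩ := cone_parity hk hkM hMt hη0 hη1 hnM hmain hn1 hD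
    hsize (fun z => (P.y (ext hm z)).1) (fun j z => (P.y (ext hm z)).2.2 j)
  have hM0 : 0 < M := lt_of_lt_of_le (by positivity) hkM
  have hMR : (0 : ℝ) < M := by exact_mod_cast hM0
  have h2k : (2 : ℝ) ^ k = 2 * 2 ^ (k - 1) := by
    rw [← pow_succ']; congr 1; omega
  have hlen : ((formula hm ω).length : ℝ) = M * 2 ^ (k - 1) := by
    rw [formula_length hm hk]; push_cast; ring
  refine ⟨formula hm ω, formula_exact hm ω, formula_length hm hk ω, ?_, ?_⟩
  · intro x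
    rw [formula_count hm hk, hlen]
    have h1 := hω (fun j i => x (var hm j i))
    have h2 : (1 - (1 - 2 * η) / 2 ^ k) * ((M : ℝ) * 2 ^ (k - 1))
        = M * 2 ^ (k - 1) - (M - 2 * η * M) / 2 := by
      rw [h2k]; field_simp
    rw [h2]
    linarith
  · -- the feasible point
    have hval : ∀ z, P.w (formula hm ω) (bits (P.y (ext hm z)).1, (P.y (ext hm z)).2)
        + P.w0 (formula hm ω) = M * 2 ^ (k - 1) - M + M * sat yx ω z := by
      intro z
      rw [P.value _ (formula_exact hm ω) (by rw [formula_length hm hk]; exact hN),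
        formula_count hm hk]
      have h1 : (fun j i => ext hm z (var hm j i)) = z := by
        funext j i; exact ext_var hm z j i
      rw [h1]
      unfold sat
      rw [Fintype.card_fin]
      field_simp
      ring
    have hbits : ∑ z, γ z • bits (P.y (ext hm z)).1 = bits q := by
      have h1 : ∀ z, γ z • bits (P.y (ext hm z)).1 = γ z • bits q := by
        intro z
        by_cases hz : (P.y (ext hm z)).1 = q
        · rw [hz]
        · rw [hγq z hz, zero_smul, zero_smul]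
      rw [sum_congr rfl fun z _ => h1 z, ← sum_smul, hγ1, one_smul]
    have hsum : ∑ z, γ z • ((bits (P.y (ext hm z)).1, (P.y (ext hm z)).2) :
        (Fin b → ℝ) × (Fin P.d → ℝ) × (Fin r → Fin (D + 1) → ℝ))
        = (bits q, ∑ z, γ z • (P.y (ext hm z)).2.1, ∑ z, γ z • (P.y (ext hm z)).2.2) := by
      refine Prod.ext ?_ (Prod.ext ?_ ?_)
      · rw [Prod.fst_sum]; exact hbits
      · rw [Prod.snd_sum, Prod.fst_sum]; rfl
      · rw [Prod.snd_sum, Prod.snd_sum]; rfl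
    refine ⟨q, ∑ z, γ z • (P.y (ext hm z)).2.1, ∑ z, γ z • (P.y (ext hm z)).2.2, ?_, ?_, ?_⟩
    · intro j
      refine mem_cone (P.closed j) (P.convex j) (P.scale j)
        ⟨_, P.mem (fun _ => false) j⟩ fun a ha => ?_
      have h1 := hγs j a fun z => ha _ (P.mem (ext hm z) j)
      have h2 : ∑ l, a l * (∑ z, γ z • (P.y (ext hm z)).2.2) j l
          = ∑ z, γ z * ∑ l, a l * (P.y (ext hm z)).2.2 j l := by
        simp only [Finset.sum_apply, Pi.smul_apply, smul_eq_mul, mul_sum]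
        rw [sum_comm]
        exact sum_congr rfl fun z _ => sum_congr rfl fun l _ => by ring
      rw [h2]
      exact h1
    · rw [← hsum, map_sum]
      have h1 : ∀ z, P.A (γ z • ((bits (P.y (ext hm z)).1, (P.y (ext hm z)).2) :
          (Fin b → ℝ) × (Fin P.d → ℝ) × (Fin r → Fin (D + 1) → ℝ))) = γ z • P.c := by
        intro z; rw [map_smul, P.eqn]
      rw [sum_congr rfl fun z _ => h1 z, ← sum_smul, hγ1, one_smul]
    · rw [← hsum, map_sum]
      have h1 : ∀ z, P.w (formula hm ω) (γ z • ((bits (P.y (ext hm z)).1, (P.y (ext hm z)).2) :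
          (Fin b → ℝ) × (Fin P.d → ℝ) × (Fin r → Fin (D + 1) → ℝ)))
          = γ z * (M * 2 ^ (k - 1) - M - P.w0 (formula hm ω)) + M * (γ z * sat yx ω z) := by
        intro z
        rw [map_smul, smul_eq_mul]
        have := hval z
        have h2 : P.w (formula hm ω) (bits (P.y (ext hm z)).1, (P.y (ext hm z)).2)
            = M * 2 ^ (k - 1) - M + M * sat yx ω z - P.w0 (formula hm ω) := by linarith
        rw [h2]; ring
      rw [sum_congr rfl fun z _ => h1 z, sum_add_distrib, ← sum_mul, hγ1, ← mul_sum, hlen]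
      have h3 : (M : ℝ) * (1 - 1 / 2 ^ t) ≤ M * ∑ z, γ z * sat yx ω z :=
        mul_le_mul_of_nonneg_left hγv hMR.le
      have h4 : (1 : ℝ) ≤ 2 ^ (k - 1) := one_le_pow₀ (by norm_num)
      have h5 : (0 : ℝ) < 1 / 2 ^ t := by positivity
      have h6 : (M : ℝ) * (1 / 2 ^ t) ≤ M * (1 / 2 ^ t) * 2 ^ (k - 1) :=
        le_mul_of_one_le_right (by positivity) h4
      nlinarith

end Pool.Agent.TH661.LPX
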