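import Pool.Agent.TH661.LPX.NumS
import Pool.Agent.TH661.LPX.ProgC

/-!
Mixed-binary conic programs for Max-k-SAT: the lower bound for random signs.
-/

set_option autoImplicit false

namespace Pool.Agent.TH661.LPX

open Finset

/-- Mixed-binary conic programs for parity constraints on `k` blocks of `n / k` variables. -/
theorem cone_parityS {k n M t b r D K : ℕ} {η : ℝ} (hk : 2 ≤ k) (hK : 1 ≤ K) (hkM : 2 ^ k ≤ M)
    (hMt : M ≤ 2 ^ t)
    (hη0 : 0 ≤ η) (hη1 : η ≤ 1 / 2) (hnM : (n : ℝ) ≤ 2 * η ^ 2 * M)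
    (hmain : ((2 * 10 ^ 4 * K ^ 2 * t) ^ (k + 1) * M ^ 2 * (D + 1) ^ 4) ^ K * M ^ 2
      ≤ n ^ (k * K)) (hn1 : 1 ≤ n)
    (hD : D + 1 ≤ 2 ^ t) (hsize : 2 ^ b * (r * (D + 1) + 1) ≤ 2 ^ t)
    (β : (Fin k → Fin (n / k) → Bool) → (Fin b → Bool))
    (s : Fin r → (Fin k → Fin (n / k) → Bool) → Fin (D + 1) → ℝ) :
    ∃ ω : Fin M → (Fin k → Fin (n / k)) × Bool, (∀ x, ∑ i, yx (ω i) x ≤ 2 * η * M) ∧
      ∃ q : Fin b → Bool, ∃ γ : (Fin k → Fin (n / k) → Bool) → ℝ,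
        (∀ x, β x ≠ q → γ x = 0) ∧ ∑ x, γ x = 1 ∧
        (∀ (j : Fin r) (a : Fin (D + 1) → ℝ), (∀ x, 0 ≤ ∑ l, a l * s j x l) →
          0 ≤ ∑ x, γ x * ∑ l, a l * s j x l) ∧
        1 - 1 / 2 ^ t ≤ ∑ x, γ x * sat yx ω x := by
  obtain ⟨hm1, ht1, hMbig, u, hu1, hS1, hNLle, hprob, hprob'⟩ :=
    densityS (D := D) hk hK hkM hMt hη0 hη1 hnM hmain hn1
  have hM1 : 1 ≤ M := le_trans Nat.one_le_two_pow hkM
  have : Nonempty (Fin M) := ⟨⟨0, by omega⟩⟩
  have hMpos : (0 : ℝ) < M := by linarith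
  set S : ℝ := (M : ℝ) ^ u with hS
  have hSM : (M : ℝ) ≤ S := by
    rw [hS]
    exact le_self_pow₀ (by linarith) (by omega)
  have hSbig : (20000 : ℝ) ≤ S := hMbig.trans hSM
  have hSpos : 0 < S := by linarith
  have hSge1 : 1 ≤ S := by linarith
  have h2tpos : (0 : ℝ) < 2 ^ t := by positivity
  have h2t1 : (1 : ℝ) ≤ 2 ^ t := one_le_pow₀ (by norm_num)
  have hDR : ((D : ℝ) + 1) ≤ 2 ^ t := by exact_mod_cast hD
  have hDpos : (0 : ℝ) < (D : ℝ) + 1 := by positivity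
  -- the size
  have hrN : r * (D + 1) + 1 ≤ 2 ^ t := le_trans (Nat.le_mul_of_pos_left _ (by positivity)) hsize
  have hr1 : ((r : ℝ) + 1) * (D + 1) ≤ 2 * 2 ^ t := by
    have h1 : ((r : ℝ) * (D + 1) + 1) ≤ 2 ^ t := by exact_mod_cast hrN
    linarith
  have hmain2 := region_signs (J := Fin M) (k := k) (m := n / k) (L := 19 * K * u)
    (by have : 0 < K * u := Nat.mul_pos hK hu1
        rw [mul_assoc]; omega)
    (c := 1 - 1 / 2 ^ t) (η := η)
    (p := 4 * (D + 1) / S ^ (26 * K)) (p' := 1 / (64 * S ^ (19 * K + 1)))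
    (τ := 1 / 2 ^ (3 * t + 3))
    (by
      have : (1 : ℝ) / 2 ^ t ≤ 1 := by rw [div_le_one h2tpos]; exact h2t1
      linarith)
    (by
      have : (0 : ℝ) < 1 / 2 ^ t := by positivity
      linarith)
    hη0 β s (by positivity)
    (by
      rw [Fintype.card_fun, Fintype.card_fin, Fintype.card_bool]
      push_cast
      have h1 : (2 : ℝ) ^ b * (r * (D + 1) + 1) ≤ 2 ^ t := by exact_mod_cast hsize
      have h2pow : (2 : ℝ) ^ (3 * t + 3) = 8 * (2 ^ t) ^ 3 := by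
        rw [pow_add, mul_comm 3 t, pow_mul]; norm_num; ring
      rw [h2pow]
      calc ((D : ℝ) + 1) * (2 * (r * (D + 1) + 1)) * 2 ^ b * (1 / (8 * (2 ^ t) ^ 3))
          = (D + 1) * (2 * (2 ^ b * (r * (D + 1) + 1))) * (1 / (8 * (2 ^ t) ^ 3)) := by ring
        _ ≤ 2 ^ t * (2 * 2 ^ t) * (1 / (8 * (2 ^ t) ^ 3)) := by gcongr
        _ = 1 / 2 ^ t / 4 := by field_simp; norm_num
        _ = (1 - (1 - 1 / 2 ^ t)) / 4 := by ring)
    (by
      intro V hV
      refine hprob V hV ?_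
      rw [Fintype.card_option, Fintype.card_fin]
      have h1 : (r + 1) * (D + 2) ≤ (r + 1) * (2 * (D + 1)) := Nat.mul_le_mul_left _ (by omega)
      have h2 : (r + 1) * (2 * (D + 1)) = 2 * (r * (D + 1)) + 2 * (D + 1) := by ring
      omega)
    hprob'
    (by
      have h1 : NL (Fin M) (19 * K * u) + 1 ≤ 3 * S ^ (19 * K) := by
        have : (1 : ℝ) ≤ S ^ (19 * K) := one_le_pow₀ hSge1
        linarith
      have h2 : ((r : ℝ) + 1) * (4 * (D + 1) / S ^ (26 * K)) ≤ 8 * S / S ^ (26 * K) := by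
        rw [mul_div_assoc']
        refine div_le_div_of_nonneg_right ?_ (by positivity)
        calc ((r : ℝ) + 1) * (4 * (D + 1)) = 4 * (((r : ℝ) + 1) * (D + 1)) := by ring
          _ ≤ 4 * (2 * 2 ^ t) := by gcongr
          _ = 8 * 2 ^ t := by ring
          _ ≤ 8 * S := by gcongr
      have h3 : (((r : ℝ) + 1) * (4 * (D + 1) / S ^ (26 * K)) + 1 / (64 * S ^ (19 * K + 1))) *
          (NL (Fin M) (19 * K * u) + 1)
          ≤ (8 * S / S ^ (26 * K) + 1 / (64 * S ^ (19 * K + 1))) * (3 * S ^ (19 * K)) := by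
        refine mul_le_mul (add_le_add h2 (le_refl _)) h1 ?_ (by positivity)
        have : 0 ≤ NL (Fin M) (19 * K * u) := Nat.cast_nonneg _
        linarith
      refine lt_of_le_of_lt h3 ?_
      have h4 : (8 * S / S ^ (26 * K) + 1 / (64 * S ^ (19 * K + 1))) * (3 * S ^ (19 * K))
          = (24 * (S ^ 2 / S ^ (7 * K)) + 3 / 64) / S := by
        rw [show 26 * K = 19 * K + 7 * K by ring, pow_add S (19 * K) (7 * K),
          pow_succ S (19 * K)]
        field_simp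
        ring
      rw [h4, div_lt_iff₀ hSpos]
      have h5 : S ^ 2 / S ^ (7 * K) ≤ 1 / 20000 := by
        rw [div_le_div_iff₀ (by positivity) (by norm_num)]
        have h6 : S ^ 3 ≤ S ^ (7 * K) := pow_le_pow_right₀ hSge1 (by omega)
        calc S ^ 2 * 20000 ≤ S ^ 2 * S := mul_le_mul_of_nonneg_left hSbig (by positivity)
          _ = S ^ 3 := by ring
          _ ≤ S ^ (7 * K) := h6
          _ = 1 * S ^ (7 * K) := (one_mul _).symm
      have h6 : (1 : ℝ) / 4 ≤ (1 - (1 - 1 / 2 ^ t)) / 4 * S := by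
        have h7 : 1 ≤ S / 2 ^ t := by rw [le_div_iff₀ h2tpos, one_mul]; exact hS1
        calc (1 : ℝ) / 4 ≤ S / 2 ^ t / 4 := by linarith
          _ = (1 - (1 - 1 / 2 ^ t)) / 4 * S := by ring
      linarith)
  rw [Fintype.card_fin] at hmain2
  exact hmain2

open Classical in
/-- From parity constraints to formulas. -/
theorem maxsat_of_parity {k n M t N b r D : ℕ} {η : ℝ} (hk : 1 ≤ k) (hM0 : 0 < M)
    (hN : M * 2 ^ (k - 1) ≤ N) (P : ConicProgram b r D) (S : Formulation n k N P)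
    (hpar : ∀ (β : (Fin k → Fin (n / k) → Bool) → (Fin b → Bool))
      (s : Fin r → (Fin k → Fin (n / k) → Bool) → Fin D → ℝ),
      ∃ ω : Fin M → (Fin k → Fin (n / k)) × Bool, (∀ x, ∑ i, yx (ω i) x ≤ 2 * η * M) ∧
      ∃ q : Fin b → Bool, ∃ γ : (Fin k → Fin (n / k) → Bool) → ℝ,
        (∀ x, β x ≠ q → γ x = 0) ∧ ∑ x, γ x = 1 ∧
        (∀ (j : Fin r) (a : Fin D → ℝ), (∀ x, 0 ≤ ∑ l, a l * s j x l) →
          0 ≤ ∑ x, γ x * ∑ l, a l * s j x l) ∧
        1 - 1 / 2 ^ t ≤ ∑ x, γ x * sat yx ω x) :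
    ∃ F : CNF n, Exactly k F ∧ F.length = M * 2 ^ (k - 1) ∧
      (∀ x, (satCount F x : ℝ) ≤ (1 - (1 - 2 * η) / 2 ^ k) * F.length) ∧
      ∃ z, P.Feasible z ∧ (1 - 1 / 2 ^ t) * F.length ≤ aff (S.w F) z := by
  have hm : k * (n / k) ≤ n := Nat.mul_div_le n k
  obtain ⟨ω, hω, q, γ, hγq, hγ1, hγs, hγv⟩ := hpar
    (fun z i => decide (aff (P.bin i) (S.y (ext hm z)) = 1))
    (fun j z l => aff (P.map j l) (S.y (ext hm z)))
  have hMR : (0 : ℝ) < M := by exact_mod_cast hM0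
  have h2k : (2 : ℝ) ^ k = 2 * 2 ^ (k - 1) := by
    rw [← pow_succ']; congr 1; omega
  have hlen : ((formula hm ω).length : ℝ) = M * 2 ^ (k - 1) := by
    rw [formula_length hm hk]; push_cast; ring
  refine ⟨formula hm ω, formula_exact hm ω, formula_length hm hk ω, ?_, ?_⟩
  · intro x
    rw [formula_count hm hk, hlen]
    have h1 := hω (fun j i => x (var hm j i))
    have h2 : (1 - (1 - 2 * η) / 2 ^ k) * ((M : ℝ) * 2 ^ (k - 1))
        = M * 2 ^ (k - 1) - (M - 2 * η * M) / 2 := by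
      rw [h2k]; field_simp
    rw [h2]
    linarith
  · -- the feasible point
    have hval : ∀ z, aff (S.w (formula hm ω)) (S.y (ext hm z))
        = M * 2 ^ (k - 1) - M + M * sat yx ω z := by
      intro z
      rw [S.value _ (formula_exact hm ω) (by rw [formula_length hm hk]; exact hN),
        formula_count hm hk]
      have h1 : (fun j i => ext hm z (var hm j i)) = z := by
        funext j i; exact ext_var hm z j i
      rw [h1]
      unfold sat
      rw [Fintype.card_fin]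
      field_simp
      ring
    refine ⟨∑ z, γ z • S.y (ext hm z), ⟨?_, ?_, ?_⟩, ?_⟩
    · intro a ha
      rw [aff_sum _ _ _ _ hγ1]
      exact sum_eq_zero fun z _ => by rw [(S.feasible (ext hm z)).1 a ha, mul_zero]
    · intro i
      rw [aff_sum _ _ _ _ hγ1]
      have h1 : ∀ z, γ z * aff (P.bin i) (S.y (ext hm z))
          = γ z * (if q i = true then 1 else 0) := by
        intro z
        by_cases hz : (fun i => decide (aff (P.bin i) (S.y (ext hm z)) = 1)) = q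
        · congr 1
          have h2 : decide (aff (P.bin i) (S.y (ext hm z)) = 1) = q i := congrFun hz i
          rw [← h2]
          rcases (S.feasible (ext hm z)).2.1 i with h3 | h3
          · rw [h3]; simp
          · rw [h3]; simp
        · rw [hγq z hz, zero_mul, zero_mul]
      rw [sum_congr rfl fun z _ => h1 z, ← sum_mul, hγ1, one_mul]
      by_cases hq : q i = true
      · right; rw [if_pos hq]
      · left; rw [if_neg hq]
    · intro j
      refine mem_cone (P.closed j) (P.convex j) (P.scale j)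
        ⟨_, (S.feasible (fun _ => false)).2.2 j⟩ fun a ha => ?_
      have h1 := hγs j a fun z => ha _ ((S.feasible (ext hm z)).2.2 j)
      have h2 : ∑ l, a l * aff (P.map j l) (∑ z, γ z • S.y (ext hm z))
          = ∑ z, γ z * ∑ l, a l * aff (P.map j l) (S.y (ext hm z)) := by
        simp only [aff_sum _ _ _ _ hγ1, mul_sum]
        rw [sum_comm]
        exact sum_congr rfl fun z _ => sum_congr rfl fun l _ => by ring
      rw [h2]
      exact h1
    · rw [aff_sum _ _ _ _ hγ1]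
      have h1 : ∀ z, γ z * aff (S.w (formula hm ω)) (S.y (ext hm z))
          = γ z * (M * 2 ^ (k - 1) - M) + M * (γ z * sat yx ω z) := by
        intro z
        rw [hval]; ring
      rw [sum_congr rfl fun z _ => h1 z, sum_add_distrib, ← sum_mul, hγ1, ← mul_sum, hlen]
      have h3 : (M : ℝ) * (1 - 1 / 2 ^ t) ≤ M * ∑ z, γ z * sat yx ω z :=
        mul_le_mul_of_nonneg_left hγv hMR.le
      have h4 : (1 : ℝ) ≤ 2 ^ (k - 1) := one_le_pow₀ (by norm_num)
      have h5 : (0 : ℝ) < 1 / 2 ^ t := by positivity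
      have h6 : (M : ℝ) * (1 / 2 ^ t) ≤ M * (1 / 2 ^ t) * 2 ^ (k - 1) :=
        le_mul_of_one_le_right (by positivity) h4
      nlinarith

/-- The choice of the parameters, asymptotically. -/
theorem paramsS {ε η : ℝ} (hε : 0 < ε) (hη0 : 0 < η) (hη1 : η ≤ 1 / 2) :
    ∃ C K : ℕ, 1 ≤ K ∧ ∀ n k D t : ℕ, 3 ≤ k → 1 ≤ D → 2 ^ k ≤ n → n ≤ 2 ^ t →
      (n : ℝ) ^ (2 + ε) * D ^ 4 * t * (C * t) ^ k ≤ n ^ k → ∃ M : ℕ,
      2 ^ k ≤ M ∧ M ≤ 2 ^ (2 * t) ∧ (n : ℝ) ≤ 2 * η ^ 2 * M ∧ (M : ℝ) ≤ n / η ^ 2 ∧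
      ((2 * 10 ^ 4 * K ^ 2 * (2 * t)) ^ (k + 1) * M ^ 2 * D ^ 4) ^ K * M ^ 2 ≤ n ^ (k * K) := by
  obtain ⟨K, hK⟩ := exists_nat_ge (2 / ε)
  have hK1 : 1 ≤ K := by
    have h1 : (0 : ℝ) < 2 / ε := by positivity
    exact_mod_cast (h1.trans_le hK : (0 : ℝ) < K)
  have hKR : (1 : ℝ) ≤ K := by exact_mod_cast hK1
  have hK0 : (0 : ℝ) < K := by linarith
  set A : ℝ := 4 * 10 ^ 4 * K ^ 2 with hA
  have hA1 : 1 ≤ A := by
    rw [hA]
    have : (1 : ℝ) ≤ (K : ℝ) ^ 2 := one_le_pow₀ hKR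
    linarith
  have hη2 : 0 < η ^ 2 := by positivity
  have hη2' : η ^ 2 ≤ 1 / 4 := by nlinarith
  set E : ℝ := (1 / η ^ 2) ^ 4 with hE
  have hinv : 1 ≤ 1 / η ^ 2 := by rw [le_div_iff₀ hη2]; linarith
  have hE1 : 1 ≤ E := one_le_pow₀ hinv
  obtain ⟨C, hC⟩ := exists_nat_ge (A ^ 2 * E)
  refine ⟨C, K, hK1, fun n k D t hk hD hkn hnt hmain => ?_⟩
  have hk0 : 0 < k := by omega
  have hn2 : 2 ≤ n := le_trans (by
    calc 2 = 2 ^ 1 := by norm_num
      _ ≤ 2 ^ k := Nat.pow_le_pow_right (by norm_num) hk0) hkn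
  have hnR : (2 : ℝ) ≤ n := by exact_mod_cast hn2
  have hn0 : (0 : ℝ) < n := by linarith
  have hDR : (1 : ℝ) ≤ D := by exact_mod_cast hD
  have ht1 : 1 ≤ t := by
    rcases Nat.eq_zero_or_pos t with h | h
    · subst h; omega
    · exact h
  have htR : (1 : ℝ) ≤ t := by exact_mod_cast ht1
  have hCpos : (0 : ℝ) < C := lt_of_lt_of_le (by positivity) hC
  -- `n` is large
  have hCn : (C : ℝ) ≤ n := by
    have h1 : (C : ℝ) ^ k ≤ (n : ℝ) ^ k := by
      refine le_trans ?_ hmain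
      have h2 : (1 : ℝ) ≤ (n : ℝ) ^ (2 + ε) := Real.one_le_rpow (by linarith) (by linarith)
      have h3 : (1 : ℝ) ≤ (D : ℝ) ^ 4 := one_le_pow₀ hDR
      have h4 : (1 : ℝ) ≤ (n : ℝ) ^ (2 + ε) * D ^ 4 * t :=
        one_le_mul_of_one_le_of_one_le (one_le_mul_of_one_le_of_one_le h2 h3) htR
      calc (C : ℝ) ^ k ≤ (C * t) ^ k :=
            pow_le_pow_left₀ hCpos.le (le_mul_of_one_le_right hCpos.le htR) k
        _ ≤ (n : ℝ) ^ (2 + ε) * D ^ 4 * t * (C * t) ^ k :=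
            le_mul_of_one_le_left (by positivity) h4
    exact (pow_le_pow_iff_left₀ hCpos.le hn0.le (by omega)).mp h1
  have hηn : 1 / η ^ 2 ≤ n := by
    refine le_trans ?_ (hC.trans hCn)
    calc 1 / η ^ 2 ≤ E := by
          rw [hE]
          exact le_self_pow₀ hinv (by norm_num)
      _ ≤ A ^ 2 * E := le_mul_of_one_le_left (by positivity) (one_le_pow₀ hA1)
  -- the choice of `M`
  set M : ℕ := ⌈(n : ℝ) / (2 * η ^ 2)⌉₊ with hM
  have hM1 : (n : ℝ) / (2 * η ^ 2) ≤ M := Nat.le_ceil _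
  have hM2 : (M : ℝ) ≤ n / η ^ 2 := by
    have h1 := Nat.ceil_lt_add_one (a := (n : ℝ) / (2 * η ^ 2)) (by positivity)
    rw [← hM] at h1
    have h2 : (1 : ℝ) ≤ n / (2 * η ^ 2) := by
      rw [le_div_iff₀ (by positivity)]; linarith
    have h3 : (n : ℝ) / η ^ 2 = n / (2 * η ^ 2) + n / (2 * η ^ 2) := by field_simp; norm_num
    linarith
  have hnM : (n : ℝ) ≤ 2 * η ^ 2 * M := by
    rw [div_le_iff₀ (by positivity)] at hM1
    linarith
  have hkM : 2 ^ k ≤ M := by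
    have h1 : (n : ℝ) ≤ M := by nlinarith [(Nat.cast_nonneg M : (0 : ℝ) ≤ M)]
    exact hkn.trans (by exact_mod_cast h1)
  have hntR : (n : ℝ) ≤ 2 ^ t := by exact_mod_cast hnt
  have hMt : M ≤ 2 ^ (2 * t) := by
    have h1 : (M : ℝ) ≤ 2 ^ (2 * t) := by
      calc (M : ℝ) ≤ n / η ^ 2 := hM2
        _ = n * (1 / η ^ 2) := by ring
        _ ≤ 2 ^ t * 2 ^ t := mul_le_mul hntR (hηn.trans hntR) (by positivity) (by positivity)
        _ = 2 ^ (2 * t) := by rw [← pow_add]; congr 1; ring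
    exact_mod_cast h1
  refine ⟨M, hkM, hMt, hnM, hM2, ?_⟩
  -- the main inequality
  have hMR0 : (0 : ℝ) ≤ M := Nat.cast_nonneg _
  set g : ℝ := (n : ℝ) ^ ε with hg
  have hg0 : 0 < g := by positivity
  have hgK : (n : ℝ) ^ 2 ≤ g ^ K := by
    rw [hg, ← Real.rpow_natCast ((n : ℝ) ^ ε) K, ← Real.rpow_mul hn0.le,
      ← Real.rpow_natCast (n : ℝ) 2]
    refine Real.rpow_le_rpow_of_exponent_le (by linarith) ?_
    rw [div_le_iff₀ hε] at hK
    push_cast
    linarith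
  have hM2K : (M : ℝ) ^ 2 ≤ (g * (1 / η ^ 2) ^ 2) ^ K := by
    have h1 : (1 / η ^ 2) ^ 2 ≤ ((1 / η ^ 2) ^ 2) ^ K :=
      le_self_pow₀ (one_le_pow₀ hinv) (by omega)
    calc (M : ℝ) ^ 2 ≤ (n / η ^ 2) ^ 2 := pow_le_pow_left₀ hMR0 hM2 2
      _ = n ^ 2 * (1 / η ^ 2) ^ 2 := by ring
      _ ≤ g ^ K * ((1 / η ^ 2) ^ 2) ^ K := mul_le_mul hgK h1 (by positivity) (by positivity)
      _ = (g * (1 / η ^ 2) ^ 2) ^ K := (mul_pow _ _ _).symm
  have hfinal : (((2 * 10 ^ 4 * K ^ 2 * (2 * t)) ^ (k + 1) * M ^ 2 * D ^ 4 : ℝ)) ^ K * M ^ 2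
      ≤ (n : ℝ) ^ (k * K) := by
    calc (((2 * 10 ^ 4 * K ^ 2 * (2 * t)) ^ (k + 1) * M ^ 2 * D ^ 4 : ℝ)) ^ K * M ^ 2
        ≤ (((2 * 10 ^ 4 * K ^ 2 * (2 * t)) ^ (k + 1) * M ^ 2 * D ^ 4 : ℝ)) ^ K *
          (g * (1 / η ^ 2) ^ 2) ^ K := mul_le_mul_of_nonneg_left hM2K (by positivity)
      _ = ((A * t) ^ (k + 1) * M ^ 2 * D ^ 4 * (g * (1 / η ^ 2) ^ 2)) ^ K := by
          rw [← mul_pow, hA]; congr 2; ring
      _ ≤ ((n : ℝ) ^ k) ^ K := by
          refine pow_le_pow_left₀ (by positivity) ?_ K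
          refine le_trans ?_ hmain
          have h1 : (n : ℝ) ^ (2 + ε) = n ^ 2 * g := by
            rw [Real.rpow_add hn0, hg]
            congr 1
            exact_mod_cast Real.rpow_natCast (n : ℝ) 2
          rw [h1]
          have h2 : (M : ℝ) ^ 2 ≤ n ^ 2 * (1 / η ^ 2) ^ 2 := by
            calc (M : ℝ) ^ 2 ≤ (n / η ^ 2) ^ 2 := pow_le_pow_left₀ hMR0 hM2 2
              _ = _ := by ring
          have h3 : A ^ (k + 1) * E ≤ (C : ℝ) ^ k := by
            calc A ^ (k + 1) * E ≤ A ^ (2 * k) * E ^ k := by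
                  refine mul_le_mul (pow_le_pow_right₀ hA1 (by omega))
                    (le_self_pow₀ hE1 (by omega)) (by positivity) (by positivity)
              _ = (A ^ 2 * E) ^ k := by rw [mul_pow (A ^ 2) E k, pow_mul A 2 k]
              _ ≤ (C : ℝ) ^ k := pow_le_pow_left₀ (by positivity) hC k
          calc (A * t) ^ (k + 1) * M ^ 2 * D ^ 4 * (g * (1 / η ^ 2) ^ 2)
              ≤ (A * t) ^ (k + 1) * (n ^ 2 * (1 / η ^ 2) ^ 2) * D ^ 4 *
                (g * (1 / η ^ 2) ^ 2) := by gcongr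
            _ = (A ^ (k + 1) * E) * (n ^ 2 * g * D ^ 4 * t * t ^ k) := by
                rw [mul_pow A, hE, pow_succ (t : ℝ) k]; ring
            _ ≤ (C : ℝ) ^ k * (n ^ 2 * g * D ^ 4 * t * t ^ k) :=
                mul_le_mul_of_nonneg_right h3 (by positivity)
            _ = n ^ 2 * g * D ^ 4 * t * (C * t) ^ k := by rw [mul_pow (C : ℝ)]; ring
      _ = (n : ℝ) ^ (k * K) := by rw [← pow_mul]
  exact_mod_cast hfinal

end Pool.Agent.TH661.LPX
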