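import Pool.Agent.TH661.LPX.SigM
import Pool.Agent.TH661.LPX.Choose

/-!
The choice of the signs and of the feasible point.
-/

set_option autoImplicit false

namespace Pool.Agent.TH661.LPX

open Finset

theorem sg_xor (a b : Bool) : sg (xor a b) = sg a * sg b := by cases a <;> cases b <;> simp [sg]

/-- Adding a fixed vector of bits. -/
def xorEquiv {J : Type*} (s : J → Bool) : (J → Bool) ≃ (J → Bool) where
  toFun σ := fun i => xor (σ i) (s i)
  invFun σ := fun i => xor (σ i) (s i)
  left_inv σ := by funext i; simp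
  right_inv σ := by funext i; simp

section sel

variable {J : Type*} [DecidableEq J] [Fintype J] {k m : ℕ}

omit [DecidableEq J] [Fintype J] in
theorem exists_sym (H : J → Fin k → Fin m) (x : Fin k → Fin m → Bool) :
    ∃ e : (J → Bool) ≃ (J → Bool), ∀ (σ : J → Bool) (i : J), yx (pr H σ i) x = sg (e σ i) := by
  have h1 : ∀ i, ∃ s : Bool, sg s = ∏ j, sg (x j (H i j)) := by
    intro i
    rcases yx_cases (H i, false) x with h | h
    · refine ⟨false, ?_⟩
      have h2 : yx (H i, false) x = ∏ j, sg (x j (H i j)) := by simp [yx, sg]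
      rw [← h2, h]; simp [sg]
    · refine ⟨true, ?_⟩
      have h2 : yx (H i, false) x = ∏ j, sg (x j (H i j)) := by simp [yx, sg]
      rw [← h2, h]; simp [sg]
  choose s hs using h1
  refine ⟨xorEquiv s, fun σ i => ?_⟩
  change sg (σ i) * ∏ j, sg (x j (H i j)) = sg (xor (σ i) (s i))
  rw [sg_xor, hs]

theorem av_sign_DL_sat (H : J → Fin k → Fin m) [Nonempty J] {L : ℕ} (hL : 1 ≤ L)
    (x : Fin k → Fin m → Bool) (c : ℝ) :
    av (fun σ : J → Bool => DL yx (pr H σ) L x * (sat yx (pr H σ) x - c)) = 1 - c := by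
  obtain ⟨e, he⟩ := exists_sym H x
  have h1 := av_DL_sat (X := Unit) (J := J) (A := Bool) (y := fun b _ => sg b)
    (fun a _ => sg_cases a) (fun _ => av_sg) hL () c
  rw [← av_equiv e] at h1
  rw [← h1]
  refine av_congr fun σ => ?_
  unfold DL sat Y
  simp only [he]

theorem chernoff_sign (H : J → Fin k → Fin m) {η : ℝ} (hη : 0 ≤ η) :
    av (fun σ : J → Bool => ind (∃ x, 2 * η * Fintype.card J < ∑ i, yx (pr H σ i) x))
      ≤ Fintype.card (Fin k → Fin m → Bool) * Real.exp (-(2 * η ^ 2 * Fintype.card J)) := by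
  have h1 : ∀ σ : J → Bool, ind (∃ x, 2 * η * Fintype.card J < ∑ i, yx (pr H σ i) x)
      ≤ ∑ x, ind (2 * η * Fintype.card J < ∑ i, yx (pr H σ i) x) := by
    intro σ
    by_cases h : ∃ x, 2 * η * Fintype.card J < ∑ i, yx (pr H σ i) x
    · obtain ⟨x, hx⟩ := h
      refine (ind_le_one _).trans ?_
      refine le_trans ?_ (single_le_sum
        (f := fun x => ind (2 * η * Fintype.card J < ∑ i, yx (pr H σ i) x))
        (fun _ _ => ind_nonneg _) (mem_univ x))
      rw [ind_true hx]
    · rw [ind_false h]; exact sum_nonneg fun _ _ => ind_nonneg _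
  refine (av_mono h1).trans ?_
  rw [av_sum]
  have h2 : ∀ x, av (fun σ : J → Bool => ind (2 * η * Fintype.card J
      < ∑ i, yx (pr H σ i) x)) ≤ Real.exp (-(2 * η ^ 2 * Fintype.card J)) := by
    intro x
    obtain ⟨e, he⟩ := exists_sym H x
    have h3 := chernoff (J := J) (A := Bool) (y := fun b (_ : Unit) => sg b)
      (fun a _ => sg_cases a) (x := ()) av_sg hη
    rw [← av_equiv e] at h3
    simp only [he]
    exact h3
  refine (sum_le_sum fun x _ => h2 x).trans (le_of_eq ?_)
  rw [sum_const, card_univ, nsmul_eq_mul]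

theorem choose_sigma (H : J → Fin k → Fin m) [Nonempty J] {L : ℕ} (hL : 1 ≤ L)
    {X1 X2 : Finset (Fin k → Fin m → Bool)} (h21 : X2 ⊆ X1)
    (hcard : X1.card ≤ 2 * X2.card) (hne : X1.Nonempty) {c p : ℝ} (hc0 : 0 ≤ c)
    (hc1 : c < 1) (Bd : (J → Bool) → Prop)
    (hp : av (fun σ : J → Bool => ind (Bd σ)) ≤ p)
    (hsmall : p * (NL J L + 1) < (1 - c) / 4) :
    ∃ σ : J → Bool, ¬ Bd σ ∧
      0 < ∑ x, gam yx (pr H σ) L X1 X2 ((1 - c) / 4) x * (sat yx (pr H σ) x - c) := by
  classical
  by_contra hcon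
  push Not at hcon
  set ε : ℝ := (1 - c) / 4 with hε
  have hε0 : 0 < ε := by rw [hε]; linarith
  set Φ : (J → Bool) → ℝ := fun σ =>
    ∑ x, gam yx (pr H σ) L X1 X2 ε x * (sat yx (pr H σ) x - c) with hΦ
  have hNL : 0 ≤ NL J L := Nat.cast_nonneg _
  have hX1 : (0 : ℝ) < X1.card := by exact_mod_cast card_pos.mpr hne
  -- splitting
  have hsplit : ∀ σ : J → Bool, Φ σ
      = ∑ x ∈ X2, DL yx (pr H σ) L x * (sat yx (pr H σ) x - c)
      + ∑ x ∈ X1, ε * (sat yx (pr H σ) x - c) := by
    intro σ
    have h1 : ∀ x, gam yx (pr H σ) L X1 X2 ε x * (sat yx (pr H σ) x - c)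
        = (if x ∈ X2 then DL yx (pr H σ) L x * (sat yx (pr H σ) x - c) else 0)
          + (if x ∈ X1 then ε * (sat yx (pr H σ) x - c) else 0) := by
      intro x
      unfold gam
      split_ifs <;> ring
    change ∑ x, gam yx (pr H σ) L X1 X2 ε x * (sat yx (pr H σ) x - c) = _
    rw [sum_congr rfl (fun x _ => h1 x), sum_add_distrib, ← sum_filter, ← sum_filter]
    congr 2 <;> · ext x; simp
  -- the lower bound for the average
  have hlow : X1.card * ε ≤ av Φ := by
    have h1 : av Φ = ∑ x ∈ X2, av (fun σ : J → Bool =>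
          DL yx (pr H σ) L x * (sat yx (pr H σ) x - c))
        + av (fun σ : J → Bool => ∑ x ∈ X1, ε * (sat yx (pr H σ) x - c)) := by
      rw [av_congr hsplit, av_add, av_sum]
    rw [h1, sum_congr rfl (fun x _ => av_sign_DL_sat H hL x c), sum_const, nsmul_eq_mul]
    have h2 : -(X1.card * ε) ≤ av (fun σ : J → Bool =>
        ∑ x ∈ X1, ε * (sat yx (pr H σ) x - c)) := by
      refine const_le_av fun σ => ?_
      have h3 : ∑ x ∈ X1, (-ε) ≤ ∑ x ∈ X1, ε * (sat yx (pr H σ) x - c) := by
        refine sum_le_sum fun x _ => ?_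
        have := sat_nonneg yx_cases (pr H σ) x
        nlinarith
      rw [sum_const, nsmul_eq_mul] at h3
      linarith
    have h4 : (X1.card : ℝ) ≤ 2 * X2.card := by exact_mod_cast hcard
    have h5 : (1 : ℝ) - c = 4 * ε := by rw [hε]; ring
    rw [h5]
    nlinarith
  -- the upper bound
  have hup : ∀ σ : J → Bool, Φ σ ≤ ind (Bd σ) * (X1.card * (NL J L + 1)) := by
    intro σ
    have hpos : 0 ≤ X1.card * (NL J L + 1) := by positivity
    have hcrude : Φ σ ≤ X1.card * (NL J L + 1) := by
      rw [hsplit σ]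
      have h1 : ∑ x ∈ X2, DL yx (pr H σ) L x * (sat yx (pr H σ) x - c)
          ≤ ∑ x ∈ X2, NL J L := by
        refine sum_le_sum fun x _ => ?_
        have h2 : |DL yx (pr H σ) L x * (sat yx (pr H σ) x - c)| ≤ NL J L * 1 := by
          rw [abs_mul]
          refine mul_le_mul (abs_DL_le abs_yx (pr H σ) L x) ?_ (abs_nonneg _) hNL
          have h3 := sat_nonneg yx_cases (pr H σ) x
          have h4 := sat_le_one yx_cases (pr H σ) x
          rw [abs_le]
          constructor <;> linarith
        rw [mul_one] at h2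
        exact (le_abs_self _).trans h2
      have h5 : ∑ x ∈ X1, ε * (sat yx (pr H σ) x - c) ≤ ∑ x ∈ X1, (1 : ℝ) := by
        refine sum_le_sum fun x _ => ?_
        have h4 := sat_le_one yx_cases (pr H σ) x
        have h6 : ε ≤ 1 := by rw [hε]; linarith
        nlinarith
      rw [sum_const, nsmul_eq_mul] at h1 h5
      have h7 : (X2.card : ℝ) ≤ X1.card := by exact_mod_cast card_le_card h21
      have h8 : (X2.card : ℝ) * NL J L ≤ X1.card * NL J L :=
        mul_le_mul_of_nonneg_right h7 hNL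
      nlinarith
    by_cases hb : Bd σ
    · rw [ind_true hb, one_mul]; exact hcrude
    · rw [ind_false hb, zero_mul]; exact hcon σ hb
  have h1 := av_mono hup
  rw [av_mul_right] at h1
  have h3 : av Φ ≤ p * (X1.card * (NL J L + 1)) :=
    h1.trans (mul_le_mul_of_nonneg_right hp (by positivity))
  have h4 : p * (X1.card * (NL J L + 1)) = X1.card * (p * (NL J L + 1)) := by ring
  rw [h4] at h3
  have h5 : X1.card * (p * (NL J L + 1)) < X1.card * ε := mul_lt_mul_of_pos_left hsmall hX1
  linarith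

/-- Mixed-binary conic programs: there is a constraint system of small value, a pattern and an
affine combination of the points of this pattern which satisfies all conic constraints and at which
the objective is large. -/
theorem region_signs [Nonempty J] {L : ℕ} (hL : 1 ≤ L) {c η p p' τ : ℝ} (hc0 : 0 ≤ c)
    (hc1 : c < 1) (hη : 0 ≤ η)
    {P : Type*} [Fintype P] (β : (Fin k → Fin m → Bool) → P) {r D : ℕ}
    (s : Fin r → (Fin k → Fin m → Bool) → Fin (D + 1) → ℝ) (hτ : 0 < τ)
    (hτ2 : (D + 1) * (2 * (r * (D + 1) + 1)) * Fintype.card P * τ ≤ (1 - c) / 4)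
    (hp : ∀ V : Option (Fin r) → Submodule ℝ ((Fin k → Fin m → Bool) → ℝ),
      (∀ o, Module.finrank ℝ (V o) ≤ D + 1) →
      ∃ H : J → Fin k → Fin m, ∀ o, av (fun σ : J → Bool => ind (∃ v ∈ box (V o),
        av (fun x => v x * DL yx (pr H σ) L x) < - τ)) ≤ p)
    (hp' : Fintype.card (Fin k → Fin m → Bool) * Real.exp (-(2 * η ^ 2 * Fintype.card J)) ≤ p')
    (hsmall : ((r + 1) * p + p') * (NL J L + 1) < (1 - c) / 4) :
    ∃ ω : J → (Fin k → Fin m) × Bool, (∀ x, ∑ i, yx (ω i) x ≤ 2 * η * Fintype.card J) ∧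
      ∃ q : P, ∃ γ : (Fin k → Fin m → Bool) → ℝ, (∀ x, β x ≠ q → γ x = 0) ∧ ∑ x, γ x = 1 ∧
        (∀ (j : Fin r) (a : Fin (D + 1) → ℝ), (∀ x, 0 ≤ ∑ l, a l * s j x l) →
          0 ≤ ∑ x, γ x * ∑ l, a l * s j x l) ∧ c ≤ ∑ x, γ x * sat yx ω x := by
  classical
  -- a large class
  obtain ⟨q, hq⟩ : ∃ q : P, (Fintype.card (Fin k → Fin m → Bool) : ℝ) / Fintype.card P
      ≤ ((univ.filter fun x => β x = q).card : ℝ) := by
    by_contra hcon
    push Not at hcon
    have : Nonempty P := ⟨β (Classical.arbitrary _)⟩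
    have h1 : ∑ q : P, ((univ.filter fun x => β x = q).card : ℝ)
        < ∑ _q : P, (Fintype.card (Fin k → Fin m → Bool) : ℝ) / Fintype.card P :=
      sum_lt_sum_of_nonempty univ_nonempty fun q _ => hcon q
    have h2 : ∑ q : P, ((univ.filter fun x => β x = q).card : ℝ)
        = Fintype.card (Fin k → Fin m → Bool) := by
      rw [← Nat.cast_sum]
      congr 1
      rw [← card_univ (α := Fin k → Fin m → Bool)]
      exact (card_eq_sum_card_fiberwise fun x _ => mem_univ (β x)).symm
    have h3 : (Fintype.card P : ℝ) ≠ 0 := by exact_mod_cast Fintype.card_ne_zero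
    rw [h2, sum_const, card_univ, nsmul_eq_mul] at h1
    field_simp at h1
    exact lt_irrefl _ h1
  set X1 : Finset (Fin k → Fin m → Bool) := univ.filter fun x => β x = q with hX1
  have hXpos : (0 : ℝ) < Fintype.card (Fin k → Fin m → Bool) := by
    exact_mod_cast Fintype.card_pos
  have hPpos : (0 : ℝ) < Fintype.card P := by
    have : Nonempty P := ⟨q⟩
    exact_mod_cast Fintype.card_pos
  have hX1pos : (0 : ℝ) < X1.card := lt_of_lt_of_le (by positivity) hq
  have hX1ne : X1.Nonempty := card_pos.mp (by exact_mod_cast hX1pos)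
  -- the frames
  choose b hb0 hbsum hbc using fun j => frame X1 hX1ne (s j)
  set Λ : ℝ := 2 * (r * (D + 1) + 1) with hΛ
  have hΛpos : 0 < Λ := by positivity
  have hΛ1 : 1 < Λ := by
    rw [hΛ]
    have : (0 : ℝ) ≤ r * (D + 1) := by positivity
    linarith
  set X2 : Finset (Fin k → Fin m → Bool) := X1.filter fun x => ∀ j i, b j i x ≤ Λ with hX2
  have h21 : X2 ⊆ X1 := filter_subset _ _
  have hcard : X1.card ≤ 2 * X2.card := by
    have h1 : X1 \ X2 ⊆ (univ : Finset (Fin r × Fin (D + 1))).biUnion fun p =>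
        X1.filter fun x => Λ < b p.1 p.2 x := by
      intro x hx
      have hx1 : x ∈ X1 := (mem_sdiff.mp hx).1
      have hx2 : x ∉ X2 := (mem_sdiff.mp hx).2
      rw [mem_biUnion]
      have h2 : ¬ ∀ j i, b j i x ≤ Λ := fun h => hx2 (mem_filter.mpr ⟨hx1, h⟩)
      push Not at h2
      obtain ⟨j, i, hj⟩ := h2
      exact ⟨(j, i), mem_univ _, mem_filter.mpr ⟨hx1, hj⟩⟩
    have h3 : ∀ p : Fin r × Fin (D + 1),
        ((X1.filter fun x => Λ < b p.1 p.2 x).card : ℝ) * Λ ≤ X1.card := by
      intro p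
      calc ((X1.filter fun x => Λ < b p.1 p.2 x).card : ℝ) * Λ
          = ∑ x ∈ X1.filter (fun x => Λ < b p.1 p.2 x), Λ := by rw [sum_const, nsmul_eq_mul]
        _ ≤ ∑ x ∈ X1.filter (fun x => Λ < b p.1 p.2 x), b p.1 p.2 x :=
            sum_le_sum fun x hx => (mem_filter.mp hx).2.le
        _ ≤ ∑ x ∈ X1, b p.1 p.2 x :=
            sum_le_sum_of_subset_of_nonneg (filter_subset _ _) fun x _ _ => hb0 _ _ x
        _ ≤ X1.card := hbsum _ _
    have h5 : ((X1 \ X2).card : ℝ) * Λ ≤ (r * (D + 1)) * X1.card := by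
      have h6 : ((X1 \ X2).card : ℝ) ≤
          ∑ p : Fin r × Fin (D + 1), ((X1.filter fun x => Λ < b p.1 p.2 x).card : ℝ) := by
        rw [← Nat.cast_sum]
        exact_mod_cast (card_le_card h1).trans card_biUnion_le
      calc ((X1 \ X2).card : ℝ) * Λ
          ≤ (∑ p : Fin r × Fin (D + 1), ((X1.filter fun x => Λ < b p.1 p.2 x).card : ℝ)) * Λ :=
            mul_le_mul_of_nonneg_right h6 hΛpos.le
        _ = ∑ p : Fin r × Fin (D + 1),
            ((X1.filter fun x => Λ < b p.1 p.2 x).card : ℝ) * Λ := sum_mul _ _ _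
        _ ≤ ∑ _p : Fin r × Fin (D + 1), (X1.card : ℝ) := sum_le_sum fun p _ => h3 p
        _ = (r * (D + 1)) * X1.card := by
            rw [sum_const, card_univ, Fintype.card_prod, Fintype.card_fin, Fintype.card_fin,
              nsmul_eq_mul]
            push_cast; ring
    have h7 : ((X1 \ X2).card : ℝ) + X2.card = X1.card := by
      exact_mod_cast card_sdiff_add_card_eq_card h21
    have h8 : (2 : ℝ) * (X1 \ X2).card ≤ X1.card := by
      have h9 : (0 : ℝ) ≤ (X1 \ X2).card := Nat.cast_nonneg _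
      have h10 : (0 : ℝ) ≤ r * (D + 1) := by positivity
      by_contra hcon
      rw [not_le] at hcon
      have h11 : (r * (D + 1) + 1 : ℝ) * X1.card < (r * (D + 1) + 1) * (2 * (X1 \ X2).card) :=
        mul_lt_mul_of_pos_left hcon (by positivity)
      rw [hΛ] at h5
      nlinarith
    have h12 : (X1.card : ℝ) ≤ 2 * X2.card := by linarith
    exact_mod_cast h12
  -- the spaces of test functions
  let T : Fin r → (Fin (D + 1) → ℝ) →ₗ[ℝ] ((Fin k → Fin m → Bool) → ℝ) := fun j =>
    { toFun := fun a x => if x ∈ X2 then ∑ l, a l * s j x l else 0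
      map_add' := by
        intro a a'
        funext x
        simp only [Pi.add_apply]
        split_ifs
        · rw [← sum_add_distrib]; exact sum_congr rfl fun l _ => by ring
        · ring
      map_smul' := by
        intro t a
        funext x
        simp only [Pi.smul_apply, smul_eq_mul, RingHom.id_apply]
        split_ifs
        · rw [mul_sum]; exact sum_congr rfl fun l _ => by ring
        · ring }
  have hT : ∀ j a x, T j a x = if x ∈ X2 then ∑ l, a l * s j x l else 0 := fun j a x => rfl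
  let one2 : (Fin k → Fin m → Bool) → ℝ := fun x => if x ∈ X2 then 1 else 0
  let V : Option (Fin r) → Submodule ℝ ((Fin k → Fin m → Bool) → ℝ) := fun o =>
    match o with
    | none => Submodule.span ℝ {one2}
    | some j => LinearMap.range (T j)
  have hV : ∀ o, Module.finrank ℝ (V o) ≤ D + 1 := by
    intro o
    cases o with
    | none =>
      have h1 := finrank_span_le_card (R := ℝ) ({one2} : Set ((Fin k → Fin m → Bool) → ℝ))
      simp only [Set.toFinset_singleton, card_singleton] at h1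
      exact h1.trans (by omega)
    | some j =>
      have h3 := LinearMap.finrank_range_le (T j)
      rw [Module.finrank_fin_fun] at h3
      exact h3
  obtain ⟨H, hH⟩ := hp V hV
  -- the signs
  have hBd : av (fun σ : J → Bool => ind ((∃ x, 2 * η * Fintype.card J < ∑ i, yx (pr H σ i) x) ∨
      ∃ o, ∃ v ∈ box (V o), av (fun x => v x * DL yx (pr H σ) L x) < - τ))
      ≤ (r + 1) * p + p' := by
    have h1 : ∀ σ : J → Bool, ind ((∃ x, 2 * η * Fintype.card J < ∑ i, yx (pr H σ i) x) ∨
        ∃ o, ∃ v ∈ box (V o), av (fun x => v x * DL yx (pr H σ) L x) < - τ)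
        ≤ ind (∃ x, 2 * η * Fintype.card J < ∑ i, yx (pr H σ i) x)
          + ∑ o, ind (∃ v ∈ box (V o), av (fun x => v x * DL yx (pr H σ) L x) < - τ) := by
      intro σ
      refine (ind_or _ _).trans ?_
      refine add_le_add (le_refl _) ?_
      by_cases h : ∃ o, ∃ v ∈ box (V o), av (fun x => v x * DL yx (pr H σ) L x) < - τ
      · obtain ⟨o, ho⟩ := h
        refine (ind_le_one _).trans ?_
        refine le_trans ?_ (single_le_sum (f := fun o =>
          ind (∃ v ∈ box (V o), av (fun x => v x * DL yx (pr H σ) L x) < - τ))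
          (fun _ _ => ind_nonneg _) (mem_univ o))
        rw [ind_true ho]
      · rw [ind_false h]; exact sum_nonneg fun _ _ => ind_nonneg _
    refine (av_mono h1).trans ?_
    rw [av_add, av_sum, add_comm]
    refine add_le_add ?_ ((chernoff_sign H hη).trans hp')
    refine (sum_le_sum fun o _ => hH o).trans (le_of_eq ?_)
    rw [sum_const, card_univ, Fintype.card_option, Fintype.card_fin, nsmul_eq_mul]
    push_cast; ring
  obtain ⟨σ, hσ, hΦ⟩ := choose_sigma H hL h21 hcard hX1ne hc0 hc1 _ hBd hsmall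
  rw [not_or] at hσ
  obtain ⟨hσ1, hσ2⟩ := hσ
  push Not at hσ1 hσ2
  refine ⟨pr H σ, hσ1, q, ?_⟩
  set ε : ℝ := (1 - c) / 4 with hε
  have hε0 : 0 < ε := by rw [hε]; linarith
  -- sums against the functional
  have hgam : ∀ f : (Fin k → Fin m → Bool) → ℝ, ∑ x, gam yx (pr H σ) L X1 X2 ε x * f x
      = Fintype.card (Fin k → Fin m → Bool) *
          av (fun x => (if x ∈ X2 then f x else 0) * DL yx (pr H σ) L x)
        + ε * ∑ x ∈ X1, f x := by
    intro f
    have h1 : Fintype.card (Fin k → Fin m → Bool) *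
        av (fun x => (if x ∈ X2 then f x else 0) * DL yx (pr H σ) L x)
        = ∑ x, (if x ∈ X2 then f x else 0) * DL yx (pr H σ) L x := by
      unfold av; field_simp
    have h2 : ε * ∑ x ∈ X1, f x = ∑ x, if x ∈ X1 then ε * f x else 0 := by
      rw [mul_sum, ← sum_filter]; congr 1; ext x; simp
    rw [h1, h2, ← sum_add_distrib]
    refine sum_congr rfl fun x _ => ?_
    unfold gam
    split_ifs <;> ring
  have hτX : Fintype.card (Fin k → Fin m → Bool) * ((D + 1) * Λ * τ) ≤ ε * X1.card := by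
    have h1 : (Fintype.card (Fin k → Fin m → Bool) : ℝ) ≤ X1.card * Fintype.card P := by
      rw [div_le_iff₀ hPpos] at hq; exact hq
    have h2 : 0 ≤ (D + 1) * Λ * τ := by positivity
    calc Fintype.card (Fin k → Fin m → Bool) * ((D + 1) * Λ * τ)
        ≤ (X1.card * Fintype.card P) * ((D + 1) * Λ * τ) := mul_le_mul_of_nonneg_right h1 h2
      _ = X1.card * ((D + 1) * (2 * (r * (D + 1) + 1)) * Fintype.card P * τ) := by
          rw [hΛ]; ring
      _ ≤ X1.card * ε := mul_le_mul_of_nonneg_left hτ2 hX1pos.le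
      _ = ε * X1.card := mul_comm _ _
  have hDΛ : (1 : ℝ) < (D + 1) * Λ := by
    have h8 : (0 : ℝ) ≤ D := Nat.cast_nonneg _
    nlinarith
  have hΓ : 0 < ∑ x, gam yx (pr H σ) L X1 X2 ε x := by
    have h1 := hgam (fun _ => 1)
    simp only [mul_one] at h1
    rw [h1, sum_const, nsmul_eq_mul, mul_one]
    have h2 := hσ2 none one2 ⟨Submodule.mem_span_singleton_self _, fun x => by
      simp only [one2]; split_ifs <;> norm_num⟩
    have h4 : -(Fintype.card (Fin k → Fin m → Bool) * τ) ≤
        Fintype.card (Fin k → Fin m → Bool) *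
          av (fun x => (if x ∈ X2 then (1 : ℝ) else 0) * DL yx (pr H σ) L x) := by
      have h3 : -τ ≤ av (fun x => (if x ∈ X2 then (1 : ℝ) else 0) * DL yx (pr H σ) L x) := h2
      nlinarith
    have h5 : Fintype.card (Fin k → Fin m → Bool) * τ < ε * X1.card := by
      refine lt_of_lt_of_le ?_ hτX
      have h6 : 0 < Fintype.card (Fin k → Fin m → Bool) * τ := by positivity
      calc Fintype.card (Fin k → Fin m → Bool) * τ
          < Fintype.card (Fin k → Fin m → Bool) * τ * ((D + 1) * Λ) :=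
            lt_mul_of_one_lt_right h6 hDΛ
        _ = Fintype.card (Fin k → Fin m → Bool) * ((D + 1) * Λ * τ) := by ring
    linarith
  set Γ : ℝ := ∑ x, gam yx (pr H σ) L X1 X2 ε x with hΓdef
  have hgam0 : ∀ x, x ∉ X1 → gam yx (pr H σ) L X1 X2 ε x = 0 := by
    intro x h1
    have h2 : x ∉ X2 := fun h => h1 (h21 h)
    simp [gam, h1, h2]
  refine ⟨fun x => gam yx (pr H σ) L X1 X2 ε x / Γ, ?_, ?_, ?_, ?_⟩
  · intro x hx
    change gam yx (pr H σ) L X1 X2 ε x / Γ = 0
    rw [hgam0 x fun h => hx (mem_filter.mp h).2, zero_div]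
  · rw [← sum_div]; exact div_self hΓ.ne'
  · intro j a ha
    have h1 : ∑ x, gam yx (pr H σ) L X1 X2 ε x / Γ * ∑ l, a l * s j x l
        = (∑ x, gam yx (pr H σ) L X1 X2 ε x * ∑ l, a l * s j x l) / Γ := by
      rw [sum_div]; exact sum_congr rfl fun x _ => by ring
    rw [h1]
    refine div_nonneg ?_ hΓ.le
    obtain ⟨cc, hcc1, hcc2, hcc3⟩ := hbc j a fun x _ => ha x
    set Sa : ℝ := ∑ x ∈ X1, ∑ l, a l * s j x l with hSa
    rcases (sum_nonneg fun x (_ : x ∈ X1) => ha x).lt_or_eq with hpos | hzero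
    · set Aa : ℝ := Sa / X1.card with hAa
      have hAa0 : 0 < Aa := div_pos hpos hX1pos
      have hSaA : Sa = Aa * X1.card := by rw [hAa]; field_simp
      have hbig : 0 < Aa * ((D + 1) * Λ) := by positivity
      -- the function is bounded
      have hbd : ∀ x ∈ X2, ∑ l, a l * s j x l ≤ Aa * ((D + 1) * Λ) := by
        intro x hx
        rw [hcc3 x (h21 hx)]
        calc ∑ i, cc i * b j i x ≤ ∑ _i : Fin (D + 1), Aa * Λ := by
              refine sum_le_sum fun i _ => ?_
              have h2 : cc i ≤ Aa := by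
                rw [hAa, le_div_iff₀ hX1pos]
                exact le_trans (mul_le_mul_of_nonneg_right (le_abs_self _) hX1pos.le) (hcc1 i)
              calc cc i * b j i x ≤ Aa * b j i x := mul_le_mul_of_nonneg_right h2 (hb0 _ _ _)
                _ ≤ Aa * Λ := mul_le_mul_of_nonneg_left ((mem_filter.mp hx).2 _ _) hAa0.le
          _ = Aa * ((D + 1) * Λ) := by
              rw [sum_const, card_univ, Fintype.card_fin, nsmul_eq_mul]
              push_cast; ring
      have h2 := hσ2 (some j) ((1 / (Aa * ((D + 1) * Λ))) • T j a)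
        ⟨Submodule.smul_mem _ _ (LinearMap.mem_range_self _ _), fun x => by
          rw [Pi.smul_apply, smul_eq_mul, hT, one_div_mul_eq_div]
          split_ifs with hx
          · exact ⟨div_nonneg (ha x) hbig.le, div_le_one_of_le₀ (hbd x hx) hbig.le⟩
          · rw [zero_div]; exact ⟨le_refl _, zero_le_one⟩⟩
      have h3 : av (fun x => ((1 / (Aa * ((D + 1) * Λ))) • T j a) x * DL yx (pr H σ) L x)
          = (1 / (Aa * ((D + 1) * Λ))) *
            av (fun x => (if x ∈ X2 then ∑ l, a l * s j x l else 0) * DL yx (pr H σ) L x) := by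
        rw [← av_mul_left]
        refine av_congr fun x => ?_
        rw [Pi.smul_apply, smul_eq_mul, hT]; ring
      rw [h3, one_div_mul_eq_div, le_div_iff₀ hbig] at h2
      rw [hgam, ← hSa, hSaA]
      have h9 : Fintype.card (Fin k → Fin m → Bool) * (-τ * (Aa * ((D + 1) * Λ)))
          ≤ Fintype.card (Fin k → Fin m → Bool) *
            av (fun x => (if x ∈ X2 then ∑ l, a l * s j x l else 0) * DL yx (pr H σ) L x) :=
        mul_le_mul_of_nonneg_left h2 hXpos.le
      have h10 : Fintype.card (Fin k → Fin m → Bool) * (-τ * (Aa * ((D + 1) * Λ)))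
          = - (Aa * (Fintype.card (Fin k → Fin m → Bool) * ((D + 1) * Λ * τ))) := by ring
      have h11 := mul_le_mul_of_nonneg_left hτX hAa0.le
      rw [h10] at h9
      calc (0 : ℝ) ≤ -(Aa * (Fintype.card (Fin k → Fin m → Bool) * ((D + 1) * Λ * τ)))
            + Aa * (ε * X1.card) := by linarith
        _ ≤ _ := by linarith
    · have h2 : ∀ x ∈ X1, ∑ l, a l * s j x l = 0 :=
        (sum_eq_zero_iff_of_nonneg fun x _ => ha x).mp hzero.symm
      refine le_of_eq (sum_eq_zero fun x _ => ?_).symm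
      by_cases hx : x ∈ X1
      · rw [h2 x hx, mul_zero]
      · rw [hgam0 x hx, zero_mul]
  · have h1 : ∑ x, gam yx (pr H σ) L X1 X2 ε x / Γ * sat yx (pr H σ) x
        = (∑ x, gam yx (pr H σ) L X1 X2 ε x * sat yx (pr H σ) x) / Γ := by
      rw [sum_div]; exact sum_congr rfl fun x _ => by ring
    rw [h1, le_div_iff₀ hΓ]
    have h2 : ∑ x, gam yx (pr H σ) L X1 X2 ε x * (sat yx (pr H σ) x - c)
        = ∑ x, gam yx (pr H σ) L X1 X2 ε x * sat yx (pr H σ) x - Γ * c := by
      rw [hΓdef, sum_mul, ← sum_sub_distrib]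
      exact sum_congr rfl fun x _ => by ring
    linarith

end sel

end Pool.Agent.TH661.LPX
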