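import Pool.Agent.TH661.LPX.ChainH

/-!
Random signs on a fixed hypergraph.
-/

set_option autoImplicit false

namespace Pool.Agent.TH661.LPX

open Finset

section sgn

variable {J : Type*} [DecidableEq J] [Fintype J] {k m : ℕ}

theorem poly_tail' (𝓔 : Finset (Finset J)) (w : Finset J → ℝ) {N : ℕ} (hN : 1 ≤ N) {s W : ℝ}
    (hs : 0 < s) (hW : ∑ E ∈ 𝓔, (2 * N) ^ E.card * w E ^ 2 ≤ W) :
    av (fun σ : J → Bool => ind (s < |∑ E ∈ 𝓔, w E * ∏ i ∈ E, sg (σ i)|))
      ≤ (W / s ^ 2) ^ N := by
  classical
  have h := poly_tail (I := J) (fun E => if E ∈ 𝓔 then w E else 0) hN hs (W := W) (by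
    refine le_trans (le_of_eq ?_) hW
    have h1 : ∀ E : Finset J, (2 * (N : ℝ)) ^ E.card * (if E ∈ 𝓔 then w E else 0) ^ 2
        = if E ∈ 𝓔 then (2 * (N : ℝ)) ^ E.card * w E ^ 2 else 0 := by
      intro E; split_ifs <;> ring
    rw [sum_congr rfl fun E _ => h1 E, ← sum_filter]
    congr 1; ext E; simp)
  refine le_trans (le_of_eq ?_) h
  refine av_congr fun σ => ?_
  congr 3
  have h1 : ∀ E : Finset J, (if E ∈ 𝓔 then w E else 0) * ∏ i ∈ E, sg (σ i)
      = if E ∈ 𝓔 then w E * ∏ i ∈ E, sg (σ i) else 0 := by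
    intro E; split_ifs <;> ring
  rw [sum_congr rfl fun E _ => h1 E, ← sum_filter]
  congr 1; ext E; simp

/-- The weight of the sets with more than `l0` and at most `L` elements. -/
noncomputable def Sig (H : J → Fin k → Fin m) (a : ℝ) (N l0 L : ℕ) : ℝ :=
  ∑ E ∈ univ.filter (fun E : Finset J => l0 < E.card ∧ E.card ≤ L),
    (2 * (N : ℝ)) ^ E.card * a ^ nS (SE H E)

/-- The controlled part, for given signs on `F`. -/
theorem main_coeff (H : J → Fin k → Fin m) {δ a s1 : ℝ} {N L1 L f D : ℕ} (hδ : 0 < δ)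
    (ha : 0 < a) (hL1 : L1 ≤ L) (hS1 : Sig H a N 0 L ≤ s1) (hs1 : 0 ≤ s1)
    (W : Submodule ℝ ((Fin k → Fin m → Bool) → ℝ)) (hW : Module.finrank ℝ W ≤ D + 1)
    (F P : Finset J) (hF : F.card ≤ f) :
    ∃ w : Fin (D + 1) → Finset J → ℝ,
      (∀ i, ∑ E ∈ ((Fᶜ).powerset.filter (fun E => E.card ≤ L1)).erase ∅,
        (2 * (N : ℝ)) ^ E.card * w i E ^ 2 ≤ s1) ∧
      ((∀ E ⊆ univ \ F, E.Nonempty → E.card ≤ L1 →
        ¬ VH H δ a (box W) E (up yx (pr H (bs P)) F fun _ => 1)) →
        ∀ v ∈ box W, δ ≤ av (fun x => up yx (pr H (bs P)) F (fun _ => 1) x * v x) →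
        ∀ σ : J → Bool,
        (∀ i, |∑ E ∈ ((Fᶜ).powerset.filter (fun E => E.card ≤ L1)).erase ∅,
          w i E * ∏ i ∈ E, sg (σ i)| ≤ 1 / (D + 1)) →
        |∑ E ∈ ((Fᶜ).powerset.filter (fun E => E.card ≤ L1)).erase ∅,
          fc (fun x => up yx (pr H (bs P)) F (fun _ => 1) x * v x) (SE H E) *
            ∏ i ∈ E, sg (σ i)| ≤
          av (fun x => up yx (pr H (bs P)) F (fun _ => 1) x * v x)) := by
  classical
  set 𝓔 := ((Fᶜ).powerset.filter (fun E => E.card ≤ L1)).erase ∅ with h𝓔
  set g : (Fin k → Fin m → Bool) → ℝ := up yx (pr H (bs P)) F fun _ => 1 with hg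
  have hg0 : ∀ x, 0 ≤ g x := up_nonneg abs_yx _ F fun _ => zero_le_one
  have hg1 : ∀ x, g x ≤ 2 ^ f := by
    intro x
    rw [hg]
    unfold up
    rw [one_mul]
    exact (prod_one_add_le abs_yx _ F x).trans (pow_le_pow_right₀ (by norm_num) hF)
  by_cases hgood : ∀ E ⊆ univ \ F, E.Nonempty → E.card ≤ L1 → ¬ VH H δ a (box W) E g
  · rcases norm_spanner W hW hg0 hg1 hδ with hno | ⟨b, hb, hc⟩
    · refine ⟨fun _ _ => 0, fun i => ?_, fun _ v hv hv1 => absurd hv1 (hno v hv)⟩
      simp [hs1]
    · refine ⟨fun i E => fc (b i) (SE H E), fun i => ?_, fun _ v hv hv1 σ hσ => ?_⟩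
      · refine le_trans ?_ hS1
        unfold Sig
        have hsub : 𝓔 ⊆ univ.filter (fun E : Finset J => 0 < E.card ∧ E.card ≤ L) := by
          intro E hE
          rw [h𝓔, mem_erase, mem_filter] at hE
          rw [mem_filter]
          exact ⟨mem_univ _, card_pos.mpr (nonempty_iff_ne_empty.mpr hE.1), by omega⟩
        refine le_trans (sum_le_sum fun E hE => ?_)
          (sum_le_sum_of_subset_of_nonneg hsub fun _ _ _ => by positivity)
        rw [h𝓔, mem_erase, mem_filter, mem_powerset] at hE
        refine mul_le_mul_of_nonneg_left ?_ (by positivity)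
        obtain ⟨-, -, -, v, hv, hv1, hvb⟩ := hb i
        have hpos : 0 < av (fun x => g x * v x) := lt_of_lt_of_le hδ hv1
        by_contra hcon
        rw [not_le] at hcon
        change a ^ nS (SE H E) < fc (b i) (SE H E) ^ 2 at hcon
        rw [← hvb, fc_smul, mul_pow, one_div, inv_pow, ← div_eq_inv_mul,
          lt_div_iff₀ (by positivity)] at hcon
        refine hgood E ?_ (nonempty_iff_ne_empty.mpr hE.1) hE.2.2 ⟨v, hv, hv1, hcon⟩
        intro i hi
        exact mem_sdiff.mpr ⟨mem_univ _, mem_compl.mp (hE.2.1 hi)⟩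
      · have hpos : 0 < av (fun x => g x * v x) := lt_of_lt_of_le hδ hv1
        obtain ⟨c, hc1, hc2⟩ := hc v hv hv1
        have h1 : ∀ E : Finset J, fc (fun x => g x * v x) (SE H E)
            = av (fun x => g x * v x) * ∑ i, c i * fc (b i) (SE H E) := by
          intro E
          rw [← fc_sum, ← hc2, fc_smul]
          field_simp
        have h2 : ∑ E ∈ 𝓔, fc (fun x => g x * v x) (SE H E) * ∏ i ∈ E, sg (σ i)
            = av (fun x => g x * v x) * ∑ i, c i * ∑ E ∈ 𝓔, fc (b i) (SE H E) *
              ∏ i ∈ E, sg (σ i) := by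
          simp_rw [mul_sum]
          rw [sum_comm]
          refine sum_congr rfl fun E _ => ?_
          rw [h1 E, mul_sum, sum_mul]
          exact sum_congr rfl fun i _ => by ring
        rw [h2, abs_mul, abs_of_pos hpos]
        refine mul_le_of_le_one_right hpos.le ?_
        refine (abs_sum_le_sum_abs _ _).trans ?_
        calc ∑ i, |c i * ∑ E ∈ 𝓔, fc (b i) (SE H E) * ∏ i ∈ E, sg (σ i)|
            ≤ ∑ _i : Fin (D + 1), (1 : ℝ) / (D + 1) := by
              refine sum_le_sum fun i _ => ?_
              rw [abs_mul]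
              exact (mul_le_of_le_one_left (abs_nonneg _) (hc1 i)).trans (hσ i)
          _ = 1 := by
              rw [sum_const, card_univ, Fintype.card_fin, nsmul_eq_mul]
              push_cast; field_simp
  · exact ⟨fun _ _ => 0, fun i => by simp [hs1], fun h => absurd h hgood⟩

/-- Random signs: the truncated density is almost nonnegative on a finite-dimensional family. -/
theorem signs_prob [Nonempty J] (H : J → Fin k → Fin m) {δ a s1 s2 τ : ℝ} {N L1 L f D : ℕ}
    (hN : 1 ≤ N)
    (hδ : 0 < δ) (ha : 0 < a) (hτ : 0 < τ) (hL : L = L1 + f) (hS1 : Sig H a N 0 L ≤ s1)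
    (hs1 : 0 ≤ s1) (hS2 : Sig H a N L1 L ≤ s2)
    (W : Submodule ℝ ((Fin k → Fin m → Bool) → ℝ)) (hW : Module.finrank ℝ W ≤ D + 1)
    (hbad : ¬ BadH H δ a L1 (box W) f univ (fun _ => 1))
    {b : Fin (D + 1) → (Fin k → Fin m → Bool) → ℝ}
    (hb : ∀ v ∈ box W, ∃ c : Fin (D + 1) → ℝ, (∀ i, |c i| ≤ 1) ∧ v = ∑ i, c i • b i)
    (htail : ∀ i, ¬ ∃ E : Finset J, L1 < E.card ∧ E.card ≤ L ∧
      a ^ nS (SE H E) < fc (b i) (SE H E) ^ 2) :
    av (fun σ : J → Bool => ind (∃ v ∈ box W,
      av (fun x => v x * DL yx (pr H σ) L x) < - (δ * NL J L) - τ)) ≤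
      NL J f * (2 ^ f * ((D + 1) * (s1 * (D + 1) ^ 2) ^ N)
        + (D + 1) * (s2 * (D + 1) ^ 2 / τ ^ 2) ^ N) := by
  classical
  choose w hw1 hw2 using fun (p : Finset J × Finset J) (hp : p.1.card ≤ f) =>
    main_coeff H hδ ha (by omega : L1 ≤ L) hS1 hs1 W hW p.1 p.2 hp
  -- a total version of the coefficients
  let w' : Finset J → Finset J → Fin (D + 1) → Finset J → ℝ := fun F P i E =>
    if h : F.card ≤ f then w (F, P) h i E else 0
  have hD1 : (0 : ℝ) < D + 1 := by positivity
  set 𝓕 := univ.filter (fun F : Finset J => F.card ≤ f) with h𝓕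
  set 𝓔 : Finset J → Finset (Finset J) := fun F =>
    ((Fᶜ).powerset.filter (fun E => E.card ≤ L1)).erase ∅ with h𝓔
  set 𝓣 : Finset J → Finset (Finset J) := fun F =>
    univ.filter (fun E : Finset J => E.card ≤ L ∧ L1 < (E \ F).card) with h𝓣
  have hunion : ∀ σ : J → Bool, ind (∃ v ∈ box W,
      av (fun x => v x * DL yx (pr H σ) L x) < - (δ * NL J L) - τ)
      ≤ ∑ F ∈ 𝓕, (∑ P ∈ F.powerset, ∑ i, ind (1 / (D + 1) <
          |∑ E ∈ 𝓔 F, w' F P i E * ∏ i ∈ E, sg (σ i)|)
        + ∑ i, ind (τ / (D + 1) < |∑ E ∈ 𝓣 F, fc (b i) (SE H E) * ∏ i ∈ E, sg (σ i)|)) := by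
    intro σ
    have hnn1 : ∀ F : Finset J, ∀ P : Finset J, ∀ i : Fin (D + 1), 0 ≤ ind (1 / (D + 1) <
          |∑ E ∈ 𝓔 F, w' F P i E * ∏ i ∈ E, sg (σ i)|) := fun _ _ _ => ind_nonneg _
    have hnn2 : ∀ F : Finset J, ∀ i : Fin (D + 1), 0 ≤ ind (τ / (D + 1) <
          |∑ E ∈ 𝓣 F, fc (b i) (SE H E) * ∏ i ∈ E, sg (σ i)|) := fun _ _ => ind_nonneg _
    have hnn : ∀ F ∈ 𝓕, 0 ≤ (∑ P ∈ F.powerset, ∑ i, ind (1 / (D + 1) <
          |∑ E ∈ 𝓔 F, w' F P i E * ∏ i ∈ E, sg (σ i)|)
        + ∑ i, ind (τ / (D + 1) < |∑ E ∈ 𝓣 F, fc (b i) (SE H E) * ∏ i ∈ E, sg (σ i)|)) :=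
      fun F _ => add_nonneg (sum_nonneg fun P _ => sum_nonneg fun i _ => hnn1 F P i)
        (sum_nonneg fun i _ => hnn2 F i)
    by_cases hv : ∃ v ∈ box W, av (fun x => v x * DL yx (pr H σ) L x) < - (δ * NL J L) - τ
    · rw [ind_true hv]
      obtain ⟨F, -, hFc, hF⟩ := exists_of_not_badH H σ δ a L1 (box W) f univ _ hbad
      have hF𝓕 : F ∈ 𝓕 := mem_filter.mpr ⟨mem_univ _, hFc⟩
      refine le_trans ?_ (single_le_sum hnn hF𝓕)
      set P := F.filter fun i => σ i = true with hP
      have hPF : P ∈ F.powerset := mem_powerset.mpr (filter_subset _ _)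
      by_cases h1 : ∃ i, 1 / (D + 1) < |∑ E ∈ 𝓔 F, w' F P i E * ∏ i ∈ E, sg (σ i)|
      · obtain ⟨i, hi⟩ := h1
        have h2 : (1 : ℝ) ≤ ∑ P ∈ F.powerset, ∑ i, ind (1 / (D + 1) <
            |∑ E ∈ 𝓔 F, w' F P i E * ∏ i ∈ E, sg (σ i)|) := by
          refine le_trans ?_ (single_le_sum (fun P _ => sum_nonneg fun i _ => hnn1 F P i) hPF)
          refine le_trans ?_ (single_le_sum (fun i _ => hnn1 F P i) (mem_univ i))
          rw [ind_true hi]
        linarith [sum_nonneg fun (i : Fin (D + 1)) (_ : i ∈ univ) => hnn2 F i]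
      · by_cases h2 : ∃ i, τ / (D + 1) <
            |∑ E ∈ 𝓣 F, fc (b i) (SE H E) * ∏ i ∈ E, sg (σ i)|
        · obtain ⟨i, hi⟩ := h2
          have h3 : (1 : ℝ) ≤ ∑ i, ind (τ / (D + 1) <
              |∑ E ∈ 𝓣 F, fc (b i) (SE H E) * ∏ i ∈ E, sg (σ i)|) := by
            refine le_trans ?_ (single_le_sum (fun i _ => hnn2 F i) (mem_univ i))
            rw [ind_true hi]
          linarith [sum_nonneg fun (P : Finset J) (_ : P ∈ F.powerset) =>
            sum_nonneg fun (i : Fin (D + 1)) (_ : i ∈ univ) => hnn1 F P i]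
        · exfalso
          push Not at h1 h2
          obtain ⟨v, hvW, hvlt⟩ := hv
          -- the decomposition
          have hZ := Z_eq (y := yx) (pr H σ) L v
          have hsub : univ.filter (fun E : Finset J => (E \ F).card ≤ L1)
              ⊆ univ.filter (fun E : Finset J => E.card ≤ L) := by
            intro E hE
            rw [mem_filter] at hE ⊢
            refine ⟨mem_univ _, ?_⟩
            have h1 : (E \ F).card + (E ∩ F).card = E.card := card_sdiff_add_card_inter E F
            have h2 : (E ∩ F).card ≤ F.card := card_le_card inter_subset_right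
            omega
          have hdiff : univ.filter (fun E : Finset J => E.card ≤ L) \
              univ.filter (fun E : Finset J => (E \ F).card ≤ L1) = 𝓣 F := by
            ext E
            simp only [h𝓣, mem_sdiff, mem_filter, mem_univ, true_and, not_le]
          rw [← Finset.sum_sdiff hsub, hdiff, ← main_eq] at hZ
          -- the tail
          have htailσ : -τ ≤ ∑ E ∈ 𝓣 F, co yx (pr H σ) v E := by
            obtain ⟨c, hc1, hc2⟩ := hb v hvW
            have h3 : ∑ E ∈ 𝓣 F, co yx (pr H σ) v E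
                = ∑ i, c i * ∑ E ∈ 𝓣 F, fc (b i) (SE H E) * ∏ i ∈ E, sg (σ i) := by
              simp_rw [mul_sum]
              rw [sum_comm]
              refine sum_congr rfl fun E _ => ?_
              rw [co_pr]
              have h4 : fc v (SE H E) = ∑ i, c i * fc (b i) (SE H E) := by
                conv_lhs => rw [hc2]
                exact fc_sum univ c b (SE H E)
              rw [h4, mul_sum]
              exact sum_congr rfl fun i _ => by ring
            have h5 : |∑ E ∈ 𝓣 F, co yx (pr H σ) v E| ≤ τ := by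
              rw [h3]
              refine (abs_sum_le_sum_abs _ _).trans ?_
              calc ∑ i, |c i * ∑ E ∈ 𝓣 F, fc (b i) (SE H E) * ∏ i ∈ E, sg (σ i)|
                  ≤ ∑ _i : Fin (D + 1), τ / (D + 1) := by
                    refine sum_le_sum fun i _ => ?_
                    rw [abs_mul]
                    exact (mul_le_of_le_one_left (abs_nonneg _) (hc1 i)).trans (h2 i)
                _ = τ := by
                    rw [sum_const, card_univ, Fintype.card_fin, nsmul_eq_mul]
                    push_cast; field_simp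
            exact (abs_le.mp h5).1
          -- the main part
          have hup : up yx (pr H σ) F v
              = fun x => up yx (pr H (bs P)) F (fun _ => 1) x * v x := by
            rw [hP, up_bs]
            funext x
            unfold up; ring
          have hNL : 0 ≤ NL J L := Nat.cast_nonneg _
          have hgpos : ∀ x, 0 ≤ up yx (pr H σ) F v x :=
            up_nonneg abs_yx _ F fun x => (hvW.2 x).1
          have hmain : -(δ * NL J L) ≤ ∑ E ∈ (Fᶜ).powerset.filter (fun E => E.card ≤ L1),
              co yx (pr H σ) (up yx (pr H σ) F v) E := by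
            by_cases hl : av (up yx (pr H σ) F v) < δ
            · have h3 : |∑ E ∈ (Fᶜ).powerset.filter (fun E => E.card ≤ L1),
                  co yx (pr H σ) (up yx (pr H σ) F v) E| ≤ δ * NL J L := by
                calc |∑ E ∈ (Fᶜ).powerset.filter (fun E => E.card ≤ L1),
                      co yx (pr H σ) (up yx (pr H σ) F v) E|
                    ≤ ∑ E ∈ (Fᶜ).powerset.filter (fun E => E.card ≤ L1),
                      |co yx (pr H σ) (up yx (pr H σ) F v) E| := abs_sum_le_sum_abs _ _
                  _ ≤ ∑ E ∈ (Fᶜ).powerset.filter (fun E => E.card ≤ L1), δ :=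
                      sum_le_sum fun E _ => (abs_co_le abs_yx _ hgpos E).trans hl.le
                  _ ≤ ∑ E ∈ univ.filter (fun E : Finset J => E.card ≤ L), δ := by
                      refine sum_le_sum_of_subset_of_nonneg ?_ fun _ _ _ => hδ.le
                      intro E hE
                      rw [mem_filter] at hE ⊢
                      exact ⟨mem_univ _, by omega⟩
                  _ = δ * NL J L := by
                      rw [sum_const, nsmul_eq_mul, mul_comm]; rfl
              exact (abs_le.mp h3).1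
            · rw [not_lt] at hl
              have hsplit : ∑ E ∈ (Fᶜ).powerset.filter (fun E => E.card ≤ L1),
                    co yx (pr H σ) (up yx (pr H σ) F v) E
                  = av (up yx (pr H σ) F v) + ∑ E ∈ 𝓔 F,
                    co yx (pr H σ) (up yx (pr H σ) F v) E := by
                rw [← Finset.add_sum_erase _ _ (a := (∅ : Finset J)) (by simp), co_empty]
              have h3 : ∑ E ∈ 𝓔 F, co yx (pr H σ) (up yx (pr H σ) F v) E
                  = ∑ E ∈ 𝓔 F, fc (fun x => up yx (pr H (bs P)) F (fun _ => 1) x * v x)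
                    (SE H E) * ∏ i ∈ E, sg (σ i) := by
                refine sum_congr rfl fun E _ => ?_
                rw [co_pr, hup, mul_comm]
              have h4 := hw2 (F, P) hFc (by
                  intro E hE hne hEL
                  rw [hP, up_bs]
                  exact hF E hE hne hEL) v hvW (by rw [← hup]; exact hl) σ (by
                  intro i
                  have h5 := h1 i
                  simp only [w', hFc, dif_pos] at h5
                  exact h5)
              rw [hsplit, h3]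
              simp only at h4
              have h5 := (abs_le.mp h4).1
              have h6 : av (up yx (pr H σ) F v)
                  = av (fun x => up yx (pr H (bs P)) F (fun _ => 1) x * v x) := by rw [hup]
              have h7 : 0 ≤ δ * NL J L := mul_nonneg hδ.le hNL
              rw [h6]
              linarith
          linarith
    · rw [ind_false hv]
      exact sum_nonneg hnn
  refine (av_mono hunion).trans ?_
  rw [av_sum]
  have hF : ∀ F ∈ 𝓕, av (fun σ : J → Bool => (∑ P ∈ F.powerset, ∑ i, ind (1 / (D + 1) <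
          |∑ E ∈ 𝓔 F, w' F P i E * ∏ i ∈ E, sg (σ i)|)
        + ∑ i, ind (τ / (D + 1) < |∑ E ∈ 𝓣 F, fc (b i) (SE H E) * ∏ i ∈ E, sg (σ i)|)))
      ≤ 2 ^ f * ((D + 1) * (s1 * (D + 1) ^ 2) ^ N)
        + (D + 1) * (s2 * (D + 1) ^ 2 / τ ^ 2) ^ N := by
    intro F hF
    rw [h𝓕, mem_filter] at hF
    rw [av_add, av_sum, av_sum]
    refine add_le_add ?_ ?_
    · have h1 : ∀ P ∈ F.powerset, av (fun σ : J → Bool => ∑ i, ind (1 / ((D : ℝ) + 1) <
          |∑ E ∈ 𝓔 F, w' F P i E * ∏ i ∈ E, sg (σ i)|))
          ≤ (D + 1) * (s1 * (D + 1) ^ 2) ^ N := by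
        intro P _
        rw [av_sum]
        have h2 : ∀ i, av (fun σ : J → Bool => ind (1 / ((D : ℝ) + 1) <
            |∑ E ∈ 𝓔 F, w' F P i E * ∏ i ∈ E, sg (σ i)|)) ≤ (s1 * (D + 1) ^ 2) ^ N := by
          intro i
          have h3 := poly_tail' (𝓔 F) (w' F P i) hN (s := 1 / ((D : ℝ) + 1)) (W := s1)
            (by positivity) (by
              simp only [w', hF.2, dif_pos]
              exact hw1 (F, P) hF.2 i)
          refine h3.trans (le_of_eq ?_)
          congr 1
          field_simp
        refine (sum_le_sum fun i _ => h2 i).trans (le_of_eq ?_)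
        rw [sum_const, card_univ, Fintype.card_fin, nsmul_eq_mul]
        push_cast; ring
      refine (sum_le_sum h1).trans ?_
      rw [sum_const, card_powerset, nsmul_eq_mul]
      push_cast
      refine mul_le_mul_of_nonneg_right (pow_le_pow_right₀ (by norm_num) hF.2) (by positivity)
    · have h2 : ∀ i, av (fun σ : J → Bool => ind (τ / ((D : ℝ) + 1) <
          |∑ E ∈ 𝓣 F, fc (b i) (SE H E) * ∏ i ∈ E, sg (σ i)|))
          ≤ (s2 * (D + 1) ^ 2 / τ ^ 2) ^ N := by
        intro i
        have h3 := poly_tail' (𝓣 F) (fun E => fc (b i) (SE H E)) hN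
          (s := τ / ((D : ℝ) + 1)) (W := s2) (by positivity) (by
            refine le_trans ?_ hS2
            unfold Sig
            have hsub : 𝓣 F ⊆ univ.filter (fun E : Finset J => L1 < E.card ∧ E.card ≤ L) := by
              intro E hE
              rw [h𝓣] at hE
              simp only [mem_filter, mem_univ, true_and] at hE ⊢
              have : (E \ F).card ≤ E.card := card_le_card sdiff_subset
              exact ⟨by omega, hE.1⟩
            refine le_trans (sum_le_sum fun E hE => ?_)
              (sum_le_sum_of_subset_of_nonneg hsub fun _ _ _ => by positivity)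
            refine mul_le_mul_of_nonneg_left ?_ (by positivity)
            by_contra hcon
            rw [not_le] at hcon
            have hE' := hsub hE
            rw [mem_filter] at hE'
            exact htail i ⟨E, hE'.2.1, hE'.2.2, hcon⟩)
        refine h3.trans (le_of_eq ?_)
        congr 1
        field_simp
      refine (sum_le_sum fun i _ => h2 i).trans (le_of_eq ?_)
      rw [sum_const, card_univ, Fintype.card_fin, nsmul_eq_mul]
      push_cast; ring
  refine (sum_le_sum hF).trans (le_of_eq ?_)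
  rw [sum_const, nsmul_eq_mul]
  rfl

end sgn

end Pool.Agent.TH661.LPX
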